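import Pool.Agent.K3h81.RB.Fin1

/-!
# The limsup formula
-/

set_option autoImplicit false

namespace Pool.Agent.K3h81.RB

open Filter Topology

noncomputable section

/-- the supremum of the real parts of the zeros of the zeta function -/
def Th : ℝ := sSup {σ : ℝ | ∃ s : ℂ, riemannZeta s = 0 ∧ s.re = σ}

lemma Th_bdd : BddAbove {σ : ℝ | ∃ s : ℂ, riemannZeta s = 0 ∧ s.re = σ} := by
  refine ⟨1, ?_⟩
  rintro σ ⟨s, hs, rfl⟩
  by_contra h
  exact riemannZeta_ne_zero_of_one_le_re (not_le.1 h).le hs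

lemma Th_free : ZFree Th := by
  intro s hs h0
  exact absurd (le_csSup Th_bdd ⟨s, h0, rfl⟩) (not_le.2 hs)

lemma not_free_of_lt {θ : ℝ} (h : θ < Th) : ¬ ZFree θ := by
  intro hf
  obtain ⟨ρ, r0, r1, -⟩ := H332.FL.exists_zero_re_ge_half 0
  have hne : {σ : ℝ | ∃ s : ℂ, riemannZeta s = 0 ∧ s.re = σ}.Nonempty := ⟨_, ρ, r0, rfl⟩
  obtain ⟨σ, ⟨s, h0, rfl⟩, h2⟩ := exists_lt_of_lt_csSup hne h
  exact hf s h2 h0

lemma Th_ge : 1 / 2 ≤ Th := by
  obtain ⟨ρ, r0, r1, -⟩ := H332.FL.exists_zero_re_ge_half 0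
  exact r1.trans (le_csSup Th_bdd ⟨ρ, r0, rfl⟩)

lemma Th_le : Th ≤ 1 := by
  obtain ⟨ρ, r0, r1, -⟩ := H332.FL.exists_zero_re_ge_half 0
  refine csSup_le ⟨_, ρ, r0, rfl⟩ ?_
  rintro σ ⟨s, hs, rfl⟩
  by_contra h
  exact riemannZeta_ne_zero_of_one_le_re (not_le.1 h).le hs

/-- `log log n ≤ 1/5` for `n ≤ 3` -/
lemma loglog_small {n : ℕ} (h1 : 1 ≤ n) (h3 : n ≤ 3) : Real.log (Real.log n) ≤ 1 / 5 := by
  have hn : (1 : ℝ) ≤ n := by exact_mod_cast h1
  have hn3 : (n : ℝ) ≤ 3 := by exact_mod_cast h3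
  rcases le_or_gt (Real.log n) 0 with h | h
  · have h0 : Real.log n = 0 := le_antisymm h (Real.log_nonneg hn)
    rw [h0, Real.log_zero]
    norm_num
  · have h2 := Real.log_le_sub_one_of_pos h
    have h4 : Real.log n ≤ Real.log 3 := Real.log_le_log (by linarith) hn3
    have h5 : Real.log 3 ≤ 1.2 := by
      have := Real.exp_one_gt_d9
      have e1 : Real.exp 1.2 = Real.exp 1 * Real.exp 0.2 := by rw [← Real.exp_add]; norm_num
      rw [Real.log_le_iff_le_exp (by norm_num), e1]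
      have := Real.add_one_le_exp (0.2 : ℝ)
      have h6 : (0.2 : ℝ) + 1 = 1.2 := by norm_num
      nlinarith
    linarith

lemma Es_small {n : ℕ} (h1 : 1 ≤ n) (h3 : n ≤ 3) : Es n := by
  unfold Es
  have h2 := loglog_small h1 h3
  have hg : Real.exp Real.eulerMascheroniConstant ≤ 2 := by
    have h4 := Real.eulerMascheroniConstant_lt_two_thirds
    have h5 : Real.exp Real.eulerMascheroniConstant ≤ Real.exp (2 / 3) := Real.exp_le_exp.2 h4.le
    have h6 : Real.exp (2 / 3) ≤ 2 := by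
      have := Real.exp_one_lt_d9
      have e1 : Real.exp (2 / 3) ^ 3 = Real.exp 1 ^ 2 := by
        rw [← Real.exp_nat_mul, ← Real.exp_nat_mul]; norm_num
      by_contra hcon
      push Not at hcon
      have h8 : (2 : ℝ) ^ 3 < Real.exp (2 / 3) ^ 3 := pow_lt_pow_left₀ hcon (by norm_num) (by norm_num)
      rw [e1] at h8
      have : 0 < Real.exp 1 := Real.exp_pos _
      nlinarith
    linarith
  have hn : (1 : ℝ) ≤ n := by exact_mod_cast h1
  have hs : (n : ℝ) ≤ (ArithmeticFunction.sigma 1 n : ℕ) := by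
    have : n ≤ ArithmeticFunction.sigma 1 n := by
      rw [ArithmeticFunction.sigma_one_apply]
      exact Finset.single_le_sum (f := fun d => d) (fun _ _ => Nat.zero_le _)
        (Nat.mem_divisors_self n (by omega))
    exact_mod_cast this
  have hpos : 0 < Real.exp Real.eulerMascheroniConstant := Real.exp_pos _
  calc Real.exp Real.eulerMascheroniConstant * n * Real.log (Real.log n)
      ≤ Real.exp Real.eulerMascheroniConstant * n * (1 / 5) :=
        mul_le_mul_of_nonneg_left h2 (by positivity)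
    _ ≤ 2 * n * (1 / 5) := by gcongr
    _ ≤ n := by linarith
    _ ≤ _ := hs

lemma three_le_cE {x : ℝ} (hx : 3 ≤ x) : 3 ≤ cE Es x := by
  classical
  unfold cE
  have h : Finset.Icc 1 3 ⊆ (Finset.Icc 1 ⌊x⌋₊).filter Es := by
    intro n hn
    rw [Finset.mem_Icc] at hn
    rw [Finset.mem_filter, Finset.mem_Icc]
    have : 3 ≤ ⌊x⌋₊ := Nat.le_floor (by exact_mod_cast hx)
    exact ⟨⟨hn.1, hn.2.trans this⟩, Es_small hn.1 hn.2⟩
  have h2 := Finset.card_le_card h
  rw [Nat.card_Icc] at h2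
  convert h2 using 2

lemma cE_le_self {P : ℕ → Prop} {x : ℝ} (hx : 0 ≤ x) : (cE P x : ℝ) ≤ x := by
  classical
  unfold cE
  have h := Finset.card_filter_le (Finset.Icc 1 ⌊x⌋₊) P
  rw [Nat.card_Icc, Nat.add_sub_cancel] at h
  calc _ ≤ ((⌊x⌋₊ : ℕ) : ℝ) := by
        exact_mod_cast (by convert h using 2)
    _ ≤ x := Nat.floor_le hx

/-- from bounds to the upper limit -/
theorem limsup_of {P : ℕ → Prop} {κ : ℝ} (hP : ∀ x : ℝ, 3 ≤ x → 3 ≤ cE P x)
    (hup : ∀ ε : ℝ, 0 < ε → ∀ᶠ x : ℝ in atTop, (cE P x : ℝ) ≤ Real.exp (Real.log x ^ (κ + ε)))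
    (hlow : ∀ ε : ℝ, 0 < ε → ∃ᶠ x : ℝ in atTop, Real.exp (Real.log x ^ (κ - ε)) ≤ cE P x) :
    limsup (fun x : ℝ => Real.log (Real.log (cE P x)) / Real.log (Real.log x)) atTop = κ := by
  have hll : ∀ᶠ x : ℝ in atTop, 3 ≤ x ∧ 1 ≤ Real.log x ∧ 1 ≤ Real.log (Real.log x) := by
    filter_upwards [eventually_ge_atTop 3, Real.tendsto_log_atTop.eventually_ge_atTop 1,
      (Real.tendsto_log_atTop.comp Real.tendsto_log_atTop).eventually_ge_atTop 1] with x h1 h2 h3
    exact ⟨h1, h2, h3⟩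
  have h3l : 1 < Real.log 3 := by
    rw [Real.lt_log_iff_exp_lt (by norm_num)]
    linarith [Real.exp_one_lt_d9]
  have hN : ∀ x : ℝ, 3 ≤ x → 1 < Real.log (cE P x) := by
    intro x hx
    refine h3l.trans_le (Real.log_le_log (by norm_num) ?_)
    exact_mod_cast hP x hx
  have hup' : ∀ ε : ℝ, 0 < ε → ∀ᶠ x : ℝ in atTop,
      Real.log (Real.log (cE P x)) / Real.log (Real.log x) ≤ κ + ε := by
    intro ε hε
    filter_upwards [hup ε hε, hll] with x hx ⟨h1, h2, h3⟩
    have hN1 := hN x h1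
    have hNp : (0 : ℝ) < cE P x := by
      have := hP x h1
      exact_mod_cast (by omega : 0 < cE P x)
    rw [div_le_iff₀ (by linarith)]
    have h4 : Real.log (cE P x) ≤ Real.log x ^ (κ + ε) := by
      have := Real.log_le_log hNp hx
      rwa [Real.log_exp] at this
    have h5 := Real.log_le_log (by linarith) h4
    rwa [Real.log_rpow (by linarith)] at h5
  have hlow' : ∀ ε : ℝ, 0 < ε → ∃ᶠ x : ℝ in atTop,
      κ - ε ≤ Real.log (Real.log (cE P x)) / Real.log (Real.log x) := by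
    intro ε hε
    refine ((hlow ε hε).and_eventually hll).mono ?_
    rintro x ⟨hx, h1, h2, h3⟩
    have hN1 := hN x h1
    rw [le_div_iff₀ (by linarith)]
    have h4 : Real.log x ^ (κ - ε) ≤ Real.log (cE P x) := by
      have := Real.log_le_log (Real.exp_pos _) hx
      rwa [Real.log_exp] at this
    have h5 := Real.log_le_log (by positivity) h4
    rwa [Real.log_rpow (by linarith)] at h5
  have hbb : IsBoundedUnder (· ≤ ·) atTop
      (fun x : ℝ => Real.log (Real.log (cE P x)) / Real.log (Real.log x)) :=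
    ⟨κ + 1, hup' 1 one_pos⟩
  have hcb : IsCoboundedUnder (· ≤ ·) atTop
      (fun x : ℝ => Real.log (Real.log (cE P x)) / Real.log (Real.log x)) := by
    refine IsCoboundedUnder.of_frequently_ge (a := κ - 1) (hlow' 1 one_pos)
  apply le_antisymm
  · refine le_of_forall_pos_le_add fun ε hε => ?_
    exact limsup_le_of_le hcb (hup' ε hε)
  · refine le_of_forall_pos_le_add fun ε hε => ?_
    have := le_limsup_of_frequently_le (hlow' ε hε) hbb
    linarith

/-- the upper bound at the supremum -/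
lemma up_Th {P : ℕ → Prop} (hP : ∀ x, cE P x ≤ cE Ef x) (ε : ℝ) (hε : 0 < ε) :
    ∀ᶠ x : ℝ in atTop, (cE P x : ℝ) ≤ Real.exp (Real.log x ^ ((1 + Th) / 2 + ε)) := by
  rcases eq_or_lt_of_le Th_le with h | h
  · filter_upwards [eventually_ge_atTop (Real.exp 1)] with x hx
    have hx0 : 0 < x := (Real.exp_pos 1).trans_le hx
    have hl : 1 ≤ Real.log x := by rwa [Real.le_log_iff_exp_le hx0]
    refine (cE_le_self hx0.le).trans ?_
    calc x = Real.exp (Real.log x ^ (1 : ℝ)) := by rw [Real.rpow_one, Real.exp_log hx0]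
      _ ≤ _ := by
        apply Real.exp_le_exp.2
        refine Real.rpow_le_rpow_of_exponent_le hl ?_
        rw [h]
        linarith
  · filter_upwards [cnt_of_free Th_ge h Th_free ε hε] with x hx
    exact le_trans (by exact_mod_cast hP x) hx

/-- the lower bound below the supremum -/
lemma low_Th (h : 1 / 2 < Th) (ε : ℝ) (hε : 0 < ε) :
    ∃ᶠ x : ℝ in atTop, Real.exp (Real.log x ^ ((1 + Th) / 2 - ε)) ≤ cE Es x := by
  set θ : ℝ := max (1 / 2) (Th - ε) with hθ
  have h1 : 1 / 2 ≤ θ := le_max_left _ _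
  have h2 : θ < Th := max_lt h (by linarith)
  have h3 : Th - ε ≤ θ := le_max_right _ _
  obtain ⟨η, hη, h4⟩ := not_free h1 (h2.trans_le Th_le) (not_free_of_lt h2)
  refine (h4.and_eventually (eventually_ge_atTop (Real.exp 1))).mono ?_
  rintro x ⟨hx1, hx⟩
  have hx0 : 0 < x := (Real.exp_pos 1).trans_le hx
  have hl : 1 ≤ Real.log x := by rwa [Real.le_log_iff_exp_le hx0]
  refine le_trans (Real.exp_le_exp.2 ?_) hx1.le
  exact Real.rpow_le_rpow_of_exponent_le hl (by linarith)

/-- **Robin's inequality**: if there is a zero off the critical line, the upper limit is `(1+Θ)/2` -/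
theorem limsup_s (h : 1 / 2 < Th) :
    limsup (fun x : ℝ => Real.log (Real.log (cE Es x)) / Real.log (Real.log x)) atTop = (1 + Th) / 2 :=
  limsup_of (fun _ hx => three_le_cE hx) (up_Th cE_le) (low_Th h)

/-- **The totient function**: the upper limit is `(1+Θ)/2` -/
theorem limsup_f :
    limsup (fun x : ℝ => Real.log (Real.log (cE Ef x)) / Real.log (Real.log x)) atTop = (1 + Th) / 2 := by
  refine limsup_of (fun x hx => (three_le_cE hx).trans (cE_le x)) (up_Th (fun _ => le_rfl)) ?_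
  rcases eq_or_lt_of_le Th_ge with h | h
  · intro ε hε
    rw [← h]
    have := three_quarters ε hε
    norm_num at this ⊢
    exact this
  · intro ε hε
    exact (low_Th h ε hε).mono fun x hx => hx.trans (by exact_mod_cast cE_le x)

end

end Pool.Agent.K3h81.RB
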