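import Pool.Agent.K3h81.RB.Pnt2

/-!
# The prime number theorem with the classical error term: conclusion
-/

set_option autoImplicit false

namespace Pool.Agent.K3h81.RB

open Filter Topology MeasureTheory

noncomputable section

lemma summ_exp_sqrt {a : ℝ} (ha : 0 < a) : Summable fun k : ℕ => Real.exp (-(a * √(k : ℝ))) := by
  have h0 : Summable fun k : ℕ => 1 / ((k + 1 : ℕ) : ℝ) ^ 2 :=
    (summable_nat_add_iff 1).2 (Real.summable_one_div_nat_pow.2 (by norm_num))
  obtain ⟨B, hB, hb⟩ := sqrt_exp_bound a ha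
  obtain ⟨B2, hB2, hb2⟩ := sqrt_exp_bound (a / 2) (by positivity)
  obtain ⟨B3, hB3, hb3⟩ := sqrt_exp_bound (a / 2 / 2) (by positivity)
  -- `e^{-a√k} ≤ B'/(1+k)²`
  have key : ∀ u : ℝ, 0 ≤ u → (1 + u) ^ 2 * Real.exp (-(a * √u)) ≤ B * B2 := by
    intro u hu
    have h1 := hb u hu
    have h2 := hb2 u hu
    have h3 : Real.exp (-(a / 2 / 2 * √u)) ≤ 1 := by
      rw [Real.exp_le_one_iff]
      have : 0 ≤ a / 2 / 2 * √u := by positivity
      linarith
    calc (1 + u) ^ 2 * Real.exp (-(a * √u)) = (1 + u) * ((1 + u) * Real.exp (-(a * √u))) := by ring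
      _ ≤ (1 + u) * (B * Real.exp (-(a / 2 * √u))) := by gcongr
      _ = B * ((1 + u) * Real.exp (-(a / 2 * √u))) := by ring
      _ ≤ B * (B2 * Real.exp (-(a / 2 / 2 * √u))) := by gcongr
      _ ≤ B * (B2 * 1) := by gcongr
      _ = _ := by ring
  refine Summable.of_nonneg_of_le (fun k => (Real.exp_pos _).le) (fun k => ?_) (h0.mul_left (B * B2))
  have h1 := key k (Nat.cast_nonneg k)
  rw [mul_one_div, le_div_iff₀ (by positivity)]
  push_cast
  calc Real.exp (-(a * √(k : ℝ))) * ((k : ℝ) + 1) ^ 2 = (1 + (k : ℝ)) ^ 2 * Real.exp (-(a * √(k : ℝ))) := by ring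
    _ ≤ _ := h1

lemma tele {F : ℝ → ℝ} {c C : ℝ} (hc : 0 < c) (hC : 0 < C)
    (h : ∀ u, 1 ≤ u → |F (u + 1) - F u| ≤ C * Real.exp (-(c * √u)))
    (h0 : ∀ u, 1 ≤ u → Tendsto (fun K : ℕ => F (u + K)) atTop (𝓝 0)) :
    ∃ B : ℝ, 0 < B ∧ ∀ u, 1 ≤ u → |F u| ≤ B * Real.exp (-(c / 2 * √u)) := by
  have hs := summ_exp_sqrt (half_pos hc)
  set S := ∑' k : ℕ, Real.exp (-(c / 2 * √(k : ℝ))) with hS
  have hS0 : 0 ≤ S := tsum_nonneg fun _ => (Real.exp_pos _).le
  refine ⟨C * S + 1, by positivity, fun u hu => ?_⟩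
  have hfin : ∀ K : ℕ, |F u| ≤ |F (u + K)| + C * S * Real.exp (-(c / 2 * √u)) := by
    intro K
    have h1 : |F (u + K) - F u| ≤ ∑ k ∈ Finset.range K, C * (Real.exp (-(c / 2 * √u)) * Real.exp (-(c / 2 * √(k : ℝ)))) := by
      induction K with
      | zero => simp
      | succ K ih =>
        rw [Finset.sum_range_succ]
        have e : F (u + (K + 1 : ℕ)) - F u = (F (u + K + 1) - F (u + K)) + (F (u + K) - F u) := by
          push_cast
          rw [add_assoc]
          ring
        rw [e]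
        refine (abs_add_le _ _).trans ?_
        have hK0 : (0 : ℝ) ≤ K := Nat.cast_nonneg K
        have h2 := h (u + K) (by linarith)
        have h3 : Real.exp (-(c * √(u + K))) ≤ Real.exp (-(c / 2 * √u)) * Real.exp (-(c / 2 * √(K : ℝ))) := by
          rw [← Real.exp_add]
          apply Real.exp_le_exp.2
          have h4 : √u ≤ √(u + K) := Real.sqrt_le_sqrt (by linarith)
          have h5 : √(K : ℝ) ≤ √(u + K) := Real.sqrt_le_sqrt (by linarith)
          nlinarith
        have h4 := mul_le_mul_of_nonneg_left h3 hC.le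
        linarith
    have h2 : ∑ k ∈ Finset.range K, C * (Real.exp (-(c / 2 * √u)) * Real.exp (-(c / 2 * √(k : ℝ)))) ≤
        C * S * Real.exp (-(c / 2 * √u)) := by
      rw [← Finset.mul_sum, ← Finset.mul_sum]
      have h3 : ∑ k ∈ Finset.range K, Real.exp (-(c / 2 * √(k : ℝ))) ≤ S :=
        hs.sum_le_tsum _ fun _ _ => (Real.exp_pos _).le
      calc _ ≤ C * (Real.exp (-(c / 2 * √u)) * S) := by gcongr
        _ = _ := by ring
    have h3 : |F u| ≤ |F (u + K)| + |F (u + K) - F u| := by
      have : F u = F (u + K) - (F (u + K) - F u) := by ring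
      calc |F u| = |F (u + K) - (F (u + K) - F u)| := by rw [← this]
        _ ≤ _ := abs_sub _ _
    linarith
  have hlim : Tendsto (fun K : ℕ => |F (u + K)| + C * S * Real.exp (-(c / 2 * √u))) atTop
      (𝓝 (|0| + C * S * Real.exp (-(c / 2 * √u)))) := ((h0 u hu).abs).add_const _
  have h1 := ge_of_tendsto' hlim hfin
  rw [abs_zero, zero_add] at h1
  refine h1.trans ?_
  gcongr
  linarith

lemma mm_intOn {u : ℝ} (hu : 1 ≤ u) : IntegrableOn mm (Set.Ioi u) := by
  obtain ⟨C, hC, h1, -⟩ := mm_bound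
  have h := integrableOn_Ioi_rpow_of_lt (show (-2 : ℝ) < -1 by norm_num) (show 0 < u by linarith)
  have hmeas : AEStronglyMeasurable mm (volume.restrict (Set.Ioi u)) := by
    have hm : Measurable (fun v => Mv v - v - c0') := (Mv_mono.measurable.sub measurable_id).sub_const _
    refine hm.aestronglyMeasurable.congr ?_
    filter_upwards [ae_restrict_mem measurableSet_Ioi] with v hv
    have hv1 : u < v := hv
    have := Mv_id (v := v) (by linarith)
    linarith
  refine Integrable.mono' (h.const_mul C) hmeas ?_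
  filter_upwards [ae_restrict_mem measurableSet_Ioi] with v hv
  have hv1 : u < v := hv
  have hv0 : 0 < v := by linarith
  have := h1 v (by linarith)
  rw [Real.norm_eq_abs]
  refine this.trans (le_of_eq ?_)
  rw [Real.rpow_neg hv0.le, div_eq_mul_inv]
  norm_cast

/-- `∫_u^∞ mm` -/
def Yu (u : ℝ) : ℝ := ∫ v in Set.Ioi u, mm v

lemma Yu_sub {u w : ℝ} (hu : 1 ≤ u) (huw : u ≤ w) : Yu u - Yu w = ∫ v in u..w, mm v := by
  unfold Yu
  rw [intervalIntegral.integral_of_le huw, ← Set.Ioc_union_Ioi_eq_Ioi huw,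
    setIntegral_union (Set.Ioc_disjoint_Ioi le_rfl) measurableSet_Ioi
    ((mm_intOn hu).mono_set Set.Ioc_subset_Ioi_self) (mm_intOn (hu.trans huw))]
  ring

lemma int_Mv {u w : ℝ} (hu : 1 ≤ u) (huw : u ≤ w) :
    ∫ v in u..w, Mv v = (w ^ 2 - u ^ 2) / 2 + c0' * (w - u) + (Yu u - Yu w) := by
  rw [Yu_sub hu huw]
  have e : ∫ v in u..w, Mv v = ∫ v in u..w, (v + c0' + mm v) := by
    refine intervalIntegral.integral_congr fun v hv => ?_
    rw [Set.uIcc_of_le huw] at hv
    exact Mv_id (by linarith [hv.1])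
  rw [e, intervalIntegral.integral_add (by simp) (mm_meas_int (by linarith) huw),
    intervalIntegral.integral_add (by simp) (by simp)]
  simp only [integral_id, intervalIntegral.integral_const, smul_eq_mul]
  ring

lemma Yu_tendsto {u : ℝ} (hu : 1 ≤ u) : Tendsto (fun K : ℕ => Yu (u + K)) atTop (𝓝 0) := by
  have h1 : Tendsto (fun K : ℕ => u + (K : ℝ)) atTop atTop :=
    tendsto_atTop_add_const_left _ _ tendsto_natCast_atTop_atTop
  have h2 := intervalIntegral_tendsto_integral_Ioi u (mm_intOn hu) h1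
  have h3 : Tendsto (fun K : ℕ => Yu u - ∫ v in u..(u + K), mm v) atTop (𝓝 (Yu u - Yu u)) :=
    tendsto_const_nhds.sub h2
  rw [sub_self] at h3
  refine h3.congr fun K => ?_
  rw [← Yu_sub hu (by have := Nat.cast_nonneg (α := ℝ) K; linarith)]
  ring

theorem Yu_decay : ∃ c B : ℝ, 0 < c ∧ 0 < B ∧ ∀ u, 1 ≤ u → |Yu u| ≤ B * Real.exp (-(c * √u)) := by
  obtain ⟨c, C, hc, hC, h⟩ := M_diff
  -- first differences of `Yu`
  obtain ⟨B1, hB1, h1⟩ := tele (F := fun u => Yu u - Yu (u + 1)) hc hC (fun u hu => by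
    have h2 := h (u + 1) (by linarith)
    have e : u + 1 - 1 = u := by ring
    rw [e, int_Mv (u := u + 1) (w := u + 1 + 1) (by linarith) (by linarith),
      int_Mv (u := u) (w := u + 1) hu (by linarith)] at h2
    have e2 : (((u + 1 + 1) ^ 2 - (u + 1) ^ 2) / 2 + c0' * (u + 1 + 1 - (u + 1)) + (Yu (u + 1) - Yu (u + 1 + 1))) -
        (((u + 1) ^ 2 - u ^ 2) / 2 + c0' * (u + 1 - u) + (Yu u - Yu (u + 1))) - 1 =
        (Yu (u + 1) - Yu (u + 1 + 1)) - (Yu u - Yu (u + 1)) := by ring
    rw [e2] at h2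
    refine h2.trans ?_
    have h3 : √u ≤ √(u + 1) := Real.sqrt_le_sqrt (by linarith)
    have h4 : Real.exp (-(c * √(u + 1))) ≤ Real.exp (-(c * √u)) := by
      apply Real.exp_le_exp.2
      nlinarith
    exact mul_le_mul_of_nonneg_left h4 hC.le) (fun u hu => by
      have h2 := (Yu_tendsto hu).sub (Yu_tendsto (u := u + 1) (by linarith))
      rw [sub_zero] at h2
      refine h2.congr fun K => ?_
      have : u + 1 + (K : ℝ) = u + K + 1 := by ring
      rw [this])
  obtain ⟨B2, hB2, h2⟩ := tele (F := Yu) (half_pos hc) hB1 (fun u hu => by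
    rw [abs_sub_comm]
    exact h1 u hu) (fun u hu => Yu_tendsto hu)
  exact ⟨c / 2 / 2, B2, by positivity, hB2, h2⟩

theorem mm_decay : ∃ c B : ℝ, 0 < c ∧ c ≤ 1 ∧ 0 < B ∧ ∀ u, 0 ≤ u → |mm u| ≤ B * Real.exp (-(c * √u)) := by
  obtain ⟨c0, B, hc0, hB, h0⟩ := Yu_decay
  -- we may take `c ≤ 4`
  obtain ⟨c, hc, hc4, h⟩ : ∃ c, 0 < c ∧ c ≤ 4 ∧ ∀ u, 1 ≤ u → |Yu u| ≤ B * Real.exp (-(c * √u)) := by
    refine ⟨min c0 4, by positivity, min_le_right _ _, fun u hu => (h0 u hu).trans ?_⟩
    have : min c0 4 ≤ c0 := min_le_left _ _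
    gcongr
  obtain ⟨C, hC, -, hCb⟩ := mm_bound
  refine ⟨c / 4, (1 / 2 + 2 * B) + C * Real.exp (c / 4 * 2), by positivity, by linarith, by positivity,
    fun u hu => ?_⟩
  have hEpos : 0 < Real.exp (-(c / 4 * √u)) := Real.exp_pos _
  rcases lt_or_ge u 2 with hu2 | hu2
  · have h1 := hCb u hu
    have h2 : √u ≤ 2 := by
      rw [Real.sqrt_le_left (by norm_num)]
      linarith
    have h3 : 1 ≤ Real.exp (c / 4 * 2) * Real.exp (-(c / 4 * √u)) := by
      rw [← Real.exp_add]
      apply Real.one_le_exp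
      nlinarith
    calc |mm u| ≤ C := h1
      _ ≤ C * (Real.exp (c / 4 * 2) * Real.exp (-(c / 4 * √u))) := le_mul_of_one_le_right hC.le h3
      _ ≤ _ := by nlinarith [mul_pos hB hEpos]
  · set q := Real.exp (-(c / 4 * √u)) with hq
    have hq1 : q ≤ 1 := by
      rw [hq, Real.exp_le_one_iff]
      have : 0 ≤ c / 4 * √u := by positivity
      linarith
    -- the bound for `Yu` on `[u - 1, ∞)`
    have hY : ∀ w, u - 1 ≤ w → |Yu w| ≤ B * q ^ 2 := by
      intro w hw
      refine (h w (by linarith)).trans ?_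
      have h2 : √u / 2 ≤ √w := by
        rw [show √u / 2 = √(u / 4) by
          rw [Real.sqrt_div hu, show (4 : ℝ) = 2 ^ 2 by norm_num, Real.sqrt_sq (by norm_num)]]
        exact Real.sqrt_le_sqrt (by linarith)
      have h3 : Real.exp (-(c * √w)) ≤ q ^ 2 := by
        rw [hq, ← Real.exp_nat_mul]
        apply Real.exp_le_exp.2
        push_cast
        nlinarith
      gcongr
    have hid := Mv_id (v := u) hu
    have hup : mm u ≤ q / 2 + 2 * B * q := by
      have h1 : q * Mv u ≤ ∫ v in u..(u + q), Mv v := by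
        have h2 : ∫ _v in u..(u + q), Mv u = q * Mv u := by
          simp
        rw [← h2]
        refine intervalIntegral.integral_mono_on (by linarith) (by simp) (Mv_mono.intervalIntegrable) fun v hv => ?_
        exact Mv_mono hv.1
      rw [int_Mv (by linarith) (by linarith), hid] at h1
      have h3 := hY u (by linarith)
      have h4 := hY (u + q) (by linarith)
      have h5 : Yu u - Yu (u + q) ≤ 2 * (B * q ^ 2) := by
        have := abs_le.1 h3
        have := abs_le.1 h4
        linarith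
      have h6 : q * mm u ≤ q * (q / 2 + 2 * B * q) := by nlinarith
      exact le_of_mul_le_mul_left h6 hEpos
    have hlo : -(q / 2 + 2 * B * q) ≤ mm u := by
      have h1 : ∫ v in (u - q)..u, Mv v ≤ q * Mv u := by
        have h2 : ∫ _v in (u - q)..u, Mv u = q * Mv u := by
          simp
        rw [← h2]
        refine intervalIntegral.integral_mono_on (by linarith) (Mv_mono.intervalIntegrable) (by simp) fun v hv => ?_
        exact Mv_mono hv.2
      rw [int_Mv (by linarith) (by linarith), hid] at h1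
      have h3 := hY u (by linarith)
      have h4 := hY (u - q) (by linarith)
      have h5 : -(2 * (B * q ^ 2)) ≤ Yu (u - q) - Yu u := by
        have := abs_le.1 h3
        have := abs_le.1 h4
        linarith
      have h6 : q * (-(q / 2 + 2 * B * q)) ≤ q * mm u := by nlinarith
      exact le_of_mul_le_mul_left h6 hEpos
    have h7 : |mm u| ≤ q / 2 + 2 * B * q := abs_le.2 ⟨hlo, hup⟩
    refine h7.trans ?_
    have : 0 ≤ C * Real.exp (c / 4 * 2) * q := by positivity
    nlinarith

/-- `ψ(x)` from the logarithmic mean -/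
lemma psi_from_M {x : ℝ} (hx : 1 ≤ x) : Chebyshev.psi x - x = x * mm (Real.log x) + (c0' - 1) -
    ∫ t in Set.Ioc 1 x, mm (Real.log t) := by
  have hint : IntegrableOn (deriv fun t : ℝ => t) (Set.Icc 1 x) := by
    simp
  have h := sum_mul_eq_sub_sub_integral_mul (fun k : ℕ => ArithmeticFunction.vonMangoldt k / k)
    zero_le_one hx (f := fun t : ℝ => t) (fun t _ => differentiableAt_id) hint
  have hfl : ⌊(1 : ℝ)⌋₊ = 1 := Nat.floor_one
  have hM : ∀ t : ℝ, 1 ≤ t → ∑ k ∈ Finset.Icc 0 ⌊t⌋₊, ArithmeticFunction.vonMangoldt k / (k : ℝ) = Mv (Real.log t) := by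
    intro t ht
    unfold Mv
    rw [Real.exp_log (by linarith)]
    have h1 : 0 ≤ ⌊t⌋₊ := Nat.zero_le _
    rw [← Finset.insert_Icc_add_one_left_eq_Icc h1, Finset.sum_insert (by simp)]
    simp
  have hz : Mv (Real.log 1) = 0 := by
    unfold Mv
    rw [Real.log_one, Real.exp_zero, hfl]
    simp
  rw [hM x hx, hM 1 le_rfl, hz] at h
  have hL : ∑ k ∈ Finset.Ioc ⌊(1 : ℝ)⌋₊ ⌊x⌋₊, (k : ℝ) * (ArithmeticFunction.vonMangoldt k / k) = Chebyshev.psi x := by
    have h1 : 1 ≤ ⌊x⌋₊ := Nat.le_floor (by exact_mod_cast hx)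
    rw [hfl]
    have h2 : Chebyshev.psi x = ∑ k ∈ Finset.Icc 1 ⌊x⌋₊, ArithmeticFunction.vonMangoldt k := by
      unfold Chebyshev.psi
      rfl
    rw [h2, ← Finset.Ioc_insert_left h1, Finset.sum_insert (by simp)]
    simp only [ArithmeticFunction.vonMangoldt_apply_one, zero_add]
    refine Finset.sum_congr rfl fun k hk => ?_
    rw [Finset.mem_Ioc] at hk
    have : (k : ℝ) ≠ 0 := by
      have : k ≠ 0 := by omega
      exact_mod_cast this
    field_simp
  rw [hL] at h
  have hI : ∫ t in Set.Ioc 1 x, deriv (fun t : ℝ => t) t * ∑ k ∈ Finset.Icc 0 ⌊t⌋₊, ArithmeticFunction.vonMangoldt k / (k : ℝ) =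
      (x * Real.log x - x + 1) + c0' * (x - 1) + ∫ t in Set.Ioc 1 x, mm (Real.log t) := by
    have e1 : ∫ t in Set.Ioc 1 x, deriv (fun t : ℝ => t) t * ∑ k ∈ Finset.Icc 0 ⌊t⌋₊, ArithmeticFunction.vonMangoldt k / (k : ℝ) =
        ∫ t in Set.Ioc 1 x, (Real.log t + c0' + mm (Real.log t)) := by
      refine setIntegral_congr_fun measurableSet_Ioc fun t ht => ?_
      show deriv (fun t : ℝ => t) t * ∑ k ∈ Finset.Icc 0 ⌊t⌋₊, ArithmeticFunction.vonMangoldt k / (k : ℝ) =
        Real.log t + c0' + mm (Real.log t)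
      rw [hM t ht.1.le, Mv_id (Real.log_nonneg ht.1.le)]
      simp
    have hlogint : IntegrableOn Real.log (Set.Ioc 1 x) := by
      rw [← intervalIntegrable_iff_integrableOn_Ioc_of_le hx]
      exact intervalIntegral.intervalIntegrable_log'
    have hMint : IntegrableOn (fun t => Mv (Real.log t)) (Set.Ioc 1 x) := by
      have hmono : MonotoneOn (fun t => Mv (Real.log t)) (Set.Icc 1 x) := fun a ha b _ hab =>
        Mv_mono (Real.log_le_log (by linarith [ha.1]) hab)
      have := hmono.integrableOn_isCompact (μ := volume) isCompact_Icc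
      exact this.mono_set Set.Ioc_subset_Icc_self
    have hmmint : IntegrableOn (fun t => mm (Real.log t)) (Set.Ioc 1 x) := by
      refine IntegrableOn.congr_fun (f := fun t => Mv (Real.log t) - Real.log t - c0')
        ((hMint.sub hlogint).sub (by simp)) (fun t ht => ?_) measurableSet_Ioc
      have := Mv_id (v := Real.log t) (Real.log_nonneg ht.1.le)
      show Mv (Real.log t) - Real.log t - c0' = mm (Real.log t)
      linarith
    have hcint : IntegrableOn (fun _ : ℝ => c0') (Set.Ioc 1 x) := by simp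
    have hlc : IntegrableOn (fun t : ℝ => Real.log t + c0') (Set.Ioc 1 x) := hlogint.add hcint
    rw [e1, integral_add hlc hmmint, integral_add hlogint hcint]
    have e2 : ∫ t in Set.Ioc 1 x, Real.log t = x * Real.log x - x + 1 := by
      rw [← intervalIntegral.integral_of_le hx, integral_log]
      simp
    rw [e2]
    simp [hx]
    ring
  rw [hI, Mv_id (Real.log_nonneg hx)] at h
  rw [h]
  ring

theorem psi_classical : ∃ c C : ℝ, 0 < c ∧ 0 < C ∧ ∀ x : ℝ, Real.exp 1 ≤ x →
    |Rr x| ≤ C * (x * Real.exp (-(c * √(Real.log x)))) := by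
  obtain ⟨c, B, hc, hc1, hB, h⟩ := mm_decay
  obtain ⟨C1, h1⟩ := Chebyshev.psi_sub_theta_le_mul_sqrt
  refine ⟨c / 2, B + |c0' - 1| + B * 2 + |C1|, by positivity, by positivity, fun x hx => ?_⟩
  have hx1 : 1 ≤ x := (Real.one_le_exp (by norm_num)).trans hx
  have hx0 : 0 < x := by linarith
  set ℓ := Real.log x with hℓ
  have hℓ1 : 1 ≤ ℓ := by rwa [hℓ, Real.le_log_iff_exp_le hx0]
  have hs1 : 1 ≤ √ℓ := by rwa [Real.one_le_sqrt]
  have hss : √ℓ * √ℓ = ℓ := Real.mul_self_sqrt (by linarith)
  set E := Real.exp (-(c / 2 * √ℓ)) with hE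
  have hE0 : 0 < E := Real.exp_pos _
  -- `√x ≤ x E`
  have hsx : √x ≤ x * E := by
    have e1 : √x = Real.exp (ℓ / 2) := by
      rw [Real.sqrt_eq_rpow, Real.rpow_def_of_pos hx0]
      congr 1
      ring
    have e2 : x = Real.exp ℓ := (Real.exp_log hx0).symm
    rw [e1, hE]
    nth_rewrite 1 [e2]
    rw [← Real.exp_add]
    apply Real.exp_le_exp.2
    nlinarith
  have hone : 1 ≤ x * E := by
    have : 1 ≤ √x := by rwa [Real.one_le_sqrt]
    linarith
  have hmain : x * |mm ℓ| ≤ B * (x * E) := by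
    have h2 := h ℓ (by linarith)
    have h3 : Real.exp (-(c * √ℓ)) ≤ E := by
      apply Real.exp_le_exp.2
      nlinarith
    calc x * |mm ℓ| ≤ x * (B * Real.exp (-(c * √ℓ))) := by gcongr
      _ ≤ x * (B * E) := by gcongr
      _ = _ := by ring
  -- the integral
  have hint : |∫ t in Set.Ioc 1 x, mm (Real.log t)| ≤ B * 2 * (x * E) := by
    have hsx1 : 1 ≤ √x := by rwa [Real.one_le_sqrt]
    have hsxx : √x ≤ x := by
      rw [Real.sqrt_le_left hx0.le]
      nlinarith
    have hb : ∀ t ∈ Set.Ioc 1 x, ‖mm (Real.log t)‖ ≤ if t ≤ √x then B else B * E := by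
      intro t ht
      have ht0 : 0 < t := by linarith [ht.1]
      have hlt : 0 ≤ Real.log t := Real.log_nonneg ht.1.le
      have h2 := h (Real.log t) hlt
      rw [Real.norm_eq_abs]
      split_ifs with h3
      · refine h2.trans ?_
        have : Real.exp (-(c * √(Real.log t))) ≤ 1 := by
          rw [Real.exp_le_one_iff]
          have : 0 ≤ c * √(Real.log t) := by positivity
          linarith
        nlinarith
      · refine h2.trans ?_
        have h4 : ℓ / 2 ≤ Real.log t := by
          have h5 := Real.log_le_log (by positivity) (not_le.1 h3).le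
          rwa [Real.log_sqrt hx0.le] at h5
        have h6 : √ℓ / 2 ≤ √(Real.log t) := by
          rw [show √ℓ / 2 = √(ℓ / 4) by
            rw [Real.sqrt_div (by linarith), show (4 : ℝ) = 2 ^ 2 by norm_num, Real.sqrt_sq (by norm_num)]]
          exact Real.sqrt_le_sqrt (by linarith)
        have h7 : Real.exp (-(c * √(Real.log t))) ≤ E := by
          apply Real.exp_le_exp.2
          nlinarith
        gcongr
    have hmeasI : IntegrableOn (fun t : ℝ => if t ≤ √x then B else B * E) (Set.Ioc 1 x) := by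
      refine Measure.integrableOn_of_bounded (M := B + B * E) (by simp) ?_ ?_
      · exact (Measurable.ite measurableSet_Iic measurable_const measurable_const).aestronglyMeasurable
      · refine Eventually.of_forall fun t => ?_
        split_ifs
        · rw [Real.norm_of_nonneg hB.le]
          have : 0 ≤ B * E := by positivity
          linarith
        · rw [Real.norm_of_nonneg (by positivity)]
          linarith
    have h3 : ‖∫ t in Set.Ioc 1 x, mm (Real.log t)‖ ≤ ∫ t in Set.Ioc 1 x, (if t ≤ √x then B else B * E) :=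
      norm_integral_le_of_norm_le hmeasI ((ae_restrict_iff' measurableSet_Ioc).2 (Eventually.of_forall hb))
    rw [Real.norm_eq_abs] at h3
    refine h3.trans ?_
    have h4 : ∫ t in Set.Ioc 1 x, (if t ≤ √x then B else B * E) = B * (√x - 1) + B * E * (x - √x) := by
      rw [← Set.Ioc_union_Ioc_eq_Ioc hsx1 hsxx, setIntegral_union (Set.Ioc_disjoint_Ioc_of_le le_rfl) measurableSet_Ioc
        (hmeasI.mono_set (Set.Ioc_subset_Ioc_right hsxx)) (hmeasI.mono_set (Set.Ioc_subset_Ioc_left hsx1))]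
      congr 1
      · rw [setIntegral_congr_fun (g := fun _ => B) measurableSet_Ioc (fun t ht => by
          simp only [if_pos ht.2])]
        simp [hsx1]
        ring
      · rw [setIntegral_congr_fun (g := fun _ => B * E) measurableSet_Ioc (fun t ht => by
          simp only [if_neg (not_le.2 ht.1)])]
        simp [hsxx]
        ring
    rw [h4]
    have h5 : B * (√x - 1) ≤ B * (x * E) := by
      apply mul_le_mul_of_nonneg_left _ hB.le
      linarith
    have h6 : B * E * (x - √x) ≤ B * (x * E) := by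
      have h7 : 0 ≤ √x := Real.sqrt_nonneg _
      have h8 : 0 < B * E := by positivity
      nlinarith
    linarith
  have hpsi : |Chebyshev.psi x - x| ≤ (B + |c0' - 1| + B * 2) * (x * E) := by
    rw [psi_from_M hx1]
    have h2 : |x * mm ℓ + (c0' - 1) - ∫ t in Set.Ioc 1 x, mm (Real.log t)| ≤
        x * |mm ℓ| + |c0' - 1| + |∫ t in Set.Ioc 1 x, mm (Real.log t)| := by
      refine (abs_sub _ _).trans ?_
      have := abs_add_le (x * mm ℓ) (c0' - 1)
      rw [abs_mul, abs_of_pos hx0] at this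
      linarith
    refine h2.trans ?_
    have h3 : |c0' - 1| ≤ |c0' - 1| * (x * E) := le_mul_of_one_le_right (abs_nonneg _) hone
    nlinarith
  have h2 := h1 x
  have h3 := Chebyshev.theta_le_psi x
  have h4 : C1 * √x ≤ |C1| * (x * E) := by
    calc C1 * √x ≤ |C1| * √x := mul_le_mul_of_nonneg_right (le_abs_self _) (Real.sqrt_nonneg _)
      _ ≤ _ := mul_le_mul_of_nonneg_left hsx (abs_nonneg _)
  have h5 := abs_le.1 hpsi
  have h6 : 0 ≤ |C1| * (x * E) := by positivity
  unfold Rr
  rw [abs_le, add_mul _ |C1|]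
  constructor <;> linarith

end

end Pool.Agent.K3h81.RB
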