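import Pool.Agent.K3h81.RB.Up1
import Pool.Agent.K3h81.RB.Pnt3

/-!
# Upper bounds: unconditional
-/

set_option autoImplicit false

namespace Pool.Agent.K3h81.RB

open Filter Topology MeasureTheory

noncomputable section

lemma KK_exp {c C : ℝ} (hc : 0 < c) (hC0 : 0 < C)
    (hC : ∀ x : ℝ, Real.exp 1 ≤ x → |Rr x| ≤ C * (x * Real.exp (-(c * √(Real.log x))))) {x : ℝ} (hx : 3 ≤ x) :
    |KK x| ≤ 4 * C / c * Real.exp (-(c * √(Real.log x))) := by
  have hder : ∀ t ∈ Set.Ici x, HasDerivAt (fun t : ℝ => -Real.exp (-(c * √(Real.log t))))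
      (c / (2 * t * √(Real.log t)) * Real.exp (-(c * √(Real.log t)))) t := by
    intro t ht
    have ht3 : 3 ≤ t := hx.trans ht
    have h0 : t ≠ 0 := by linarith
    have hl : 0 < Real.log t := Real.log_pos (by linarith)
    have h1 := ((Real.hasDerivAt_log h0).sqrt hl.ne').const_mul c
    have h2 := (h1.fun_neg.exp).fun_neg
    refine h2.congr_deriv ?_
    have : 0 < √(Real.log t) := Real.sqrt_pos.2 hl
    field_simp
  have hlim : Tendsto (fun t : ℝ => -Real.exp (-(c * √(Real.log t)))) atTop (𝓝 (-0)) := by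
    refine Tendsto.neg ?_
    refine Real.tendsto_exp_neg_atTop_nhds_zero.comp ?_
    exact (Real.tendsto_sqrt_atTop.comp Real.tendsto_log_atTop).const_mul_atTop hc
  have hnn : ∀ t ∈ Set.Ioi x, 0 ≤ c / (2 * t * √(Real.log t)) * Real.exp (-(c * √(Real.log t))) := by
    intro t ht
    have ht3 : 0 < t := by have : x < t := ht; linarith
    positivity
  have hI : IntegrableOn (fun t : ℝ => c / (2 * t * √(Real.log t)) * Real.exp (-(c * √(Real.log t)))) (Set.Ioi x) :=
    integrableOn_Ioi_deriv_of_nonneg (hder x Set.self_mem_Ici).continuousAt.continuousWithinAt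
      (fun t ht => hder t (Set.mem_Ici.2 (le_of_lt ht))) hnn hlim
  have hval : ∫ t in Set.Ioi x, c / (2 * t * √(Real.log t)) * Real.exp (-(c * √(Real.log t))) =
      Real.exp (-(c * √(Real.log x))) := by
    rw [integral_Ioi_of_hasDerivAt_of_nonneg (hder x Set.self_mem_Ici).continuousAt.continuousWithinAt
      (fun t ht => hder t (Set.mem_Ici.2 (le_of_lt ht))) hnn hlim]
    ring
  rw [← hval, ← integral_const_mul]
  unfold KK
  refine (abs_integral_le_integral_abs).trans ?_
  refine setIntegral_mono_on (Rw_int (by linarith)).abs (hI.const_mul _) measurableSet_Ioi fun t ht => ?_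
  have ht3 : 3 ≤ t := by have : x < t := ht; linarith
  have ht0 : 0 < t := by linarith
  have hl := one_le_log ht3
  have hs : 0 < √(Real.log t) := Real.sqrt_pos.2 (by linarith)
  have hs1 : √(Real.log t) ≤ Real.log t := by
    rw [Real.sqrt_le_left (by linarith)]
    nlinarith
  rw [abs_mul, abs_of_nonneg (ww_nonneg (by linarith))]
  set E := Real.exp (-(c * √(Real.log t))) with hE
  have hE0 : 0 < E := Real.exp_pos _
  calc |Rr t| * ww t ≤ (C * (t * E)) * (2 / (t ^ 2 * Real.log t)) :=
        mul_le_mul (hC t (by linarith [Real.exp_one_lt_d9])) (ww_le ht3) (ww_nonneg (by linarith)) (by positivity)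
    _ ≤ (C * (t * E)) * (2 / (t ^ 2 * √(Real.log t))) := by gcongr
    _ = 4 * C / c * (c / (2 * t * √(Real.log t)) * E) := by
        field_simp
        ring

lemma D_exp {c C : ℝ} (hc : 0 < c) (hC0 : 0 < C)
    (hC : ∀ x : ℝ, Real.exp 1 ≤ x → |Rr x| ≤ C * (x * Real.exp (-(c * √(Real.log x))))) {L : ℝ} (hL : 3 ≤ L) :
    VS L - Real.eulerMascheroniConstant - Real.log (Real.log L) +
      vv L / Real.log L * (L - Chebyshev.theta L) ≤ (3 * C + 4 * C / c) * Real.exp (-(c * √(Real.log L))) := by
  have h1 : |Rr L| ≤ (C * Real.exp (-(c * √(Real.log L)))) * L := by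
    refine (hC L (by linarith [Real.exp_one_lt_d9])).trans (le_of_eq ?_)
    ring
  have h2 := D_le hL h1 (KK_exp hc hC0 hC hL)
  linarith

lemma loglog_tendsto : Tendsto (fun n : ℕ => √(Real.log (Real.log n))) atTop atTop :=
  Real.tendsto_sqrt_atTop.comp (Real.tendsto_log_atTop.comp
    (Real.tendsto_log_atTop.comp tendsto_natCast_atTop_atTop))

/-- every exception is divisible by all integers up to `exp (c √(log log n))` -/
theorem up_div_exp : ∃ c : ℝ, 0 < c ∧ ∀ᶠ n : ℕ in atTop, Es n → ∀ k : ℕ, 0 < k →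
    (k : ℝ) ≤ Real.exp (c * √(Real.log (Real.log n))) → k ∣ n := by
  obtain ⟨c, C, hc, hC0, hC⟩ := psi_classical
  refine ⟨c / 2, by positivity, ?_⟩
  set CD := 3 * C + 4 * C / c with hCD
  have hCD0 : 0 < CD := by positivity
  have hlog : Tendsto (fun n : ℕ => Real.log n) atTop atTop :=
    Real.tendsto_log_atTop.comp tendsto_natCast_atTop_atTop
  filter_upwards [hlog.eventually_ge_atTop 3, loglog_tendsto.eventually_ge_atTop (c + 2 / c * (CD + 2))]
    with n hL3 hs hE k hk0 hk
  set L := Real.log n with hL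
  have hL0 : 0 < L := by linarith
  have hl1 := one_le_log hL3
  set ℓ := Real.log L with hℓ
  set s := √ℓ with hsd
  have hss : s * s = ℓ := Real.mul_self_sqrt (by linarith)
  have h2c : 0 < 2 / c * (CD + 2) := by positivity
  have hsc : c ≤ s := by linarith
  have hs2 : CD + 2 ≤ c / 2 * s := by
    have h1 : 2 / c * (CD + 2) ≤ s := by linarith
    calc CD + 2 = c / 2 * (2 / c * (CD + 2)) := by field_simp
      _ ≤ c / 2 * s := by gcongr
  have hD := D_exp hc hC0 hC hL3
  rw [← hℓ] at hD
  refine dvd_of hL (by linarith) hE hD hk0 ?_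
  have h2 : 1 / L ≤ Real.exp (-(c * s)) := by
    have e : 1 / L = Real.exp (-ℓ) := by rw [hℓ, Real.exp_neg, Real.exp_log hL0, one_div]
    rw [e]
    apply Real.exp_le_exp.2
    nlinarith
  have hk1 : (k : ℝ) ≤ Real.exp (c / 2 * s) := hk
  calc (k : ℝ) * (CD * Real.exp (-(c * s)) + 1 / L) ≤
      Real.exp (c / 2 * s) * (CD * Real.exp (-(c * s)) + Real.exp (-(c * s))) := by gcongr
    _ = (CD + 1) * (Real.exp (c / 2 * s) * Real.exp (-(c * s))) := by ring
    _ = (CD + 1) * Real.exp (-(c / 2 * s)) := by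
        rw [← Real.exp_add]
        congr 2
        ring
    _ < 1 := by
        rw [Real.exp_neg, ← div_eq_mul_inv, div_lt_one (Real.exp_pos _)]
        have := Real.add_one_le_exp (c / 2 * s)
        linarith

lemma mul_exp_neg {L y : ℝ} (hL : 0 < L) : L * Real.exp (-y) = Real.exp (Real.log L - y) := by
  rw [Real.exp_sub, Real.exp_log hL, Real.exp_neg]
  rfl

/-- the function `L exp (-(c/2) √(log L))` -/
lemma G_mono {c L X : ℝ} (hL0 : 1 ≤ L) (hl : (c / 2) ^ 2 + 2 ≤ Real.log L) (_hc : 0 < c) (hLX : L ≤ X) :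
    1 ≤ L * Real.exp (-(c / 2 * √(Real.log L))) ∧
      L * Real.exp (-(c / 2 * √(Real.log L))) ≤ X * Real.exp (-(c / 2 * √(Real.log X))) := by
  have hL0' : 0 < L := by linarith
  have hX0 : 0 < X := by linarith
  have hl0 : 0 ≤ Real.log L := Real.log_nonneg hL0
  have hlX : Real.log L ≤ Real.log X := Real.log_le_log hL0' hLX
  set t := √(Real.log L) with ht
  set s := √(Real.log X) with hs
  have htt : t * t = Real.log L := Real.mul_self_sqrt hl0
  have hss : s * s = Real.log X := Real.mul_self_sqrt (by linarith)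
  have htc : c / 2 ≤ t := by
    rw [ht]
    apply Real.le_sqrt_of_sq_le
    linarith
  have hts : t ≤ s := Real.sqrt_le_sqrt hlX
  rw [mul_exp_neg hL0', mul_exp_neg hX0]
  constructor
  · apply Real.one_le_exp
    nlinarith
  · apply Real.exp_le_exp.2
    nlinarith

/-- the number of missing primes of an exception -/
lemma miss_exp {c C : ℝ} (hc : 0 < c) (hC0 : 0 < C)
    (hC : ∀ x : ℝ, Real.exp 1 ≤ x → |Rr x| ≤ C * (x * Real.exp (-(c * √(Real.log x)))))
    {n : ℕ} (hL3 : 3 ≤ Real.log n) (hE : Ef n) : ((Miss n (Real.log n)).card : ℝ) ≤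
      2 * (√(3 * C + 4 * C / c) * (Real.log n * Real.exp (-(c / 2 * √(Real.log (Real.log n)))))) + 1 := by
  set CD := 3 * C + 4 * C / c with hCD
  have hCD0 : 0 < CD := by positivity
  set L := Real.log n with hL
  have hL1 : 1 < Real.log n := by rw [← hL]; linarith
  have hn0 : n ≠ 0 := by
    rintro rfl
    rw [Nat.cast_zero, Real.log_zero] at hL
    linarith
  have hE1 := (Ef_iff hL1).1 hE
  rw [← hL] at hE1
  have hD := D_exp hc hC0 hC hL3
  have hDD : 0 < CD * Real.exp (-(c * √(Real.log L))) := by positivity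
  have h2 := str (b := 0) hn0 hL (by linarith) (by linarith) hD
  rw [add_zero] at h2
  have h3 := card_miss (by linarith) hDD h2
  have h4 : √(CD * Real.exp (-(c * √(Real.log L)))) * L = √CD * (L * Real.exp (-(c / 2 * √(Real.log L)))) := by
    rw [Real.sqrt_mul hCD0.le]
    have e : √(Real.exp (-(c * √(Real.log L)))) = Real.exp (-(c / 2 * √(Real.log L))) := by
      rw [Real.sqrt_eq_rpow, ← Real.exp_mul]
      congr 1
      ring
    rw [e]
    ring
  rw [h4] at h3
  exact h3

/-- the final comparison -/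
lemma fin_exp {c C' x1 : ℝ} (hc : 0 < c) (hC'0 : 0 < C') (hx1 : 0 ≤ x1) : ∀ᶠ X : ℝ in atTop,
    x1 + Real.log (X + 2) + 3 * (C' * (X * Real.exp (-(c / 2 * √(Real.log X))) * Real.log X)) ≤
      X * Real.exp (-(c / 4 * √(Real.log X))) := by
  obtain ⟨B, hB, hBb⟩ := sqrt_exp_bound (c / 4) (by positivity)
  have hsl : Tendsto (fun X : ℝ => √(Real.log X)) atTop atTop :=
    Real.tendsto_sqrt_atTop.comp Real.tendsto_log_atTop
  have hev1 := hsl.eventually_ge_atTop (8 / c * (6 * C' * B) + c)
  have hev2 := ev_log (a := 0) (c := 1 / 2) (2 * (x1 + 2)) (by norm_num)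
  filter_upwards [hev1, hev2, eventually_ge_atTop 3] with X hs hX hX3
  have hlX := one_le_log hX3
  have hX0 : 0 < X := by linarith
  set ℓ := Real.log X with hℓ
  set s := √ℓ with hsd
  have hss : s * s = ℓ := Real.mul_self_sqrt (by linarith)
  have h8c : 0 < 8 / c * (6 * C' * B) := by positivity
  have hsc : c ≤ s := by linarith
  have hs0 : 0 < s := by linarith
  set W := X * Real.exp (-(c / 4 * s)) with hW
  have hlog2 : Real.log (X + 2) ≤ 2 * ℓ := by
    have : X + 2 ≤ X ^ 2 := by nlinarith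
    have h3 := Real.log_le_log (by linarith) this
    rwa [Real.log_pow, Nat.cast_ofNat] at h3
  have ha : x1 + Real.log (X + 2) ≤ W / 2 := by
    rw [Real.rpow_zero, one_mul] at hX
    have h4 : x1 + Real.log (X + 2) ≤ (x1 + 2) * ℓ := by nlinarith
    have h5 : X ^ (1 / 2 : ℝ) ≤ W := by
      have e1 : X ^ (1 / 2 : ℝ) = Real.exp (ℓ / 2) := by
        rw [Real.rpow_def_of_pos hX0]; congr 1; ring
      rw [e1, hW, mul_exp_neg hX0]
      apply Real.exp_le_exp.2
      nlinarith
    linarith
  have hb : 3 * (C' * (X * Real.exp (-(c / 2 * s)) * ℓ)) ≤ W / 2 := by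
    have h4 := hBb ℓ (by linarith)
    have h5 : ℓ * Real.exp (-(c / 4 * s)) ≤ B * Real.exp (-(c / 4 / 2 * s)) := by
      refine le_trans ?_ h4
      exact mul_le_mul_of_nonneg_right (by linarith) (Real.exp_pos _).le
    have h6 : 6 * C' * B * Real.exp (-(c / 4 / 2 * s)) ≤ 1 := by
      rw [Real.exp_neg, ← div_eq_mul_inv, div_le_one (Real.exp_pos _)]
      have h7 := Real.add_one_le_exp (c / 4 / 2 * s)
      have h8 : 8 / c * (6 * C' * B) ≤ s := by linarith
      have h9 : 6 * C' * B ≤ c / 4 / 2 * s := by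
        have h10 : c / 4 / 2 * (8 / c * (6 * C' * B)) ≤ c / 4 / 2 * s :=
          mul_le_mul_of_nonneg_left h8 (by positivity)
        have h11 : c / 4 / 2 * (8 / c * (6 * C' * B)) = 6 * C' * B := by field_simp; norm_num
        linarith
      linarith
    have e : Real.exp (-(c / 2 * s)) = Real.exp (-(c / 4 * s)) * Real.exp (-(c / 4 * s)) := by
      rw [← Real.exp_add]; congr 1; ring
    calc 3 * (C' * (X * Real.exp (-(c / 2 * s)) * ℓ)) =
          3 * C' * (X * Real.exp (-(c / 4 * s))) * (ℓ * Real.exp (-(c / 4 * s))) := by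
          rw [e]; ring
      _ ≤ 3 * C' * (X * Real.exp (-(c / 4 * s))) * (B * Real.exp (-(c / 4 / 2 * s))) :=
          mul_le_mul_of_nonneg_left h5 (by positivity)
      _ = (6 * C' * B * Real.exp (-(c / 4 / 2 * s))) * (W / 2) := by rw [hW]; ring
      _ ≤ 1 * (W / 2) := mul_le_mul_of_nonneg_right h6 (by positivity)
      _ = _ := one_mul _
  linarith

/-- the unconditional bound for the number of exceptions -/
theorem up_cnt_exp : ∃ c : ℝ, 0 < c ∧ ∀ᶠ X : ℝ in atTop,
    (cE Ef (Real.exp X) : ℝ) ≤ Real.exp (X * Real.exp (-(c * √(Real.log X)))) := by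
  obtain ⟨c, C, hc, hC0, hC⟩ := psi_classical
  refine ⟨c / 4, by positivity, ?_⟩
  set CD := 3 * C + 4 * C / c with hCD
  have hCD0 : 0 < CD := by positivity
  set C' := 2 * √CD + 1 + C with hC'
  have hC'0 : 0 < C' := by positivity
  set x1 : ℝ := Real.exp ((c / 2) ^ 2 + 2) with hx1
  have hx13 : 3 ≤ x1 := by
    have := Real.add_one_le_exp ((c / 2) ^ 2 + 2)
    have : 0 ≤ (c / 2) ^ 2 := by positivity
    linarith
  filter_upwards [fin_exp hc hC'0 (by linarith : 0 ≤ x1), eventually_ge_atTop x1] with X hfin hXx1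
  have hX3 : 3 ≤ X := by linarith
  have hlX := one_le_log hX3
  have hX0 : 0 < X := by linarith
  have hgl : ∀ L : ℝ, x1 ≤ L → (c / 2) ^ 2 + 2 ≤ Real.log L := by
    intro L hL
    have := Real.log_le_log (by positivity) hL
    rwa [hx1, Real.log_exp] at this
  set G := X * Real.exp (-(c / 2 * √(Real.log X))) with hG
  have hG0 : 0 < G := by positivity
  set Φ := C' * (G * Real.log X) with hΦ
  have hΦ0 : 0 ≤ Φ := by positivity
  have h1 := count_le (X := X) (x1 := x1) (Φ := Φ) (by linarith) hXx1 (fun n hn3 hnX hE => by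
    have hL3 : 3 ≤ Real.log n := by linarith
    have h3 := miss_exp hc hC0 hC hL3 hE
    rw [← hCD] at h3
    set L := Real.log n with hL
    have hL0 : 0 < L := by linarith
    have hlL := one_le_log hL3
    obtain ⟨g1, g2⟩ := G_mono (c := c) (by linarith : 1 ≤ L) (hgl L hn3) hc hnX
    set gL := L * Real.exp (-(c / 2 * √(Real.log L))) with hgL
    have h6 : Real.log L ≤ Real.log X := Real.log_le_log hL0 hnX
    have hsq : 0 ≤ √CD := Real.sqrt_nonneg _
    have h8 := mul_le_mul_of_nonneg_left g2 hsq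
    have h7 : 0 ≤ C * G := by positivity
    constructor
    · have h9 : ((Miss n L).card : ℝ) ≤ C' * G := by
        rw [hC']
        nlinarith
      calc ((Miss n L).card : ℝ) * Real.log L ≤ (C' * G) * Real.log X :=
            mul_le_mul h9 h6 (by linarith) (by positivity)
        _ = Φ := by rw [hΦ]; ring
    · have h10 : |Rr L| ≤ C * gL := by
        refine (hC L (by linarith [Real.exp_one_lt_d9])).trans ?_
        rw [hgL]
        have h11 : 0 ≤ √(Real.log L) := Real.sqrt_nonneg _
        have h12 : Real.exp (-(c * √(Real.log L))) ≤ Real.exp (-(c / 2 * √(Real.log L))) := by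
          apply Real.exp_le_exp.2
          nlinarith
        exact mul_le_mul_of_nonneg_left (mul_le_mul_of_nonneg_left h12 hL0.le) hC0.le
      have h13 : C * gL ≤ C * G := mul_le_mul_of_nonneg_left g2 hC0.le
      have h14 : C * G ≤ C' * G := by
        apply mul_le_mul_of_nonneg_right _ hG0.le
        rw [hC']
        linarith
      have h15 : C' * G * 1 ≤ C' * G * Real.log X := mul_le_mul_of_nonneg_left hlX (by positivity)
      have h16 : C' * G * Real.log X = Φ := by rw [hΦ]; ring
      linarith)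
  exact h1.trans (finish (by linarith) hX0.le hΦ0 hfin)

end

end Pool.Agent.K3h81.RB
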