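import Pool.Agent.K3h81.RB.Lan1
import Pool.Agent.TH988.RB.Lan
import Pool.Agent.W66.ZC
import Pool.Agent.Y21.FW.Zeros

/-!
# Landau's theorem for the error term of Mertens' product
-/

set_option autoImplicit false

namespace Pool.Agent.K3h81.RB

open Filter Topology MeasureTheory
open Pool.Agent.W263.BSD (LInt lap lapC)
open Pool.Agent.W66 (Z1 DD)

noncomputable section

/-- the Laplace transform of `ru` -/
def Phi (w : ℝ) : ℝ := ∫ v in Set.Ioi 0, ru v * Real.exp (-(w * v))

def Phc (w : ℂ) : ℂ := -(1 + DD (1 + w)) / (1 + w)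

lemma exp_int_w {w : ℝ} (hw : 0 < w) : IntegrableOn (fun v => Real.exp (-(w * v))) (Set.Ioi 0) := by
  have h := integrableOn_exp_mul_Ioi (show -w < 0 by linarith) 0
  refine h.congr_fun (fun v _ => ?_) measurableSet_Ioi
  simp only [neg_mul]

lemma exp_val_w {w : ℝ} (hw : 0 < w) : ∫ v in Set.Ioi (0 : ℝ), Real.exp (-(w * v)) = 1 / w := by
  have h := integral_exp_mul_Ioi (show -w < 0 by linarith) 0
  simp only [neg_mul] at h
  rw [h]
  simp

lemma ru_exp_int {w : ℝ} (hw : 0 ≤ w) : IntegrableOn (fun v => ru v * Real.exp (-(w * v))) (Set.Ioi 0) := by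
  refine Integrable.mul_bdd (c := 1) ru_int
    ((by fun_prop : Measurable fun v : ℝ => Real.exp (-(w * v))).aestronglyMeasurable) ?_
  filter_upwards [ae_restrict_mem measurableSet_Ioi] with v hv
  have hv0 : 0 < v := hv
  rw [Real.norm_of_nonneg (Real.exp_pos _).le]
  rw [Real.exp_le_one_iff]
  nlinarith [mul_nonneg hw hv0.le]

lemma La_bigO : (fun n : ℕ => ∑ k ∈ Finset.Icc 1 n, ArithmeticFunction.vonMangoldt k) =O[atTop]
    fun n : ℕ => (n : ℝ) ^ (1 : ℝ) := by
  refine Asymptotics.IsBigO.of_bound (Real.log 4 + 4) (Eventually.of_forall fun n => ?_)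
  have h1 : ∑ k ∈ Finset.Icc 1 n, ArithmeticFunction.vonMangoldt k = Chebyshev.psi n := by
    unfold Chebyshev.psi
    rw [Nat.floor_natCast]
    rfl
  rw [h1, Real.rpow_one, Real.norm_of_nonneg (Chebyshev.psi_nonneg _), Real.norm_of_nonneg (Nat.cast_nonneg n)]
  exact Chebyshev.psi_le_const_mul_self (Nat.cast_nonneg n)

lemma Phi_eq {w : ℝ} (hw : 0 < w) : ((Phi w : ℝ) : ℂ) = Phc w := by
  -- the Mellin transform of `ψ`
  have hs : (1 : ℝ) < ((1 : ℂ) + w).re := by simp [hw]
  have h1 := LSeries_eq_mul_integral_of_nonneg (fun n => ArithmeticFunction.vonMangoldt n)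
    (r := 1) zero_le_one (s := 1 + (w : ℂ)) (by simpa using hw) La_bigO
    (fun n => ArithmeticFunction.vonMangoldt_nonneg)
  have h2 := Pool.Agent.W66.LSeries_eq_DD hs
  have h3 : ∫ t in Set.Ioi (1 : ℝ), (∑ k ∈ Finset.Icc 1 ⌊t⌋₊, (ArithmeticFunction.vonMangoldt k : ℂ)) *
      (t : ℂ) ^ (-((1 : ℂ) + w + 1)) =
      ((∫ t in Set.Ioi (1 : ℝ), Chebyshev.psi t * t ^ (-(w + 2)) : ℝ) : ℂ) := by
    rw [← integral_complex_ofReal]
    refine setIntegral_congr_fun measurableSet_Ioi fun t ht => ?_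
    have ht0 : 0 < t := lt_trans one_pos ht
    have e1 : (∑ k ∈ Finset.Icc 1 ⌊t⌋₊, (ArithmeticFunction.vonMangoldt k : ℂ)) = ((Chebyshev.psi t : ℝ) : ℂ) := by
      unfold Chebyshev.psi
      push_cast
      rfl
    have e2 : (t : ℂ) ^ (-((1 : ℂ) + w + 1)) = ((t ^ (-(w + 2)) : ℝ) : ℂ) := by
      rw [Complex.ofReal_cpow ht0.le]
      congr 1
      push_cast
      ring
    rw [e1, e2]
    push_cast
    rfl
  rw [h3, h2] at h1
  have h4 : ∫ t in Set.Ioi (1 : ℝ), Chebyshev.psi t * t ^ (-(w + 2)) =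
      ∫ v in Set.Ioi (0 : ℝ), (ru v * Real.exp (-(w * v)) + Real.exp (-(w * v))) := by
    have h5 := cov_int (fun t => Chebyshev.psi t * t ^ (-(w + 2))) 0
    rw [Real.exp_zero] at h5
    rw [h5]
    refine setIntegral_congr_fun measurableSet_Ioi fun v _ => ?_
    have e3 : Real.exp v ^ (-(w + 2)) = Real.exp (-v) * Real.exp (-(w * v)) * Real.exp (-v) := by
      rw [← Real.exp_mul, ← Real.exp_add, ← Real.exp_add]
      congr 1
      ring
    have e4 : Real.exp v * Real.exp (-v) = 1 := by rw [← Real.exp_add]; simp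
    simp only [ru]
    rw [e3]
    linear_combination (Chebyshev.psi (Real.exp v) * Real.exp (-(w * v)) * Real.exp (-v)) * e4
  rw [h4, integral_add (ru_exp_int hw.le) (exp_int_w hw), exp_val_w hw] at h1
  have hwc : (w : ℂ) ≠ 0 := by exact_mod_cast hw.ne'
  have hw1 : (1 : ℂ) + w ≠ 0 := by
    have : (1 : ℝ) + w ≠ 0 := by linarith
    exact_mod_cast this
  unfold Phc Phi
  push_cast at h1 ⊢
  rw [eq_div_iff hw1]
  have h6 : (1 : ℂ) + w - 1 = w := by ring
  rw [h6] at h1
  field_simp at h1 ⊢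
  apply mul_left_cancel₀ hwc
  linear_combination -h1

lemma Z1_real_ne {x : ℝ} (h0 : 0 < x) : Z1 (x : ℂ) ≠ 0 := by
  rcases lt_or_ge x 1 with h | h
  · rw [Pool.Agent.W66.Z1_eq (by
      intro h1
      have : x = 1 := by exact_mod_cast h1
      linarith)]
    refine mul_ne_zero ?_ (Pool.Agent.Y21.FW.real_ne h0 h)
    have : x - 1 ≠ 0 := by linarith
    exact_mod_cast this
  · exact Pool.Agent.W66.Z1_ne_zero (by simpa using h)

/-- the domain -/
def UU : Set ℂ := {w | 1 + w ≠ 0 ∧ Z1 (1 + w) ≠ 0}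

lemma UU_open : IsOpen UU := by
  have h1 : Continuous fun w : ℂ => 1 + w := by fun_prop
  have h2 : Continuous fun w : ℂ => Z1 (1 + w) := Pool.Agent.W66.Z1_diff.continuous.comp h1
  exact (isOpen_ne_fun h1 continuous_const).inter (isOpen_ne_fun h2 continuous_const)

lemma real_mem_UU {w : ℝ} (hw : -1 < w) : (w : ℂ) ∈ UU := by
  have e : (1 : ℂ) + w = ((1 + w : ℝ) : ℂ) := by push_cast; rfl
  refine ⟨?_, ?_⟩
  · rw [e]
    have : (1 : ℝ) + w ≠ 0 := by linarith
    exact_mod_cast this
  · rw [e]; exact Z1_real_ne (by linarith)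

lemma Phc_diff : DifferentiableOn ℂ Phc UU := by
  intro w hw
  have h0 : Differentiable ℂ (fun w : ℂ => 1 + w) := by fun_prop
  have h1 : DifferentiableAt ℂ DD (1 + w) := by
    unfold Pool.Agent.W66.DD
    exact ((Pool.Agent.W66.Z1_diff.analyticAt _).deriv.differentiableAt).div
      (Pool.Agent.W66.Z1_diff _) hw.2
  have h2 : DifferentiableAt ℂ (fun w : ℂ => DD (1 + w)) w :=
    DifferentiableAt.comp (g := DD) (f := fun w : ℂ => 1 + w) w h1 (h0 w)
  unfold Phc
  exact (((h2.const_add 1).neg).div (h0 w) hw.1).differentiableWithinAt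

lemma zero_mem_UU : (0 : ℂ) ∈ UU := by
  have := real_mem_UU (w := 0) (by norm_num)
  simpa using this

lemma dsl_diff : DifferentiableOn ℂ (dslope Phc 0) UU :=
  (Complex.differentiableOn_dslope (UU_open.mem_nhds zero_mem_UU)).2 Phc_diff

lemma Phi_zero : ((Tu 0 : ℝ) : ℂ) = Phc 0 := by
  have h1 : Tendsto (fun n : ℕ => Phi (1 / ((n : ℝ) + 1))) atTop (𝓝 (Tu 0)) := by
    unfold Phi Tu
    refine tendsto_integral_of_dominated_convergence (fun v => ‖ru v‖) (fun n => ?_) ru_int.norm
      (fun n => ?_) (Eventually.of_forall fun v => ?_)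
    · exact (ru_meas.mul (by fun_prop)).aestronglyMeasurable
    · filter_upwards [ae_restrict_mem measurableSet_Ioi] with v hv
      have hv0 : 0 < v := hv
      rw [norm_mul, Real.norm_of_nonneg (Real.exp_pos _).le]
      have : Real.exp (-(1 / ((n : ℝ) + 1) * v)) ≤ 1 := by
        rw [Real.exp_le_one_iff]
        have : 0 ≤ 1 / ((n : ℝ) + 1) * v := by positivity
        linarith
      have h2 := norm_nonneg (ru v)
      nlinarith
    · have h2 : Tendsto (fun n : ℕ => Real.exp (-(1 / ((n : ℝ) + 1) * v))) atTop (𝓝 (Real.exp (-(0 * v)))) :=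
        (Real.continuous_exp.tendsto _).comp ((tendsto_one_div_add_atTop_nhds_zero_nat.mul_const v).neg)
      rw [zero_mul, neg_zero, Real.exp_zero] at h2
      have := h2.const_mul (ru v)
      rwa [mul_one] at this
  have h2 : Tendsto (fun n : ℕ => ((Phi (1 / ((n : ℝ) + 1)) : ℝ) : ℂ)) atTop (𝓝 ((Tu 0 : ℝ) : ℂ)) :=
    (Complex.continuous_ofReal.tendsto _).comp h1
  have h3 : Tendsto (fun n : ℕ => Phc ((1 / ((n : ℝ) + 1) : ℝ) : ℂ)) atTop (𝓝 (Phc 0)) := by
    have h4 : ContinuousAt Phc 0 := (Phc_diff.differentiableAt (UU_open.mem_nhds zero_mem_UU)).continuousAt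
    refine h4.tendsto.comp ?_
    have h5 : Tendsto (fun n : ℕ => 1 / ((n : ℝ) + 1)) atTop (𝓝 0) := tendsto_one_div_add_atTop_nhds_zero_nat
    have h6 : Tendsto (fun n : ℕ => ((1 / ((n : ℝ) + 1) : ℝ) : ℂ)) atTop (𝓝 ((0 : ℝ) : ℂ)) :=
      (Complex.continuous_ofReal.tendsto _).comp h5
    rwa [Complex.ofReal_zero] at h6
  refine tendsto_nhds_unique h2 (h3.congr fun n => ?_)
  exact (Phi_eq (by positivity)).symm

lemma Tu_meas : Measurable Tu := by
  have h1 : StronglyMeasurable (fun u : ℝ => ∫ v : ℝ, (if u < v then ru v else 0)) := by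
    refine StronglyMeasurable.integral_prod_right (f := fun u v : ℝ => if u < v then ru v else 0) ?_
    refine Measurable.stronglyMeasurable ?_
    exact Measurable.ite (measurableSet_lt measurable_fst measurable_snd)
      (ru_meas.comp measurable_snd) measurable_const
  have h2 : Tu = fun u : ℝ => ∫ v : ℝ, (if u < v then ru v else 0) := by
    funext u
    unfold Tu
    rw [← integral_indicator measurableSet_Ioi]
    rfl
  rw [h2]
  exact h1.measurable

lemma Tu_bdd : ∀ u : ℝ, 0 ≤ u → |Tu u| ≤ ∫ v in Set.Ioi 0, |ru v| := by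
  intro u hu
  unfold Tu
  refine (abs_integral_le_integral_abs).trans ?_
  exact setIntegral_mono_set ru_int.abs (Eventually.of_forall fun v => abs_nonneg _)
    (Set.Ioi_subset_Ioi hu).eventuallyLE

lemma Tu_lap {w : ℝ} (hw : 0 < w) : LInt Tu w ∧ lap Tu w = (Tu 0 - Phi w) / w := by
  have hint : ∀ v : ℝ, 0 < v → ∫ u in Set.Ioo 0 v, Real.exp (-(w * u)) = (1 - Real.exp (-(w * v))) / w := by
    intro v hv
    rw [← integral_Ioc_eq_integral_Ioo, ← intervalIntegral.integral_of_le hv.le]
    have hder : ∀ u ∈ Set.uIcc 0 v, HasDerivAt (fun u : ℝ => -Real.exp (-(w * u)) / w) (Real.exp (-(w * u))) u := by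
      intro u _
      have h1 : HasDerivAt (fun u : ℝ => -(w * u)) (-(w * 1)) u := ((hasDerivAt_id u).const_mul w).neg
      have h2 := (h1.exp.neg).div_const w
      refine h2.congr_deriv ?_
      field_simp
    rw [intervalIntegral.integral_eq_sub_of_hasDerivAt hder (by
      apply Continuous.intervalIntegrable; fun_prop)]
    rw [mul_zero, neg_zero, Real.exp_zero]
    ring
  obtain ⟨t1, t2⟩ := tri (a := 0) (m := fun u => Real.exp (-(w * u))) (g := ru)
    (M := fun v => (1 - Real.exp (-(w * v))) / w) (by fun_prop) ru_meas (fun u _ => (Real.exp_pos _).le)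
    (fun v _ => (Continuous.integrableOn_Icc (by fun_prop)).mono_set Set.Ioo_subset_Icc_self)
    hint (by
      have h3 := (ru_int.sub (ru_exp_int hw.le)).div_const w
      refine IntegrableOn.congr_fun h3 (fun v _ => ?_) measurableSet_Ioi
      simp only [Pi.sub_apply]
      ring)
  have e : ∀ u, Real.exp (-(w * u)) * (∫ v in Set.Ioi u, ru v) = Tu u * Real.exp (-(w * u)) := fun u => by
    unfold Tu; ring
  simp only [e] at t1 t2
  refine ⟨t1, ?_⟩
  have h4 : lap Tu w = ∫ u in Set.Ioi 0, Tu u * Real.exp (-(w * u)) := rfl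
  rw [h4, t2]
  have h5 : ∫ v in Set.Ioi (0 : ℝ), ru v * ((1 - Real.exp (-(w * v))) / w) =
      ((∫ v in Set.Ioi 0, ru v) - ∫ v in Set.Ioi 0, ru v * Real.exp (-(w * v))) / w := by
    rw [← integral_sub ru_int (ru_exp_int hw.le), ← integral_div]
    refine integral_congr_ae (Eventually.of_forall fun v => ?_)
    simp only
    ring
  rw [h5]
  rfl

lemma re_analytic {f : ℂ → ℂ} {x : ℝ} (hf : AnalyticAt ℂ f x) :
    AnalyticAt ℝ (fun x : ℝ => (f x).re) x := by
  have h1 : AnalyticAt ℝ f (x : ℂ) := hf.restrictScalars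
  have h2 : AnalyticAt ℝ (fun x : ℝ => (x : ℂ)) x := Complex.ofRealCLM.analyticAt x
  have h3 : AnalyticAt ℝ (fun z : ℂ => z.re) (f x) := Complex.reCLM.analyticAt _
  exact AnalyticAt.fun_comp h3 (AnalyticAt.fun_comp h1 h2)

lemma exp_L {α s : ℝ} (h : α < s) : LInt (fun T => Real.exp (α * T)) s ∧
    lap (fun T => Real.exp (α * T)) s = 1 / (s - α) := by
  have e : ∀ T : ℝ, Real.exp (α * T) * Real.exp (-(s * T)) = Real.exp (-((s - α) * T)) := fun T => by
    rw [← Real.exp_add]; congr 1; ring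
  unfold Pool.Agent.W263.BSD.LInt Pool.Agent.W263.BSD.lap
  simp only [e]
  exact ⟨exp_int_w (by linarith), exp_val_w (by linarith)⟩

/-- if `f' = f G` near a zero of `f`, then `f` vanishes near it -/
lemma ode_zero {f G : ℂ → ℂ} {z : ℂ} (hf : AnalyticAt ℂ f z) (hG : AnalyticAt ℂ G z) (h0 : f z = 0)
    (h : deriv f =ᶠ[𝓝 z] fun w => f w * G w) : ∀ᶠ w in 𝓝 z, f w = 0 := by
  have h1 := hf.analyticOrderAt_deriv_add_one
  have h2 : (fun w => f w - f z) = f := by funext w; rw [h0, sub_zero]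
  rw [h2] at h1
  have h3 : analyticOrderAt (deriv f) z = analyticOrderAt f z + analyticOrderAt G z := by
    rw [analyticOrderAt_congr h]
    exact analyticOrderAt_mul hf hG
  rw [h3] at h1
  rw [← analyticOrderAt_eq_top]
  by_contra hne
  have h4 : analyticOrderAt f z + 1 ≤ analyticOrderAt f z := by
    calc analyticOrderAt f z + 1 ≤ analyticOrderAt f z + analyticOrderAt G z + 1 := by gcongr; exact le_self_add
      _ = _ := h1
  have h5 : analyticOrderAt f z + 1 = analyticOrderAt f z := le_antisymm h4 le_self_add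
  generalize analyticOrderAt f z = k at *
  cases k with
  | top => exact hne rfl
  | coe k =>
    have : ((k + 1 : ℕ) : ℕ∞) = (k : ℕ) := by exact_mod_cast h5
    have := Nat.cast_injective (R := ℕ∞) this
    omega

/-- **Landau's theorem.** -/
theorem landau_T {b A : ℝ} (hb0 : 0 < b) (hb1 : b < 1)
    (hf0 : ∀ u, 0 < u → 0 ≤ Tu u + A * Real.exp ((b - 1) * u)) :
    ∀ s : ℂ, b < s.re → riemannZeta s ≠ 0 := by
  set a : ℝ := b - 1 with ha
  set f : ℝ → ℝ := fun u => Tu u + A * Real.exp (a * u) with hf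
  have hfm : Measurable f := Tu_meas.add (by fun_prop)
  set g : ℝ → ℝ := fun w => (-dslope Phc 0 (w : ℂ)).re + A / (w - a) with hg
  have hga : ∀ w > a, AnalyticAt ℝ g w := by
    intro w hw
    have hw' : a < w := hw
    have h1 : AnalyticAt ℂ (fun z => -dslope Phc 0 z) (w : ℂ) :=
      (dsl_diff.analyticAt (UU_open.mem_nhds (real_mem_UU (by linarith)))).neg
    refine (re_analytic h1).add ?_
    exact analyticAt_const.div (analyticAt_id.sub analyticAt_const) (by
      have : 0 < w - a := by linarith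
      exact this.ne')
  have hpos : ∀ w : ℝ, 0 < w → LInt f w ∧ ((lap f w : ℝ) : ℂ) = -(Phc w - Phc 0) / w + A / (w - a) := by
    intro w hw
    obtain ⟨t1, t2⟩ := Tu_lap hw
    obtain ⟨e1, e2⟩ := exp_L (α := a) (s := w) (by linarith)
    have i1 : LInt (fun T => A * Real.exp (a * T)) w := e1.const_mul A
    refine ⟨t1.add i1, ?_⟩
    have h1 : lap f w = lap Tu w + lap (fun T => A * Real.exp (a * T)) w :=
      Pool.Agent.W263.BSD.lap_add t1 i1
    have h2 : lap (fun T => A * Real.exp (a * T)) w = A / (w - a) := by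
      have : lap (fun T => A * Real.exp (a * T)) w = A * lap (fun T => Real.exp (a * T)) w :=
        Pool.Agent.W263.BSD.lap_const_mul A
      rw [this, e2]
      ring
    rw [h1, h2, t2]
    have h3 := Phi_eq hw
    have h4 := Phi_zero
    push_cast
    rw [h3, h4]
    ring
  have hreal : ∀ w : ℝ, 0 < w → lap f w = g w := by
    intro w hw
    have h1 := (hpos w hw).2
    have h2 := congrArg Complex.re h1
    rw [Complex.ofReal_re] at h2
    rw [h2, Complex.add_re]
    simp only [hg]
    have hwc : (w : ℂ) ≠ 0 := by exact_mod_cast hw.ne'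
    congr 1
    · rw [dslope_of_ne _ hwc, slope_def_field]
      congr 1
      rw [sub_zero]
      ring
    · have : (A : ℂ) / (w - a) = ((A / (w - a) : ℝ) : ℂ) := by push_cast; rfl
      rw [this, Complex.ofReal_re]
  obtain ⟨hL, -⟩ := Pool.Agent.TH988.RB.landau_lap hfm hf0 (w1 := 0) (a := a)
    (fun w hw => (hpos w hw).1) hga (fun w hw _ => hreal w hw)
  -- the complex identity
  set H : Set ℂ := {w | a < w.re} with hH
  have hHo : IsOpen H := isOpen_lt continuous_const Complex.continuous_re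
  have hHc : IsPreconnected H := (convex_halfSpace_re_gt a).isPreconnected
  have hne : ∀ w ∈ H, w - (a : ℂ) ≠ 0 := by
    intro w hw h
    have h1 := congrArg Complex.re h
    simp only [Complex.sub_re, Complex.ofReal_re, Complex.zero_re] at h1
    have : a < w.re := hw
    linarith
  have hlapd : ∀ w ∈ H, DifferentiableAt ℂ (lapC f) w := fun w hw =>
    Pool.Agent.W263.BSD.lapC_differentiableAt hfm hL hw
  set Gf : ℂ → ℂ := fun w => w * (1 + w) * (lapC f w - A / (w - a)) with hGf
  have hGd : ∀ w ∈ H, DifferentiableAt ℂ Gf w := by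
    intro w hw
    have h1 := hlapd w hw
    have h2 : DifferentiableAt ℂ (fun w : ℂ => (A : ℂ) / (w - a)) w :=
      (differentiableAt_const _).div (by fun_prop) (hne w hw)
    exact (by fun_prop : DifferentiableAt ℂ (fun w : ℂ => w * (1 + w)) w).mul (h1.sub h2)
  have hZd : Differentiable ℂ (fun w : ℂ => Z1 (1 + w)) :=
    Pool.Agent.W66.Z1_diff.comp (by fun_prop)
  have hZder : ∀ w : ℂ, deriv (fun w : ℂ => Z1 (1 + w)) w = deriv Z1 (1 + w) := by
    intro w
    exact deriv_comp_const_add Z1 1 w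
  have hdZd : Differentiable ℂ (fun w : ℂ => deriv Z1 (1 + w)) := by
    have h1 : Differentiable ℂ (deriv Z1) := fun z => (Pool.Agent.W66.Z1_diff.analyticAt z).deriv.differentiableAt
    exact h1.comp (by fun_prop)
  have hkey : Set.EqOn (fun w => Z1 (1 + w) * Gf w)
      (fun w => Z1 (1 + w) * ((1 + w) * Phc 0 + 1) + deriv Z1 (1 + w)) H := by
    refine AnalyticOnNhd.eqOn_of_preconnected_of_frequently_eq (z₀ := 1) ?_ ?_ hHc
      (by show a < (1 : ℂ).re; simp; linarith) ?_
    · refine DifferentiableOn.analyticOnNhd (fun w hw => ?_) hHo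
      exact ((hZd w).mul (hGd w hw)).differentiableWithinAt
    · refine DifferentiableOn.analyticOnNhd (fun w hw => ?_) hHo
      exact (((hZd w).mul (by fun_prop)).add (hdZd w)).differentiableWithinAt
    · have h1 : Tendsto (fun n : ℕ => (((1 : ℝ) + 1 / ((n : ℝ) + 1) : ℝ) : ℂ)) atTop (𝓝[≠] 1) := by
        rw [tendsto_nhdsWithin_iff]
        constructor
        · have h2 : Tendsto (fun n : ℕ => (1 : ℝ) + 1 / ((n : ℝ) + 1)) atTop (𝓝 (1 + 0)) :=
            tendsto_one_div_add_atTop_nhds_zero_nat.const_add 1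
          have h3 : Tendsto (fun n : ℕ => (((1 : ℝ) + 1 / ((n : ℝ) + 1) : ℝ) : ℂ)) atTop
              (𝓝 (((1 : ℝ) + 0 : ℝ) : ℂ)) := (Complex.continuous_ofReal.tendsto _).comp h2
          rwa [add_zero, Complex.ofReal_one] at h3
        · refine Eventually.of_forall fun n => ?_
          simp only [Set.mem_compl_iff, Set.mem_singleton_iff]
          intro h
          have h2 : (1 : ℝ) + 1 / ((n : ℝ) + 1) = 1 := by exact_mod_cast h
          have h3 : 0 < 1 / ((n : ℝ) + 1) := by positivity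
          linarith
      refine h1.frequently (Eventually.frequently (Eventually.of_forall fun n => ?_))
      set w : ℝ := (1 : ℝ) + 1 / ((n : ℝ) + 1) with hw
      have hw0 : 0 < w := by positivity
      have h2 := (hpos w hw0).2
      have h3 : lapC f (w : ℂ) = ((lap f w : ℝ) : ℂ) := Pool.Agent.W263.BSD.lapC_ofReal f w
      have hwc : (w : ℂ) ≠ 0 := by exact_mod_cast hw0.ne'
      have hU := real_mem_UU (w := w) (by linarith)
      have h4 : Phc w = -(1 + deriv Z1 (1 + w) / Z1 (1 + w)) / (1 + w) := rfl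
      simp only [hGf]
      rw [h3, h2]
      have h5 : -(Phc w - Phc 0) / (w : ℂ) + A / (w - a) - A / (w - a) = -(Phc w - Phc 0) / w := by ring
      rw [h5, h4]
      have h6 := hU.1
      have h7 := hU.2
      field_simp
      ring
  intro s hs hz
  have hs1 : s ≠ 1 := by
    rintro rfl
    exact riemannZeta_one_ne_zero hz
  have hZs : Z1 s = 0 := by rw [Pool.Agent.W66.Z1_eq hs1, hz, mul_zero]
  set w0 : ℂ := s - 1 with hw0
  have hw0H : w0 ∈ H := by
    show a < w0.re
    rw [hw0, Complex.sub_re, Complex.one_re]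
    linarith
  have h1w0 : 1 + w0 = s := by rw [hw0]; ring
  have hz2 := ode_zero (f := fun w : ℂ => Z1 (1 + w)) (G := fun w => Gf w - ((1 + w) * Phc 0 + 1)) (z := w0)
    (hZd.analyticAt w0)
    (((DifferentiableOn.analyticOnNhd (fun w hw => (hGd w hw).differentiableWithinAt) hHo) w0 hw0H).sub
      ((by fun_prop : Differentiable ℂ fun w : ℂ => (1 + w) * Phc 0 + 1).analyticAt w0))
    (by rw [h1w0]; exact hZs)
    (by
      filter_upwards [hHo.mem_nhds hw0H] with w hw
      rw [hZder w]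
      have := hkey hw
      rw [mul_sub]
      linear_combination -this)
  have hall : ∀ w : ℂ, Z1 (1 + w) = 0 := by
    have h1 : AnalyticOnNhd ℂ (fun w : ℂ => Z1 (1 + w)) Set.univ := fun w _ => hZd.analyticAt w
    have h2 : AnalyticOnNhd ℂ (fun _ : ℂ => (0 : ℂ)) Set.univ := fun w _ => analyticAt_const
    have h3 := h1.eqOn_of_preconnected_of_eventuallyEq h2 isPreconnected_univ (Set.mem_univ w0) hz2
    intro w
    exact h3 (Set.mem_univ w)
  have := hall 0
  rw [add_zero, Pool.Agent.W66.Z1_one] at this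
  exact one_ne_zero this

end

end Pool.Agent.K3h81.RB
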