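import Mathlib
import Pool.Agent.H305R2.Smooth
import Pool.Agent.H442R2.EHI.PntErr

/-!
# Mertens' product with its error term
-/

set_option autoImplicit false

namespace Pool.Agent.K3h81.RB

open Filter Topology MeasureTheory

noncomputable section

/-- `-log (1 - 1/x)` -/
def vv (x : ℝ) : ℝ := -Real.log (1 - 1 / x)

/-- `∑_{p ≤ x} -log (1 - 1/p)` -/
def VS (x : ℝ) : ℝ := ∑ p ∈ (Finset.Icc 1 ⌊x⌋₊).filter Nat.Prime, vv p

/-- the error term of the prime number theorem -/
def Rr (t : ℝ) : ℝ := Chebyshev.theta t - t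

/-- minus the derivative of `1 / (t log t)` -/
def ww (t : ℝ) : ℝ := (1 + Real.log t) / (t ^ 2 * Real.log t ^ 2)

def KK (x : ℝ) : ℝ := ∫ t in Set.Ioi x, Rr t * ww t

lemma vv_lower {x : ℝ} (hx : 1 < x) : 1 / x ≤ vv x := by
  unfold vv
  have h0 : 0 < 1 - 1 / x := by
    have : 1 / x < 1 := by rw [div_lt_one (by linarith)]; exact hx
    linarith
  have := Real.log_le_sub_one_of_pos h0
  linarith

lemma vv_upper {x : ℝ} (hx : 1 < x) : vv x ≤ 1 / (x - 1) := by
  unfold vv
  have h0 : 0 < 1 - 1 / x := by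
    have : 1 / x < 1 := by rw [div_lt_one (by linarith)]; exact hx
    linarith
  have h1 := Real.one_sub_inv_le_log_of_pos h0
  have h2 : (1 - 1 / x)⁻¹ = 1 + 1 / (x - 1) := by
    have : x - 1 ≠ 0 := by linarith
    have : x ≠ 0 := by linarith
    field_simp
    ring
  rw [h2] at h1
  linarith

lemma vv_pos {x : ℝ} (hx : 1 < x) : 0 < vv x :=
  lt_of_lt_of_le (by positivity) (vv_lower hx)

lemma vv_anti {x y : ℝ} (hx : 1 < x) (hxy : x ≤ y) : vv y ≤ vv x := by
  unfold vv
  have h0 : 0 < 1 - 1 / x := by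
    have : 1 / x < 1 := by rw [div_lt_one (by linarith)]; exact hx
    linarith
  have h1 : 1 / y ≤ 1 / x := one_div_le_one_div_of_le (by linarith) hxy
  have := Real.log_le_log h0 (by linarith : 1 - 1 / x ≤ 1 - 1 / y)
  linarith

/-- the difference `vv x - vv y` -/
lemma vv_sub {x y : ℝ} (hx : 1 < x) (hxy : x ≤ y) : (y - x) / (x * y) ≤ vv x - vv y := by
  have hx0 : 0 < x := by linarith
  have hy0 : 0 < y := by linarith
  have h0 : 0 < 1 - 1 / x := by
    have : 1 / x < 1 := by rw [div_lt_one (by linarith)]; exact hx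
    linarith
  have h1 : 0 < 1 - 1 / y := by
    have : 1 / y < 1 := by rw [div_lt_one (by linarith)]; linarith
    linarith
  have e : vv x - vv y = Real.log ((1 - 1 / y) / (1 - 1 / x)) := by
    unfold vv
    rw [Real.log_div h1.ne' h0.ne']
    ring
  rw [e]
  have h2 := Real.one_sub_inv_le_log_of_pos (div_pos h1 h0)
  refine le_trans ?_ h2
  rw [inv_div]
  have e2 : 1 - (1 - 1 / x) / (1 - 1 / y) = (y - x) / (x * (y - 1)) := by
    have : y - 1 ≠ 0 := by linarith
    field_simp
    ring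
  rw [e2]
  apply div_le_div_of_nonneg_left (by linarith) (mul_pos hx0 (by linarith))
  exact mul_le_mul_of_nonneg_left (by linarith) hx0.le

lemma VS_floor (x : ℝ) : VS x = VS (⌊x⌋₊ : ℝ) := by unfold VS; rw [Nat.floor_natCast]

lemma VS_eq_log (N : ℕ) : VS N = Real.log (Pool.Agent.H305R2.VV N) := by
  unfold VS Pool.Agent.H305R2.VV
  rw [Nat.floor_natCast, Real.log_prod]
  · refine Finset.sum_congr rfl fun p _ => ?_
    unfold vv
    rw [Real.log_inv, one_div]
  · intro p hp
    rw [Finset.mem_filter] at hp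
    have h2 : (2 : ℝ) ≤ p := by exact_mod_cast hp.2.two_le
    have h3 : (p : ℝ)⁻¹ ≤ 1 / 2 := by
      rw [inv_eq_one_div]
      exact one_div_le_one_div_of_le (by norm_num) h2
    have : 0 < 1 - (p : ℝ)⁻¹ := by linarith
    positivity

lemma VS_tendsto : Tendsto (fun N : ℕ => VS N - Real.log (Real.log N)) atTop
    (𝓝 Real.eulerMascheroniConstant) := by
  have h0 := Pool.Agent.H305R2.VV_tendsto
  have h1 := (Real.continuousAt_log (Real.exp_pos Real.eulerMascheroniConstant).ne').tendsto.comp h0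
  rw [Real.log_exp] at h1
  refine h1.congr' ?_
  filter_upwards [eventually_ge_atTop 3, h0.eventually_ne (Real.exp_pos _).ne'] with N hN hne
  have hN1 : (1 : ℝ) < N := by exact_mod_cast (by omega : 1 < N)
  have hl : 0 < Real.log N := Real.log_pos hN1
  have hV : Pool.Agent.H305R2.VV N ≠ 0 := by
    intro h
    rw [h, zero_div] at hne
    exact hne rfl
  simp only [Function.comp]
  rw [Real.log_div hV hl.ne', VS_eq_log]

/-- the coefficients `log p` -/
def cc (k : ℕ) : ℝ := if k.Prime then Real.log k else 0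

lemma sum_cc (t : ℝ) : ∑ k ∈ Finset.Icc 0 ⌊t⌋₊, cc k = Chebyshev.theta t := by
  rw [Chebyshev.theta_eq_sum_Icc, Finset.sum_filter]
  rfl

/-- the derivative of `1 / (t log t)` -/
lemma hasDerivAt_inv {t : ℝ} (ht : 1 < t) :
    HasDerivAt (fun t : ℝ => 1 / (t * Real.log t)) (-ww t) t := by
  have h0 : t ≠ 0 := by linarith
  have hl : 0 < Real.log t := Real.log_pos ht
  have h1 : HasDerivAt (fun t : ℝ => t * Real.log t) (1 * Real.log t + t * t⁻¹) t :=
    (hasDerivAt_id t).mul (Real.hasDerivAt_log h0)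
  have h2 : HasDerivAt (fun t : ℝ => (t * Real.log t)⁻¹)
      (-(1 * Real.log t + t * t⁻¹) / (t * Real.log t) ^ 2) t := h1.inv (mul_ne_zero h0 hl.ne')
  have h3 : (fun t : ℝ => 1 / (t * Real.log t)) = fun t => (t * Real.log t)⁻¹ := by
    funext s; rw [one_div]
  rw [h3]
  refine h2.congr_deriv ?_
  unfold ww
  field_simp
  ring

lemma ww_cont {a b : ℝ} (ha : 1 < a) : ContinuousOn ww (Set.Icc a b) := by
  unfold ww
  have h1 : ContinuousOn Real.log (Set.Icc a b) :=
    Real.continuousOn_log.mono fun t ht => by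
      simp only [Set.mem_compl_iff, Set.mem_singleton_iff]
      have := ht.1
      linarith
  refine ContinuousOn.div (continuousOn_const.add h1) (((continuous_pow 2).continuousOn).mul (h1.pow 2)) ?_
  intro t ht
  have h2 : 1 < t := lt_of_lt_of_le ha ht.1
  have h3 := Real.log_pos h2
  positivity

lemma ww_nonneg {t : ℝ} (ht : 1 ≤ t) : 0 ≤ ww t := by
  unfold ww
  have := Real.log_nonneg ht
  positivity

/-- Abel summation -/
lemma abel {x y : ℝ} (hx : 2 ≤ x) (hxy : x ≤ y) :
    ∑ p ∈ (Finset.Ioc ⌊x⌋₊ ⌊y⌋₊).filter Nat.Prime, (1 : ℝ) / p =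
      Chebyshev.theta y / (y * Real.log y) - Chebyshev.theta x / (x * Real.log x) +
        ∫ t in Set.Ioc x y, Chebyshev.theta t * ww t := by
  have hder : ∀ t ∈ Set.Icc x y, HasDerivAt (fun t : ℝ => 1 / (t * Real.log t)) (-ww t) t :=
    fun t ht => hasDerivAt_inv (by have := ht.1; linarith)
  have hdeq : Set.EqOn (deriv fun t : ℝ => 1 / (t * Real.log t)) (fun t => -ww t) (Set.Icc x y) :=
    fun t ht => (hder t ht).deriv
  have hint : IntegrableOn (deriv fun t : ℝ => 1 / (t * Real.log t)) (Set.Icc x y) := by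
    refine IntegrableOn.congr_fun ?_ (fun t ht => (hdeq ht).symm) measurableSet_Icc
    exact ((ww_cont (by linarith)).neg).integrableOn_Icc
  have h := sum_mul_eq_sub_sub_integral_mul cc (by linarith : (0 : ℝ) ≤ x) hxy
    (fun t ht => (hder t ht).differentiableAt) hint
  have e1 : ∑ p ∈ (Finset.Ioc ⌊x⌋₊ ⌊y⌋₊).filter Nat.Prime, (1 : ℝ) / p =
      ∑ k ∈ Finset.Ioc ⌊x⌋₊ ⌊y⌋₊, 1 / ((k : ℝ) * Real.log k) * cc k := by
    rw [Finset.sum_filter]
    refine Finset.sum_congr rfl fun k _ => ?_
    unfold cc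
    split_ifs with hk
    · have h2 : (1 : ℝ) < k := by exact_mod_cast hk.one_lt
      have h3 := Real.log_pos h2
      field_simp
    · ring
  rw [e1, h, sum_cc, sum_cc]
  have e2 : ∫ t in Set.Ioc x y, deriv (fun t : ℝ => 1 / (t * Real.log t)) t *
      ∑ k ∈ Finset.Icc 0 ⌊t⌋₊, cc k = -∫ t in Set.Ioc x y, Chebyshev.theta t * ww t := by
    rw [← integral_neg]
    refine setIntegral_congr_fun measurableSet_Ioc fun t ht => ?_
    rw [hdeq ⟨ht.1.le, ht.2⟩, sum_cc]
    ring
  rw [e2]
  ring

/-- the main term -/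
lemma main_term {x y : ℝ} (hx : 2 ≤ x) (hxy : x ≤ y) :
    Real.log (Real.log y) - Real.log (Real.log x) =
      y / (y * Real.log y) - x / (x * Real.log x) + ∫ t in Set.Ioc x y, t * ww t := by
  have hder : ∀ t ∈ Set.uIcc x y, HasDerivAt (fun t : ℝ => Real.log (Real.log t) - 1 / Real.log t)
      (t * ww t) t := by
    intro t ht
    rw [Set.uIcc_of_le hxy] at ht
    have ht1 : 1 < t := by have := ht.1; linarith
    have h0 : t ≠ 0 := by linarith
    have hl : 0 < Real.log t := Real.log_pos ht1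
    have h1 := (Real.hasDerivAt_log h0).log hl.ne'
    have h2 : HasDerivAt (fun t : ℝ => (Real.log t)⁻¹) (-t⁻¹ / Real.log t ^ 2) t :=
      (Real.hasDerivAt_log h0).inv hl.ne'
    have h3 : (fun t : ℝ => Real.log (Real.log t) - 1 / Real.log t) =
        fun t => Real.log (Real.log t) - (Real.log t)⁻¹ := by funext s; rw [one_div]
    rw [h3]
    refine (h1.fun_sub h2).congr_deriv ?_
    unfold ww
    field_simp
    ring
  have hint : IntervalIntegrable (fun t => t * ww t) volume x y := by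
    refine ContinuousOn.intervalIntegrable ?_
    rw [Set.uIcc_of_le hxy]
    exact continuousOn_id.mul (ww_cont (by linarith))
  have h := intervalIntegral.integral_eq_sub_of_hasDerivAt hder hint
  rw [intervalIntegral.integral_of_le hxy] at h
  rw [h]
  have hx0 : x ≠ 0 := by linarith
  have hy0 : y ≠ 0 := by linarith
  have e1 : y / (y * Real.log y) = 1 / Real.log y := by field_simp
  have e2 : x / (x * Real.log x) = 1 / Real.log x := by field_simp
  rw [e1, e2]
  ring

lemma theta_meas : Measurable Chebyshev.theta := Chebyshev.theta_mono.measurable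

lemma Rr_meas : Measurable Rr := theta_meas.sub measurable_id

lemma ww_meas : Measurable ww := by
  unfold ww
  fun_prop

lemma theta_ww_int {x y : ℝ} (hx : 2 ≤ x) :
    IntegrableOn (fun t => Chebyshev.theta t * ww t) (Set.Ioc x y) := by
  have h1 : IntegrableOn ww (Set.Ioc x y) :=
    (ww_cont (by linarith : (1 : ℝ) < x)).integrableOn_Icc.mono_set Set.Ioc_subset_Icc_self
  refine Integrable.bdd_mul (c := Chebyshev.theta y) h1 theta_meas.aestronglyMeasurable ?_
  filter_upwards [ae_restrict_mem measurableSet_Ioc] with t ht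
  rw [Real.norm_eq_abs, abs_of_nonneg (Chebyshev.theta_nonneg t)]
  exact Chebyshev.theta_mono ht.2

lemma id_ww_int {x y : ℝ} (hx : 2 ≤ x) : IntegrableOn (fun t => t * ww t) (Set.Ioc x y) :=
  (continuousOn_id.mul (ww_cont (by linarith : (1 : ℝ) < x))).integrableOn_Icc.mono_set
    Set.Ioc_subset_Icc_self

/-- the finite form of Mertens' theorem -/
lemma mertens_fin {x y : ℝ} (hx : 2 ≤ x) (hxy : x ≤ y) :
    ∑ p ∈ (Finset.Ioc ⌊x⌋₊ ⌊y⌋₊).filter Nat.Prime, (1 : ℝ) / p =
      Real.log (Real.log y) - Real.log (Real.log x) + Rr y / (y * Real.log y) -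
        Rr x / (x * Real.log x) + ∫ t in Set.Ioc x y, Rr t * ww t := by
  have h1 := abel hx hxy
  have h2 := main_term hx hxy
  have h3 : ∫ t in Set.Ioc x y, Rr t * ww t =
      (∫ t in Set.Ioc x y, Chebyshev.theta t * ww t) - ∫ t in Set.Ioc x y, t * ww t := by
    rw [← integral_sub (theta_ww_int hx) (id_ww_int hx)]
    refine integral_congr_ae (Eventually.of_forall fun t => ?_)
    simp only [Rr]
    ring
  rw [h1, h3]
  unfold Rr
  rw [sub_div, sub_div]
  linarith

/-- the prime number theorem with an error term, real variable -/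
lemma Rr_bound (U : ℕ) : ∃ C : ℝ, 0 < C ∧ ∀ t : ℝ, 2 ≤ t → |Rr t| ≤ C * (t / Real.log t ^ U) := by
  obtain ⟨C, hC, h⟩ := Pool.Agent.H442R2.EHI.PntErrAux.thetaU U
  obtain ⟨C2, hC2, h2⟩ := Pool.Agent.H442R2.EHI.PntErrAux.log_pow_le U
  refine ⟨2 ^ U * C + 2 ^ U * C2, by positivity, fun t ht => ?_⟩
  have ht0 : 0 < t := by linarith
  have hlt : 0 < Real.log t := Real.log_pos (by linarith)
  set N := ⌊t⌋₊ with hN
  have hN2 : 2 ≤ N := Nat.le_floor (by exact_mod_cast ht)
  have hN2' : (2 : ℝ) ≤ N := by exact_mod_cast hN2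
  have hNt : (N : ℝ) ≤ t := Nat.floor_le ht0.le
  have htN : t < N + 1 := Nat.lt_floor_add_one t
  have hlN : 0 < Real.log N := Real.log_pos (by linarith)
  have h3 : t ≤ (N : ℝ) ^ 2 := by nlinarith
  have h4 : Real.log t ≤ 2 * Real.log N := by
    have := Real.log_le_log ht0 h3
    rwa [Real.log_pow, Nat.cast_ofNat] at this
  have h5 := h N hN2
  have h6 : (N : ℝ) / Real.log N ^ U ≤ 2 ^ U * (t / Real.log t ^ U) := by
    rw [div_le_iff₀ (by positivity)]
    have h7 : Real.log t ^ U ≤ 2 ^ U * Real.log N ^ U := by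
      rw [← mul_pow]
      exact pow_le_pow_left₀ hlt.le h4 U
    have h8 : 0 < Real.log t ^ U := by positivity
    calc (N : ℝ) ≤ t := hNt
      _ = (t / Real.log t ^ U) * Real.log t ^ U := by field_simp
      _ ≤ (t / Real.log t ^ U) * (2 ^ U * Real.log N ^ U) := by gcongr
      _ = _ := by ring
  have h9 : (1 : ℝ) ≤ 2 ^ U * C2 * (t / Real.log t ^ U) := by
    have a1 := h2 N (by omega)
    have a2 : Real.log t ^ U ≤ 2 ^ U * (C2 * √(N : ℝ)) := by
      calc Real.log t ^ U ≤ (2 * Real.log N) ^ U := pow_le_pow_left₀ hlt.le h4 U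
        _ = 2 ^ U * Real.log N ^ U := mul_pow _ _ _
        _ ≤ _ := by gcongr
    have a3 : √(N : ℝ) ≤ t := by
      rw [Real.sqrt_le_left ht0.le]
      nlinarith
    rw [← mul_div_assoc, le_div_iff₀ (by positivity), one_mul]
    calc Real.log t ^ U ≤ 2 ^ U * (C2 * √(N : ℝ)) := a2
      _ ≤ 2 ^ U * (C2 * t) := by gcongr
      _ = _ := by ring
  have h10 : |Rr t| ≤ |Chebyshev.theta (N : ℝ) - N| + 1 := by
    unfold Rr
    rw [Chebyshev.theta_eq_theta_coe_floor t, ← hN]
    have : Chebyshev.theta (N : ℝ) - t = (Chebyshev.theta (N : ℝ) - N) + (N - t) := by ring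
    rw [this]
    refine (abs_add_le _ _).trans ?_
    have : |(N : ℝ) - t| ≤ 1 := by rw [abs_le]; constructor <;> linarith
    linarith
  calc |Rr t| ≤ C * ((N : ℝ) / Real.log N ^ U) + 1 := h10.trans (by linarith)
    _ ≤ C * (2 ^ U * (t / Real.log t ^ U)) + 2 ^ U * C2 * (t / Real.log t ^ U) := by
        gcongr
    _ = _ := by ring

lemma ww_le {t : ℝ} (ht : 3 ≤ t) : ww t ≤ 2 / (t ^ 2 * Real.log t) := by
  have hl : 1 ≤ Real.log t := by
    rw [Real.le_log_iff_exp_le (by linarith)]
    linarith [Real.exp_one_lt_d9]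
  unfold ww
  rw [div_le_div_iff₀ (by positivity) (by positivity)]
  have : 0 < t ^ 2 := by positivity
  nlinarith [mul_pos this (show 0 < Real.log t by linarith), mul_nonneg (mul_pos this (show 0 < Real.log t by linarith)).le (sub_nonneg.2 hl)]

lemma ww_le' {t : ℝ} (ht : 2 ≤ t) : ww t ≤ 4 / (t ^ 2 * Real.log t) := by
  have hl : 1 / 2 ≤ Real.log t := by
    have h1 : Real.log 2 ≤ Real.log t := Real.log_le_log (by norm_num) ht
    linarith [Real.log_two_gt_d9]
  unfold ww
  rw [div_le_div_iff₀ (by positivity) (by positivity)]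
  have : 0 < t ^ 2 := by positivity
  nlinarith [mul_pos this (show 0 < Real.log t by linarith), mul_nonneg (mul_pos this (show 0 < Real.log t by linarith)).le (sub_nonneg.2 hl)]

lemma int_log3 {x : ℝ} (hx : 2 ≤ x) :
    IntegrableOn (fun t : ℝ => 2 * (t * Real.log t ^ 3)⁻¹) (Set.Ioi x) := by
  have hder : ∀ t ∈ Set.Ici x, HasDerivAt (fun t : ℝ => -((Real.log t ^ 2)⁻¹)) (2 * (t * Real.log t ^ 3)⁻¹) t := by
    intro t ht
    have ht1 : 1 < t := by have : x ≤ t := ht; linarith
    have h0 : t ≠ 0 := by linarith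
    have hl : 0 < Real.log t := Real.log_pos ht1
    have h1 : HasDerivAt (fun t : ℝ => Real.log t ^ 2) (((2 : ℕ) : ℝ) * Real.log t ^ (2 - 1) * t⁻¹) t :=
      (Real.hasDerivAt_log h0).pow 2
    have h2 : HasDerivAt (fun t : ℝ => (Real.log t ^ 2)⁻¹)
        (-(((2 : ℕ) : ℝ) * Real.log t ^ (2 - 1) * t⁻¹) / (Real.log t ^ 2) ^ 2) t := h1.inv (by positivity)
    refine h2.fun_neg.congr_deriv ?_
    norm_num
    field_simp
  have hlim : Tendsto (fun t : ℝ => -((Real.log t ^ 2)⁻¹)) atTop (𝓝 (-0)) := by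
    refine Tendsto.neg ?_
    exact tendsto_inv_atTop_zero.comp ((tendsto_pow_atTop (by norm_num)).comp Real.tendsto_log_atTop)
  refine integrableOn_Ioi_deriv_of_nonneg (hder x Set.self_mem_Ici).continuousAt.continuousWithinAt
    (fun t ht => hder t (Set.mem_Ici.2 (le_of_lt ht))) (fun t ht => ?_) hlim
  have ht1 : 1 < t := by have : x < t := ht; linarith
  have hl : 0 < Real.log t := Real.log_pos ht1
  positivity

lemma Rw_int {x : ℝ} (hx : 2 ≤ x) : IntegrableOn (fun t => Rr t * ww t) (Set.Ioi x) := by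
  obtain ⟨C, hC, h⟩ := Rr_bound 2
  refine Integrable.mono' ((int_log3 hx).const_mul (2 * C)) (Rr_meas.mul ww_meas).aestronglyMeasurable ?_
  filter_upwards [ae_restrict_mem measurableSet_Ioi] with t ht
  have ht2 : 2 ≤ t := by have : x < t := ht; linarith
  have hl : 0 < Real.log t := Real.log_pos (by linarith)
  rw [norm_mul, Real.norm_eq_abs, Real.norm_eq_abs, abs_of_nonneg (ww_nonneg (by linarith))]
  calc |Rr t| * ww t ≤ (C * (t / Real.log t ^ 2)) * (4 / (t ^ 2 * Real.log t)) :=
        mul_le_mul (h t ht2) (ww_le' ht2) (ww_nonneg (by linarith)) (by positivity)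
    _ = 2 * C * (2 * (t * Real.log t ^ 3)⁻¹) := by
        field_simp
        ring

/-- **Mertens' product with its error term.** -/
theorem mertens_id {x : ℝ} (hx : 2 ≤ x) : ∃ τ : ℝ, 0 ≤ τ ∧ τ ≤ 2 / x ∧
    VS x = Real.eulerMascheroniConstant + Real.log (Real.log x) + Rr x / (x * Real.log x) -
      KK x - τ := by
  have hx0 : 0 < x := by linarith
  refine ⟨Real.eulerMascheroniConstant + Real.log (Real.log x) + Rr x / (x * Real.log x) -
      KK x - VS x, ?_⟩
  -- the difference along the integers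
  set F : ℕ → ℝ := fun N => (VS N - Real.log (Real.log N)) + Real.log (Real.log x) -
    Rr N / (N * Real.log N) + Rr x / (x * Real.log x) - (∫ t in Set.Ioc x N, Rr t * ww t) - VS x with hF
  have hlim : Tendsto F atTop (𝓝 (Real.eulerMascheroniConstant + Real.log (Real.log x) - 0 +
      Rr x / (x * Real.log x) - KK x - VS x)) := by
    refine Tendsto.sub_const (Tendsto.sub (Tendsto.add_const _ (Tendsto.sub
      (Tendsto.add_const _ VS_tendsto) ?_)) ?_) _
    · obtain ⟨C, hC, h⟩ := Rr_bound 1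
      rw [tendsto_zero_iff_norm_tendsto_zero]
      have hlog : Tendsto (fun N : ℕ => C / Real.log N) atTop (𝓝 0) :=
        Tendsto.const_div_atTop (Real.tendsto_log_atTop.comp tendsto_natCast_atTop_atTop) C
      refine squeeze_zero' (Eventually.of_forall fun _ => norm_nonneg _) ?_ hlog
      filter_upwards [eventually_ge_atTop 3] with N hN
      have hN3 : (3 : ℝ) ≤ N := by exact_mod_cast hN
      have hl : 1 ≤ Real.log N := by
        rw [Real.le_log_iff_exp_le (by linarith)]
        linarith [Real.exp_one_lt_d9]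
      rw [norm_div, Real.norm_eq_abs, Real.norm_of_nonneg (by positivity : (0 : ℝ) ≤ N * Real.log N),
        div_le_iff₀ (by positivity)]
      refine (h N (by linarith)).trans ?_
      rw [pow_one]
      have : C / Real.log N * (N * Real.log N) = C * N := by field_simp
      rw [this]
      refine mul_le_mul_of_nonneg_left ?_ hC.le
      exact div_le_self (by linarith) hl
    · have h1 := intervalIntegral_tendsto_integral_Ioi x (Rw_int hx)
        (tendsto_natCast_atTop_atTop (R := ℝ))
      refine h1.congr' ?_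
      filter_upwards [eventually_ge_atTop ⌈x⌉₊] with N hN
      rw [intervalIntegral.integral_of_le (Nat.ceil_le.1 hN)]
  have hb : ∀ᶠ N : ℕ in atTop, 0 ≤ F N ∧ F N ≤ 2 / x := by
    filter_upwards [eventually_ge_atTop ⌈x⌉₊] with N hN
    have hxN : x ≤ N := Nat.ceil_le.1 hN
    have h1 := mertens_fin hx hxN
    rw [Nat.floor_natCast] at h1
    have hfl : ⌊x⌋₊ ≤ N := by
      have := Nat.floor_le_floor hxN
      rwa [Nat.floor_natCast] at this
    have h2 : VS N - VS x = ∑ p ∈ (Finset.Ioc ⌊x⌋₊ N).filter Nat.Prime, vv p := by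
      unfold VS
      rw [Nat.floor_natCast, sub_eq_iff_eq_add, ← Finset.sum_union]
      · congr 1
        ext p
        simp only [Finset.mem_filter, Finset.mem_union, Finset.mem_Icc, Finset.mem_Ioc]
        constructor
        · rintro ⟨⟨a, b⟩, c⟩
          rcases le_or_gt p ⌊x⌋₊ with h | h
          · right; exact ⟨⟨a, h⟩, c⟩
          · left; exact ⟨⟨h, b⟩, c⟩
        · rintro (⟨⟨a, b⟩, c⟩ | ⟨⟨a, b⟩, c⟩)
          · exact ⟨⟨by omega, b⟩, c⟩
          · exact ⟨⟨a, by omega⟩, c⟩
      · rw [Finset.disjoint_left]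
        intro p hp hp'
        simp only [Finset.mem_filter, Finset.mem_Icc, Finset.mem_Ioc] at hp hp'
        omega
    have h3 : F N = ∑ p ∈ (Finset.Ioc ⌊x⌋₊ N).filter Nat.Prime, (vv p - 1 / (p : ℝ)) := by
      rw [Finset.sum_sub_distrib, h1, ← h2]
      simp only [hF]
      ring
    have hfx : 2 ≤ ⌊x⌋₊ := Nat.le_floor (by exact_mod_cast hx)
    have hterm : ∀ p : ℕ, 2 ≤ p → 0 ≤ vv p - 1 / (p : ℝ) ∧ vv p - 1 / (p : ℝ) ≤ 1 / ((p : ℝ) - 1) - 1 / p := by
      intro p hp
      have hp1 : (1 : ℝ) < p := by exact_mod_cast (by omega : 1 < p)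
      have a1 := vv_lower hp1
      have a2 := vv_upper hp1
      constructor <;> linarith
    have htel : ∀ N : ℕ, ⌊x⌋₊ ≤ N → ∑ r ∈ Finset.Ioc ⌊x⌋₊ N, (1 / ((r : ℝ) - 1) - 1 / r) =
        1 / (⌊x⌋₊ : ℝ) - 1 / N := by
      intro N hN
      induction N, hN using Nat.le_induction with
      | base => simp
      | succ b hab ih =>
        rw [Finset.sum_Ioc_succ_top hab, ih]
        push_cast
        ring
    rw [h3]
    constructor
    · refine Finset.sum_nonneg fun p hp => ?_
      simp only [Finset.mem_filter, Finset.mem_Ioc] at hp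
      exact (hterm p (by omega)).1
    · calc _ ≤ ∑ p ∈ (Finset.Ioc ⌊x⌋₊ N).filter Nat.Prime, (1 / ((p : ℝ) - 1) - 1 / p) := by
            refine Finset.sum_le_sum fun p hp => ?_
            simp only [Finset.mem_filter, Finset.mem_Ioc] at hp
            exact (hterm p (by omega)).2
        _ ≤ ∑ p ∈ Finset.Ioc ⌊x⌋₊ N, (1 / ((p : ℝ) - 1) - 1 / p) := by
            refine Finset.sum_le_sum_of_subset_of_nonneg (Finset.filter_subset _ _) fun p hp _ => ?_
            rw [Finset.mem_Ioc] at hp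
            have := hterm p (by omega)
            linarith
        _ ≤ 1 / (⌊x⌋₊ : ℝ) := by
            rw [htel N hfl]
            have : (0 : ℝ) ≤ 1 / (N : ℝ) := by positivity
            linarith
        _ ≤ 2 / x := by
            have h5 : x < ⌊x⌋₊ + 1 := Nat.lt_floor_add_one x
            have h6 : (2 : ℝ) ≤ ⌊x⌋₊ := by exact_mod_cast hfx
            rw [div_le_div_iff₀ (by linarith) hx0]
            linarith
  have e : Real.eulerMascheroniConstant + Real.log (Real.log x) - 0 +
      Rr x / (x * Real.log x) - KK x - VS x = Real.eulerMascheroniConstant + Real.log (Real.log x) +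
      Rr x / (x * Real.log x) - KK x - VS x := by ring
  rw [e] at hlim
  refine ⟨ge_of_tendsto hlim (hb.mono fun _ h => h.1), le_of_tendsto hlim (hb.mono fun _ h => h.2), ?_⟩
  ring

end

end Pool.Agent.K3h81.RB
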