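import Pool.Agent.K3h81.RB.Str

/-!
# Counting the exceptions
-/

set_option autoImplicit false

namespace Pool.Agent.K3h81.RB

open Filter Topology

noncomputable section

/-- the product of the missing primes -/
def aM (n : ℕ) : ℕ := ∏ p ∈ Miss n (Real.log n), p

/-- the product of the primes `p ≤ log n` which divide `n` -/
def bM (n : ℕ) : ℕ :=
  ∏ p ∈ ((Finset.Icc 1 ⌊Real.log n⌋₊).filter Nat.Prime).filter fun p => p ∣ n, p

/-- the product of the primes up to `m` -/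
def QM (m : ℕ) : ℕ := ∏ p ∈ (Finset.Icc 1 m).filter Nat.Prime, p

lemma QM_eq (n : ℕ) : bM n * aM n = QM ⌊Real.log n⌋₊ := by
  unfold bM aM QM Miss
  exact Finset.prod_filter_mul_prod_filter_not _ _ _

lemma bM_dvd {n : ℕ} (hn : n ≠ 0) : bM n ∣ n := by
  refine dvd_trans ?_ (Nat.prod_primeFactors_dvd n)
  unfold bM
  refine Finset.prod_dvd_prod_of_subset _ _ _ fun p hp => ?_
  simp only [Finset.mem_filter, Finset.mem_Icc] at hp
  exact Nat.mem_primeFactors.2 ⟨hp.1.2, hp.2, hn⟩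

lemma QM_pos (m : ℕ) : 0 < QM m :=
  Finset.prod_pos fun _ hp => (Finset.mem_filter.1 hp).2.pos

lemma aM_pos (n : ℕ) : 0 < aM n :=
  Finset.prod_pos fun p hp => by
    simp only [Miss, Finset.mem_filter, Finset.mem_Icc] at hp
    exact hp.1.2.pos

lemma bM_pos (n : ℕ) : 0 < bM n :=
  Finset.prod_pos fun p hp => by
    simp only [Finset.mem_filter, Finset.mem_Icc] at hp
    exact hp.1.2.pos

lemma log_QM (L : ℝ) : Real.log (QM ⌊L⌋₊) = Chebyshev.theta L := by
  rw [← theta_sum]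
  unfold QM
  rw [Nat.cast_prod, Real.log_prod]
  intro p hp
  have := (Finset.mem_filter.1 hp).2.pos
  positivity

lemma log_aM {n : ℕ} (hL : 2 ≤ Real.log n) :
    Real.log (aM n) ≤ (Miss n (Real.log n)).card * Real.log (Real.log n) := by
  unfold aM
  rw [Nat.cast_prod, Real.log_prod]
  · calc ∑ p ∈ Miss n (Real.log n), Real.log p ≤ ∑ p ∈ Miss n (Real.log n), Real.log (Real.log n) := by
          refine Finset.sum_le_sum fun p hp => ?_
          simp only [Miss, Finset.mem_filter, Finset.mem_Icc] at hp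
          have a : (0 : ℝ) < p := by exact_mod_cast hp.1.1.1
          exact Real.log_le_log a ((Nat.le_floor_iff (by linarith)).1 hp.1.1.2)
      _ = _ := by rw [Finset.sum_const, nsmul_eq_mul]
  · intro p hp
    simp only [Miss, Finset.mem_filter, Finset.mem_Icc] at hp
    have a : (0 : ℝ) < p := by exact_mod_cast hp.1.1.1
    exact a.ne'

lemma le_floor_exp {a : ℕ} {Φ : ℝ} (ha : 0 < a) (h : Real.log a ≤ Φ) : a ≤ ⌊Real.exp Φ⌋₊ := by
  rw [Nat.le_floor_iff (Real.exp_pos _).le]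
  rwa [Real.log_le_iff_le_exp (by exact_mod_cast ha)] at h

theorem count {S : Finset ℕ} {X Φ : ℝ} (hX : 0 ≤ X)
    (hS : ∀ n ∈ S, n ≠ 0 ∧ 2 ≤ Real.log n ∧ Real.log n ≤ X ∧
      ((Miss n (Real.log n)).card : ℝ) * Real.log (Real.log n) ≤ Φ ∧ |Rr (Real.log n)| ≤ Φ) :
    (S.card : ℝ) ≤ (X + 1) * Real.exp (3 * Φ) := by
  set T : Finset (ℕ × ℕ × ℕ) := Finset.range (⌊X⌋₊ + 1) ×ˢ Finset.Icc 1 ⌊Real.exp Φ⌋₊ ×ˢ
    Finset.Icc 1 ⌊Real.exp (2 * Φ)⌋₊ with hT
  have hmap : ∀ n ∈ S, (⌊Real.log n⌋₊, aM n, n / bM n) ∈ T := by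
    intro n hn
    obtain ⟨h0, h1, h2, h3, h4⟩ := hS n hn
    have hb := bM_dvd h0
    have hq : 0 < n / bM n := Nat.div_pos (Nat.le_of_dvd (Nat.pos_of_ne_zero h0) hb) (bM_pos n)
    simp only [hT, Finset.mem_product, Finset.mem_range, Finset.mem_Icc]
    refine ⟨?_, ⟨aM_pos n, le_floor_exp (aM_pos n) ((log_aM h1).trans h3)⟩, hq, le_floor_exp hq ?_⟩
    · have := Nat.floor_le_floor h2
      omega
    · have hbr : (0 : ℝ) < bM n := by exact_mod_cast bM_pos n
      have har : (0 : ℝ) < aM n := by exact_mod_cast aM_pos n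
      have hnr : (0 : ℝ) < n := by exact_mod_cast Nat.pos_of_ne_zero h0
      rw [Nat.cast_div hb hbr.ne', Real.log_div hnr.ne' hbr.ne']
      have h5 := congrArg (fun k : ℕ => Real.log (k : ℝ)) (QM_eq n)
      rw [log_QM, Nat.cast_mul, Real.log_mul hbr.ne' har.ne'] at h5
      have h6 := (log_aM h1).trans h3
      have h7 := (abs_le.1 h4).1
      unfold Rr at h7
      linarith
  have hinj : Set.InjOn (fun n : ℕ => (⌊Real.log n⌋₊, aM n, n / bM n)) S := by
    intro n hn n' hn' heq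
    simp only [Prod.mk.injEq] at heq
    obtain ⟨e1, e2, e3⟩ := heq
    have h0 := (hS n hn).1
    have h0' := (hS n' hn').1
    have f1 : n / bM n * (bM n * aM n) = n * aM n := by
      rw [← mul_assoc, Nat.div_mul_cancel (bM_dvd h0)]
    have f2 : n' / bM n' * (bM n' * aM n') = n' * aM n' := by
      rw [← mul_assoc, Nat.div_mul_cancel (bM_dvd h0')]
    rw [QM_eq] at f1 f2
    rw [← e3, ← e1, ← e2, f1] at f2
    exact Nat.eq_of_mul_eq_mul_right (aM_pos n) f2
  have hcard := Finset.card_le_card_of_injOn _ hmap hinj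
  have h1 : (S.card : ℝ) ≤ T.card := by exact_mod_cast hcard
  refine h1.trans ?_
  rw [hT, Finset.card_product, Finset.card_product, Finset.card_range, Nat.card_Icc, Nat.card_Icc,
    Nat.add_sub_cancel, Nat.add_sub_cancel]
  push_cast
  have h2 : (⌊X⌋₊ : ℝ) ≤ X := Nat.floor_le hX
  have h3 : (⌊Real.exp Φ⌋₊ : ℝ) ≤ Real.exp Φ := Nat.floor_le (Real.exp_pos _).le
  have h4 : (⌊Real.exp (2 * Φ)⌋₊ : ℝ) ≤ Real.exp (2 * Φ) := Nat.floor_le (Real.exp_pos _).le
  have h5 : Real.exp (3 * Φ) = Real.exp Φ * Real.exp (2 * Φ) := by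
    rw [← Real.exp_add]; congr 1; ring
  rw [h5]
  gcongr

/-- the number of `n ≤ x` with the property `P` -/
def cE (P : ℕ → Prop) (x : ℝ) : ℕ := by
  classical
  exact ((Finset.Icc 1 ⌊x⌋₊).filter P).card

/-- the general upper bound -/
theorem count_le {X x1 Φ : ℝ} (hx1 : 2 ≤ x1) (hX : x1 ≤ X)
    (hS : ∀ n : ℕ, x1 ≤ Real.log n → Real.log n ≤ X → Ef n →
      ((Miss n (Real.log n)).card : ℝ) * Real.log (Real.log n) ≤ Φ ∧ |Rr (Real.log n)| ≤ Φ) :
    (cE Ef (Real.exp X) : ℝ) ≤ Real.exp x1 + (X + 1) * Real.exp (3 * Φ) := by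
  classical
  set S : Finset ℕ := ((Finset.Icc 1 ⌊Real.exp X⌋₊).filter Ef).filter fun n => x1 ≤ Real.log n with hSd
  have h1 : (S.card : ℝ) ≤ (X + 1) * Real.exp (3 * Φ) := by
    refine count (by linarith) fun n hn => ?_
    simp only [hSd, Finset.mem_filter, Finset.mem_Icc] at hn
    obtain ⟨⟨⟨a, b⟩, c⟩, d⟩ := hn
    have hnX : Real.log n ≤ X := by
      rw [Real.log_le_iff_le_exp (by exact_mod_cast a)]
      exact (Nat.le_floor_iff (Real.exp_pos _).le).1 b
    obtain ⟨e, f⟩ := hS n d hnX c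
    exact ⟨by omega, by linarith, hnX, e, f⟩
  have h2 : (((Finset.Icc 1 ⌊Real.exp X⌋₊).filter Ef).filter fun n : ℕ => ¬ x1 ≤ Real.log n).card ≤
      ⌊Real.exp x1⌋₊ := by
    refine (Finset.card_le_card (t := Finset.Icc 1 ⌊Real.exp x1⌋₊) fun n hn => ?_).trans ?_
    · simp only [Finset.mem_filter, Finset.mem_Icc] at hn
      rw [Finset.mem_Icc]
      refine ⟨hn.1.1.1, ?_⟩
      rw [Nat.le_floor_iff (Real.exp_pos _).le]
      have := not_le.1 hn.2
      rw [Real.log_lt_iff_lt_exp (by exact_mod_cast hn.1.1.1)] at this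
      exact this.le
    · rw [Nat.card_Icc]; omega
  have h3 := Finset.card_filter_add_card_filter_not (s := (Finset.Icc 1 ⌊Real.exp X⌋₊).filter Ef)
    (fun n : ℕ => x1 ≤ Real.log n)
  have h4 : (cE Ef (Real.exp X) : ℝ) = (S.card : ℝ) +
      ((((Finset.Icc 1 ⌊Real.exp X⌋₊).filter Ef).filter fun n : ℕ => ¬ x1 ≤ Real.log n).card : ℝ) := by
    unfold cE
    rw [← h3]
    push_cast
    rfl
  have h5 : ((((Finset.Icc 1 ⌊Real.exp X⌋₊).filter Ef).filter fun n : ℕ => ¬ x1 ≤ Real.log n).card : ℝ) ≤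
      Real.exp x1 := by
    refine le_trans ?_ (Nat.floor_le (Real.exp_pos x1).le)
    exact_mod_cast h2
  rw [h4]
  linarith

end

end Pool.Agent.K3h81.RB
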