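import Pool.Agent.K3h81.RB.Low2

/-!
# Multiples of exceptions, and exceptions with a missing small prime
-/

set_option autoImplicit false

namespace Pool.Agent.K3h81.RB

open Filter Topology
open Nat (primesLE)

noncomputable section

lemma sigma_mul_le {m k : ℕ} (hm : m ≠ 0) (hk : k ≠ 0) :
    ArithmeticFunction.sigma 1 m * k ≤ ArithmeticFunction.sigma 1 (m * k) := by
  rw [ArithmeticFunction.sigma_one_apply, ArithmeticFunction.sigma_one_apply, Finset.sum_mul]
  have h1 : ∑ d ∈ m.divisors, d * k = ∑ e ∈ m.divisors.image (fun d => d * k), e := by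
    rw [Finset.sum_image]
    intro a _ b _ h
    exact Nat.eq_of_mul_eq_mul_right (Nat.pos_of_ne_zero hk) h
  rw [h1]
  refine Finset.sum_le_sum_of_subset fun e he => ?_
  rw [Finset.mem_image] at he
  obtain ⟨d, hd, rfl⟩ := he
  rw [Nat.mem_divisors] at hd ⊢
  exact ⟨Nat.mul_dvd_mul_right hd.1 k, mul_ne_zero hm hk⟩

lemma log_sigma_mul {m k : ℕ} (hm : m ≠ 0) (hk : k ≠ 0) :
    Real.log ((ArithmeticFunction.sigma 1 m : ℕ) / (m : ℝ)) ≤
      Real.log ((ArithmeticFunction.sigma 1 (m * k) : ℕ) / ((m * k : ℕ) : ℝ)) := by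
  have hm0 : (0 : ℝ) < m := by exact_mod_cast Nat.pos_of_ne_zero hm
  have hk0 : (0 : ℝ) < k := by exact_mod_cast Nat.pos_of_ne_zero hk
  have hs := sigma_pos hm
  apply Real.log_le_log (by positivity)
  have h1 : ((ArithmeticFunction.sigma 1 m : ℕ) : ℝ) * k ≤ (ArithmeticFunction.sigma 1 (m * k) : ℕ) := by
    exact_mod_cast sigma_mul_le hm hk
  rw [Nat.cast_mul, div_le_div_iff₀ hm0 (by positivity)]
  calc _ = (((ArithmeticFunction.sigma 1 m : ℕ) : ℝ) * k) * m := by ring
    _ ≤ _ := by gcongr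

/-- all multiples `n₀ k` with `log k ≤ N^κ` are exceptions -/
theorem mul_s {b κ : ℝ} (hb0 : 1 / 2 < b) (hb1 : b < 1) (hκ0 : 0 < κ) (hκ : κ < b) :
    ∀ᶠ N : ℕ in atTop, (N : ℝ) ^ (b - 1) < JJ N →
      Real.exp ((N : ℝ) ^ κ) - 1 ≤ cE Es (Real.exp (3 * N)) := by
  obtain ⟨C1, hC1, hr⟩ := rough
  filter_upwards [hr, ev_pow_nat (2 * (2 * C1 + 6)) (show (-(1 / 2) : ℝ) < b - 1 by linarith),
    ev_pow_nat 4 (show κ - 1 < b - 1 by linarith), ev_pow_nat 1 (show κ < 1 by linarith),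
    eventually_ge_atTop 6] with N hN1 hN3 hN4 hN5 d0 hJ
  obtain ⟨r1, r2, r3, r4, r5⟩ := hN1
  have hN6 : (6 : ℝ) ≤ N := by exact_mod_cast d0
  have hN0 : (0 : ℝ) < N := by linarith
  have hsq : 0 < √(N : ℝ) := Real.sqrt_pos.2 hN0
  have hss : √(N : ℝ) * √(N : ℝ) = N := Real.mul_self_sqrt hN0.le
  have hsq2 : (N : ℝ) ^ (-(1 / 2) : ℝ) = 1 / √(N : ℝ) := by
    rw [Real.rpow_neg hN0.le, ← Real.sqrt_eq_rpow, one_div]
  rw [hsq2] at hN3
  rw [Real.rpow_one, one_mul] at hN5
  have hκ1 : (N : ℝ) ^ (κ - 1) = (N : ℝ) ^ κ / N := by rw [Real.rpow_sub hN0, Real.rpow_one]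
  rw [hκ1] at hN4
  set K : ℕ := ⌊Real.exp ((N : ℝ) ^ κ)⌋₊ with hK
  have hn0 : nT N ∅ ≠ 0 := nT_ne
  have hn0pos : 0 < nT N ∅ := Nat.pos_of_ne_zero hn0
  have hl0 : Real.log (nT N ∅) = Chebyshev.psi N := by
    rw [log_nT (Finset.empty_subset _)]
    simp
  have hden : 0 < Chebyshev.theta N * Real.log (Chebyshev.theta N) := by linarith
  have hpt := Chebyshev.theta_le_psi N
  have h1 : (Finset.Icc 1 K).card ≤ cE Es (Real.exp (3 * N)) := by
    refine le_cE (f := fun k => nT N ∅ * k) (fun k hk => ?_) ?_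
    · rw [Finset.mem_Icc] at hk
      have hk0 : k ≠ 0 := by omega
      have hkr : (0 : ℝ) < k := by exact_mod_cast hk.1
      have hnr : (0 : ℝ) < nT N ∅ := by exact_mod_cast hn0pos
      have hlk : Real.log k ≤ (N : ℝ) ^ κ := by
        rw [Real.log_le_iff_le_exp hkr]
        exact (Nat.le_floor_iff (Real.exp_pos _).le).1 hk.2
      have hlk0 : 0 ≤ Real.log k := Real.log_nonneg (by exact_mod_cast hk.1)
      have hlog : Real.log ((nT N ∅ * k : ℕ) : ℝ) = Chebyshev.psi N + Real.log k := by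
        rw [Nat.cast_mul, Real.log_mul hnr.ne' hkr.ne', hl0]
      refine ⟨Nat.mul_pos hn0pos hk.1, ?_, ?_⟩
      · have hpos : (0 : ℝ) < ((nT N ∅ * k : ℕ) : ℝ) := by exact_mod_cast Nat.mul_pos hn0pos hk.1
        rw [← Real.log_le_iff_le_exp hpos, hlog]
        linarith
      · have hL1 : 1 < Real.log ((nT N ∅ * k : ℕ) : ℝ) := by rw [hlog]; linarith
        rw [Es_iff hL1]
        refine le_trans ?_ ((sig_nT (by omega) (Finset.empty_subset _)).trans (log_sigma_mul hn0 hk0))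
        have h2 := loglog_tangent (show 1 < Chebyshev.theta N by linarith) hL1
        rw [hlog] at h2 ⊢
        have h3 : (Chebyshev.psi N + Real.log k - Chebyshev.theta N) /
            (Chebyshev.theta N * Real.log (Chebyshev.theta N)) ≤
            2 * C1 * (1 / √(N : ℝ)) + 2 * ((N : ℝ) ^ κ / N) := by
          calc _ ≤ (C1 * √(N : ℝ) + (N : ℝ) ^ κ) / (N / 2) := by
                gcongr
                linarith
            _ = _ := by
                have h4 : C1 * √(N : ℝ) / (N / 2) = 2 * C1 * (1 / √(N : ℝ)) := by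
                  rw [div_eq_iff (by positivity)]
                  field_simp
                  rw [Real.sq_sqrt hN0.le]
                rw [add_div, h4]
                ring
        have h5 : 6 / √(N : ℝ) = 6 * (1 / √(N : ℝ)) := by ring
        rw [Finset.sum_empty, h5]
        unfold JJ at hJ
        linarith
    · intro a _ b _ h
      exact Nat.eq_of_mul_eq_mul_left hn0pos h
  rw [Nat.card_Icc, Nat.add_sub_cancel] at h1
  have h2 : (K : ℝ) ≤ cE Es (Real.exp (3 * N)) := by exact_mod_cast h1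
  have h3 := Nat.sub_one_lt_floor (Real.exp ((N : ℝ) ^ κ))
  linarith

/-- an exception which is not divisible by a small prime -/
theorem div_s {b : ℝ} (hb0 : 1 / 2 < b) (hb1 : b < 1) :
    ∀ᶠ N : ℕ in atTop, 2 * (N : ℝ) ^ (b - 1) < JJ N →
      ∃ n p : ℕ, Es n ∧ (N : ℝ) / 4 ≤ Real.log n ∧ p.Prime ∧ (p : ℝ) ≤ 4 * (N : ℝ) ^ (1 - b) ∧ ¬ p ∣ n := by
  obtain ⟨C1, hC1, hr⟩ := rough
  filter_upwards [hr, ev_pow_nat (2 * C1 + 6) (show (-(1 / 2) : ℝ) < b - 1 by linarith),
    ev_pow_nat 4 (show 1 - b < 1 by linarith), ev_log_nat 4 (show (0 : ℝ) < 1 by norm_num),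
    eventually_ge_atTop 8] with N hN1 hN3 hN4 hN5 d0 hJ
  obtain ⟨r1, r2, r3, r4, r5⟩ := hN1
  have hN6 : (8 : ℝ) ≤ N := by exact_mod_cast d0
  have hN0 : (0 : ℝ) < N := by linarith
  have hsq : 0 < √(N : ℝ) := Real.sqrt_pos.2 hN0
  have hsq2 : (N : ℝ) ^ (-(1 / 2) : ℝ) = 1 / √(N : ℝ) := by
    rw [Real.rpow_neg hN0.le, ← Real.sqrt_eq_rpow, one_div]
  rw [hsq2] at hN3
  rw [Real.rpow_one] at hN4
  rw [Real.rpow_zero, one_mul, Real.rpow_one] at hN5
  set y : ℝ := (N : ℝ) ^ (1 - b) with hy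
  have hy1 : 1 ≤ y := Real.one_le_rpow (by linarith) (by linarith)
  set m : ℕ := ⌈y⌉₊ with hm
  have hmy : y ≤ m := Nat.le_ceil y
  have hmy' : (m : ℝ) < y + 1 := Nat.ceil_lt_add_one (by linarith)
  have hm0 : m ≠ 0 := by
    intro h
    rw [h] at hmy
    norm_num at hmy
    linarith
  obtain ⟨p, hp, hmp, hp2⟩ := Nat.exists_prime_lt_and_le_two_mul m hm0
  have hp2' : (p : ℝ) ≤ 4 * y := by
    have : (p : ℝ) ≤ 2 * m := by exact_mod_cast hp2
    linarith
  have hpN : p ≤ N := by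
    have : (p : ℝ) ≤ N := by linarith
    exact_mod_cast this
  have hmem : p ∈ primesLE N := Nat.mem_primesLE.2 ⟨hpN, hp⟩
  have hT : ({p} : Finset ℕ) ⊆ primesLE N := Finset.singleton_subset_iff.2 hmem
  have hln := log_nT hT
  rw [Finset.sum_singleton] at hln
  have hp1 : (1 : ℝ) < p := by exact_mod_cast hp.one_lt
  have hklog : (p.log N : ℝ) * Real.log p ≤ Real.log N := by
    rw [← Real.log_pow]
    apply Real.log_le_log (by positivity)
    exact_mod_cast Nat.pow_log_le_self p (by omega : N ≠ 0)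
  have hklog0 : 0 ≤ (p.log N : ℝ) * Real.log p := mul_nonneg (Nat.cast_nonneg _) (Real.log_nonneg hp1.le)
  have hpt := Chebyshev.theta_le_psi N
  have hlow : (N : ℝ) / 4 ≤ Real.log (nT N {p}) := by
    rw [hln]
    linarith
  refine ⟨nT N {p}, p, ?_, hlow, hp, hp2', ?_⟩
  · refine crit_s (by omega) hT (by linarith) ?_
    rw [Finset.sum_singleton, Finset.sum_singleton]
    have hden : 0 < Chebyshev.theta N * Real.log (Chebyshev.theta N) := by linarith
    have h2 : (Chebyshev.psi N - (p.log N : ℝ) * Real.log p - Chebyshev.theta N) /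
        (Chebyshev.theta N * Real.log (Chebyshev.theta N)) ≤ 2 * C1 * (1 / √(N : ℝ)) := by
      calc _ ≤ (C1 * √(N : ℝ)) / (N / 2) := by
            gcongr
            linarith
        _ = 2 * C1 * (1 / √(N : ℝ)) := by
            rw [div_eq_iff (by positivity)]
            field_simp
            rw [Real.sq_sqrt hN0.le]
    have h3 : 6 / √(N : ℝ) = 6 * (1 / √(N : ℝ)) := by ring
    have h4 : vv p ≤ (N : ℝ) ^ (b - 1) := by
      have e : (N : ℝ) ^ (b - 1) = 1 / y := by
        rw [hy, one_div, ← Real.rpow_neg hN0.le]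
        congr 1
        ring
      rw [e]
      refine (vv_upper hp1).trans ?_
      apply one_div_le_one_div_of_le (by linarith)
      have : (m : ℝ) + 1 ≤ p := by exact_mod_cast hmp
      linarith
    rw [h3]
    linarith
  · intro hdvd
    have : p ∈ (nT N {p}).primeFactors := Nat.mem_primeFactors.2 ⟨hp, hdvd, nT_ne⟩
    rw [nT_pf] at this
    simp at this

end

end Pool.Agent.K3h81.RB
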