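import Pool.Agent.K3h81.RB.Up1
import Pool.Agent.K3h81.RB.Low3
import Pool.Agent.W190.Q306.A2
import Pool.Agent.H332R2.FL.ZeroExists

/-!
# The exact exponents
-/

set_option autoImplicit false

namespace Pool.Agent.K3h81.RB

open Filter Topology

noncomputable section

/-- the error term of the prime number theorem in a zero-free half-plane -/
lemma free_Rr {θ Θ : ℝ} (h0 : 1 / 2 ≤ θ) (hz : ∀ s : ℂ, θ < s.re → riemannZeta s ≠ 0) (hΘ : θ < Θ)
    (hΘ1 : Θ ≤ 1) : ∃ C : ℝ, ∀ t : ℝ, 1 ≤ t → |Rr t| ≤ C * t ^ Θ := by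
  obtain ⟨C, hC, h⟩ := Pool.Agent.W190.Q306.psi_bound (θ := θ) (σ := Θ) (by linarith) (fun s hs => by
    by_cases h : s = 1
    · rw [h, Pool.Agent.W190.Q306.Zs_one]
      exact one_ne_zero
    · rw [← Pool.Agent.H295R2.Zs_eq h]
      exact mul_ne_zero (sub_ne_zero.2 h) (hz s hs)) hΘ hΘ1
  obtain ⟨C1, h1⟩ := Chebyshev.psi_sub_theta_le_mul_sqrt
  refine ⟨C + |C1|, fun t ht => ?_⟩
  have ht0 : 0 < t := by linarith
  have h2 := h t ht
  have h3 := h1 t
  have h4 := Chebyshev.theta_le_psi t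
  have h5 : √t ≤ t ^ Θ := by
    rw [Real.sqrt_eq_rpow]
    exact Real.rpow_le_rpow_of_exponent_le ht (by linarith)
  have h6 : C1 * √t ≤ |C1| * t ^ Θ := by
    calc C1 * √t ≤ |C1| * √t := mul_le_mul_of_nonneg_right (le_abs_self _) (Real.sqrt_nonneg _)
      _ ≤ _ := mul_le_mul_of_nonneg_left h5 (abs_nonneg _)
  have h7 := abs_le.1 h2
  unfold Rr
  rw [abs_le]
  have h8 : 0 ≤ |C1| * t ^ Θ := by positivity
  rw [add_mul]
  constructor <;> linarith

lemma Ef_of_Es' {n : ℕ} (hn : 1 ≤ n) (h : Es n) : Ef n := by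
  rcases lt_or_ge 1 (Real.log n) with hL | hL
  · exact Ef_of_Es hL h
  · unfold Ef
    have hn1 : (1 : ℝ) ≤ n := by exact_mod_cast hn
    have h1 : Real.log (Real.log n) ≤ 0 := Real.log_nonpos (Real.log_nonneg hn1) hL
    have h2 : 0 ≤ Real.exp Real.eulerMascheroniConstant * (Nat.totient n) := by positivity
    have := mul_nonpos_of_nonneg_of_nonpos h2 h1
    linarith

lemma cE_le (x : ℝ) : cE Es x ≤ cE Ef x := by
  classical
  unfold cE
  refine Finset.card_le_card fun n hn => ?_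
  rw [Finset.mem_filter] at hn ⊢
  exact ⟨hn.1, Ef_of_Es' (Finset.mem_Icc.1 hn.1).1 hn.2⟩

/-- zero-free half-plane -/
def ZFree (θ : ℝ) : Prop := ∀ s : ℂ, θ < s.re → riemannZeta s ≠ 0

/-- the bound for the number of the exceptions -/
def CntB (P : ℕ → Prop) (θ : ℝ) : Prop :=
  ∀ ε : ℝ, 0 < ε → ∀ᶠ x : ℝ in atTop, (cE P x : ℝ) ≤ Real.exp (Real.log x ^ ((1 + θ) / 2 + ε))

/-- the divisibility of the exceptions -/
def DivB (θ : ℝ) : Prop :=
  ∀ ε : ℝ, 0 < ε → ∀ᶠ n : ℕ in atTop, Es n → ∀ k : ℕ, 0 < k →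
    (k : ℝ) ≤ Real.log n ^ (1 - θ - ε) → k ∣ n

theorem cnt_of_free {θ : ℝ} (h0 : 1 / 2 ≤ θ) (h1 : θ < 1) (hz : ZFree θ) : CntB Ef θ := by
  intro ε hε
  set Θ : ℝ := min (θ + ε) ((1 + θ) / 2) with hΘ
  have hΘ1 : Θ ≤ θ + ε := min_le_left _ _
  have hΘ2 : Θ ≤ (1 + θ) / 2 := min_le_right _ _
  have hΘ3 : θ < Θ := lt_min (by linarith) (by linarith)
  obtain ⟨C, hC⟩ := free_Rr h0 hz hΘ3 (by linarith)
  have h2 := up_cnt (c := (1 + θ) / 2 + ε) (by linarith) hC (by linarith) (by linarith)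
  have h3 := Real.tendsto_log_atTop.eventually h2
  filter_upwards [h3, eventually_gt_atTop 0] with x hx hx0
  rwa [Real.exp_log hx0] at hx

theorem div_of_free {θ : ℝ} (h0 : 1 / 2 ≤ θ) (h1 : θ < 1) (hz : ZFree θ) : DivB θ := by
  intro ε hε
  set Θ : ℝ := min (θ + ε / 2) ((1 + θ) / 2) with hΘ
  have hΘ1 : Θ ≤ θ + ε / 2 := min_le_left _ _
  have hΘ2 : Θ ≤ (1 + θ) / 2 := min_le_right _ _
  have hΘ3 : θ < Θ := lt_min (by linarith) (by linarith)
  obtain ⟨C, hC⟩ := free_Rr h0 hz hΘ3 (by linarith)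
  exact up_div (by linarith) hC (by linarith) (by linarith)

lemma cnt_mono {θ : ℝ} (h : CntB Ef θ) : CntB Es θ := by
  intro ε hε
  filter_upwards [h ε hε] with x hx
  exact le_trans (by exact_mod_cast cE_le x) hx

/-- comparison of the number of the exceptions with the bound -/
lemma contra_cnt {P : ℕ → Prop} {κ c a d : ℝ} (ha : 0 < a) (hc : c < κ) (hκ0 : 0 < κ) (hd : 0 ≤ d)
    (h : ∀ᶠ x : ℝ in atTop, (cE P x : ℝ) ≤ Real.exp (Real.log x ^ c))
    (hJ : ∀ N0 : ℕ, ∃ N : ℕ, N0 ≤ N ∧ Real.exp ((N : ℝ) ^ κ) - d ≤ cE P (Real.exp (a * N))) : False := by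
  have h1 : Tendsto (fun N : ℕ => Real.exp (a * N)) atTop atTop :=
    Real.tendsto_exp_atTop.comp (tendsto_natCast_atTop_atTop.const_mul_atTop ha)
  have h2 := h1.eventually h
  have h3 := ev_pow_nat (2 * a ^ c) hc
  have h4 : ∀ᶠ N : ℕ in atTop, 4 + 2 * d ≤ (N : ℝ) ^ κ :=
    ((tendsto_rpow_atTop hκ0).comp tendsto_natCast_atTop_atTop).eventually_ge_atTop _
  obtain ⟨N0, hN0⟩ := eventually_atTop.1 (h2.and (h3.and (h4.and (eventually_ge_atTop 1))))
  obtain ⟨N, hN, hJN⟩ := hJ N0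
  obtain ⟨a1, a2, a3, a4⟩ := hN0 N hN
  rw [Real.log_exp] at a1
  have hN1 : (0 : ℝ) < N := by exact_mod_cast a4
  have e1 : (a * (N : ℝ)) ^ c = a ^ c * (N : ℝ) ^ c := Real.mul_rpow ha.le hN1.le
  rw [e1] at a1
  have h5 : a ^ c * (N : ℝ) ^ c ≤ (N : ℝ) ^ κ / 2 := by linarith
  have h6 := Real.exp_le_exp.2 h5
  set E := Real.exp ((N : ℝ) ^ κ / 2) with hE
  have h7 : Real.exp ((N : ℝ) ^ κ) = E * E := by rw [hE, ← Real.exp_add]; congr 1; ring
  have h8 : (N : ℝ) ^ κ / 2 + 1 ≤ E := Real.add_one_le_exp _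
  rw [h7] at hJN
  nlinarith

theorem free_of_cnt {θ : ℝ} (h0 : 1 / 2 ≤ θ) (h1 : θ < 1) (h : CntB Es θ) : ZFree θ := by
  -- first step
  have hfree1 : ZFree ((1 + θ) / 2) := by
    intro ρ hρ hz
    have hρ1 : ρ.re < 1 := by
      by_contra hcon
      exact riemannZeta_ne_zero_of_one_le_re (not_lt.1 hcon) hz
    set c0 : ℝ := (1 + θ) / 2 with hc0
    set b : ℝ := (c0 + ρ.re) / 2 with hb
    have hb1 : c0 < b := by rw [hb]; linarith
    have hb2 : b < ρ.re := by rw [hb]; linarith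
    set κ : ℝ := (c0 + b) / 2 with hκ
    have hε : 0 < (κ - c0) / 2 := by rw [hκ]; linarith
    have hc0' : 3 / 4 ≤ c0 := by rw [hc0]; linarith
    refine contra_cnt (P := Es) (κ := κ) (c := c0 + (κ - c0) / 2) (a := 3) (d := 1) (by norm_num)
      (by linarith) (by linarith) zero_le_one (h _ hε) fun N0 => ?_
    have hm := mul_s (b := b) (κ := κ) (by linarith) (by linarith) (by linarith) (by rw [hκ]; linarith)
    obtain ⟨N1, hN1⟩ := eventually_atTop.1 hm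
    obtain ⟨N, hN, hJ⟩ := JJ_large (by linarith) hz hb2 1 (max N0 N1)
    refine ⟨N, (le_max_left _ _).trans hN, hN1 N ((le_max_right _ _).trans hN) ?_⟩
    rwa [one_mul] at hJ
  -- second step
  intro ρ hρ hz
  have hρ1 : ρ.re < 1 := by
    by_contra hcon
    exact riemannZeta_ne_zero_of_one_le_re (not_lt.1 hcon) hz
  set b : ℝ := (θ + ρ.re) / 2 with hb
  have hb1 : θ < b := by rw [hb]; linarith
  have hb2 : b < ρ.re := by rw [hb]; linarith
  set Θ : ℝ := ((1 + θ) / 2 + (1 + b) / 2) / 2 with hΘ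
  obtain ⟨C, hC⟩ := free_Rr (θ := (1 + θ) / 2) (Θ := Θ) (by linarith) hfree1 (by rw [hΘ]; linarith)
    (by rw [hΘ]; linarith)
  have hm := del_s (b := b) (Θ := Θ) (κ := Θ) (by linarith) (by linarith) (by rw [hΘ]; linarith)
    (by rw [hΘ]; linarith) hC (by rw [hΘ]; linarith)
  have hε : 0 < (Θ - (1 + θ) / 2) / 2 := by rw [hΘ]; linarith
  refine contra_cnt (P := Es) (κ := Θ) (c := (1 + θ) / 2 + (Θ - (1 + θ) / 2) / 2) (a := 2) (d := 0) (by norm_num)
      (by linarith) (by linarith) le_rfl (h _ hε) fun N0 => ?_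
  obtain ⟨N1, hN1⟩ := eventually_atTop.1 hm
  obtain ⟨N, hN, hJ⟩ := JJ_large (by linarith) hz hb2 33 (max N0 N1)
  refine ⟨N, (le_max_left _ _).trans hN, ?_⟩
  rw [sub_zero]
  exact hN1 N ((le_max_right _ _).trans hN) hJ

theorem free_of_div {θ : ℝ} (h0 : 1 / 2 ≤ θ) (h1 : θ < 1) (h : DivB θ) : ZFree θ := by
  intro ρ hρ hz
  have hρ1 : ρ.re < 1 := by
    by_contra hcon
    exact riemannZeta_ne_zero_of_one_le_re (not_lt.1 hcon) hz
  set b : ℝ := (θ + ρ.re) / 2 with hb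
  have hb1 : θ < b := by rw [hb]; linarith
  have hb2 : b < ρ.re := by rw [hb]; linarith
  have hε : 0 < (b - θ) / 2 := by linarith
  obtain ⟨n0, hn0⟩ := eventually_atTop.1 (h _ hε)
  have hc : 1 - b < 1 - θ - (b - θ) / 2 := by linarith
  set c : ℝ := 1 - θ - (b - θ) / 2 with hcd
  have hc0 : 0 < c := by linarith
  have e1 := ev_pow_nat (4 * 4 ^ c) hc
  have hm := div_s (b := b) (by linarith) (by linarith)
  obtain ⟨N1, hN1⟩ := eventually_atTop.1 (e1.and (hm.and (eventually_ge_atTop 1)))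
  obtain ⟨N, hN, hJ⟩ := JJ_large (by linarith) hz hb2 2 (max (4 * n0) N1)
  obtain ⟨a1, a2, a3⟩ := hN1 N ((le_max_right _ _).trans hN)
  obtain ⟨n, p, p1, p2, p3, p4, p5⟩ := a2 hJ
  have hNn : 4 * n0 ≤ N := (le_max_left _ _).trans hN
  have hN0 : (0 : ℝ) < N := by exact_mod_cast a3
  have hnn0 : n0 ≤ n := by
    have h2 : (4 * n0 : ℝ) ≤ N := by exact_mod_cast hNn
    have hn1 : (0 : ℝ) < n := by
      rcases Nat.eq_zero_or_pos n with h3 | h3
      · exfalso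
        rw [h3, Nat.cast_zero, Real.log_zero] at p2
        linarith
      · exact_mod_cast h3
    have h3 : Real.log n ≤ n := (Real.log_le_sub_one_of_pos hn1).trans (by linarith)
    have h4 : (n0 : ℝ) ≤ n := by linarith
    exact_mod_cast h4
  refine p5 (hn0 n hnn0 p1 p p3.pos (p4.trans ?_))
  calc 4 * (N : ℝ) ^ (1 - b) = (4 * 4 ^ c * (N : ℝ) ^ (1 - b)) / 4 ^ c := by
        have : (0 : ℝ) < 4 ^ c := by positivity
        field_simp
    _ ≤ (N : ℝ) ^ c / 4 ^ c := by gcongr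
    _ = ((N : ℝ) / 4) ^ c := (Real.div_rpow hN0.le (by norm_num) c).symm
    _ ≤ Real.log n ^ c := Real.rpow_le_rpow (by positivity) p2 hc0.le

/-- **The exact exponents.** -/
theorem exponents {θ : ℝ} (h0 : 1 / 2 ≤ θ) (h1 : θ < 1) :
    (ZFree θ ↔ CntB Es θ) ∧ (ZFree θ ↔ CntB Ef θ) ∧ (ZFree θ ↔ DivB θ) :=
  ⟨⟨fun h => cnt_mono (cnt_of_free h0 h1 h), free_of_cnt h0 h1⟩,
    ⟨cnt_of_free h0 h1, fun h => free_of_cnt h0 h1 (cnt_mono h)⟩,
    ⟨div_of_free h0 h1, free_of_div h0 h1⟩⟩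

/-- if there is a zero with a real part larger than `1/2`, there are many exceptions to Robin's inequality -/
theorem not_free {θ : ℝ} (h0 : 1 / 2 ≤ θ) (h1 : θ < 1) (h : ¬ ZFree θ) : ∃ η : ℝ, 0 < η ∧
    ∃ᶠ x : ℝ in atTop, Real.exp (Real.log x ^ ((1 + θ) / 2 + η)) < cE Es x := by
  rw [(exponents h0 h1).1] at h
  unfold CntB at h
  push Not at h
  obtain ⟨ε, hε, h2⟩ := h
  exact ⟨ε, hε, h2⟩

/-- the exponent `3/4` for the totient function -/
theorem three_quarters (ε : ℝ) (hε : 0 < ε) :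
    ∃ᶠ x : ℝ in atTop, Real.exp (Real.log x ^ (3 / 4 - ε)) ≤ cE Ef x := by
  by_cases hRH : ZFree (1 / 2)
  · -- all zeros on the line
    set δ : ℝ := min ε (1 / 4) with hδ
    have hδ0 : 0 < δ := lt_min hε (by norm_num)
    have hδ1 : δ ≤ ε := min_le_left _ _
    have hδ2 : δ ≤ 1 / 4 := min_le_right _ _
    set b : ℝ := 1 / 2 - δ / 2 with hb
    obtain ⟨C, hC⟩ := free_Rr (θ := 1 / 2) (Θ := 5 / 8) le_rfl hRH (by norm_num) (by norm_num)
    have hm := del_f (b := b) (Θ := 5 / 8) (κ := 3 / 4 - δ / 2) (by linarith) (by linarith)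
      (by rw [hb]; linarith) (by rw [hb]; linarith) hC (by norm_num)
    obtain ⟨ρ, r0, r1, -⟩ := H332.FL.exists_zero_re_ge_half 0
    have e1 := ev_pow_nat (2 ^ (3 / 4 - ε : ℝ)) (show (3 / 4 - ε : ℝ) < 3 / 4 - δ / 2 by linarith)
    rw [frequently_atTop]
    intro x0
    obtain ⟨N1, hN1⟩ := eventually_atTop.1 (e1.and (hm.and (eventually_ge_atTop 1)))
    obtain ⟨N, hN, hJ⟩ := JJ_large (by linarith : 0 < b) r0 (by rw [hb]; linarith) 33 (max ⌈x0⌉₊ N1)
    obtain ⟨a1, a2, a3⟩ := hN1 N ((le_max_right _ _).trans hN)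
    have hN0 : (0 : ℝ) < N := by exact_mod_cast a3
    refine ⟨Real.exp (2 * N), ?_, ?_⟩
    · have h2 : x0 ≤ N := (Nat.le_ceil x0).trans (by exact_mod_cast (le_max_left _ _).trans hN)
      have h3 := Real.add_one_le_exp (2 * (N : ℝ))
      linarith
    · rw [Real.log_exp]
      refine le_trans (Real.exp_le_exp.2 ?_) (a2 hJ)
      rw [Real.mul_rpow (by norm_num) hN0.le]
      exact a1
  · obtain ⟨η, hη, h⟩ := not_free le_rfl (by norm_num) hRH
    have h2 := h.and_eventually (eventually_ge_atTop (Real.exp 1))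
    refine h2.mono fun x hx => ?_
    obtain ⟨hx1, hx2⟩ := hx
    have hx0 : 0 < x := (Real.exp_pos 1).trans_le hx2
    have hl : 1 ≤ Real.log x := by rwa [Real.le_log_iff_exp_le hx0]
    have h3 : Real.log x ^ (3 / 4 - ε) ≤ Real.log x ^ ((1 + 1 / 2) / 2 + η) :=
      Real.rpow_le_rpow_of_exponent_le hl (by linarith)
    calc Real.exp (Real.log x ^ (3 / 4 - ε)) ≤ Real.exp (Real.log x ^ ((1 + 1 / 2) / 2 + η)) :=
          Real.exp_le_exp.2 h3
      _ ≤ cE Es x := hx1.le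
      _ ≤ cE Ef x := by exact_mod_cast cE_le x

end

end Pool.Agent.K3h81.RB
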