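import Mathlib

/-!
# Fubini on a triangle
-/

set_option autoImplicit false

namespace Pool.Agent.K3h81.RB

open Filter Topology MeasureTheory

theorem tri {a : ℝ} {m g M : ℝ → ℝ} (hm : Measurable m) (hg : Measurable g)
    (hm0 : ∀ u, a < u → 0 ≤ m u) (hmi : ∀ v, a < v → IntegrableOn m (Set.Ioo a v))
    (hM : ∀ v, a < v → ∫ u in Set.Ioo a v, m u = M v)
    (hgM : IntegrableOn (fun v => g v * M v) (Set.Ioi a)) :
    IntegrableOn (fun u => m u * ∫ v in Set.Ioi u, g v) (Set.Ioi a) ∧
      ∫ u in Set.Ioi a, m u * (∫ v in Set.Ioi u, g v) = ∫ v in Set.Ioi a, g v * M v := by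
  set F : ℝ → ℝ → ℝ := fun u v => if a < u ∧ u < v then m u * g v else 0 with hF
  have hFm : Measurable (Function.uncurry F) := by
    refine Measurable.ite ?_ ?_ measurable_const
    · exact (measurableSet_lt measurable_const measurable_fst).inter
        (measurableSet_lt measurable_fst measurable_snd)
    · exact (hm.comp measurable_fst).mul (hg.comp measurable_snd)
  have hsec : ∀ v, (fun u => F u v) = (Set.Ioo a v).indicator fun u => m u * g v := by
    intro v
    funext u
    simp only [hF, Set.indicator_apply, Set.mem_Ioo]
  have hsec2 : ∀ u, (fun v => F u v) = if a < u then (Set.Ioi u).indicator fun v => m u * g v else 0 := by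
    intro u
    funext v
    simp only [hF]
    by_cases h : a < u
    · simp only [h, true_and, if_true, Set.indicator_apply, Set.mem_Ioi]
    · simp [h]
  have hI1 : ∀ v, ∫ u, F u v = (Set.Ioi a).indicator (fun v => g v * M v) v := by
    intro v
    rw [hsec v, integral_indicator measurableSet_Ioo, integral_mul_const]
    by_cases h : a < v
    · rw [Set.indicator_of_mem (show v ∈ Set.Ioi a from h), hM v h, mul_comm]
    · rw [Set.indicator_of_notMem (show v ∉ Set.Ioi a from h), Set.Ioo_eq_empty h]
      simp
  have hI2 : ∀ v, ∫ u, ‖F u v‖ = (Set.Ioi a).indicator (fun v => |g v| * M v) v := by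
    intro v
    have e : (fun u => ‖F u v‖) = (Set.Ioo a v).indicator fun u => m u * |g v| := by
      funext u
      have : F u v = (Set.Ioo a v).indicator (fun u => m u * g v) u := congrFun (hsec v) u
      rw [this]
      by_cases h : u ∈ Set.Ioo a v
      · rw [Set.indicator_of_mem h, Set.indicator_of_mem h, norm_mul, Real.norm_eq_abs, Real.norm_eq_abs,
          abs_of_nonneg (hm0 u h.1)]
      · rw [Set.indicator_of_notMem h, Set.indicator_of_notMem h, norm_zero]
    rw [e, integral_indicator measurableSet_Ioo, integral_mul_const]
    by_cases h : a < v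
    · rw [Set.indicator_of_mem (show v ∈ Set.Ioi a from h), hM v h, mul_comm]
    · rw [Set.indicator_of_notMem (show v ∉ Set.Ioi a from h), Set.Ioo_eq_empty h]
      simp
  have hM0 : ∀ v, a < v → 0 ≤ M v := fun v hv => by
    rw [← hM v hv]
    exact setIntegral_nonneg measurableSet_Ioo fun u hu => hm0 u hu.1
  have hint : Integrable (Function.uncurry F) (volume.prod volume) := by
    rw [integrable_prod_iff' hFm.aestronglyMeasurable]
    constructor
    · refine Eventually.of_forall fun v => ?_
      simp only [Function.uncurry]
      rw [hsec v, integrable_indicator_iff measurableSet_Ioo]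
      by_cases h : a < v
      · exact (hmi v h).mul_const _
      · rw [Set.Ioo_eq_empty h]; exact integrableOn_empty
    · simp only [Function.uncurry]
      simp only [hI2]
      rw [integrable_indicator_iff measurableSet_Ioi]
      refine IntegrableOn.congr_fun (f := fun v => ‖g v * M v‖) hgM.norm (fun v hv => ?_) measurableSet_Ioi
      show ‖g v * M v‖ = |g v| * M v
      rw [norm_mul, Real.norm_eq_abs, Real.norm_eq_abs, abs_of_nonneg (hM0 v hv)]
  have hout : ∀ u, ∫ v, F u v = (Set.Ioi a).indicator (fun u => m u * ∫ v in Set.Ioi u, g v) u := by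
    intro u
    rw [hsec2 u]
    by_cases h : a < u
    · rw [Set.indicator_of_mem (show u ∈ Set.Ioi a from h), if_pos h,
        integral_indicator measurableSet_Ioi, integral_const_mul]
    · rw [Set.indicator_of_notMem (show u ∉ Set.Ioi a from h), if_neg h]
      simp
  constructor
  · have h1 := hint.integral_prod_left
    simp only [Function.uncurry] at h1
    simp only [hout] at h1
    rwa [integrable_indicator_iff measurableSet_Ioi] at h1
  · have h1 := integral_integral_swap (f := F) hint
    simp only [hout, hI1] at h1
    rwa [integral_indicator measurableSet_Ioi, integral_indicator measurableSet_Ioi] at h1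

end Pool.Agent.K3h81.RB
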