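import Pool.Agent.K3h81.RB.Base
import Pool.Agent.K3h81.RB.Tri

/-!
# The error term in logarithmic variables
-/

set_option autoImplicit false

namespace Pool.Agent.K3h81.RB

open Filter Topology MeasureTheory

noncomputable section

/-- `ψ(e^v) e^{-v} - 1` -/
def ru (v : ℝ) : ℝ := Chebyshev.psi (Real.exp v) * Real.exp (-v) - 1

def kk (u : ℝ) : ℝ := ∫ v in Set.Ioi u, ru v * ((1 + v) / v ^ 2)

def Tu (u : ℝ) : ℝ := ∫ v in Set.Ioi u, ru v

lemma ru_meas : Measurable ru := by
  unfold ru
  exact ((Chebyshev.psi_mono.measurable.comp Real.measurable_exp).mul (by fun_prop)).sub_const 1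

lemma exp_half_ge {v : ℝ} (hv : 0 ≤ v) : v ^ 3 / 48 ≤ Real.exp (v / 2) := by
  have h1 := Real.pow_div_factorial_le_exp (v / 2) (by positivity) 3
  have h2 : (v / 2) ^ 3 / ((3 : ℕ).factorial : ℝ) = v ^ 3 / 48 := by
    norm_num [Nat.factorial]
    ring
  rw [h2] at h1
  exact h1

lemma ru_bound : ∃ C : ℝ, 0 < C ∧ (∀ v : ℝ, 1 ≤ v → |ru v| ≤ C / v ^ 3) ∧ ∀ v : ℝ, 0 ≤ v → |ru v| ≤ C := by
  obtain ⟨C, hC, h⟩ := Rr_bound 3
  obtain ⟨C1, h1⟩ := Chebyshev.psi_sub_theta_le_mul_sqrt
  refine ⟨C + 48 * |C1| + 7, by positivity, fun v hv => ?_, fun v hv => ?_⟩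
  · have ht : 2 ≤ Real.exp v := by
      have h2 : Real.exp 1 ≤ Real.exp v := Real.exp_le_exp.2 hv
      linarith [Real.exp_one_gt_d9]
    have hv0 : 0 < v := by linarith
    have h2 := h _ ht
    rw [Real.log_exp] at h2
    have h3 := h1 (Real.exp v)
    have h4 := Chebyshev.theta_le_psi (Real.exp v)
    have hs : √(Real.exp v) = Real.exp (v / 2) := by
      rw [Real.sqrt_eq_rpow, ← Real.exp_mul]
      congr 1
      ring
    rw [hs] at h3
    have h5 : |Chebyshev.psi (Real.exp v) - Real.exp v| ≤ C * (Real.exp v / v ^ 3) + |C1| * Real.exp (v / 2) := by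
      have e : Chebyshev.psi (Real.exp v) - Real.exp v = Rr (Real.exp v) +
          (Chebyshev.psi (Real.exp v) - Chebyshev.theta (Real.exp v)) := by unfold Rr; ring
      rw [e]
      refine (abs_add_le _ _).trans (add_le_add h2 ?_)
      rw [abs_of_nonneg (by linarith)]
      refine h3.trans ?_
      exact mul_le_mul_of_nonneg_right (le_abs_self _) (Real.exp_pos _).le
    have h6 : ru v = (Chebyshev.psi (Real.exp v) - Real.exp v) * Real.exp (-v) := by
      unfold ru
      have : Real.exp v * Real.exp (-v) = 1 := by rw [← Real.exp_add]; simp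
      linear_combination this
    rw [h6, abs_mul, abs_of_pos (Real.exp_pos _)]
    have h7 : Real.exp (v / 2) * Real.exp (-v) ≤ 48 / v ^ 3 := by
      have h8 := exp_half_ge hv0.le
      have h9 : Real.exp (v / 2) * Real.exp (-v) = (Real.exp (v / 2))⁻¹ := by
        rw [← Real.exp_neg, ← Real.exp_add]
        congr 1
        ring
      rw [h9, inv_eq_one_div, div_le_div_iff₀ (Real.exp_pos _) (by positivity)]
      linarith
    have h10 : Real.exp v * Real.exp (-v) = 1 := by rw [← Real.exp_add]; simp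
    have hC1 := abs_nonneg C1
    calc |Chebyshev.psi (Real.exp v) - Real.exp v| * Real.exp (-v) ≤
        (C * (Real.exp v / v ^ 3) + |C1| * Real.exp (v / 2)) * Real.exp (-v) := by gcongr
      _ = C * ((Real.exp v * Real.exp (-v)) / v ^ 3) + |C1| * (Real.exp (v / 2) * Real.exp (-v)) := by ring
      _ ≤ C * (1 / v ^ 3) + |C1| * (48 / v ^ 3) := by rw [h10]; gcongr
      _ = (C + 48 * |C1|) / v ^ 3 := by ring
      _ ≤ _ := div_le_div_of_nonneg_right (by linarith) (by positivity)
  · have h2 := Chebyshev.psi_le_const_mul_self (Real.exp_pos v).le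
    have h3 := Chebyshev.psi_nonneg (Real.exp v)
    have h10 : Real.exp v * Real.exp (-v) = 1 := by rw [← Real.exp_add]; simp
    have h4 : Chebyshev.psi (Real.exp v) * Real.exp (-v) ≤ Real.log 4 + 4 := by
      calc _ ≤ ((Real.log 4 + 4) * Real.exp v) * Real.exp (-v) := by gcongr
        _ = (Real.log 4 + 4) * (Real.exp v * Real.exp (-v)) := by ring
        _ = _ := by rw [h10, mul_one]
    have h5 : Real.log 4 ≤ 2 := by
      rw [show (4 : ℝ) = 2 ^ 2 by norm_num, Real.log_pow]
      have := Real.log_two_lt_d9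
      push_cast
      linarith
    have h6 : 0 ≤ Chebyshev.psi (Real.exp v) * Real.exp (-v) := mul_nonneg h3 (Real.exp_pos _).le
    have hC1 := abs_nonneg C1
    unfold ru
    rw [abs_le]
    constructor <;> linarith

lemma int_cube {u : ℝ} (hu : 0 < u) : IntegrableOn (fun v : ℝ => 1 / v ^ 3) (Set.Ioi u) := by
  have h := integrableOn_Ioi_rpow_of_lt (show (-3 : ℝ) < -1 by norm_num) hu
  refine h.congr_fun (fun v hv => ?_) measurableSet_Ioi
  have hv0 : 0 < v := lt_trans hu hv
  simp only
  rw [Real.rpow_neg hv0.le, one_div]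
  norm_cast

lemma ru_int : IntegrableOn ru (Set.Ioi 0) := by
  obtain ⟨C, hC, h1, h2⟩ := ru_bound
  rw [← Set.Ioc_union_Ioi_eq_Ioi (show (0 : ℝ) ≤ 1 by norm_num)]
  refine IntegrableOn.union ?_ ?_
  · refine Measure.integrableOn_of_bounded (M := C) (by simp) ru_meas.aestronglyMeasurable ?_
    filter_upwards [ae_restrict_mem measurableSet_Ioc] with v hv
    exact h2 v hv.1.le
  · refine Integrable.mono' ((int_cube one_pos).const_mul C) ru_meas.aestronglyMeasurable ?_
    filter_upwards [ae_restrict_mem measurableSet_Ioi] with v hv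
    have := h1 v (le_of_lt hv)
    rw [Real.norm_eq_abs]
    calc |ru v| ≤ C / v ^ 3 := this
      _ = C * (1 / v ^ 3) := by ring

lemma ru_int' {u : ℝ} (hu : 0 ≤ u) : IntegrableOn ru (Set.Ioi u) :=
  ru_int.mono_set (Set.Ioi_subset_Ioi hu)

lemma ruq_int {u : ℝ} (hu : 0 < u) : IntegrableOn (fun v => ru v * ((1 + v) / v ^ 2)) (Set.Ioi u) := by
  refine Integrable.mul_bdd (c := (1 / u ^ 2 + 1 / u)) (ru_int' hu.le)
    ((by fun_prop : Measurable fun v : ℝ => (1 + v) / v ^ 2).aestronglyMeasurable) ?_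
  filter_upwards [ae_restrict_mem measurableSet_Ioi] with v hv
  have hv0 : 0 < v := lt_trans hu hv
  have huv : u ≤ v := le_of_lt hv
  rw [Real.norm_of_nonneg (by positivity)]
  have e : (1 + v) / v ^ 2 = 1 / v ^ 2 + 1 / v := by field_simp
  rw [e]
  gcongr

lemma Tu_bdd' : ∀ u : ℝ, 0 ≤ u → |Tu u| ≤ ∫ v in Set.Ioi 0, |ru v| := by
  intro u hu
  unfold Tu
  refine (abs_integral_le_integral_abs).trans ?_
  exact setIntegral_mono_set ru_int.abs (Eventually.of_forall fun v => abs_nonneg _)
    (Set.Ioi_subset_Ioi hu).eventuallyLE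

/-- change of variables -/
lemma cov_int (g : ℝ → ℝ) (u : ℝ) : ∫ t in Set.Ioi (Real.exp u), g t =
    ∫ v in Set.Ioi u, Real.exp v * g (Real.exp v) := by
  have himg : Real.exp '' Set.Ioi u = Set.Ioi (Real.exp u) := by
    ext t
    simp only [Set.mem_image, Set.mem_Ioi]
    constructor
    · rintro ⟨v, hv, rfl⟩; exact Real.exp_lt_exp.2 hv
    · intro ht
      have ht0 : 0 < t := (Real.exp_pos u).trans ht
      exact ⟨Real.log t, by rwa [Real.lt_log_iff_exp_lt ht0], Real.exp_log ht0⟩
  rw [← himg, integral_image_eq_integral_abs_deriv_smul measurableSet_Ioi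
    (fun v _ => (Real.hasDerivAt_exp v).hasDerivWithinAt) Real.exp_injective.injOn]
  refine setIntegral_congr_fun measurableSet_Ioi fun v _ => ?_
  simp only [smul_eq_mul, abs_of_pos (Real.exp_pos v)]

lemma cov_integrable {g : ℝ → ℝ} {u : ℝ} : IntegrableOn g (Set.Ioi (Real.exp u)) ↔
    IntegrableOn (fun v => Real.exp v * g (Real.exp v)) (Set.Ioi u) := by
  have himg : Real.exp '' Set.Ioi u = Set.Ioi (Real.exp u) := by
    ext t
    simp only [Set.mem_image, Set.mem_Ioi]
    constructor
    · rintro ⟨v, hv, rfl⟩; exact Real.exp_lt_exp.2 hv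
    · intro ht
      have ht0 : 0 < t := (Real.exp_pos u).trans ht
      exact ⟨Real.log t, by rwa [Real.lt_log_iff_exp_lt ht0], Real.exp_log ht0⟩
  rw [← himg, integrableOn_image_iff_integrableOn_abs_deriv_smul measurableSet_Ioi
    (fun v _ => (Real.hasDerivAt_exp v).hasDerivWithinAt) Real.exp_injective.injOn]
  simp only [smul_eq_mul, abs_of_pos (Real.exp_pos _)]

lemma KK_le_kk {u : ℝ} (hu : Real.log 2 ≤ u) : KK (Real.exp u) ≤ kk u := by
  have hx : 2 ≤ Real.exp u := by
    rw [← Real.log_le_iff_le_exp (by norm_num)]; exact hu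
  have hu0 : 0 < u := lt_of_lt_of_le (Real.log_pos (by norm_num)) hu
  unfold KK kk
  rw [cov_int]
  have h1 := cov_integrable.1 (Rw_int hx)
  refine setIntegral_mono_on h1 (ruq_int hu0) measurableSet_Ioi fun v hv => ?_
  have hv0 : 0 < v := lt_trans hu0 hv
  have h2 := Chebyshev.theta_le_psi (Real.exp v)
  unfold Rr ru ww
  rw [Real.log_exp]
  have h3 : Real.exp v * ((Chebyshev.theta (Real.exp v) - Real.exp v) * ((1 + v) / (Real.exp v ^ 2 * v ^ 2))) =
      (Chebyshev.theta (Real.exp v) * Real.exp (-v) - 1) * ((1 + v) / v ^ 2) := by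
    rw [Real.exp_neg]
    have := Real.exp_pos v
    field_simp
  rw [h3]
  refine mul_le_mul_of_nonneg_right ?_ (by positivity)
  have := mul_le_mul_of_nonneg_right h2 (Real.exp_pos (-v)).le
  linarith

/-- `λ(v) = v² / (1 + v)` has the derivative `(2 v + v²) / (1 + v)²` -/
lemma lam_deriv {v : ℝ} (hv : 0 < v) :
    HasDerivAt (fun v : ℝ => v ^ 2 / (1 + v)) ((2 * v + v ^ 2) / (1 + v) ^ 2) v := by
  have h1 : HasDerivAt (fun v : ℝ => v ^ 2) (((2 : ℕ) : ℝ) * v ^ (2 - 1)) v := hasDerivAt_pow 2 v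
  have h2 : HasDerivAt (fun v : ℝ => 1 + v) 1 v := (hasDerivAt_id v).const_add 1
  have h3 := h1.fun_div h2 (show (1 : ℝ) + v ≠ 0 by positivity)
  refine h3.congr_deriv ?_
  norm_num
  ring

theorem Tu_lower {b C u : ℝ} (hb : b < 1) (hC : 0 ≤ C) (hu : 0 < u)
    (h : ∀ s, u ≤ s → -(C * Real.exp ((b - 1) * s)) ≤ kk s) :
    -(C * (u + 1 / (1 - b)) * Real.exp ((b - 1) * u)) ≤ Tu u := by
  set m : ℝ → ℝ := fun s => (2 * s + s ^ 2) / (1 + s) ^ 2 with hm
  set lam : ℝ → ℝ := fun s => s ^ 2 / (1 + s) with hlam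
  have hmc : ∀ v, u < v → ContinuousOn m (Set.Icc u v) := fun v _ => by
    rw [hm]
    refine ContinuousOn.div (by fun_prop) (by fun_prop) fun s hs => ?_
    have : 0 < s := lt_of_lt_of_le hu hs.1
    positivity
  have hMv : ∀ v, u < v → ∫ s in Set.Ioo u v, m s = lam v - lam u := by
    intro v hv
    rw [← integral_Ioc_eq_integral_Ioo, ← intervalIntegral.integral_of_le hv.le]
    refine intervalIntegral.integral_eq_sub_of_hasDerivAt (fun s hs => ?_) ?_
    · rw [Set.uIcc_of_le hv.le] at hs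
      exact lam_deriv (by linarith [hs.1])
    · refine ContinuousOn.intervalIntegrable ?_
      rw [Set.uIcc_of_le hv.le]
      exact hmc v hv
  have hq : ∀ v, u < v → ru v * ((1 + v) / v ^ 2) * (lam v - lam u) =
      ru v - lam u * (ru v * ((1 + v) / v ^ 2)) := by
    intro v hv
    have hv0 : 0 < v := by linarith
    simp only [hlam]
    field_simp
  have hint1 : IntegrableOn (fun v => ru v * ((1 + v) / v ^ 2) * (lam v - lam u)) (Set.Ioi u) := by
    refine IntegrableOn.congr_fun (f := fun v => ru v - lam u * (ru v * ((1 + v) / v ^ 2)))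
      ((ru_int' hu.le).sub ((ruq_int hu).const_mul _)) (fun v hv => (hq v hv).symm) measurableSet_Ioi
  obtain ⟨t1, t2⟩ := tri (a := u) (m := m) (g := fun v => ru v * ((1 + v) / v ^ 2))
    (M := fun v => lam v - lam u) (by rw [hm]; fun_prop) (ru_meas.mul (by fun_prop))
    (fun s hs => by
      have : 0 < s := by linarith
      simp only [hm]
      positivity)
    (fun v hv => (hmc v hv).integrableOn_Icc.mono_set Set.Ioo_subset_Icc_self) hMv hint1
  have hT : Tu u = lam u * kk u + ∫ s in Set.Ioi u, m s * kk s := by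
    have e1 : ∫ v in Set.Ioi u, ru v * ((1 + v) / v ^ 2) * (lam v - lam u) = Tu u - lam u * kk u := by
      rw [setIntegral_congr_fun measurableSet_Ioi (fun v hv => hq v hv),
        integral_sub (ru_int' hu.le) ((ruq_int hu).const_mul _), integral_const_mul]
      rfl
    rw [e1] at t2
    unfold kk at *
    linarith
  have hE : IntegrableOn (fun s => Real.exp ((b - 1) * s)) (Set.Ioi u) :=
    integrableOn_exp_mul_Ioi (by linarith) u
  have hEv : ∫ s in Set.Ioi u, Real.exp ((b - 1) * s) = Real.exp ((b - 1) * u) / (1 - b) := by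
    rw [integral_exp_mul_Ioi (by linarith)]
    have : b - 1 ≠ 0 := by linarith
    have : 1 - b ≠ 0 := by linarith
    field_simp
    ring
  have h1 : -(C * (Real.exp ((b - 1) * u) / (1 - b))) ≤ ∫ s in Set.Ioi u, m s * kk s := by
    rw [← hEv, ← integral_const_mul, ← integral_neg]
    refine setIntegral_mono_on (hE.const_mul C).neg t1 measurableSet_Ioi fun s hs => ?_
    have hs0 : 0 < s := lt_trans hu hs
    have h2 := h s (le_of_lt hs)
    have hm0 : 0 ≤ m s := by simp only [hm]; positivity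
    have hm1 : m s ≤ 1 := by
      simp only [hm]
      rw [div_le_one (by positivity)]
      nlinarith
    have h3 : 0 ≤ C * Real.exp ((b - 1) * s) := by positivity
    have h4 := mul_le_mul_of_nonneg_left h2 hm0
    have h5 : m s * (C * Real.exp ((b - 1) * s)) ≤ 1 * (C * Real.exp ((b - 1) * s)) :=
      mul_le_mul_of_nonneg_right hm1 h3
    show -(C * Real.exp ((b - 1) * s)) ≤ m s * kk s
    linarith
  have h2 : -(u * (C * Real.exp ((b - 1) * u))) ≤ lam u * kk u := by
    have h3 := h u le_rfl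
    have h4 : 0 ≤ lam u := by simp only [hlam]; positivity
    have h5 : lam u ≤ u := by
      simp only [hlam]
      rw [div_le_iff₀ (by positivity)]
      nlinarith
    have h6 : 0 ≤ C * Real.exp ((b - 1) * u) := by positivity
    have h7 := mul_le_mul_of_nonneg_left h3 h4
    have h8 := mul_le_mul_of_nonneg_right h5 h6
    linarith
  rw [hT]
  have e : C * (u + 1 / (1 - b)) * Real.exp ((b - 1) * u) =
      u * (C * Real.exp ((b - 1) * u)) + C * (Real.exp ((b - 1) * u) / (1 - b)) := by ring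
  rw [e]
  linarith

end

end Pool.Agent.K3h81.RB
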