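import Pool.Agent.K3h81.RB.Lan2

/-!
# Large values of Mertens' product from a zero of the zeta function
-/

set_option autoImplicit false

namespace Pool.Agent.K3h81.RB

open Filter Topology MeasureTheory

noncomputable section

/-- `∑_{p ≤ x} -log (1 - 1/p) - γ - log log θ(x)` -/
def JJ (x : ℝ) : ℝ := VS x - Real.eulerMascheroniConstant - Real.log (Real.log (Chebyshev.theta x))

lemma JJ_floor (x : ℝ) : JJ x = JJ (⌊x⌋₊ : ℝ) := by
  unfold JJ
  rw [VS_floor, Chebyshev.theta_eq_theta_coe_floor]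

/-- concavity of `log log` -/
lemma loglog_tangent {a t : ℝ} (ha : 1 < a) (ht : 1 < t) :
    Real.log (Real.log t) ≤ Real.log (Real.log a) + (t - a) / (a * Real.log a) := by
  have ha0 : 0 < a := by linarith
  have ht0 : 0 < t := by linarith
  have hla : 0 < Real.log a := Real.log_pos ha
  have hlt : 0 < Real.log t := Real.log_pos ht
  have h1 := Real.log_le_sub_one_of_pos (div_pos hlt hla)
  rw [Real.log_div hlt.ne' hla.ne'] at h1
  have h2 := Real.log_le_sub_one_of_pos (div_pos ht0 ha0)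
  rw [Real.log_div ht0.ne' ha0.ne'] at h2
  have h3 : Real.log t / Real.log a - 1 ≤ (t - a) / (a * Real.log a) := by
    rw [div_sub_one hla.ne', div_le_div_iff₀ hla (by positivity)]
    have h4 : t / a - 1 = (t - a) / a := by field_simp
    rw [h4] at h2
    have h5 : Real.log t - Real.log a ≤ (t - a) / a := by linarith
    have h6 : (Real.log t - Real.log a) * (a * Real.log a) ≤ (t - a) / a * (a * Real.log a) :=
      mul_le_mul_of_nonneg_right h5 (by positivity)
    calc _ ≤ (t - a) / a * (a * Real.log a) := h6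
      _ = _ := by field_simp
  linarith

lemma theta_gt_one {x : ℝ} (hx : 5 ≤ x) : 1 < Chebyshev.theta x := by
  have h1 : Chebyshev.theta 5 ≤ Chebyshev.theta x := Chebyshev.theta_mono hx
  have h2 : Chebyshev.theta (5 : ℝ) = Real.log 2 + Real.log 3 + Real.log 5 := by
    rw [Chebyshev.theta_eq_sum_Icc]
    have : ⌊(5 : ℝ)⌋₊ = 5 := by norm_num
    rw [this]
    have : (Finset.Icc 0 5).filter Nat.Prime = {2, 3, 5} := by decide
    rw [this]
    rw [Finset.sum_insert (by decide), Finset.sum_insert (by decide), Finset.sum_singleton]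
    push_cast
    ring
  have h3 : 1 < Real.log 3 := by
    rw [Real.lt_log_iff_exp_lt (by norm_num)]
    linarith [Real.exp_one_lt_d9]
  have h4 : 0 < Real.log 2 := Real.log_pos (by norm_num)
  have h5 : 0 < Real.log 5 := Real.log_pos (by norm_num)
  linarith

lemma kk_lower {b C u : ℝ} {N0 : ℕ} (hb0 : 0 < b) (hb1 : b < 1) (hC : 0 ≤ C)
    (h : ∀ N : ℕ, N0 ≤ N → JJ N ≤ C * (N : ℝ) ^ (b - 1)) (hu : 2 ≤ u) (hN : (N0 : ℝ) + 1 ≤ Real.exp u) :
    -((2 * C + 2) * Real.exp ((b - 1) * u)) ≤ kk u := by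
  set x := Real.exp u with hx
  have hx7 : 7 ≤ x := by
    have h1 : Real.exp 2 ≤ x := Real.exp_le_exp.2 hu
    have h2 : Real.exp 2 = Real.exp 1 * Real.exp 1 := by rw [← Real.exp_add]; norm_num
    have h3 := Real.exp_one_gt_d9
    nlinarith
  have hx0 : 0 < x := by linarith
  have hlog : Real.log x = u := Real.log_exp u
  obtain ⟨τ, ht0, ht1, hid⟩ := mertens_id (show (2 : ℝ) ≤ x by linarith)
  have h1 : KK x ≤ kk u := KK_le_kk (by linarith [Real.log_two_lt_d9])
  have h2 := loglog_tangent (show (1 : ℝ) < x by linarith) (theta_gt_one (show (5 : ℝ) ≤ x by linarith))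
  have h3 : JJ x ≤ C * (⌊x⌋₊ : ℝ) ^ (b - 1) := by
    rw [JJ_floor]
    refine h _ (Nat.le_floor (by linarith))
  have h4 : (⌊x⌋₊ : ℝ) ^ (b - 1) ≤ 2 * x ^ (b - 1) := by
    have h5 : x / 2 ≤ ⌊x⌋₊ := by
      have := Nat.lt_floor_add_one x
      linarith
    calc (⌊x⌋₊ : ℝ) ^ (b - 1) ≤ (x / 2) ^ (b - 1) :=
          Real.rpow_le_rpow_of_nonpos (by positivity) h5 (by linarith)
      _ = x ^ (b - 1) / 2 ^ (b - 1) := Real.div_rpow hx0.le (by norm_num) _
      _ ≤ 2 * x ^ (b - 1) := by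
          rw [div_le_iff₀ (by positivity)]
          have h6 : (1 : ℝ) / 2 ≤ 2 ^ (b - 1) := by
            calc (1 : ℝ) / 2 = 2 ^ (-1 : ℝ) := by rw [Real.rpow_neg_one]; norm_num
              _ ≤ 2 ^ (b - 1) := Real.rpow_le_rpow_of_exponent_le (by norm_num) (by linarith)
          have h7 : 0 < x ^ (b - 1) := by positivity
          nlinarith
  have h5 : 1 / x ≤ x ^ (b - 1) := by
    rw [one_div, ← Real.rpow_neg_one]
    exact Real.rpow_le_rpow_of_exponent_le (by linarith) (by linarith)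
  have h6 : x ^ (b - 1) = Real.exp ((b - 1) * u) := by
    rw [hx, ← Real.exp_mul]
    congr 1
    ring
  have h7 : 2 / x = 2 * (1 / x) := by ring
  have h8 : (Chebyshev.theta x - x) / (x * Real.log x) = Rr x / (x * Real.log x) := rfl
  rw [h8] at h2
  have h9 : C * (⌊x⌋₊ : ℝ) ^ (b - 1) ≤ C * (2 * x ^ (b - 1)) := mul_le_mul_of_nonneg_left h4 hC
  unfold JJ at h3
  rw [← h6]
  linarith

/-- **One-sided bounds for Mertens' product give zero-free half-planes.** -/
theorem landau_J {b C : ℝ} {N0 : ℕ} (hb0 : 0 < b) (hb1 : b < 1)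
    (h : ∀ N : ℕ, N0 ≤ N → JJ N ≤ C * (N : ℝ) ^ (b - 1)) :
    ∀ s : ℂ, b < s.re → riemannZeta s ≠ 0 := by
  have h' : ∀ N : ℕ, N0 ≤ N → JJ N ≤ |C| * (N : ℝ) ^ (b - 1) := fun N hN =>
    (h N hN).trans (mul_le_mul_of_nonneg_right (le_abs_self C) (by positivity))
  set C' := 2 * |C| + 2 with hC'
  have hC'0 : 0 < C' := by positivity
  set u1 : ℝ := max 2 (Real.log (N0 + 1)) with hu1
  have hu12 : 2 ≤ u1 := le_max_left _ _
  have hkk : ∀ u, u1 ≤ u → -(C' * Real.exp ((b - 1) * u)) ≤ kk u := by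
    intro u hu
    refine kk_lower hb0 hb1 (abs_nonneg C) h' (hu12.trans hu) ?_
    rw [← Real.log_le_iff_le_exp (by positivity)]
    exact (le_max_right _ _).trans hu
  have hT : ∀ u, u1 ≤ u → -(C' * (u + 1 / (1 - b)) * Real.exp ((b - 1) * u)) ≤ Tu u := fun u hu =>
    Tu_lower hb1 hC'0.le (by linarith) fun s hs => hkk s (hu.trans hs)
  intro s hs
  set b' : ℝ := (b + min s.re 1) / 2 with hb'
  have hm : b < min s.re 1 := lt_min hs hb1
  have hbb' : b < b' := by rw [hb']; linarith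
  have hb'1 : b' < 1 := by
    have := min_le_right s.re 1
    rw [hb']; linarith
  have hb's : b' < s.re := by
    have := min_le_left s.re 1
    rw [hb']; linarith
  set I0 : ℝ := ∫ v in Set.Ioi 0, |ru v| with hI0
  have hI00 : 0 ≤ I0 := integral_nonneg fun v => abs_nonneg _
  set A : ℝ := C' * (1 / (b' - b) + 1 / (1 - b)) + I0 * Real.exp ((1 - b') * u1) with hA
  have hd : 0 < b' - b := by linarith
  have h1b : 0 < 1 - b := by linarith
  refine landau_T (b := b') (A := A) (by linarith) hb'1 (fun u hu => ?_) s hb's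
  rcases le_or_gt u1 u with hu1u | hu1u
  · have h1 := hT u hu1u
    have h2 : Real.exp ((b - 1) * u) = Real.exp ((b' - 1) * u) * Real.exp (-((b' - b) * u)) := by
      rw [← Real.exp_add]; congr 1; ring
    have h3 : (u + 1 / (1 - b)) * Real.exp (-((b' - b) * u)) ≤ 1 / (b' - b) + 1 / (1 - b) := by
      have h4 : u * Real.exp (-((b' - b) * u)) ≤ 1 / (b' - b) := by
        rw [le_div_iff₀ hd, Real.exp_neg]
        have h5 := Real.add_one_le_exp ((b' - b) * u)
        have h6 : 0 < Real.exp ((b' - b) * u) := Real.exp_pos _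
        calc u * (Real.exp ((b' - b) * u))⁻¹ * (b' - b) = ((b' - b) * u) / Real.exp ((b' - b) * u) := by
              rw [div_eq_mul_inv]; ring
          _ ≤ 1 := by rw [div_le_one h6]; linarith
      have h5 : Real.exp (-((b' - b) * u)) ≤ 1 := by
        rw [Real.exp_le_one_iff]
        nlinarith
      have h6 : 0 ≤ 1 / (1 - b) := by positivity
      nlinarith
    have h4 : C' * (u + 1 / (1 - b)) * Real.exp ((b - 1) * u) ≤
        C' * (1 / (b' - b) + 1 / (1 - b)) * Real.exp ((b' - 1) * u) := by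
      rw [h2]
      calc C' * (u + 1 / (1 - b)) * (Real.exp ((b' - 1) * u) * Real.exp (-((b' - b) * u))) =
          C' * ((u + 1 / (1 - b)) * Real.exp (-((b' - b) * u))) * Real.exp ((b' - 1) * u) := by ring
        _ ≤ _ := by gcongr
    have h5 : 0 ≤ I0 * Real.exp ((1 - b') * u1) * Real.exp ((b' - 1) * u) := by positivity
    rw [hA, add_mul]
    linarith
  · have h1 := (abs_le.1 (Tu_bdd u hu.le)).1
    have h2 : 1 ≤ Real.exp ((1 - b') * u1) * Real.exp ((b' - 1) * u) := by
      rw [← Real.exp_add]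
      apply Real.one_le_exp
      nlinarith
    have h3 : I0 ≤ I0 * (Real.exp ((1 - b') * u1) * Real.exp ((b' - 1) * u)) := le_mul_of_one_le_right hI00 h2
    have h4 : 0 ≤ C' * (1 / (b' - b) + 1 / (1 - b)) * Real.exp ((b' - 1) * u) := by positivity
    rw [hA, add_mul]
    linarith

/-- large values of Mertens' product -/
theorem JJ_large {b : ℝ} (hb0 : 0 < b) {ρ : ℂ} (hρ : riemannZeta ρ = 0) (hρb : b < ρ.re) (C : ℝ) (N0 : ℕ) :
    ∃ N : ℕ, N0 ≤ N ∧ C * (N : ℝ) ^ (b - 1) < JJ N := by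
  by_contra hcon
  push Not at hcon
  have hb1 : b < 1 := by
    by_contra h
    exact riemannZeta_ne_zero_of_one_le_re (by linarith) hρ
  exact landau_J hb0 hb1 hcon ρ hρb hρ

end

end Pool.Agent.K3h81.RB
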