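import Pool.Agent.K3h81.RB.Loc6
import Pool.Agent.K3h81.RB.Lan3

/-!
# The localized oscillation theorem
-/

set_option autoImplicit false

namespace Pool.Agent.K3h81.RB

open Filter Topology MeasureTheory

noncomputable section

lemma lim_pow {r : ℝ} (h0 : 0 ≤ r) (h1 : r < 1) : Tendsto (fun n : ℕ => ((n : ℝ) + 3) * r ^ n) atTop (𝓝 0) := by
  have a1 := tendsto_self_mul_const_pow_of_lt_one h0 h1
  have a2 := (tendsto_pow_atTop_nhds_zero_of_lt_one h0 h1).const_mul 3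
  have a3 := a1.add a2
  rw [mul_zero, add_zero] at a3
  refine a3.congr fun n => ?_
  ring

/-- **The localized oscillation theorem.** -/
theorem kk_window {b : ℝ} {ρ : ℂ} (hρ : riemannZeta ρ = 0) (hb : b < ρ.re) (hb0 : 0 ≤ b) {δ C : ℝ} (hδ0 : 0 < δ)
    (hδ1 : δ ≤ 1) (hC : 0 ≤ C) :
    ∀ᶠ U : ℝ in atTop, ∃ u : ℝ, (1 - δ) * U ≤ u ∧ u ≤ (1 + δ) * U ∧ kk u < -(C * Real.exp ((b - 1) * u)) := by
  have hb1 : b < 1 := by
    have hρ1 : ρ.re < 1 := by
      by_contra hcon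
      exact riemannZeta_ne_zero_of_one_le_re (not_lt.1 hcon) hρ
    linarith
  obtain ⟨W, hW0, hW⟩ := geom hρ hb hb0
  set δ' := δ / 2 with hδ'
  have hδ'0 : 0 < δ' := by rw [hδ']; linarith
  have hδ'1 : δ' ≤ 1 := by rw [hδ']; linarith
  set q := Real.exp (-(δ' ^ 2 / 8)) with hq
  have hq0 : 0 < q := Real.exp_pos _
  have hq1 : q < 1 := by
    rw [hq, Real.exp_lt_one_iff]
    have : 0 < δ' ^ 2 := by positivity
    linarith
  set w0 := max W (q / (1 - q)) with hw0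
  have hw0p : 0 < w0 := lt_max_of_lt_left hW0
  have hwq : w0 + 1 ≤ w0 / q := by
    have h1 : q / (1 - q) ≤ w0 := le_max_right _ _
    rw [div_le_iff₀ (by linarith)] at h1
    rw [le_div_iff₀ hq0]
    nlinarith
  obtain ⟨t, d0, d1, R, a, ha, hd1, h1, h2, h3, h4, h5, h6⟩ := hW w0 (le_max_left _ _)
  set z : ℂ := (w0 : ℂ) + t * Complex.I with hz
  have hzre : z.re = w0 := by simp [hz]
  have hz0 : 0 < z.re := by rw [hzre]; exact hw0p
  have hd10 : 0 < d1 := hw0p.trans h1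
  obtain ⟨κ, R', M, hκ, hR1, hR2, hM, hmz⟩ := mom_z (R := R) hz0 ha (by rw [hd1]; exact h2) (by rw [hzre]; linarith) h6
  have hlow := low_z hz0 (by rw [hd1]; exact hd10) hκ hR1 hM hmz
  rw [hd1] at hlow
  set R1 := (d1 + d0) / 2 with hR1d
  have hR1a : d1 < R1 := by rw [hR1d]; linarith
  have hR1b : R1 < d0 := by rw [hR1d]; linarith
  have hR10 : 0 < R1 := hd10.trans hR1a
  obtain ⟨M1, hM1, hmw⟩ := mom_w hw0p h5 (by linarith) hR10 hR1b
  obtain ⟨C1, hC1, hup⟩ := up_w hw0p (h1.trans hR1a) hM1 hmw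
  have hr : 0 < w0 + 1 - b := by linarith
  set D := min R1 (min (w0 + 1 - b) (w0 / q)) with hD
  have hD1 : D ≤ R1 := min_le_left _ _
  have hD2 : D ≤ w0 + 1 - b := (min_le_right _ _).trans (min_le_left _ _)
  have hD3 : D ≤ w0 / q := (min_le_right _ _).trans (min_le_right _ _)
  have hDd : d1 < D := lt_min hR1a (lt_min (by linarith) (by linarith))
  have hD0 : 0 < D := hd10.trans hDd
  have hI := I1_nonneg
  set C3 := C1 + 2 * C / (w0 + 1 - b) ^ 3 + 8 * I1 * w0 * (q / w0) ^ 2 with hC3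
  have hC30 : 0 ≤ C3 := by positivity
  have hbound : ∀ k : ℕ, C1 / R1 ^ k + 2 * C / (w0 + 1 - b) ^ (k + 2 + 1) + 8 * I1 * w0 * (q / w0) ^ (k + 2) ≤
      C3 / D ^ k := by
    intro k
    have b1 : C1 / R1 ^ k ≤ C1 / D ^ k :=
      div_le_div_of_nonneg_left hC1 (by positivity) (pow_le_pow_left₀ hD0.le hD1 k)
    have b2 : 2 * C / (w0 + 1 - b) ^ (k + 2 + 1) ≤ 2 * C / (w0 + 1 - b) ^ 3 / D ^ k := by
      have e : (w0 + 1 - b) ^ (k + 2 + 1) = (w0 + 1 - b) ^ 3 * (w0 + 1 - b) ^ k := by ring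
      rw [e, ← div_div]
      exact div_le_div_of_nonneg_left (by positivity) (by positivity) (pow_le_pow_left₀ hD0.le hD2 k)
    have b3 : 8 * I1 * w0 * (q / w0) ^ (k + 2) ≤ 8 * I1 * w0 * (q / w0) ^ 2 / D ^ k := by
      have e : 8 * I1 * w0 * (q / w0) ^ (k + 2) = 8 * I1 * w0 * (q / w0) ^ 2 / (w0 / q) ^ k := by
        rw [pow_add, div_pow w0 q, div_pow q w0 k]
        field_simp
      rw [e]
      exact div_le_div_of_nonneg_left (by positivity) (by positivity) (pow_le_pow_left₀ hD0.le hD3 k)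
    rw [hC3, add_div, add_div]
    linarith
  set C4 := ‖z‖ * (C3 / D) + C3 with hC4
  have hC40 : 0 ≤ C4 := by positivity
  have hκ0 : 0 < ‖κ‖ / 2 / d1 ^ 3 := by positivity
  have hlim := (lim_pow (r := d1 / D) (by positivity) (by rw [div_lt_one hD0]; exact hDd)).const_mul C4
  rw [mul_zero] at hlim
  have hkey : ∀ᶠ n : ℕ in atTop, ∃ k : ℕ, (k = n ∨ k = n + 1) ∧ ∃ u : ℝ, 0 < u ∧ (1 - δ') * (k + 2) ≤ w0 * u ∧
      w0 * u ≤ (1 + δ') * (k + 2) ∧ kk u < -(C * Real.exp ((b - 1) * u)) := by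
    filter_upwards [hlow, hlim.eventually_lt_const hκ0] with n hn1 hn2
    by_contra hcon
    push Not at hcon
    have w1 := window_cn (t := t) (δ := δ') n hw0p hb1 hC hδ'0 hδ'1 (fun u hu h7 h8 => hcon n (Or.inl rfl) u hu h7 h8)
    have w2 := window_cn (t := t) (δ := δ') (n + 1) hw0p hb1 hC hδ'0 hδ'1
      (fun u hu h7 h8 => hcon (n + 1) (Or.inr rfl) u hu h7 h8)
    rw [← hz, ← hq] at w1 w2
    have v1 : ‖cn (n + 2) z‖ ≤ C3 / D ^ n := by
      have := hup n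
      have := hbound n
      linarith
    have v2 : ‖cn (n + 3) z‖ ≤ C3 / D ^ (n + 1) := by
      have := hup (n + 1)
      have := hbound (n + 1)
      have e : n + 1 + 2 = n + 3 := rfl
      rw [e] at *
      linarith
    have v3 : ‖z‖ * ‖cn (n + 3) z‖ + ‖cn (n + 2) z‖ ≤ C4 / D ^ n := by
      have v4 := mul_le_mul_of_nonneg_left v2 (norm_nonneg z)
      have e : ‖z‖ * (C3 / D ^ (n + 1)) + C3 / D ^ n = C4 / D ^ n := by
        rw [hC4, pow_succ]
        field_simp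
      linarith
    have v5 := hn1.trans v3
    have hn3 : (0 : ℝ) < (n : ℝ) + 3 := by positivity
    rw [div_le_iff₀ hn3] at v5
    have v6 : ‖κ‖ / 2 / d1 ^ 3 ≤ C4 * (((n : ℝ) + 3) * (d1 / D) ^ n) := by
      have e1 : ‖κ‖ / 2 / d1 ^ 3 = (‖κ‖ / 2 / d1 ^ (n + 3)) * d1 ^ n := by
        rw [pow_add]; field_simp
      have e2 : C4 * (((n : ℝ) + 3) * (d1 / D) ^ n) = (C4 / D ^ n * (n + 3)) * d1 ^ n := by
        rw [div_pow]; field_simp
      rw [e1, e2]
      exact mul_le_mul_of_nonneg_right v5 (by positivity)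
    linarith
  -- from integers to real numbers
  have hfl : Tendsto (fun U : ℝ => ⌊w0 * U⌋₊) atTop atTop :=
    tendsto_nat_floor_atTop.comp (tendsto_id.const_mul_atTop hw0p)
  filter_upwards [hfl.eventually hkey, eventually_gt_atTop (0 : ℝ),
    eventually_ge_atTop ((1 + δ') * (3 / w0) / δ')] with U hU hU0 hU1
  obtain ⟨k, hk, u, hu0, hu1, hu2, hu3⟩ := hU
  have hfl1 : (⌊w0 * U⌋₊ : ℝ) ≤ w0 * U := Nat.floor_le (by positivity)
  have hfl2 : w0 * U < ⌊w0 * U⌋₊ + 1 := Nat.lt_floor_add_one _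
  have hk1 : w0 * U ≤ (k : ℝ) + 2 := by
    rcases hk with h | h
    · rw [h]; linarith
    · rw [h]; push_cast; linarith
  have hk2 : (k : ℝ) + 2 ≤ w0 * U + 3 := by
    rcases hk with h | h
    · rw [h]; linarith
    · rw [h]; push_cast; linarith
  refine ⟨u, ?_, ?_, hu3⟩
  · have h7 : (1 - δ') * (w0 * U) ≤ w0 * u := (mul_le_mul_of_nonneg_left hk1 (by linarith)).trans hu1
    have h8 : w0 * ((1 - δ') * U) ≤ w0 * u := by linarith
    have h9 := le_of_mul_le_mul_left h8 hw0p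
    refine le_trans ?_ h9
    apply mul_le_mul_of_nonneg_right _ hU0.le
    rw [hδ']; linarith
  · have h7 : w0 * u ≤ (1 + δ') * (w0 * U + 3) := hu2.trans (mul_le_mul_of_nonneg_left hk2 (by linarith))
    rw [div_le_iff₀ hδ'0] at hU1
    have h8 : w0 * u ≤ w0 * ((1 + δ) * U) := by
      have e1 : (1 + δ') * (w0 * U + 3) = w0 * ((1 + δ') * U + (1 + δ') * (3 / w0)) := by field_simp
      rw [e1] at h7
      refine h7.trans (mul_le_mul_of_nonneg_left ?_ hw0p.le)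
      have e2 : (1 + δ) * U = (1 + δ') * U + U * δ' := by rw [hδ']; ring
      rw [e2]
      linarith
    exact le_of_mul_le_mul_left h8 hw0p

/-- from `kk` to `JJ` -/
lemma JJ_of_kk {b C u : ℝ} (hb0 : 0 < b) (hb1 : b < 1) (hC : 0 ≤ C) (hu : 2 ≤ u)
    (h : kk u < -((2 * C + 2) * Real.exp ((b - 1) * u))) :
    C * (⌊Real.exp u⌋₊ : ℝ) ^ (b - 1) < JJ (⌊Real.exp u⌋₊ : ℝ) := by
  by_contra hcon
  push Not at hcon
  set x := Real.exp u with hx
  have hx7 : 7 ≤ x := by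
    have h1 : Real.exp 2 ≤ x := Real.exp_le_exp.2 hu
    have h2 : Real.exp 2 = Real.exp 1 * Real.exp 1 := by rw [← Real.exp_add]; norm_num
    have h3 := Real.exp_one_gt_d9
    nlinarith
  have hx0 : 0 < x := by linarith
  have hlog : Real.log x = u := Real.log_exp u
  obtain ⟨τ, ht0, ht1, hid⟩ := mertens_id (show (2 : ℝ) ≤ x by linarith)
  have h1 : KK x ≤ kk u := KK_le_kk (by linarith [Real.log_two_lt_d9])
  have h2 := loglog_tangent (show (1 : ℝ) < x by linarith) (theta_gt_one (show (5 : ℝ) ≤ x by linarith))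
  have h3 : JJ x ≤ C * (⌊x⌋₊ : ℝ) ^ (b - 1) := by
    rw [JJ_floor]
    exact hcon
  have h4 : (⌊x⌋₊ : ℝ) ^ (b - 1) ≤ 2 * x ^ (b - 1) := by
    have h5 : x / 2 ≤ ⌊x⌋₊ := by
      have := Nat.lt_floor_add_one x
      linarith
    calc (⌊x⌋₊ : ℝ) ^ (b - 1) ≤ (x / 2) ^ (b - 1) :=
          Real.rpow_le_rpow_of_nonpos (by positivity) h5 (by linarith)
      _ = x ^ (b - 1) / 2 ^ (b - 1) := Real.div_rpow hx0.le (by norm_num) _
      _ ≤ 2 * x ^ (b - 1) := by
          rw [div_le_iff₀ (by positivity)]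
          have h6 : (1 : ℝ) / 2 ≤ 2 ^ (b - 1) := by
            calc (1 : ℝ) / 2 = 2 ^ (-1 : ℝ) := by rw [Real.rpow_neg_one]; norm_num
              _ ≤ 2 ^ (b - 1) := Real.rpow_le_rpow_of_exponent_le (by norm_num) (by linarith)
          have h7 : 0 < x ^ (b - 1) := by positivity
          nlinarith
  have h5 : 1 / x ≤ x ^ (b - 1) := by
    rw [one_div, ← Real.rpow_neg_one]
    exact Real.rpow_le_rpow_of_exponent_le (by linarith) (by linarith)
  have h6 : x ^ (b - 1) = Real.exp ((b - 1) * u) := by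
    rw [hx, ← Real.exp_mul]
    congr 1
    ring
  have h7 : 2 / x = 2 * (1 / x) := by ring
  have h8 : (Chebyshev.theta x - x) / (x * Real.log x) = Rr x / (x * Real.log x) := rfl
  rw [h8] at h2
  have h9 : C * (⌊x⌋₊ : ℝ) ^ (b - 1) ≤ C * (2 * x ^ (b - 1)) := mul_le_mul_of_nonneg_left h4 hC
  unfold JJ at h3
  rw [← h6] at h
  linarith

/-- **Large values of Mertens' product in all windows.** -/
theorem JJ_window {b : ℝ} (hb0 : 0 < b) {ρ : ℂ} (hρ : riemannZeta ρ = 0) (hρb : b < ρ.re) {C : ℝ} (hC : 0 ≤ C)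
    {δ : ℝ} (hδ0 : 0 < δ) (hδ1 : δ ≤ 1) :
    ∀ᶠ X : ℝ in atTop, ∃ N : ℕ, X ^ (1 - δ) ≤ N ∧ (N : ℝ) ≤ X ∧ C * (N : ℝ) ^ (b - 1) < JJ N := by
  have hb1 : b < 1 := by
    by_contra h
    exact riemannZeta_ne_zero_of_one_le_re (by linarith) hρ
  set δ' := δ / 4 with hδ'
  have hδ'0 : 0 < δ' := by rw [hδ']; linarith
  have hδ'1 : δ' ≤ 1 / 4 := by rw [hδ']; linarith
  have h := kk_window hρ hρb hb0.le (δ := δ') (C := 2 * C + 2) hδ'0 (by linarith) (by positivity)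
  have hU : Tendsto (fun X : ℝ => Real.log X / (1 + δ')) atTop atTop :=
    Real.tendsto_log_atTop.atTop_div_const (by linarith)
  have hexp : Tendsto (fun X : ℝ => X ^ (δ / 2)) atTop atTop := tendsto_rpow_atTop (by linarith)
  filter_upwards [hU.eventually h, Real.tendsto_log_atTop.eventually_ge_atTop 8, eventually_gt_atTop (0 : ℝ),
    hexp.eventually_ge_atTop 2] with X hX hl hX0 hX2
  obtain ⟨u, hu1, hu2, hu3⟩ := hX
  have hu4 : u ≤ Real.log X := by
    refine hu2.trans (le_of_eq ?_)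
    field_simp
  have hu5 : (1 - δ / 2) * Real.log X ≤ u := by
    refine le_trans ?_ hu1
    rw [mul_div_assoc', le_div_iff₀ (by linarith)]
    have : (1 - δ / 2) * (1 + δ') ≤ 1 - δ' := by rw [hδ']; nlinarith
    nlinarith
  have hu6 : 2 ≤ u := by
    refine le_trans ?_ hu5
    nlinarith
  have hx2 : (2 : ℝ) ≤ Real.exp u := by
    have := Real.add_one_le_exp u
    linarith
  refine ⟨⌊Real.exp u⌋₊, ?_, ?_, JJ_of_kk hb0 hb1 hC hu6 hu3⟩
  · have h5 : Real.exp u / 2 ≤ ⌊Real.exp u⌋₊ := by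
      have := Nat.lt_floor_add_one (Real.exp u)
      linarith
    refine le_trans ?_ h5
    have h6 : X ^ (1 - δ / 2) ≤ Real.exp u := by
      rw [Real.rpow_def_of_pos hX0]
      apply Real.exp_le_exp.2
      linarith
    have h7 : X ^ (1 - δ / 2) = X ^ (1 - δ) * X ^ (δ / 2) := by
      rw [← Real.rpow_add hX0]; congr 1; ring
    have h8 : 0 < X ^ (1 - δ) := by positivity
    rw [h7] at h6
    nlinarith
  · refine (Nat.floor_le (Real.exp_pos u).le).trans ?_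
    rw [← Real.exp_log hX0]
    exact Real.exp_le_exp.2 hu4

end

end Pool.Agent.K3h81.RB
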