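import Pool.Agent.K3h81.RB.Lim
import Pool.Agent.K3h81.RB.Loc7

/-!
# The limit formula
-/

set_option autoImplicit false

namespace Pool.Agent.K3h81.RB

open Filter Topology

noncomputable section

/-- a lower bound for all large `x` -/
lemma low_x {P : ℕ → Prop} {a d κ κ' δ C b : ℝ} (ha : 0 < a) (hd : 0 ≤ d) (hκ : 0 < κ) (hκ'0 : 0 < κ')
    (hδ1 : δ < 1) (hκ' : κ' < (1 - δ) * κ)
    (hm : ∀ᶠ N : ℕ in atTop, C * (N : ℝ) ^ (b - 1) < JJ N → Real.exp ((N : ℝ) ^ κ) - d ≤ cE P (Real.exp (a * N)))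
    (hw : ∀ᶠ X : ℝ in atTop, ∃ N : ℕ, X ^ (1 - δ) ≤ N ∧ (N : ℝ) ≤ X ∧ C * (N : ℝ) ^ (b - 1) < JJ N) :
    ∀ᶠ x : ℝ in atTop, Real.exp (Real.log x ^ κ') ≤ cE P x := by
  obtain ⟨N0, hN0⟩ := eventually_atTop.1 hm
  have hX : Tendsto (fun x : ℝ => Real.log x / a) atTop atTop := Real.tendsto_log_atTop.atTop_div_const ha
  have hXp : Tendsto (fun X : ℝ => X ^ (1 - δ)) atTop atTop := tendsto_rpow_atTop (by linarith)
  have h1 := hX.eventually (hw.and ((hXp.eventually_ge_atTop (N0 : ℝ)).and (eventually_gt_atTop (0 : ℝ))))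
  have h2 := Real.tendsto_log_atTop.eventually (ev_pow (2 * a ^ ((1 - δ) * κ)) hκ')
  have h3 := (((tendsto_rpow_atTop hκ'0).comp Real.tendsto_log_atTop)).eventually_ge_atTop d
  filter_upwards [h1, h2, h3, eventually_gt_atTop (0 : ℝ)] with x hx h2 h3 hx0
  obtain ⟨⟨N, n1, n2, n3⟩, n4, n5⟩ := hx
  have hNN : N0 ≤ N := by exact_mod_cast n4.trans n1
  have h4 := hN0 N hNN n3
  set X := Real.log x / a with hXd
  have hlog : Real.log x = a * X := by rw [hXd]; field_simp
  have hle : Real.exp (a * N) ≤ x := by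
    rw [← Real.exp_log hx0, hlog]
    apply Real.exp_le_exp.2
    exact mul_le_mul_of_nonneg_left n2 ha.le
  have h5 : (cE P (Real.exp (a * N)) : ℝ) ≤ cE P x := by exact_mod_cast cE_mono P hle
  have h6 : X ^ ((1 - δ) * κ) ≤ (N : ℝ) ^ κ := by
    rw [Real.rpow_mul n5.le]
    exact Real.rpow_le_rpow (by positivity) n1 hκ.le
  have h7 : 2 * Real.log x ^ κ' ≤ X ^ ((1 - δ) * κ) := by
    have h8 : Real.log x ^ ((1 - δ) * κ) = a ^ ((1 - δ) * κ) * X ^ ((1 - δ) * κ) := by
      rw [hlog, Real.mul_rpow ha.le n5.le]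
    rw [h8] at h2
    have h9 : 0 < a ^ ((1 - δ) * κ) := by positivity
    have h10 : a ^ ((1 - δ) * κ) * (2 * Real.log x ^ κ') ≤ a ^ ((1 - δ) * κ) * X ^ ((1 - δ) * κ) := by linarith
    exact le_of_mul_le_mul_left h10 h9
  set y := Real.log x ^ κ' with hy
  have h3' : d ≤ y := h3
  have h8 : Real.exp (2 * y) ≤ Real.exp ((N : ℝ) ^ κ) := Real.exp_le_exp.2 (h7.trans h6)
  have h9 : Real.exp (2 * y) = Real.exp y * Real.exp y := by rw [← Real.exp_add]; congr 1; ring
  have h10 : y + 1 ≤ Real.exp y := Real.add_one_le_exp y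
  have h11 : 1 ≤ Real.exp y := by linarith
  have h12 : Real.exp y + d ≤ Real.exp y * Real.exp y := by nlinarith
  linarith

/-- from bounds to the limit -/
theorem tendsto_of {P : ℕ → Prop} {κ : ℝ} (hP : ∀ x : ℝ, 3 ≤ x → 3 ≤ cE P x)
    (hup : ∀ ε : ℝ, 0 < ε → ∀ᶠ x : ℝ in atTop, (cE P x : ℝ) ≤ Real.exp (Real.log x ^ (κ + ε)))
    (hlow : ∀ ε : ℝ, 0 < ε → ∀ᶠ x : ℝ in atTop, Real.exp (Real.log x ^ (κ - ε)) ≤ cE P x) :
    Tendsto (fun x : ℝ => Real.log (Real.log (cE P x)) / Real.log (Real.log x)) atTop (𝓝 κ) := by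
  have h3l : 1 < Real.log 3 := by
    rw [Real.lt_log_iff_exp_lt (by norm_num)]
    linarith [Real.exp_one_lt_d9]
  have hN : ∀ x : ℝ, 3 ≤ x → 1 < Real.log (cE P x) := by
    intro x hx
    refine h3l.trans_le (Real.log_le_log (by norm_num) ?_)
    exact_mod_cast hP x hx
  rw [Metric.tendsto_atTop']
  intro ε hε
  have hll : ∀ᶠ x : ℝ in atTop, 3 ≤ x ∧ 1 ≤ Real.log x ∧ 1 ≤ Real.log (Real.log x) := by
    filter_upwards [eventually_ge_atTop 3, Real.tendsto_log_atTop.eventually_ge_atTop 1,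
      (Real.tendsto_log_atTop.comp Real.tendsto_log_atTop).eventually_ge_atTop 1] with x h1 h2 h3
    exact ⟨h1, h2, h3⟩
  have hev : ∀ᶠ x : ℝ in atTop, dist (Real.log (Real.log (cE P x)) / Real.log (Real.log x)) κ < ε := by
    filter_upwards [hup (ε / 2) (by linarith), hlow (ε / 2) (by linarith), hll] with x hx hy ⟨h1, h2, h3⟩
    have hN1 := hN x h1
    have hNp : (0 : ℝ) < cE P x := by
      have := hP x h1
      exact_mod_cast (by omega : 0 < cE P x)
    have a1 : Real.log (Real.log (cE P x)) / Real.log (Real.log x) ≤ κ + ε / 2 := by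
      rw [div_le_iff₀ (by linarith)]
      have h4 : Real.log (cE P x) ≤ Real.log x ^ (κ + ε / 2) := by
        have := Real.log_le_log hNp hx
        rwa [Real.log_exp] at this
      have h5 := Real.log_le_log (by linarith) h4
      rwa [Real.log_rpow (by linarith)] at h5
    have a2 : κ - ε / 2 ≤ Real.log (Real.log (cE P x)) / Real.log (Real.log x) := by
      rw [le_div_iff₀ (by linarith)]
      have h4 : Real.log x ^ (κ - ε / 2) ≤ Real.log (cE P x) := by
        have := Real.log_le_log (Real.exp_pos _) hy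
        rwa [Real.log_exp] at this
      have h5 := Real.log_le_log (by positivity) h4
      rwa [Real.log_rpow (by linarith)] at h5
    rw [Real.dist_eq, abs_lt]
    constructor <;> linarith
  obtain ⟨x0, hx0⟩ := eventually_atTop.1 hev
  exact ⟨x0, fun x hx => hx0 x hx.le⟩

/-- lowering the exponent -/
lemma low_lower {P : ℕ → Prop} {κ κ' : ℝ} (h : κ' ≤ κ)
    (hx : ∀ᶠ x : ℝ in atTop, Real.exp (Real.log x ^ κ) ≤ cE P x) :
    ∀ᶠ x : ℝ in atTop, Real.exp (Real.log x ^ κ') ≤ cE P x := by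
  filter_upwards [hx, Real.tendsto_log_atTop.eventually_ge_atTop 1] with x hx hl
  exact (Real.exp_le_exp.2 (Real.rpow_le_rpow_of_exponent_le hl h)).trans hx

lemma exists_zero_gt {b : ℝ} (h : b < Th) : ∃ ρ : ℂ, riemannZeta ρ = 0 ∧ b < ρ.re := by
  have h1 := not_free_of_lt h
  unfold ZFree at h1
  push Not at h1
  obtain ⟨s, h2, h3⟩ := h1
  exact ⟨s, h3, h2⟩

/-- lower bound for Robin's inequality, all large `x` -/
lemma low_s_all (h : 1 / 2 < Th) (ε : ℝ) (hε : 0 < ε) :
    ∀ᶠ x : ℝ in atTop, Real.exp (Real.log x ^ ((1 + Th) / 2 - ε)) ≤ cE Es x := by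
  set e : ℝ := min ε (1 / 4) with he
  have he0 : 0 < e := lt_min hε (by norm_num)
  have he1 : e ≤ ε := min_le_left _ _
  have he2 : e ≤ 1 / 4 := min_le_right _ _
  refine low_lower (κ := (1 + Th) / 2 - e) (by linarith) ?_
  rcases eq_or_lt_of_le Th_le with h1 | h1
  · -- zeros arbitrarily close to the line `1`
    rw [h1]
    set b : ℝ := 1 - e / 4 with hb
    obtain ⟨ρ, hρ, hρb⟩ := exists_zero_gt (b := b) (by rw [h1, hb]; linarith)
    have hm := mul_s (b := b) (κ := 1 - e / 2) (by rw [hb]; linarith) (by rw [hb]; linarith) (by linarith)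
      (by rw [hb]; linarith)
    have hw := JJ_window (b := b) (by rw [hb]; linarith) hρ hρb (C := 1) zero_le_one (δ := e / 4) (by linarith)
      (by linarith)
    refine low_x (a := 3) (d := 1) (κ := 1 - e / 2) (δ := e / 4) (C := 1) (b := b) (by norm_num) zero_le_one
      (by linarith) (by linarith) (by linarith) (by nlinarith) ?_ hw
    filter_upwards [hm] with N hN hJ
    rw [one_mul] at hJ
    exact hN hJ
  · set m : ℝ := max (max (1 / 2) (2 * Th - 1)) (Th - e / 2) with hmd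
    have m1 : 1 / 2 ≤ m := (le_max_left _ _).trans (le_max_left _ _)
    have m2 : 2 * Th - 1 ≤ m := (le_max_right _ _).trans (le_max_left _ _)
    have m3 : Th - e / 2 ≤ m := le_max_right _ _
    have m4 : m < Th := max_lt (max_lt h (by linarith)) (by linarith)
    set b : ℝ := (m + Th) / 2 with hb
    obtain ⟨ρ, hρ, hρb⟩ := exists_zero_gt (b := b) (by rw [hb]; linarith)
    set Θ' : ℝ := (Th + (1 + b) / 2) / 2 with hΘ'
    obtain ⟨C, hC⟩ := free_Rr (θ := Th) (Θ := Θ') h.le Th_free (by rw [hΘ', hb]; linarith) (by rw [hΘ', hb]; linarith)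
    set κ : ℝ := (1 + Th) / 2 - e / 2 with hκ
    have hm := del_s (b := b) (Θ := Θ') (κ := κ) (by rw [hb]; linarith) (by rw [hb]; linarith)
      (by rw [hΘ', hb]; linarith) (by rw [hκ, hb]; linarith) hC (by rw [hΘ', hb]; linarith)
    have hw := JJ_window (b := b) (by rw [hb]; linarith) hρ hρb (C := 33) (by norm_num) (δ := e / 4) (by linarith)
      (by linarith)
    refine low_x (a := 2) (d := 0) (κ := κ) (δ := e / 4) (C := 33) (b := b) (by norm_num) le_rfl
      (by rw [hκ]; linarith) (by linarith) (by linarith) (by rw [hκ]; nlinarith) ?_ hw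
    filter_upwards [hm] with N hN hJ
    rw [sub_zero]
    exact hN hJ

/-- lower bound for the totient function, all large `x` -/
lemma low_f_all (ε : ℝ) (hε : 0 < ε) :
    ∀ᶠ x : ℝ in atTop, Real.exp (Real.log x ^ ((1 + Th) / 2 - ε)) ≤ cE Ef x := by
  rcases eq_or_lt_of_le Th_ge with h | h
  · set e : ℝ := min ε (1 / 4) with he
    have he0 : 0 < e := lt_min hε (by norm_num)
    have he1 : e ≤ ε := min_le_left _ _
    have he2 : e ≤ 1 / 4 := min_le_right _ _
    refine low_lower (κ := (1 + Th) / 2 - e) (by linarith) ?_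
    set b : ℝ := 1 / 2 - e / 2 with hb
    obtain ⟨ρ, hρ, hρb⟩ := exists_zero_gt (b := b) (by rw [← h, hb]; linarith)
    obtain ⟨C, hC⟩ := free_Rr (θ := 1 / 2) (Θ := 5 / 8) le_rfl (by rw [h]; exact Th_free) (by norm_num) (by norm_num)
    set κ : ℝ := 3 / 4 - e / 2 with hκ
    have hm := del_f (b := b) (Θ := 5 / 8) (κ := κ) (by rw [hb]; linarith) (by rw [hb]; linarith)
      (by rw [hb]; linarith) (by rw [hκ, hb]; linarith) hC (by norm_num)
    have hw := JJ_window (b := b) (by rw [hb]; linarith) hρ hρb (C := 33) (by norm_num) (δ := e / 4) (by linarith)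
      (by linarith)
    refine low_x (a := 2) (d := 0) (κ := κ) (δ := e / 4) (C := 33) (b := b) (by norm_num) le_rfl
      (by rw [hκ]; linarith) (by rw [← h]; linarith) (by linarith) (by rw [hκ, ← h]; nlinarith) ?_ hw
    filter_upwards [hm] with N hN hJ
    rw [sub_zero]
    exact hN hJ
  · filter_upwards [low_s_all h ε hε] with x hx
    exact hx.trans (by exact_mod_cast cE_le x)

/-- **Robin's inequality**: if there is a zero off the critical line, the limit is `(1+Θ)/2` -/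
theorem lim_s (h : 1 / 2 < Th) :
    Tendsto (fun x : ℝ => Real.log (Real.log (cE Es x)) / Real.log (Real.log x)) atTop (𝓝 ((1 + Th) / 2)) :=
  tendsto_of (fun _ hx => three_le_cE hx) (up_Th cE_le) (low_s_all h)

/-- **The totient function**: the limit is `(1+Θ)/2` -/
theorem lim_f :
    Tendsto (fun x : ℝ => Real.log (Real.log (cE Ef x)) / Real.log (Real.log x)) atTop (𝓝 ((1 + Th) / 2)) :=
  tendsto_of (fun x hx => (three_le_cE hx).trans (cE_le x)) (up_Th (fun _ => le_rfl)) low_f_all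

end

end Pool.Agent.K3h81.RB
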