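import Mathlib

/-!
# Laplace transforms and their derivatives
-/

set_option autoImplicit false

namespace Pool.Agent.K3h81.RB

open Filter Topology MeasureTheory

noncomputable section

/-- the moments `∫_0^∞ f(v) v^n e^{-zv} dv` -/
def MT (f : ℝ → ℝ) (n : ℕ) (z : ℂ) : ℂ :=
  ∫ v in Set.Ioi (0 : ℝ), ((f v * v ^ n : ℝ) : ℂ) * Complex.exp (-(z * v))

lemma pow_exp_int (n : ℕ) {r : ℝ} (hr : 0 < r) :
    IntegrableOn (fun v : ℝ => v ^ n * Real.exp (-(r * v))) (Set.Ioi 0) := by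
  have h := integrableOn_rpow_mul_exp_neg_mul_rpow (p := 1) (s := n) (b := r)
    (by have : (0 : ℝ) ≤ n := Nat.cast_nonneg n; linarith) one_pos hr
  refine h.congr_fun (fun v _ => ?_) measurableSet_Ioi
  simp only [Real.rpow_natCast, Real.rpow_one, neg_mul]

lemma pow_exp_val (n : ℕ) {r : ℝ} (hr : 0 < r) :
    ∫ v in Set.Ioi (0 : ℝ), v ^ n * Real.exp (-(r * v)) = (n.factorial : ℝ) / r ^ (n + 1) := by
  have h := Real.integral_rpow_mul_exp_neg_mul_Ioi (a := (n : ℝ) + 1) (r := r) (by positivity) hr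
  rw [add_sub_cancel_right, Real.Gamma_nat_eq_factorial] at h
  have e : (1 / r) ^ ((n : ℝ) + 1) = 1 / r ^ (n + 1) := by
    rw [Real.div_rpow zero_le_one hr.le, Real.one_rpow]
    congr 1
    rw [← Real.rpow_natCast]
    push_cast
    rfl
  rw [e] at h
  rw [show ((n.factorial : ℝ) / r ^ (n + 1)) = 1 / r ^ (n + 1) * (n.factorial : ℝ) by ring, ← h]
  refine setIntegral_congr_fun measurableSet_Ioi fun v _ => ?_
  simp only [Real.rpow_natCast]

lemma norm_exp_c (z : ℂ) (v : ℝ) : ‖Complex.exp (-(z * v))‖ = Real.exp (-(z.re * v)) := by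
  rw [Complex.norm_exp]
  simp

lemma MT_norm {f : ℝ → ℝ} {n : ℕ} {z : ℂ} {v : ℝ} (hv : 0 < v) :
    ‖((f v * v ^ n : ℝ) : ℂ) * Complex.exp (-(z * v))‖ = |f v| * (v ^ n * Real.exp (-(z.re * v))) := by
  rw [norm_mul, Complex.norm_real, norm_exp_c, Real.norm_eq_abs, abs_mul, abs_of_nonneg (pow_nonneg hv.le n)]
  ring

lemma MT_meas {f : ℝ → ℝ} (hf : Measurable f) (n : ℕ) (z : ℂ) :
    Measurable fun v : ℝ => ((f v * v ^ n : ℝ) : ℂ) * Complex.exp (-(z * v)) := by
  have h1 : Measurable fun v : ℝ => ((f v * v ^ n : ℝ) : ℂ) :=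
    Complex.measurable_ofReal.comp (hf.mul (by fun_prop))
  exact h1.mul (by fun_prop)

lemma MT_int {f : ℝ → ℝ} (hf : Measurable f) {B : ℝ} (hB : ∀ v, 0 < v → |f v| ≤ B) (n : ℕ) {z : ℂ}
    (hz : 0 < z.re) :
    IntegrableOn (fun v : ℝ => ((f v * v ^ n : ℝ) : ℂ) * Complex.exp (-(z * v))) (Set.Ioi 0) := by
  refine Integrable.mono' ((pow_exp_int n hz).const_mul B) (MT_meas hf n z).aestronglyMeasurable ?_
  filter_upwards [ae_restrict_mem measurableSet_Ioi] with v hv
  have hv0 : 0 < v := hv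
  rw [MT_norm hv0]
  exact mul_le_mul_of_nonneg_right (hB v hv0) (by positivity)

lemma MT_deriv {f : ℝ → ℝ} (hf : Measurable f) {B : ℝ} (hB : ∀ v, 0 < v → |f v| ≤ B) (n : ℕ) {z : ℂ}
    (hz : 0 < z.re) : HasDerivAt (MT f n) (-(MT f (n + 1) z)) z := by
  have hs : {w : ℂ | z.re / 2 < w.re} ∈ 𝓝 z :=
    (isOpen_lt continuous_const Complex.continuous_re).mem_nhds (by
      show z.re / 2 < z.re
      linarith)
  have h := hasDerivAt_integral_of_dominated_loc_of_deriv_le (μ := volume.restrict (Set.Ioi (0 : ℝ)))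
    (F := fun (w : ℂ) (v : ℝ) => ((f v * v ^ n : ℝ) : ℂ) * Complex.exp (-(w * v)))
    (F' := fun (w : ℂ) (v : ℝ) => -(((f v * v ^ (n + 1) : ℝ) : ℂ) * Complex.exp (-(w * v))))
    (bound := fun v => B * (v ^ (n + 1) * Real.exp (-(z.re / 2 * v)))) (x₀ := z) hs
    (Eventually.of_forall fun w => (MT_meas hf n w).aestronglyMeasurable)
    (MT_int hf hB n hz) (MT_meas hf (n + 1) z).neg.aestronglyMeasurable ?_
    ((pow_exp_int (n + 1) (by linarith : 0 < z.re / 2)).const_mul B) ?_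
  · have h2 := h.2
    rw [integral_neg] at h2
    exact h2
  · filter_upwards [ae_restrict_mem measurableSet_Ioi] with v hv w hw
    have hv0 : 0 < v := hv
    have hw' : z.re / 2 < w.re := hw
    rw [norm_neg, MT_norm hv0]
    have h1 : Real.exp (-(w.re * v)) ≤ Real.exp (-(z.re / 2 * v)) := by
      apply Real.exp_le_exp.2
      nlinarith
    have h2 := hB v hv0
    have h3 : 0 ≤ B := (abs_nonneg _).trans h2
    exact mul_le_mul h2 (mul_le_mul_of_nonneg_left h1 (by positivity)) (by positivity) h3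
  · filter_upwards with v w _
    have h1 : HasDerivAt (fun w : ℂ => Complex.exp (-(w * v))) (Complex.exp (-(w * v)) * (-(1 * (v : ℂ)))) w :=
      (((hasDerivAt_id w).mul_const (v : ℂ)).fun_neg).cexp
    have h2 := h1.const_mul ((f v * v ^ n : ℝ) : ℂ)
    refine h2.congr_deriv ?_
    push_cast
    ring

/-- the iterated derivatives of the Laplace transform -/
theorem MT_iter {f : ℝ → ℝ} (hf : Measurable f) {B : ℝ} (hB : ∀ v, 0 < v → |f v| ≤ B) (n : ℕ) :
    ∀ z : ℂ, 0 < z.re → iteratedDeriv n (MT f 0) z = (-1) ^ n * MT f n z := by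
  induction n with
  | zero =>
    intro z _
    simp
  | succ n ih =>
    intro z hz
    rw [iteratedDeriv_succ]
    have hev : iteratedDeriv n (MT f 0) =ᶠ[𝓝 z] fun w => (-1) ^ n * MT f n w := by
      have hs : {w : ℂ | 0 < w.re} ∈ 𝓝 z :=
        (isOpen_lt continuous_const Complex.continuous_re).mem_nhds hz
      filter_upwards [hs] with w hw using ih w hw
    rw [hev.deriv_eq, ((MT_deriv hf hB n hz).const_mul _).deriv]
    ring

lemma MT_diff {f : ℝ → ℝ} (hf : Measurable f) {B : ℝ} (hB : ∀ v, 0 < v → |f v| ≤ B) :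
    DifferentiableOn ℂ (MT f 0) {z : ℂ | 0 < z.re} := fun _ hz =>
  (MT_deriv hf hB 0 hz).differentiableAt.differentiableWithinAt

/-- moments and Cauchy's estimate -/
theorem MT_cauchy {f : ℝ → ℝ} (hf : Measurable f) {B : ℝ} (hB : ∀ v, 0 < v → |f v| ≤ B) {g : ℂ → ℂ} {z a κ : ℂ}
    {R M : ℝ} (hz : 0 < z.re) (hR : 0 < R) (hza : z ≠ a) (hg : DiffContOnCl ℂ g (Metric.ball z R))
    (hM : ∀ w ∈ Metric.sphere z R, ‖g w‖ ≤ M)
    (he : MT f 0 =ᶠ[𝓝 z] fun w => κ * (w - a)⁻¹ + g w) (n : ℕ) :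
    ‖MT f n z - n.factorial * κ * ((z - a)⁻¹) ^ (n + 1)‖ ≤ n.factorial * M / R ^ n := by
  have h1 := MT_iter hf hB n z hz
  rw [he.iteratedDeriv_eq] at h1
  have hg1 : AnalyticAt ℂ g z := by
    have := hg.differentiableOn.analyticAt (Metric.ball_mem_nhds z hR)
    exact this
  have hi1 : AnalyticAt ℂ (fun w : ℂ => (w - a)⁻¹) z := by
    refine AnalyticAt.inv (by fun_prop) (sub_ne_zero.2 hza)
  have hc : ContDiffAt ℂ n (fun w : ℂ => κ * (w - a)⁻¹) z := (analyticAt_const.mul hi1).contDiffAt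
  have h2 : iteratedDeriv n (fun w => κ * (w - a)⁻¹ + g w) z =
      iteratedDeriv n (fun w : ℂ => κ * (w - a)⁻¹) z + iteratedDeriv n g z :=
    iteratedDeriv_fun_add hc hg1.contDiffAt
  have h3 : iteratedDeriv n (fun w : ℂ => κ * (w - a)⁻¹) z =
      κ * ((-1) ^ n * n.factorial * ((z - a)⁻¹) ^ (n + 1)) := by
    rw [iteratedDeriv_const_mul_field]
    congr 1
    have h4 := iter_deriv_inv_linear_sub (𝕜 := ℂ) n 1 a
    rw [iteratedDeriv_eq_iterate]
    have h5 := congrFun h4 z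
    simp only [one_mul, one_pow, mul_one] at h5
    rw [h5]
    congr 1
    rw [inv_pow, ← zpow_natCast, ← zpow_neg]
    congr 1
    push_cast
    ring
  rw [h2, h3] at h1
  have h4 := Complex.norm_iteratedDeriv_le_of_forall_mem_sphere_norm_le n hR hg hM
  have h5 : iteratedDeriv n g z = (-1) ^ n * (MT f n z - n.factorial * κ * ((z - a)⁻¹) ^ (n + 1)) := by
    linear_combination h1
  rw [h5, norm_mul, norm_pow, norm_neg, norm_one, one_pow, one_mul] at h4
  exact h4

end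

end Pool.Agent.K3h81.RB
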