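import Pool.Agent.K3h81.RB.Loc1
import Pool.Agent.K3h81.RB.Lan1

/-!
# The recursion for the moments of `kk`
-/

set_option autoImplicit false

namespace Pool.Agent.K3h81.RB

open Filter Topology MeasureTheory

noncomputable section

lemma int_id (v : ℝ) (hv : 0 < v) (K : ℝ) : ∫ u in Set.Ioo 0 v, K * u = K * (v ^ 2 / 2) := by
  rw [integral_const_mul, ← integral_Ioc_eq_integral_Ioo, ← intervalIntegral.integral_of_le hv.le, integral_id]
  ring

/-- Fubini on a triangle, complex weights -/
theorem triC {m : ℝ → ℂ} {g : ℝ → ℝ} {M : ℝ → ℂ} {K : ℝ} (hm : Measurable m) (hg : Measurable g)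
    (hK : ∀ u, 0 < u → ‖m u‖ ≤ K * u) (hM : ∀ v, 0 < v → ∫ u in Set.Ioo 0 v, m u = M v)
    (hg2 : IntegrableOn (fun v => g v * v ^ 2) (Set.Ioi 0)) :
    ∫ u in Set.Ioi (0 : ℝ), (((∫ v in Set.Ioi u, g v : ℝ) : ℝ) : ℂ) * m u =
      ∫ v in Set.Ioi (0 : ℝ), (g v : ℂ) * M v := by
  set F : ℝ → ℝ → ℂ := fun u v => if 0 < u ∧ u < v then m u * (g v : ℂ) else 0 with hF
  have hmi : ∀ v, 0 < v → IntegrableOn m (Set.Ioo 0 v) := by
    intro v hv
    have h1 : IntegrableOn (fun u : ℝ => K * u) (Set.Ioo 0 v) :=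
      (Continuous.integrableOn_Icc (by fun_prop)).mono_set Set.Ioo_subset_Icc_self
    refine Integrable.mono' h1 hm.aestronglyMeasurable ?_
    filter_upwards [ae_restrict_mem measurableSet_Ioo] with u hu using hK u hu.1
  have hN : ∀ v, 0 < v → ∫ u in Set.Ioo 0 v, ‖m u‖ ≤ K * (v ^ 2 / 2) := by
    intro v hv
    rw [← int_id v hv K]
    refine setIntegral_mono_on (hmi v hv).norm ?_ measurableSet_Ioo fun u hu => hK u hu.1
    exact (Continuous.integrableOn_Icc (by fun_prop)).mono_set Set.Ioo_subset_Icc_self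
  have hFm : Measurable (Function.uncurry F) := by
    refine Measurable.ite ?_ ?_ measurable_const
    · exact (measurableSet_lt measurable_const measurable_fst).inter
        (measurableSet_lt measurable_fst measurable_snd)
    · exact (hm.comp measurable_fst).mul (Complex.measurable_ofReal.comp (hg.comp measurable_snd))
  have hsec : ∀ v, (fun u => F u v) = (Set.Ioo 0 v).indicator fun u => m u * (g v : ℂ) := by
    intro v
    funext u
    simp only [hF, Set.indicator_apply, Set.mem_Ioo]
  have hsec2 : ∀ u, (fun v => F u v) = if 0 < u then (Set.Ioi u).indicator fun v => m u * (g v : ℂ) else 0 := by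
    intro u
    funext v
    simp only [hF]
    by_cases h : 0 < u
    · simp only [h, true_and, if_true, Set.indicator_apply, Set.mem_Ioi]
    · simp [h]
  have hI1 : ∀ v, ∫ u, F u v = (Set.Ioi (0 : ℝ)).indicator (fun v => (g v : ℂ) * M v) v := by
    intro v
    rw [hsec v, integral_indicator measurableSet_Ioo, integral_mul_const]
    by_cases h : 0 < v
    · rw [Set.indicator_of_mem (show v ∈ Set.Ioi (0 : ℝ) from h), hM v h, mul_comm]
    · rw [Set.indicator_of_notMem (show v ∉ Set.Ioi (0 : ℝ) from h), Set.Ioo_eq_empty h]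
      simp
  set N : ℝ → ℝ := fun v => ∫ u in Set.Ioo 0 v, ‖m u‖ with hNd
  have hN0 : ∀ v, 0 ≤ N v := fun v => integral_nonneg fun u => norm_nonneg _
  have hNm : Monotone N := by
    intro v w hvw
    rcases le_or_gt w 0 with hw | hw
    · simp only [hNd]
      rw [Set.Ioo_eq_empty (not_lt.2 hw), Set.Ioo_eq_empty (not_lt.2 (hvw.trans hw))]
    · simp only [hNd]
      exact setIntegral_mono_set (hmi w hw).norm (Eventually.of_forall fun u => norm_nonneg _)
        (Set.Ioo_subset_Ioo_right hvw).eventuallyLE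
  have hI2 : ∀ v, ∫ u, ‖F u v‖ = (Set.Ioi (0 : ℝ)).indicator (fun v => |g v| * N v) v := by
    intro v
    have e : (fun u => ‖F u v‖) = (Set.Ioo 0 v).indicator fun u => ‖m u‖ * |g v| := by
      funext u
      have : F u v = (Set.Ioo 0 v).indicator (fun u => m u * (g v : ℂ)) u := congrFun (hsec v) u
      rw [this]
      by_cases h : u ∈ Set.Ioo 0 v
      · rw [Set.indicator_of_mem h, Set.indicator_of_mem h, norm_mul, Complex.norm_real, Real.norm_eq_abs]
      · rw [Set.indicator_of_notMem h, Set.indicator_of_notMem h, norm_zero]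
    rw [e, integral_indicator measurableSet_Ioo, integral_mul_const]
    by_cases h : 0 < v
    · rw [Set.indicator_of_mem (show v ∈ Set.Ioi (0 : ℝ) from h), mul_comm]
    · rw [Set.indicator_of_notMem (show v ∉ Set.Ioi (0 : ℝ) from h), Set.Ioo_eq_empty h]
      simp
  have hint : Integrable (Function.uncurry F) (volume.prod volume) := by
    rw [integrable_prod_iff' hFm.aestronglyMeasurable]
    constructor
    · refine Eventually.of_forall fun v => ?_
      simp only [Function.uncurry]
      rw [hsec v, integrable_indicator_iff measurableSet_Ioo]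
      by_cases h : 0 < v
      · exact (hmi v h).mul_const _
      · rw [Set.Ioo_eq_empty h]; exact integrableOn_empty
    · simp only [Function.uncurry]
      simp only [hI2]
      rw [integrable_indicator_iff measurableSet_Ioi]
      refine Integrable.mono' (hg2.norm.const_mul (K / 2))
        ((hg.norm).mul hNm.measurable).aestronglyMeasurable ?_
      filter_upwards [ae_restrict_mem measurableSet_Ioi] with v hv
      have hv0 : 0 < v := hv
      rw [norm_mul, Real.norm_eq_abs, abs_abs, Real.norm_of_nonneg (hN0 v), norm_mul, Real.norm_eq_abs,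
        Real.norm_of_nonneg (by positivity : (0 : ℝ) ≤ v ^ 2)]
      have := mul_le_mul_of_nonneg_left (hN v hv0) (abs_nonneg (g v))
      calc |g v| * N v ≤ |g v| * (K * (v ^ 2 / 2)) := this
        _ = K / 2 * (|g v| * v ^ 2) := by ring
  have hout : ∀ u, ∫ v, F u v =
      (Set.Ioi (0 : ℝ)).indicator (fun u => (((∫ v in Set.Ioi u, g v : ℝ) : ℝ) : ℂ) * m u) u := by
    intro u
    rw [hsec2 u]
    by_cases h : 0 < u
    · rw [Set.indicator_of_mem (show u ∈ Set.Ioi (0 : ℝ) from h), if_pos h,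
        integral_indicator measurableSet_Ioi, integral_const_mul, integral_complex_ofReal, mul_comm]
    · rw [Set.indicator_of_notMem (show u ∉ Set.Ioi (0 : ℝ) from h), if_neg h]
      simp
  have h1 := integral_integral_swap (f := F) hint
  simp only [hout, hI1] at h1
  rwa [integral_indicator measurableSet_Ioi, integral_indicator measurableSet_Ioi] at h1

/-- `ru v * (1 + v)` is integrable -/
lemma ru1_int : IntegrableOn (fun v => ru v * (1 + v)) (Set.Ioi 0) := by
  obtain ⟨C, hC, h1, h2⟩ := ru_bound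
  have hm : Measurable fun v => ru v * (1 + v) := ru_meas.mul (by fun_prop)
  rw [← Set.Ioc_union_Ioi_eq_Ioi (zero_le_one (α := ℝ))]
  refine IntegrableOn.union ?_ ?_
  · refine Measure.integrableOn_of_bounded (M := C * 2) (by simp) hm.aestronglyMeasurable ?_
    filter_upwards [ae_restrict_mem measurableSet_Ioc] with v hv
    rw [norm_mul, Real.norm_eq_abs, Real.norm_of_nonneg (by linarith [hv.1] : (0 : ℝ) ≤ 1 + v)]
    exact mul_le_mul (h2 v hv.1.le) (by linarith [hv.2]) (by linarith [hv.1]) hC.le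
  · have h3 : IntegrableOn (fun v : ℝ => 2 * C * v ^ (-2 : ℝ)) (Set.Ioi 1) :=
      (integrableOn_Ioi_rpow_of_lt (by norm_num) one_pos).const_mul _
    refine Integrable.mono' h3 hm.aestronglyMeasurable ?_
    filter_upwards [ae_restrict_mem measurableSet_Ioi] with v hv
    have hv1 : 1 < v := hv
    have hv0 : 0 < v := by linarith
    rw [norm_mul, Real.norm_eq_abs, Real.norm_of_nonneg (by linarith : (0 : ℝ) ≤ 1 + v)]
    have e : v ^ (-2 : ℝ) = 1 / v ^ 2 := by
      rw [Real.rpow_neg hv0.le, one_div]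
      congr 1
      norm_cast
    rw [e]
    calc |ru v| * (1 + v) ≤ C / v ^ 3 * (2 * v) :=
          mul_le_mul (h1 v hv1.le) (by linarith) (by linarith) (by positivity)
      _ = 2 * C * (1 / v ^ 2) := by field_simp

/-- the integrand of `kk` -/
def gg (v : ℝ) : ℝ := ru v * ((1 + v) / v ^ 2)

lemma gg_meas : Measurable gg := ru_meas.mul (by fun_prop)

lemma kk_eq (u : ℝ) : kk u = ∫ v in Set.Ioi u, gg v := rfl

/-- the integral of `|ru v (1 + v)|` -/
def I1 : ℝ := ∫ v in Set.Ioi 0, |ru v * (1 + v)|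

lemma I1_nonneg : 0 ≤ I1 := integral_nonneg fun _ => abs_nonneg _

lemma kk_bound {u : ℝ} (hu : 0 < u) : |kk u| ≤ I1 / u ^ 2 := by
  unfold kk
  refine (abs_integral_le_integral_abs).trans ?_
  have h1 : ∫ v in Set.Ioi u, |ru v * ((1 + v) / v ^ 2)| ≤ ∫ v in Set.Ioi u, |ru v * (1 + v)| / u ^ 2 := by
    refine setIntegral_mono_on (ruq_int hu).abs ?_ measurableSet_Ioi fun v hv => ?_
    · exact ((ru1_int.mono_set (Set.Ioi_subset_Ioi hu.le)).abs).div_const _
    · have hv0 : u < v := hv
      have hv1 : 0 < v := hu.trans hv0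
      have e : ru v * ((1 + v) / v ^ 2) = ru v * (1 + v) / v ^ 2 := by ring
      rw [e, abs_div, abs_of_nonneg (by positivity : (0 : ℝ) ≤ v ^ 2)]
      gcongr
  refine h1.trans ?_
  rw [integral_div]
  refine div_le_div_of_nonneg_right ?_ (by positivity)
  exact setIntegral_mono_set ru1_int.abs (Eventually.of_forall fun v => abs_nonneg _)
    (Set.Ioi_subset_Ioi hu.le).eventuallyLE

lemma kk_meas : Measurable kk := by
  have h1 : StronglyMeasurable (fun u : ℝ => ∫ v : ℝ, (if u < v then gg v else 0)) := by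
    refine StronglyMeasurable.integral_prod_right (f := fun u v : ℝ => if u < v then gg v else 0) ?_
    refine Measurable.stronglyMeasurable ?_
    exact Measurable.ite (measurableSet_lt measurable_fst measurable_snd)
      (gg_meas.comp measurable_snd) measurable_const
  have h2 : kk = fun u : ℝ => ∫ v : ℝ, (if u < v then gg v else 0) := by
    funext u
    rw [kk_eq, ← integral_indicator measurableSet_Ioi]
    rfl
  rw [h2]
  exact h1.measurable

lemma kkn_norm {n : ℕ} {z : ℂ} {u : ℝ} (hu : 0 < u) :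
    ‖((kk u * u ^ (n + 2) : ℝ) : ℂ) * Complex.exp (-(z * u))‖ ≤ I1 * (u ^ n * Real.exp (-(z.re * u))) := by
  rw [MT_norm hu]
  have h := kk_bound hu
  calc |kk u| * (u ^ (n + 2) * Real.exp (-(z.re * u))) ≤
        I1 / u ^ 2 * (u ^ (n + 2) * Real.exp (-(z.re * u))) :=
        mul_le_mul_of_nonneg_right h (by positivity)
    _ = I1 * (u ^ n * Real.exp (-(z.re * u))) := by field_simp; ring

lemma kkn_int (n : ℕ) {z : ℂ} (hz : 0 < z.re) :
    IntegrableOn (fun u : ℝ => ((kk u * u ^ (n + 2) : ℝ) : ℂ) * Complex.exp (-(z * u))) (Set.Ioi 0) := by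
  refine Integrable.mono' ((pow_exp_int n hz).const_mul I1) (MT_meas kk_meas (n + 2) z).aestronglyMeasurable ?_
  filter_upwards [ae_restrict_mem measurableSet_Ioi] with u hu using kkn_norm hu

lemma kkn_le (n : ℕ) {z : ℂ} (hz : 0 < z.re) :
    ‖MT kk (n + 2) z‖ ≤ I1 * ((n.factorial : ℝ) / z.re ^ (n + 1)) := by
  unfold MT
  rw [← pow_exp_val n hz, ← integral_const_mul]
  refine norm_integral_le_of_norm_le ((pow_exp_int n hz).const_mul I1) ?_
  filter_upwards [ae_restrict_mem measurableSet_Ioi] with u hu using kkn_norm hu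

lemma pow_exp_le (k : ℕ) {x u : ℝ} (hx : 0 < x) (hu : 0 < u) :
    u ^ k * Real.exp (-(x * u)) ≤ (k.factorial : ℝ) / x ^ k := by
  have h := Real.pow_div_factorial_le_exp (x * u) (by positivity) k
  rw [mul_pow] at h
  have hk : (0 : ℝ) < k.factorial := by exact_mod_cast Nat.factorial_pos k
  rw [Real.exp_neg, ← div_eq_mul_inv, div_le_div_iff₀ (Real.exp_pos _) (by positivity)]
  rw [div_le_iff₀ hk] at h
  linarith

/-- **The recursion.** -/
theorem kk_rec (n : ℕ) {z : ℂ} (hz : 0 < z.re) :
    z * MT kk (n + 3) z - ((n : ℂ) + 3) * MT kk (n + 2) z = -(MT ru (n + 1) z + MT ru (n + 2) z) := by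
  obtain ⟨C, hC, -, hCb⟩ := ru_bound
  set m : ℝ → ℂ := fun u => (((n : ℂ) + 3) * (u : ℂ) ^ (n + 2) - z * (u : ℂ) ^ (n + 3)) * Complex.exp (-(z * u)) with hm
  set M : ℝ → ℂ := fun v => (v : ℂ) ^ (n + 3) * Complex.exp (-(z * v)) with hMd
  set K : ℝ := ((n : ℝ) + 3) * (((n + 1).factorial : ℝ) / z.re ^ (n + 1)) +
    ‖z‖ * (((n + 2).factorial : ℝ) / z.re ^ (n + 2)) with hK
  have hder : ∀ v : ℝ, HasDerivAt M (m v) v := by
    intro v
    have h1 : HasDerivAt (fun w : ℂ => w ^ (n + 3)) (((n + 3 : ℕ) : ℂ) * (v : ℂ) ^ (n + 3 - 1)) (v : ℂ) :=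
      hasDerivAt_pow (n + 3) (v : ℂ)
    have h2 : HasDerivAt (fun w : ℂ => Complex.exp (-(z * w))) (Complex.exp (-(z * v)) * (-(z * 1))) (v : ℂ) :=
      (((hasDerivAt_id (v : ℂ)).const_mul z).fun_neg).cexp
    have h3 := (h1.fun_mul h2).comp_ofReal
    refine h3.congr_deriv ?_
    simp only [hm]
    have e : n + 3 - 1 = n + 2 := rfl
    rw [e]
    push_cast
    ring
  have hmc : Continuous m := by
    rw [hm]
    fun_prop
  have h := triC (m := m) (g := gg) (M := M) (K := K) hmc.measurable gg_meas (fun u hu => ?_)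
    (fun v hv => ?_) ?_
  · simp only [← kk_eq] at h
    have e1 : ∀ u : ℝ, (kk u : ℂ) * m u = ((n : ℂ) + 3) * (((kk u * u ^ (n + 2) : ℝ) : ℂ) * Complex.exp (-(z * u))) -
        z * (((kk u * u ^ (n + 3) : ℝ) : ℂ) * Complex.exp (-(z * u))) := by
      intro u
      simp only [hm]
      push_cast
      ring
    have e2 : ∫ v in Set.Ioi (0 : ℝ), (gg v : ℂ) * M v =
        ∫ v in Set.Ioi (0 : ℝ), ((((ru v * v ^ (n + 1) : ℝ) : ℂ) * Complex.exp (-(z * v))) +
          (((ru v * v ^ (n + 2) : ℝ) : ℂ) * Complex.exp (-(z * v)))) := by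
      refine setIntegral_congr_fun measurableSet_Ioi fun v hv => ?_
      have hv0 : (v : ℂ) ≠ 0 := by
        have : (0 : ℝ) < v := hv
        exact_mod_cast this.ne'
      simp only [gg, hMd]
      push_cast
      field_simp
      ring
    simp only [e1] at h
    rw [integral_sub ((kkn_int n hz).const_mul _) ((kkn_int (n + 1) hz).const_mul _), integral_const_mul,
      integral_const_mul, e2, integral_add (MT_int ru_meas (fun v hv => hCb v hv.le) (n + 1) hz)
      (MT_int ru_meas (fun v hv => hCb v hv.le) (n + 2) hz)] at h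
    unfold MT
    linear_combination -h
  · simp only [hm]
    rw [norm_mul, norm_exp_c]
    have h1 : ‖((n : ℂ) + 3) * (u : ℂ) ^ (n + 2) - z * (u : ℂ) ^ (n + 3)‖ ≤
        ((n : ℝ) + 3) * u ^ (n + 2) + ‖z‖ * u ^ (n + 3) := by
      refine (norm_sub_le _ _).trans (le_of_eq ?_)
      rw [norm_mul, norm_mul, norm_pow, norm_pow, Complex.norm_of_nonneg hu.le]
      congr 2
      have : ((n : ℂ) + 3) = (((n : ℝ) + 3 : ℝ) : ℂ) := by push_cast; rfl
      rw [this, Complex.norm_of_nonneg (by positivity)]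
    have h2 := pow_exp_le (n + 1) hz hu
    have h3 := pow_exp_le (n + 2) hz hu
    have hE : 0 < Real.exp (-(z.re * u)) := Real.exp_pos _
    calc _ ≤ (((n : ℝ) + 3) * u ^ (n + 2) + ‖z‖ * u ^ (n + 3)) * Real.exp (-(z.re * u)) :=
          mul_le_mul_of_nonneg_right h1 hE.le
      _ = (((n : ℝ) + 3) * (u ^ (n + 1) * Real.exp (-(z.re * u))) +
          ‖z‖ * (u ^ (n + 2) * Real.exp (-(z.re * u)))) * u := by ring
      _ ≤ K * u := by
          rw [hK]
          gcongr
  · rw [← integral_Ioc_eq_integral_Ioo, ← intervalIntegral.integral_of_le hv.le,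
      intervalIntegral.integral_eq_sub_of_hasDerivAt (fun x _ => hder x) (hmc.intervalIntegrable _ _)]
    simp [hMd]
  · refine IntegrableOn.congr_fun ru1_int (fun v hv => ?_) measurableSet_Ioi
    have hv0 : (0 : ℝ) < v := hv
    simp only [gg]
    field_simp

end

end Pool.Agent.K3h81.RB
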