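import Pool.Agent.K3h81.RB.Loc2
import Pool.Agent.K3h81.RB.Lan2

/-!
# Poles of the Laplace transform and the nearest zero
-/

set_option autoImplicit false

namespace Pool.Agent.K3h81.RB

open Filter Topology MeasureTheory
open Pool.Agent.W66 (Z1 DD)

noncomputable section

lemma ru_bd : ∃ B : ℝ, ∀ v : ℝ, 0 < v → |ru v| ≤ B := by
  obtain ⟨C, _, _, h⟩ := ru_bound
  exact ⟨C, fun v hv => h v hv.le⟩

lemma MT_real {w : ℝ} (hw : 0 < w) : MT ru 0 (w : ℂ) = Phc w := by
  rw [← Phi_eq hw]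
  unfold MT Phi
  rw [← integral_complex_ofReal]
  refine setIntegral_congr_fun measurableSet_Ioi fun v _ => ?_
  push_cast
  ring

lemma one_add_ne {w : ℂ} (hw : -1 < w.re) : 1 + w ≠ 0 := by
  intro h
  have := congrArg Complex.re h
  simp at this
  linarith

lemma half_UU {w : ℂ} (hw : 0 < w.re) : w ∈ UU :=
  ⟨one_add_ne (by linarith), Pool.Agent.W66.Z1_ne_zero (by simp; linarith)⟩

theorem MT_eq {w : ℂ} (hw : 0 < w.re) : MT ru 0 w = Phc w := by
  obtain ⟨B, hB⟩ := ru_bd
  have hU : IsOpen {z : ℂ | 0 < z.re} := isOpen_lt continuous_const Complex.continuous_re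
  have h1 : AnalyticOnNhd ℂ (MT ru 0) {z : ℂ | 0 < z.re} := (MT_diff ru_meas hB).analyticOnNhd hU
  have h2 : AnalyticOnNhd ℂ Phc {z : ℂ | 0 < z.re} :=
    (Phc_diff.mono fun z hz => half_UU hz).analyticOnNhd hU
  have hpre : IsPreconnected {z : ℂ | 0 < z.re} := (convex_halfSpace_re_gt 0).isPreconnected
  refine h1.eqOn_of_preconnected_of_frequently_eq h2 hpre (z₀ := 1) (by simp) ?_ hw
  have h3 : Tendsto (fun n : ℕ => (((1 + 1 / ((n : ℝ) + 1) : ℝ)) : ℂ)) atTop (𝓝[≠] 1) := by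
    refine tendsto_nhdsWithin_of_tendsto_nhds_of_eventually_within _ ?_ (Eventually.of_forall fun n => ?_)
    · have h5 : Tendsto (fun n : ℕ => 1 + 1 / ((n : ℝ) + 1)) atTop (𝓝 (1 + 0)) :=
        tendsto_one_div_add_atTop_nhds_zero_nat.const_add 1
      have h6 := (Complex.continuous_ofReal.tendsto _).comp h5
      rw [add_zero, Complex.ofReal_one] at h6
      exact h6
    · have : (0 : ℝ) < 1 / ((n : ℝ) + 1) := by positivity
      intro h
      rw [Set.mem_singleton_iff] at h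
      have h7 : (1 + 1 / ((n : ℝ) + 1) : ℝ) = 1 := by exact_mod_cast h
      linarith
  refine h3.frequently (Frequently.of_forall fun n => ?_)
  exact MT_real (by positivity)

/-- the zeros, shifted -/
def AA : Set ℂ := {w | riemannZeta (1 + w) = 0}

lemma AA_closed : IsClosed AA := by
  have h : AA = (fun w : ℂ => 1 + w) ⁻¹' riemannZetaZeros := rfl
  rw [h]
  exact isClosed_riemannZetaZeros.preimage (by fun_prop)

lemma AA_fin (c : ℂ) (R : ℝ) : (AA ∩ Metric.closedBall c R).Finite := by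
  have h1 : (Metric.closedBall (1 + c) R ∩ riemannZetaZeros).Finite :=
    (isCompact_closedBall (1 + c) R).inter_riemannZetaZeros_finite
  refine (h1.image (fun s : ℂ => s - 1)).subset ?_
  rintro w ⟨hw, hw2⟩
  refine ⟨1 + w, ⟨?_, hw⟩, by simp⟩
  rw [Metric.mem_closedBall, dist_eq_norm] at hw2 ⊢
  rwa [add_sub_add_left_eq_sub]

lemma AA_re {w : ℂ} (h : w ∈ AA) : w.re < 0 := by
  by_contra hcon
  push Not at hcon
  exact riemannZeta_ne_zero_of_one_le_re (s := 1 + w) (by simp; linarith) h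

lemma mem_UU {w : ℂ} (hre : -1 < w.re) (h : w ∉ AA) : w ∈ UU := by
  refine ⟨one_add_ne hre, ?_⟩
  by_cases h1 : 1 + w = 1
  · rw [h1, Pool.Agent.W66.Z1_one]; exact one_ne_zero
  · rw [Pool.Agent.W66.Z1_eq h1]
    exact mul_ne_zero (sub_ne_zero.2 h1) h

/-- the logarithmic derivative has a simple pole at each zero -/
theorem pole {a : ℂ} (ha : a ∈ AA) (hre : -1 < a.re) : ∃ c : ℂ, c ≠ 0 ∧
    AnalyticAt ℂ (fun w : ℂ => if w = a then c else (w - a) * Phc w) a := by
  set Zf : ℂ → ℂ := fun w => Z1 (1 + w) with hZf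
  have hZd : Differentiable ℂ Zf := Pool.Agent.W66.Z1_diff.comp (by fun_prop)
  have hZa : ∀ w, AnalyticAt ℂ Zf w := fun w => hZd.analyticAt w
  have h1a : 1 + a ≠ 1 := by
    intro h
    have hre := AA_re ha
    have := congrArg Complex.re h
    simp at this
    linarith
  have hZ0 : Zf a = 0 := by
    simp only [hZf]
    rw [Pool.Agent.W66.Z1_eq h1a]
    have : riemannZeta (1 + a) = 0 := ha
    rw [this, mul_zero]
  have htop : analyticOrderAt Zf a ≠ ⊤ := by
    intro h
    rw [analyticOrderAt_eq_top] at h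
    have h2 : Set.EqOn Zf 0 Set.univ :=
      AnalyticOnNhd.eqOn_zero_of_preconnected_of_eventuallyEq_zero (fun w _ => hZa w) isPreconnected_univ
        (Set.mem_univ a) h
    have h3 := h2 (Set.mem_univ (1 : ℂ))
    exact Pool.Agent.W66.Z1_ne_zero (s := 1 + 1) (by norm_num) h3
  obtain ⟨g, hg, hg0, hgz⟩ := (hZa a).analyticOrderAt_ne_top.1 htop
  set m := analyticOrderNatAt Zf a with hm
  have hm1 : m ≠ 0 := by
    intro h0
    have h2 : Zf a = (a - a) ^ m • g a := hgz.self_of_nhds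
    rw [h0, pow_zero, one_smul, hZ0] at h2
    exact hg0 h2.symm
  have h1a0 := one_add_ne hre
  refine ⟨-(m : ℂ) / (1 + a), div_ne_zero (neg_ne_zero.2 (by exact_mod_cast hm1)) h1a0, ?_⟩
  -- the analytic model
  have hmod : AnalyticAt ℂ (fun w : ℂ => -((w - a) + m + (w - a) * (deriv g w / g w)) / (1 + w)) a := by
    refine AnalyticAt.div ?_ (by fun_prop) h1a0
    refine AnalyticAt.neg ?_
    refine AnalyticAt.add (by fun_prop) ?_
    exact AnalyticAt.mul (by fun_prop) (hg.deriv.div hg hg0)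
  refine hmod.congr ?_
  have hga : ∀ᶠ w in 𝓝 a, AnalyticAt ℂ g w ∧ g w ≠ 0 :=
    hg.eventually_analyticAt.and (hg.continuousAt.eventually_ne hg0)
  have hder : deriv Zf =ᶠ[𝓝 a] deriv (fun z => (z - a) ^ m • g z) := hgz.deriv
  filter_upwards [hga, hder, hgz] with w ⟨w1, w2⟩ w3 w4
  by_cases hwa : w = a
  · rw [if_pos hwa, hwa]
    simp
  · rw [if_neg hwa]
    have hwa' : w - a ≠ 0 := sub_ne_zero.2 hwa
    have e1 : deriv Zf w = deriv Z1 (1 + w) := by
      simp only [hZf]
      rw [deriv_comp_const_add]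
    have e2 : deriv (fun z => (z - a) ^ m • g z) w = (m : ℂ) * (w - a) ^ (m - 1) * g w + (w - a) ^ m * deriv g w := by
      have h5 : HasDerivAt (fun z : ℂ => (z - a) ^ m) ((m : ℂ) * (w - a) ^ (m - 1) * 1) w :=
        ((hasDerivAt_id w).sub_const a).pow m
      have h6 := h5.fun_mul w1.differentiableAt.hasDerivAt
      simp only [smul_eq_mul]
      rw [h6.deriv, mul_one]
    have e3 : Z1 (1 + w) = (w - a) ^ m * g w := w4
    have e4 : deriv Z1 (1 + w) = (m : ℂ) * (w - a) ^ (m - 1) * g w + (w - a) ^ m * deriv g w := by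
      rw [← e1, w3, e2]
    unfold Phc Pool.Agent.W66.DD
    rw [e3, e4]
    have e5 : (w - a) ^ m = (w - a) ^ (m - 1) * (w - a) := by
      rw [← pow_succ]; congr 1; omega
    rw [e5]
    have hp : (w - a) ^ (m - 1) ≠ 0 := pow_ne_zero _ hwa'
    field_simp
    ring

end

end Pool.Agent.K3h81.RB
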