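import Pool.Agent.K3h81.RB.Loc3

/-!
# The geometry of the nearest zero, and the moments
-/

set_option autoImplicit false

namespace Pool.Agent.K3h81.RB

open Filter Topology MeasureTheory
open Pool.Agent.W66 (Z1 DD)

noncomputable section

lemma nsq (w0 t : ℝ) (a : ℂ) : ‖((w0 : ℂ) + t * Complex.I) - a‖ ^ 2 = (w0 - a.re) ^ 2 + (t - a.im) ^ 2 := by
  rw [← Complex.normSq_eq_norm_sq, Complex.normSq_apply]
  simp
  ring

lemma bad_sub {w0 : ℝ} (hw0 : 0 < w0) {a b : ℂ} (ha : a ∈ AA) (hb : b ∈ AA) (hab : a ≠ b) :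
    {t : ℝ | ‖((w0 : ℂ) + t * Complex.I) - a‖ = ‖((w0 : ℂ) + t * Complex.I) - b‖}.Subsingleton := by
  intro t ht t' ht'
  by_contra hne
  have h1 : (w0 - a.re) ^ 2 + (t - a.im) ^ 2 = (w0 - b.re) ^ 2 + (t - b.im) ^ 2 := by
    rw [← nsq, ← nsq, show ‖((w0 : ℂ) + t * Complex.I) - a‖ = ‖((w0 : ℂ) + t * Complex.I) - b‖ from ht]
  have h2 : (w0 - a.re) ^ 2 + (t' - a.im) ^ 2 = (w0 - b.re) ^ 2 + (t' - b.im) ^ 2 := by
    rw [← nsq, ← nsq, show ‖((w0 : ℂ) + t' * Complex.I) - a‖ = ‖((w0 : ℂ) + t' * Complex.I) - b‖ from ht']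
  have h3 : (t - t') * (b.im - a.im) = 0 := by nlinarith
  have h4 : a.im = b.im := by
    rcases mul_eq_zero.1 h3 with h | h
    · exact absurd (sub_eq_zero.1 h) hne
    · linarith
  have hra := AA_re ha
  have hrb := AA_re hb
  rw [h4] at h1
  have h5 : (w0 - a.re) ^ 2 = (w0 - b.re) ^ 2 := by linarith
  have h6 : (b.re - a.re) * (2 * w0 - a.re - b.re) = 0 := by linarith [h5, sq (w0 - a.re), sq (w0 - b.re)]
  have h7 : a.re = b.re := by
    rcases mul_eq_zero.1 h6 with h | h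
    · linarith
    · exfalso; linarith
  exact hab (Complex.ext h7 h4)

/-- **The nearest zero.** -/
theorem geom {b : ℝ} {ρ : ℂ} (hρ : riemannZeta ρ = 0) (hb : b < ρ.re) (hb0 : 0 ≤ b) :
    ∃ W : ℝ, 0 < W ∧ ∀ w0 : ℝ, W ≤ w0 → ∃ (t d0 d1 R : ℝ) (a : ℂ), a ∈ AA ∧
      ‖((w0 : ℂ) + t * Complex.I) - a‖ = d1 ∧ w0 < d1 ∧ d1 < R ∧ R < d0 ∧ d0 < w0 + 1 - b ∧
      (∀ a' ∈ AA, d0 ≤ ‖(w0 : ℂ) - a'‖) ∧ (∀ a' ∈ AA, a' ≠ a → R ≤ ‖((w0 : ℂ) + t * Complex.I) - a'‖) := by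
  have hρ1 : ρ.re < 1 := by
    by_contra hcon
    exact riemannZeta_ne_zero_of_one_le_re (not_lt.1 hcon) hρ
  set G := ρ.re - b with hG
  have hG0 : 0 < G := by rw [hG]; linarith
  have hρA : ρ - 1 ∈ AA := by
    show riemannZeta (1 + (ρ - 1)) = 0
    rw [add_sub_cancel]
    exact hρ
  have hne : AA.Nonempty := ⟨_, hρA⟩
  refine ⟨max 1 (ρ.im ^ 2 / G), lt_max_of_lt_left one_pos, fun w0 hw0 => ?_⟩
  have hw1 : 1 ≤ w0 := (le_max_left _ _).trans hw0
  have hw0p : 0 < w0 := by linarith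
  have hw2 : ρ.im ^ 2 ≤ G * w0 := by
    have := (le_max_right _ _).trans hw0
    rw [div_le_iff₀ hG0] at this
    linarith
  obtain ⟨w1, hw1A, hd⟩ := AA_closed.exists_infDist_eq_dist hne (w0 : ℂ)
  set d0 := Metric.infDist (w0 : ℂ) AA with hd0
  have hle : ∀ a' ∈ AA, d0 ≤ ‖(w0 : ℂ) - a'‖ := fun a' ha' => by
    rw [← dist_eq_norm]
    exact Metric.infDist_le_dist_of_mem ha'
  have hz0 : ((w0 : ℂ) + ((0 : ℝ) : ℂ) * Complex.I) = w0 := by simp
  have hd0b : d0 < w0 + 1 - b := by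
    have h1 := hle _ hρA
    have h2 : ‖(w0 : ℂ) - (ρ - 1)‖ ^ 2 = (w0 - (ρ.re - 1)) ^ 2 + (0 - ρ.im) ^ 2 := by
      have := nsq w0 0 (ρ - 1)
      rw [hz0] at this
      rw [this]
      simp
    have h3 : ‖(w0 : ℂ) - (ρ - 1)‖ ^ 2 < (w0 + 1 - b) ^ 2 := by
      rw [h2]
      have h4 : (w0 + 1 - b) ^ 2 - (w0 - (ρ.re - 1)) ^ 2 = G * (2 * w0 + 2 - b - ρ.re) := by
        rw [hG]; ring
      have h5 : G * (2 * w0) ≤ G * (2 * w0 + 2 - b - ρ.re) := by
        apply mul_le_mul_of_nonneg_left _ hG0.le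
        linarith
      have h6 : 0 < G * w0 := by positivity
      nlinarith
    have h4 : ‖(w0 : ℂ) - (ρ - 1)‖ < w0 + 1 - b :=
      lt_of_pow_lt_pow_left₀ 2 (by linarith) h3
    linarith
  have hd0sq : d0 ^ 2 = (w0 - w1.re) ^ 2 + (0 - w1.im) ^ 2 := by
    rw [hd, dist_eq_norm, ← nsq, hz0]
  have hre1 := AA_re hw1A
  have hd0nn : 0 ≤ d0 := Metric.infDist_nonneg
  have hw1re : -1 < w1.re := by
    have h1 : w0 - w1.re ≤ d0 := by
      apply le_of_sq_le_sq _ hd0nn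
      nlinarith [sq_nonneg (0 - w1.im)]
    linarith
  have him : w1.im ≠ 0 := by
    intro h0
    have e : (1 : ℂ) + w1 = ((1 + w1.re : ℝ) : ℂ) := by
      apply Complex.ext <;> simp [h0]
    have h1 := Z1_real_ne (x := 1 + w1.re) (by linarith)
    rw [← e] at h1
    have h2 : (1 : ℂ) + w1 ≠ 1 := by
      intro h3
      have := congrArg Complex.re h3
      simp at this
      linarith
    rw [Pool.Agent.W66.Z1_eq h2] at h1
    have h3 : riemannZeta (1 + w1) = 0 := hw1A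
    rw [h3, mul_zero] at h1
    exact h1 rfl
  set e1 := w0 - w1.re with he1
  have he1p : 0 < e1 := by rw [he1]; linarith
  have he1d : e1 < d0 := by
    apply lt_of_pow_lt_pow_left₀ 2 hd0nn
    have : 0 < (0 - w1.im) ^ 2 := by
      have : (0 - w1.im) ≠ 0 := by simpa using him
      positivity
    rw [hd0sq]
    linarith
  set t1 := w1.im with ht1
  set η := d0 - e1 with hη
  have hη0 : 0 < η := by rw [hη]; linarith
  have hnear : ∀ t : ℝ, t1 < t → t < t1 + η → ‖((w0 : ℂ) + t * Complex.I) - w1‖ < d0 := by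
    intro t h1 h2
    apply lt_of_pow_lt_pow_left₀ 2 hd0nn
    rw [nsq, ← he1, ← ht1]
    have h3 : (t - t1) < η := by linarith
    have h4 : 0 < t - t1 := by linarith
    have h5 : d0 = e1 + η := by rw [hη]; ring
    rw [h5]
    nlinarith
  set F : Set ℂ := AA ∩ Metric.closedBall ((w0 : ℂ) + t1 * Complex.I) (d0 + η) with hF
  have hFfin : F.Finite := AA_fin _ _
  have hFin : ∀ t : ℝ, t1 < t → t < t1 + η → ∀ a ∈ AA, ‖((w0 : ℂ) + t * Complex.I) - a‖ < d0 → a ∈ F := by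
    intro t h1 h2 a ha h3
    refine ⟨ha, ?_⟩
    rw [Metric.mem_closedBall, dist_eq_norm]
    have e : a - ((w0 : ℂ) + t1 * Complex.I) = ((t - t1 : ℝ) : ℂ) * Complex.I - (((w0 : ℂ) + t * Complex.I) - a) := by
      push_cast; ring
    rw [e]
    refine (norm_sub_le _ _).trans ?_
    rw [norm_mul, Complex.norm_I, mul_one, Complex.norm_real, Real.norm_eq_abs, abs_of_pos (by linarith)]
    linarith
  set Bad : Set ℝ := ⋃ p ∈ (F ×ˢ F) ∩ {p : ℂ × ℂ | p.1 ≠ p.2},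
    {t : ℝ | ‖((w0 : ℂ) + t * Complex.I) - p.1‖ = ‖((w0 : ℂ) + t * Complex.I) - p.2‖} with hBad
  have hBadfin : Bad.Finite := by
    refine Set.Finite.biUnion ((hFfin.prod hFfin).subset Set.inter_subset_left) ?_
    rintro ⟨p, q⟩ ⟨⟨hp, hq⟩, hpq⟩
    exact (bad_sub hw0p hp.1 hq.1 hpq).finite
  have hinf : (Set.Ioo t1 (t1 + η)).Infinite := Set.Ioo_infinite (by linarith)
  obtain ⟨t, ⟨ht1', ht2'⟩, htB⟩ := (hinf.sdiff hBadfin).nonempty
  set z : ℂ := (w0 : ℂ) + t * Complex.I with hz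
  obtain ⟨a, haA, hda⟩ := AA_closed.exists_infDist_eq_dist hne z
  set d1 := ‖z - a‖ with hd1
  have hd1le : ∀ a' ∈ AA, d1 ≤ ‖z - a'‖ := fun a' ha' => by
    rw [hd1, ← dist_eq_norm, ← hda, ← dist_eq_norm]
    exact Metric.infDist_le_dist_of_mem ha'
  have hd1d0 : d1 < d0 := (hd1le _ hw1A).trans_lt (hnear t ht1' ht2')
  have hd1lt : ∀ a' ∈ AA, a' ≠ a → d1 < ‖z - a'‖ := by
    intro a' ha' hne'
    refine lt_of_le_of_ne (hd1le a' ha') fun heq => ?_
    apply htB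
    rw [hBad, Set.mem_iUnion₂]
    refine ⟨(a, a'), ⟨⟨hFin t ht1' ht2' a haA (by rw [← hz, ← hd1]; exact hd1d0), hFin t ht1' ht2' a' ha'
      (by rw [← hz, ← heq]; exact hd1d0)⟩, fun h => hne' h.symm⟩, ?_⟩
    show ‖((w0 : ℂ) + t * Complex.I) - a‖ = ‖((w0 : ℂ) + t * Complex.I) - a'‖
    rw [← hz, ← heq]
  have hF2 : (AA ∩ Metric.closedBall z d0).Finite := AA_fin _ _
  have hev : ∀ᶠ R in 𝓝[>] d1, ∀ a' ∈ (AA ∩ Metric.closedBall z d0) \ {a}, R < ‖z - a'‖ := by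
    rw [Filter.eventually_all_finite (hF2.subset Set.sdiff_subset)]
    rintro a' ⟨⟨h1, h2⟩, h3⟩
    exact nhdsWithin_le_nhds (Iio_mem_nhds (hd1lt a' h1 h3))
  obtain ⟨R, hR1, hR2⟩ := (hev.and (Ioo_mem_nhdsGT hd1d0)).exists
  refine ⟨t, d0, d1, R, a, haA, rfl, ?_, hR2.1, hR2.2, hd0b, hle, fun a' ha' hne' => ?_⟩
  · have h1 : (z - a).re ≤ ‖z - a‖ := Complex.re_le_norm _
    have h2 : (z - a).re = w0 - a.re := by simp [hz]
    have h3 := AA_re haA
    rw [h2] at h1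
    linarith
  · by_cases h : ‖z - a'‖ ≤ d0
    · exact (hR1 a' ⟨⟨ha', by rw [Metric.mem_closedBall, dist_comm, dist_eq_norm]; exact h⟩, hne'⟩).le
    · push Not at h
      exact (hR2.2.trans h).le

/-- the moments at the complex point -/
theorem mom_z {z a : ℂ} {R : ℝ} (hz : 0 < z.re) (ha : a ∈ AA) (hza : ‖z - a‖ < R) (hR : R < z.re + 1)
    (huniq : ∀ a' ∈ AA, a' ≠ a → R ≤ ‖z - a'‖) :
    ∃ (κ : ℂ) (R' M : ℝ), κ ≠ 0 ∧ ‖z - a‖ < R' ∧ R' < R ∧ 0 ≤ M ∧
      ∀ n : ℕ, ‖MT ru n z - n.factorial * κ * ((z - a)⁻¹) ^ (n + 1)‖ ≤ n.factorial * M / R' ^ n := by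
  obtain ⟨B, hB⟩ := ru_bd
  have hre : ∀ w ∈ Metric.ball z R, -1 < w.re := by
    intro w hw
    rw [Metric.mem_ball, dist_eq_norm, norm_sub_rev] at hw
    have h1 := Complex.re_le_norm (z - w)
    rw [Complex.sub_re] at h1
    linarith
  have haR : a ∈ Metric.ball z R := by
    rw [Metric.mem_ball, dist_eq_norm, norm_sub_rev]; exact hza
  obtain ⟨c, hc, hP⟩ := pole ha (hre a haR)
  set P : ℂ → ℂ := fun w => if w = a then c else (w - a) * Phc w with hPd
  have hPa : P a = c := by simp [hPd]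
  have hnotA : ∀ w ∈ Metric.ball z R, w ≠ a → w ∉ AA := by
    intro w hw hne h
    have := huniq w h hne
    rw [Metric.mem_ball, dist_eq_norm, norm_sub_rev] at hw
    linarith
  have hPdiff : DifferentiableOn ℂ P (Metric.ball z R) := by
    intro w hw
    by_cases h : w = a
    · rw [h]; exact hP.differentiableAt.differentiableWithinAt
    · have h1 : DifferentiableAt ℂ (fun w => (w - a) * Phc w) w := by
        refine DifferentiableAt.mul (by fun_prop) ?_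
        exact Phc_diff.differentiableAt (UU_open.mem_nhds (mem_UU (hre w hw) (hnotA w hw h)))
      refine (h1.congr_of_eventuallyEq ?_).differentiableWithinAt
      filter_upwards [isOpen_ne.mem_nhds h] with x hx
      have hx' : x ≠ a := hx
      simp [hPd, hx']
  set g : ℂ → ℂ := dslope P a with hg
  have hgdiff : DifferentiableOn ℂ g (Metric.ball z R) :=
    (Complex.differentiableOn_dslope (Metric.isOpen_ball.mem_nhds haR)).2 hPdiff
  set R' := (‖z - a‖ + R) / 2 with hR'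
  have hR1 : ‖z - a‖ < R' := by rw [hR']; linarith
  have hR2 : R' < R := by rw [hR']; linarith
  have hR'0 : 0 < R' := (norm_nonneg _).trans_lt hR1
  have hsub : Metric.closedBall z R' ⊆ Metric.ball z R := Metric.closedBall_subset_ball hR2
  have hgc : DiffContOnCl ℂ g (Metric.ball z R') := hgdiff.diffContOnCl_ball hsub
  obtain ⟨M, hM⟩ := (isCompact_sphere z R').exists_bound_of_continuousOn
    (hgdiff.continuousOn.mono (Metric.sphere_subset_closedBall.trans hsub))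
  have hza' : z ≠ a := by
    intro h
    have := AA_re ha
    rw [h] at hz
    linarith
  refine ⟨c, R', max M 0, hc, hR1, hR2, le_max_right _ _, fun n => ?_⟩
  refine MT_cauchy ru_meas hB hz hR'0 hza' hgc (fun w hw => (hM w hw).trans (le_max_left _ _)) ?_ n
  have h1 : ∀ᶠ w in 𝓝 z, 0 < w.re := (isOpen_lt continuous_const Complex.continuous_re).mem_nhds hz
  filter_upwards [h1, isOpen_ne.mem_nhds hza'] with w hw hwa
  have hwa' : w ≠ a := hwa
  have h2 : w - a ≠ 0 := sub_ne_zero.2 hwa'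
  rw [MT_eq hw]
  have h3 := sub_smul_dslope P a w
  have h4 : P w = (w - a) * Phc w := by simp [hPd, hwa']
  rw [hPa, h4, smul_eq_mul] at h3
  have h5 : g w = (w - a)⁻¹ * ((w - a) * Phc w - c) := by
    rw [← h3, hg, inv_mul_cancel_left₀ h2]
  rw [h5]
  field_simp
  ring

/-- the moments at the real point -/
theorem mom_w {w0 d0 R : ℝ} (hw0 : 0 < w0) (hd : ∀ a' ∈ AA, d0 ≤ ‖(w0 : ℂ) - a'‖) (hd1 : d0 < w0 + 1)
    (hR0 : 0 < R) (hR : R < d0) :
    ∃ M : ℝ, 0 ≤ M ∧ ∀ n : ℕ, ‖MT ru n (w0 : ℂ)‖ ≤ n.factorial * M / R ^ n := by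
  obtain ⟨B, hB⟩ := ru_bd
  have hdiff : DifferentiableOn ℂ Phc (Metric.ball (w0 : ℂ) d0) := by
    intro w hw
    rw [Metric.mem_ball, dist_eq_norm, norm_sub_rev] at hw
    have h1 := Complex.re_le_norm ((w0 : ℂ) - w)
    rw [Complex.sub_re, Complex.ofReal_re] at h1
    refine (Phc_diff.differentiableAt (UU_open.mem_nhds (mem_UU (by linarith) fun h => ?_))).differentiableWithinAt
    linarith [hd w h]
  have hsub : Metric.closedBall (w0 : ℂ) R ⊆ Metric.ball (w0 : ℂ) d0 := Metric.closedBall_subset_ball hR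
  obtain ⟨M, hM⟩ := (isCompact_sphere (w0 : ℂ) R).exists_bound_of_continuousOn
    (hdiff.continuousOn.mono (Metric.sphere_subset_closedBall.trans hsub))
  refine ⟨max M 0, le_max_right _ _, fun n => ?_⟩
  have h0 : (w0 : ℂ) ≠ 0 := by exact_mod_cast hw0.ne'
  have h := MT_cauchy (κ := 0) (a := 0) (M := max M 0) ru_meas hB (z := (w0 : ℂ)) (by simpa using hw0) hR0 h0
    (hdiff.diffContOnCl_ball hsub) (fun w hw => (hM w hw).trans (le_max_left _ _)) ?_ n
  · simpa using h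
  · have h1 : ∀ᶠ w in 𝓝 (w0 : ℂ), 0 < w.re :=
      (isOpen_lt continuous_const Complex.continuous_re).mem_nhds (by simpa using hw0)
    filter_upwards [h1] with w hw
    rw [MT_eq hw]
    ring

end

end Pool.Agent.K3h81.RB
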