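import Pool.Agent.K3h81.RB.Loc4

/-!
# The localized oscillation theorem: estimates for the moments of `kk`
-/

set_option autoImplicit false

namespace Pool.Agent.K3h81.RB

open Filter Topology MeasureTheory

noncomputable section

/-- the normalised moments -/
def cn (n : ℕ) (z : ℂ) : ℂ := MT kk n z / n.factorial

def rn (n : ℕ) (z : ℂ) : ℂ := MT ru n z / n.factorial

lemma fac_ne (n : ℕ) : ((n.factorial : ℕ) : ℂ) ≠ 0 := by exact_mod_cast Nat.factorial_ne_zero n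

lemma cn_rec (n : ℕ) {z : ℂ} (hz : 0 < z.re) :
    z * cn (n + 3) z - cn (n + 2) z = -(rn (n + 1) z / (((n : ℂ) + 2) * (n + 3)) + rn (n + 2) z / (n + 3)) := by
  have h := kk_rec n hz
  unfold cn rn
  have e1 : (((n + 3).factorial : ℕ) : ℂ) = ((n : ℂ) + 3) * ((n + 2).factorial : ℕ) := by
    rw [Nat.factorial_succ (n + 2)]; push_cast; ring
  have e2 : (((n + 2).factorial : ℕ) : ℂ) = ((n : ℂ) + 2) * ((n + 1).factorial : ℕ) := by
    rw [Nat.factorial_succ (n + 1)]; push_cast; ring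
  have h0 := fac_ne (n + 1)
  have h2 : ((n : ℂ) + 2) ≠ 0 := by exact_mod_cast (by omega : n + 2 ≠ 0)
  have h3 : ((n : ℂ) + 3) ≠ 0 := by exact_mod_cast (by omega : n + 3 ≠ 0)
  rw [e1, e2]
  field_simp
  linear_combination h

lemma norm_fac (n : ℕ) : ‖((n.factorial : ℕ) : ℂ)‖ = (n.factorial : ℝ) := by
  rw [Complex.norm_natCast]

/-- lower bound at the complex point -/
lemma low_z {z a κ : ℂ} {R' M : ℝ} (hz : 0 < z.re) (hza : 0 < ‖z - a‖) (hκ : κ ≠ 0) (hR : ‖z - a‖ < R')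
    (_hM : 0 ≤ M)
    (h : ∀ n : ℕ, ‖MT ru n z - n.factorial * κ * ((z - a)⁻¹) ^ (n + 1)‖ ≤ n.factorial * M / R' ^ n) :
    ∀ᶠ n : ℕ in atTop, ‖κ‖ / 2 / ‖z - a‖ ^ (n + 3) / (n + 3) ≤ ‖z‖ * ‖cn (n + 3) z‖ + ‖cn (n + 2) z‖ := by
  set d := ‖z - a‖ with hd
  have hR0 : 0 < R' := hza.trans hR
  have hr : ∀ n : ℕ, ‖rn n z - κ * ((z - a)⁻¹) ^ (n + 1)‖ ≤ M / R' ^ n := by
    intro n
    have h1 := h n
    have e : MT ru n z - n.factorial * κ * ((z - a)⁻¹) ^ (n + 1) =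
        n.factorial * (rn n z - κ * ((z - a)⁻¹) ^ (n + 1)) := by
      unfold rn
      have := fac_ne n
      field_simp
    rw [e, norm_mul, norm_fac, mul_div_assoc] at h1
    exact le_of_mul_le_mul_left h1 (by exact_mod_cast Nat.factorial_pos n)
  have hpow : ∀ n : ℕ, ‖κ * ((z - a)⁻¹) ^ (n + 1)‖ = ‖κ‖ / d ^ (n + 1) := by
    intro n
    rw [norm_mul, norm_pow, norm_inv, ← hd, inv_pow, div_eq_mul_inv]
  -- the limit
  have hq : d / R' < 1 := by rw [div_lt_one hR0]; exact hR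
  have ht1 : Tendsto (fun n : ℕ => (d / R') ^ n) atTop (𝓝 0) :=
    tendsto_pow_atTop_nhds_zero_of_lt_one (by positivity) hq
  have ht2 : Tendsto (fun n : ℕ => (1 : ℝ) / ((n : ℝ) + 2)) atTop (𝓝 0) := by
    have := tendsto_one_div_add_atTop_nhds_zero_nat (𝕜 := ℝ)
    have h3 := (tendsto_add_atTop_iff_nat (f := fun n : ℕ => (1 : ℝ) / ((n : ℝ) + 1)) 1).2 this
    refine h3.congr fun n => ?_
    push_cast
    congr 1
    ring
  have ht : Tendsto (fun n : ℕ => M * d * (d / R') ^ 2 * (d / R') ^ n +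
      (‖κ‖ * d + M * d ^ 2 * (d / R') * (d / R') ^ n) * (1 / ((n : ℝ) + 2))) atTop (𝓝 0) := by
    have h1 := ht1.const_mul (M * d * (d / R') ^ 2)
    have h2 := ((ht1.const_mul (M * d ^ 2 * (d / R'))).const_add (‖κ‖ * d)).mul ht2
    have h3 := h1.add h2
    simpa using h3
  have hκ0 : 0 < ‖κ‖ / 2 := by positivity
  filter_upwards [ht.eventually_lt_const hκ0] with n hn
  have hrec := cn_rec n hz
  have hn3 : (0 : ℝ) < (n : ℝ) + 3 := by positivity
  have hn2 : (0 : ℝ) < (n : ℝ) + 2 := by positivity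
  have hnorm3 : ‖((n : ℂ) + 3)‖ = (n : ℝ) + 3 := by
    have : ((n : ℂ) + 3) = (((n : ℝ) + 3 : ℝ) : ℂ) := by push_cast; rfl
    rw [this, Complex.norm_of_nonneg hn3.le]
  have hnorm2 : ‖((n : ℂ) + 2)‖ = (n : ℝ) + 2 := by
    have : ((n : ℂ) + 2) = (((n : ℝ) + 2 : ℝ) : ℂ) := by push_cast; rfl
    rw [this, Complex.norm_of_nonneg hn2.le]
  have h1 : ‖κ‖ / d ^ (n + 3) - M / R' ^ (n + 2) ≤ ‖rn (n + 2) z‖ := by
    have h2 := hr (n + 2)
    have h3 := hpow (n + 2)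
    have h4 := norm_sub_norm_le (κ * ((z - a)⁻¹) ^ (n + 2 + 1)) (rn (n + 2) z)
    rw [norm_sub_rev, h3] at h4
    have e : n + 2 + 1 = n + 3 := rfl
    rw [e] at h4 h2
    linarith
  have h2 : ‖rn (n + 1) z‖ ≤ ‖κ‖ / d ^ (n + 2) + M / R' ^ (n + 1) := by
    have h2 := hr (n + 1)
    have h3 := hpow (n + 1)
    have h4 := norm_sub_norm_le (rn (n + 1) z) (κ * ((z - a)⁻¹) ^ (n + 1 + 1))
    rw [h3] at h4
    have e : n + 1 + 1 = n + 2 := rfl
    rw [e] at h4 h2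
    linarith
  have h3 : ‖rn (n + 2) z‖ / (n + 3) - ‖rn (n + 1) z‖ / ((n + 2) * (n + 3)) ≤
      ‖z‖ * ‖cn (n + 3) z‖ + ‖cn (n + 2) z‖ := by
    have h4 : ‖z * cn (n + 3) z - cn (n + 2) z‖ ≤ ‖z‖ * ‖cn (n + 3) z‖ + ‖cn (n + 2) z‖ := by
      refine (norm_sub_le _ _).trans ?_
      rw [norm_mul]
    refine le_trans ?_ h4
    rw [hrec, norm_neg, add_comm (rn (n + 1) z / (((n : ℂ) + 2) * (n + 3)))]
    have h5 := norm_sub_norm_le (rn (n + 2) z / ((n : ℂ) + 3)) (-(rn (n + 1) z / (((n : ℂ) + 2) * (n + 3))))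
    rw [sub_neg_eq_add, norm_neg, norm_div, norm_div, norm_mul, hnorm3, hnorm2] at h5
    exact h5
  refine le_trans ?_ h3
  have h4 : ‖κ‖ / 2 / d ^ (n + 3) ≤ ‖κ‖ / d ^ (n + 3) - M / R' ^ (n + 2) -
      (‖κ‖ / d ^ (n + 2) + M / R' ^ (n + 1)) * (1 / ((n : ℝ) + 2)) := by
    have e1 : M * d * (d / R') ^ 2 * (d / R') ^ n = M / R' ^ (n + 2) * d ^ (n + 3) := by
      rw [div_pow, div_pow]
      field_simp
      ring
    have e2 : (‖κ‖ * d + M * d ^ 2 * (d / R') * (d / R') ^ n) = (‖κ‖ / d ^ (n + 2) + M / R' ^ (n + 1)) * d ^ (n + 3) := by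
      rw [div_pow]
      field_simp
      ring
    rw [e1, e2] at hn
    have hdp : 0 < d ^ (n + 3) := by positivity
    have e3 : (‖κ‖ / d ^ (n + 3) - M / R' ^ (n + 2) -
      (‖κ‖ / d ^ (n + 2) + M / R' ^ (n + 1)) * (1 / ((n : ℝ) + 2))) * d ^ (n + 3) = ‖κ‖ -
        (M / R' ^ (n + 2) * d ^ (n + 3) + (‖κ‖ / d ^ (n + 2) + M / R' ^ (n + 1)) * d ^ (n + 3) * (1 / ((n : ℝ) + 2))) := by
      field_simp
      ring
    rw [div_le_iff₀ hdp, e3]
    linarith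
  calc ‖κ‖ / 2 / d ^ (n + 3) / (n + 3) ≤ (‖κ‖ / d ^ (n + 3) - M / R' ^ (n + 2) -
      (‖κ‖ / d ^ (n + 2) + M / R' ^ (n + 1)) * (1 / ((n : ℝ) + 2))) / (n + 3) :=
        div_le_div_of_nonneg_right h4 hn3.le
    _ ≤ (‖rn (n + 2) z‖ - ‖rn (n + 1) z‖ * (1 / ((n : ℝ) + 2))) / (n + 3) := by
        refine div_le_div_of_nonneg_right ?_ hn3.le
        have := mul_le_mul_of_nonneg_right h2 (by positivity : (0 : ℝ) ≤ 1 / ((n : ℝ) + 2))
        linarith
    _ = _ := by field_simp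

/-- upper bound at the real point -/
lemma up_w {w0 R M : ℝ} (hw0 : 0 < w0) (hR : w0 < R) (hM : 0 ≤ M)
    (h : ∀ n : ℕ, ‖MT ru n (w0 : ℂ)‖ ≤ n.factorial * M / R ^ n) :
    ∃ C : ℝ, 0 ≤ C ∧ ∀ n : ℕ, ‖cn (n + 2) (w0 : ℂ)‖ ≤ C / R ^ n := by
  have hR0 : 0 < R := hw0.trans hR
  have hz : 0 < ((w0 : ℂ)).re := by simpa using hw0
  have hr : ∀ n : ℕ, ‖rn n (w0 : ℂ)‖ ≤ M / R ^ n := by
    intro n
    unfold rn
    rw [norm_div, norm_fac, div_le_iff₀ (by exact_mod_cast Nat.factorial_pos n)]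
    refine (h n).trans (le_of_eq ?_)
    ring
  set M1 := M / R + M / R ^ 2 with hM1
  have hM10 : 0 ≤ M1 := by positivity
  have hstep : ∀ n : ℕ, ‖cn (n + 2) (w0 : ℂ)‖ ≤ w0 * ‖cn (n + 3) (w0 : ℂ)‖ + M1 / R ^ n := by
    intro n
    have hrec := cn_rec n hz
    have e : cn (n + 2) (w0 : ℂ) = (w0 : ℂ) * cn (n + 3) (w0 : ℂ) + (rn (n + 1) (w0 : ℂ) / (((n : ℂ) + 2) * (n + 3)) +
        rn (n + 2) (w0 : ℂ) / (n + 3)) := by linear_combination -hrec
    rw [e]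
    refine (norm_add_le _ _).trans ?_
    rw [norm_mul, Complex.norm_of_nonneg hw0.le]
    refine add_le_add le_rfl ((norm_add_le _ _).trans ?_)
    have hn3 : (0 : ℝ) < (n : ℝ) + 3 := by positivity
    have hn2 : (0 : ℝ) < (n : ℝ) + 2 := by positivity
    have hnorm3 : ‖((n : ℂ) + 3)‖ = (n : ℝ) + 3 := by
      have : ((n : ℂ) + 3) = (((n : ℝ) + 3 : ℝ) : ℂ) := by push_cast; rfl
      rw [this, Complex.norm_of_nonneg hn3.le]
    have hnorm2 : ‖((n : ℂ) + 2)‖ = (n : ℝ) + 2 := by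
      have : ((n : ℂ) + 2) = (((n : ℝ) + 2 : ℝ) : ℂ) := by push_cast; rfl
      rw [this, Complex.norm_of_nonneg hn2.le]
    rw [norm_div, norm_div, norm_mul, hnorm3, hnorm2]
    have h1 : ‖rn (n + 1) (w0 : ℂ)‖ / (((n : ℝ) + 2) * (n + 3)) ≤ M / R ^ (n + 1) := by
      refine (div_le_self (norm_nonneg _) ?_).trans (hr (n + 1))
      have : (0 : ℝ) ≤ n := Nat.cast_nonneg n
      nlinarith
    have h2 : ‖rn (n + 2) (w0 : ℂ)‖ / ((n : ℝ) + 3) ≤ M / R ^ (n + 2) := by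
      refine (div_le_self (norm_nonneg _) ?_).trans (hr (n + 2))
      have : (0 : ℝ) ≤ n := Nat.cast_nonneg n
      linarith
    refine (add_le_add h1 h2).trans (le_of_eq ?_)
    rw [hM1]
    field_simp
    ring
  set q := w0 / R with hq
  have hq1 : q < 1 := by rw [hq, div_lt_one hR0]; exact hR
  have hq0 : 0 < q := by positivity
  set C := M1 / (1 - q) with hC
  have hC0 : 0 ≤ C := div_nonneg hM10 (by linarith)
  have hind : ∀ J n : ℕ, ‖cn (n + 2) (w0 : ℂ)‖ ≤ w0 ^ J * ‖cn (n + J + 2) (w0 : ℂ)‖ + C / R ^ n := by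
    intro J
    induction J with
    | zero =>
      intro n
      have : 0 ≤ C / R ^ n := by positivity
      simpa using this
    | succ J ih =>
      intro n
      have h1 := hstep n
      have h2 := ih (n + 1)
      have e : n + 1 + J + 2 = n + (J + 1) + 2 := by ring
      have e' : n + 1 + 2 = n + 3 := rfl
      rw [e, e'] at h2
      have h3 := mul_le_mul_of_nonneg_left h2 hw0.le
      have h4 : w0 * (C / R ^ (n + 1)) + M1 / R ^ n = C / R ^ n := by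
        have h5 : 1 - q ≠ 0 := by linarith
        have h6 : w0 = q * R := by rw [hq]; field_simp
        rw [hC]
        rw [h6]
        field_simp
        ring
      calc ‖cn (n + 2) (w0 : ℂ)‖ ≤ w0 * (w0 ^ J * ‖cn (n + (J + 1) + 2) (w0 : ℂ)‖ + C / R ^ (n + 1)) + M1 / R ^ n := by
            linarith
        _ = w0 ^ (J + 1) * ‖cn (n + (J + 1) + 2) (w0 : ℂ)‖ + (w0 * (C / R ^ (n + 1)) + M1 / R ^ n) := by ring
        _ = _ := by rw [h4]
  refine ⟨C, hC0, fun n => ?_⟩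
  have hcrude : ∀ m : ℕ, ‖cn (m + 2) (w0 : ℂ)‖ ≤ I1 / w0 ^ (m + 1) * (1 / ((m : ℝ) + 1)) := by
    intro m
    unfold cn
    rw [norm_div, norm_fac, div_le_iff₀ (by exact_mod_cast Nat.factorial_pos _)]
    refine (kkn_le m hz).trans ?_
    rw [Complex.ofReal_re]
    have e : (((m + 2).factorial : ℕ) : ℝ) = ((m : ℝ) + 2) * (((m : ℝ) + 1) * (m.factorial : ℝ)) := by
      rw [Nat.factorial_succ, Nat.factorial_succ]; push_cast; ring
    rw [e]
    have hm : (0 : ℝ) ≤ m := Nat.cast_nonneg m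
    have hm1 : (0 : ℝ) < (m : ℝ) + 1 := by linarith
    have hI := I1_nonneg
    have hf : (0 : ℝ) < m.factorial := by exact_mod_cast Nat.factorial_pos m
    calc I1 * ((m.factorial : ℝ) / w0 ^ (m + 1)) = I1 / w0 ^ (m + 1) * (m.factorial : ℝ) * 1 := by ring
      _ ≤ I1 / w0 ^ (m + 1) * (m.factorial : ℝ) * ((m : ℝ) + 2) := by
          refine mul_le_mul_of_nonneg_left (by linarith) (by positivity)
      _ = _ := by field_simp
  have hlim : Tendsto (fun J : ℕ => w0 ^ J * ‖cn (n + J + 2) (w0 : ℂ)‖ + C / R ^ n) atTop (𝓝 (0 + C / R ^ n)) := by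
    refine Tendsto.add_const _ ?_
    have h1 : Tendsto (fun J : ℕ => I1 / w0 ^ (n + 1) * (1 / ((J : ℝ) + 1))) atTop (𝓝 0) := by
      have := (tendsto_one_div_add_atTop_nhds_zero_nat (𝕜 := ℝ)).const_mul (I1 / w0 ^ (n + 1))
      rwa [mul_zero] at this
    refine squeeze_zero (fun J => by positivity) (fun J => ?_) h1
    have h2 := hcrude (n + J)
    have hI := I1_nonneg
    calc w0 ^ J * ‖cn (n + J + 2) (w0 : ℂ)‖ ≤ w0 ^ J * (I1 / w0 ^ (n + J + 1) * (1 / (((n + J : ℕ) : ℝ) + 1))) :=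
          mul_le_mul_of_nonneg_left h2 (by positivity)
      _ = I1 / w0 ^ (n + 1) * (1 / (((n + J : ℕ) : ℝ) + 1)) := by
          rw [show n + J + 1 = (n + 1) + J by ring, pow_add]
          field_simp
      _ ≤ I1 / w0 ^ (n + 1) * (1 / ((J : ℝ) + 1)) := by
          refine mul_le_mul_of_nonneg_left ?_ (by positivity)
          apply one_div_le_one_div_of_le (by positivity)
          push_cast
          have : (0 : ℝ) ≤ n := Nat.cast_nonneg n
          linarith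
  rw [zero_add] at hlim
  exact ge_of_tendsto hlim (Eventually.of_forall fun J => hind J n)

end

end Pool.Agent.K3h81.RB
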