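import Pool.Agent.K3h81.RB.Loc5

/-!
# The localized oscillation theorem
-/

set_option autoImplicit false

namespace Pool.Agent.K3h81.RB

open Filter Topology MeasureTheory

noncomputable section

/-- the weight outside the window -/
def ee (k : ℕ) (w0 l p q : ℝ) (u : ℝ) : ℝ :=
  I1 * (u ^ k * Real.exp (-((1 + l) * w0 * u)) * Real.exp (l * p) +
    u ^ k * Real.exp (-((1 - l) * w0 * u)) * Real.exp (-(l * q)))

lemma ee_int (k : ℕ) {w0 l p q : ℝ} (hw0 : 0 < w0) (hl0 : 0 < l) (hl1 : l < 1) :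
    IntegrableOn (ee k w0 l p q) (Set.Ioi 0) := by
  unfold ee
  have h1 := (pow_exp_int k (r := (1 + l) * w0) (by positivity)).mul_const (Real.exp (l * p))
  have h2 := (pow_exp_int k (r := (1 - l) * w0) (mul_pos (by linarith) hw0)).mul_const (Real.exp (-(l * q)))
  exact (h1.add h2).const_mul I1

lemma ee_val (k : ℕ) {w0 l p q : ℝ} (hw0 : 0 < w0) (hl0 : 0 < l) (hl1 : l < 1) :
    ∫ u in Set.Ioi 0, ee k w0 l p q u = I1 * ((k.factorial : ℝ) / ((1 + l) * w0) ^ (k + 1) * Real.exp (l * p) +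
      (k.factorial : ℝ) / ((1 - l) * w0) ^ (k + 1) * Real.exp (-(l * q))) := by
  unfold ee
  have h1 := (pow_exp_int k (r := (1 + l) * w0) (by positivity)).mul_const (Real.exp (l * p))
  have h2 := (pow_exp_int k (r := (1 - l) * w0) (mul_pos (by linarith) hw0)).mul_const (Real.exp (-(l * q)))
  rw [integral_const_mul, integral_add h1 h2, integral_mul_const, integral_mul_const,
    pow_exp_val k (by positivity : 0 < (1 + l) * w0), pow_exp_val k (mul_pos (by linarith) hw0 : 0 < (1 - l) * w0)]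

lemma ee_nonneg (k : ℕ) {w0 l p q u : ℝ} (hu : 0 < u) : 0 ≤ ee k w0 l p q u := by
  unfold ee
  have := I1_nonneg
  positivity

/-- the weight is large enough outside `[p / w0, q / w0]` -/
lemma ee_ge (k : ℕ) {w0 l p q u : ℝ} (hl0 : 0 < l) (hu : 0 < u) (h : w0 * u < p ∨ q < w0 * u) :
    I1 * (u ^ k * Real.exp (-(w0 * u))) ≤ ee k w0 l p q u := by
  have hI := I1_nonneg
  unfold ee
  refine mul_le_mul_of_nonneg_left ?_ hI
  have e1 : u ^ k * Real.exp (-((1 + l) * w0 * u)) * Real.exp (l * p) =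
      u ^ k * Real.exp (-(w0 * u)) * Real.exp (l * (p - w0 * u)) := by
    have x1 : Real.exp (-((1 + l) * w0 * u)) * Real.exp (l * p) =
        Real.exp (-(w0 * u)) * Real.exp (l * (p - w0 * u)) := by
      rw [← Real.exp_add, ← Real.exp_add]
      congr 1
      ring
    rw [mul_assoc, x1, mul_assoc]
  have e2 : u ^ k * Real.exp (-((1 - l) * w0 * u)) * Real.exp (-(l * q)) =
      u ^ k * Real.exp (-(w0 * u)) * Real.exp (l * (w0 * u - q)) := by
    have x1 : Real.exp (-((1 - l) * w0 * u)) * Real.exp (-(l * q)) =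
        Real.exp (-(w0 * u)) * Real.exp (l * (w0 * u - q)) := by
      rw [← Real.exp_add, ← Real.exp_add]
      congr 1
      ring
    rw [mul_assoc, x1, mul_assoc]
  rw [e1, e2, ← mul_add]
  have hK : 0 ≤ u ^ k * Real.exp (-(w0 * u)) := by positivity
  refine le_mul_of_one_le_right hK ?_
  rcases h with h | h
  · have h1 : 1 ≤ Real.exp (l * (p - w0 * u)) := Real.one_le_exp (mul_nonneg hl0.le (by linarith))
    have h2 := Real.exp_pos (l * (w0 * u - q))
    linarith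
  · have h1 : 1 ≤ Real.exp (l * (w0 * u - q)) := Real.one_le_exp (mul_nonneg hl0.le (by linarith))
    have h2 := Real.exp_pos (l * (p - w0 * u))
    linarith

/-- **The window inequality.** -/
theorem window {w0 t b C l p q : ℝ} (k : ℕ) (hw0 : 0 < w0) (hb : b < 1) (hC : 0 ≤ C) (hl0 : 0 < l) (hl1 : l < 1)
    (hwin : ∀ u : ℝ, 0 < u → p ≤ w0 * u → w0 * u ≤ q → -(C * Real.exp ((b - 1) * u)) ≤ kk u) :
    ‖MT kk (k + 2) ((w0 : ℂ) + t * Complex.I)‖ ≤ ‖MT kk (k + 2) (w0 : ℂ)‖ +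
      2 * (C * (((k + 2).factorial : ℝ) / (w0 + 1 - b) ^ (k + 2 + 1))) +
      2 * (I1 * ((k.factorial : ℝ) / ((1 + l) * w0) ^ (k + 1) * Real.exp (l * p) +
      (k.factorial : ℝ) / ((1 - l) * w0) ^ (k + 1) * Real.exp (-(l * q)))) := by
  set z : ℂ := (w0 : ℂ) + t * Complex.I with hz
  have hzre : z.re = w0 := by simp [hz]
  have hz0 : 0 < z.re := by rw [hzre]; exact hw0
  have hwre : 0 < ((w0 : ℂ)).re := by simpa using hw0
  set e : ℝ → ℝ := ee k w0 l p q with he
  -- the three real functions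
  set A : ℝ → ℝ := fun u => kk u * u ^ (k + 2) * Real.exp (-(w0 * u)) with hA
  set B : ℝ → ℝ := fun u => C * (u ^ (k + 2) * Real.exp (-((w0 + 1 - b) * u))) with hB
  have hAint : IntegrableOn A (Set.Ioi 0) := by
    have h1 := (kkn_int k hwre).re
    refine IntegrableOn.congr_fun h1 (fun u _ => ?_) measurableSet_Ioi
    simp only [hA]
    have e1 : ((kk u * u ^ (k + 2) : ℝ) : ℂ) * Complex.exp (-((w0 : ℂ) * u)) =
        ((kk u * u ^ (k + 2) * Real.exp (-(w0 * u)) : ℝ) : ℂ) := by push_cast; ring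
    show RCLike.re (((kk u * u ^ (k + 2) : ℝ) : ℂ) * Complex.exp (-((w0 : ℂ) * u))) = _
    rw [e1]
    rfl
  have hAval : ((∫ u in Set.Ioi 0, A u : ℝ) : ℂ) = MT kk (k + 2) (w0 : ℂ) := by
    rw [← integral_complex_ofReal]
    unfold MT
    refine setIntegral_congr_fun measurableSet_Ioi fun u _ => ?_
    simp only [hA]
    push_cast
    ring
  have hAle : ∫ u in Set.Ioi 0, A u ≤ ‖MT kk (k + 2) (w0 : ℂ)‖ := by
    rw [← hAval, Complex.norm_real]
    exact le_abs_self _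
  have hr : 0 < w0 + 1 - b := by linarith
  have hBint : IntegrableOn B (Set.Ioi 0) := (pow_exp_int (k + 2) hr).const_mul C
  have hBval : ∫ u in Set.Ioi 0, B u = C * (((k + 2).factorial : ℝ) / (w0 + 1 - b) ^ (k + 2 + 1)) := by
    simp only [hB]
    rw [integral_const_mul, pow_exp_val (k + 2) hr]
  have heint : IntegrableOn e (Set.Ioi 0) := ee_int k hw0 hl0 hl1
  have heval := ee_val k (p := p) (q := q) hw0 hl0 hl1
  rw [← he] at heval
  have hpos : ∀ u ∈ Set.Ioi (0 : ℝ), 0 ≤ A u + B u + e u := by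
    intro u hu
    have hu0 : 0 < u := hu
    have hAB : A u + B u = (kk u + C * Real.exp ((b - 1) * u)) * (u ^ (k + 2) * Real.exp (-(w0 * u))) := by
      simp only [hA, hB]
      have e1 : Real.exp (-((w0 + 1 - b) * u)) = Real.exp ((b - 1) * u) * Real.exp (-(w0 * u)) := by
        rw [← Real.exp_add]; congr 1; ring
      rw [e1]
      ring
    have he0 : 0 ≤ e u := ee_nonneg k hu0
    by_cases h : p ≤ w0 * u ∧ w0 * u ≤ q
    · have h1 := hwin u hu0 h.1 h.2
      rw [hAB]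
      have : 0 ≤ (kk u + C * Real.exp ((b - 1) * u)) * (u ^ (k + 2) * Real.exp (-(w0 * u))) :=
        mul_nonneg (by linarith) (by positivity)
      linarith
    · have h1 : w0 * u < p ∨ q < w0 * u := by
        by_contra hcon
        push Not at hcon
        exact h hcon
      have h2 := ee_ge k (w0 := w0) (l := l) (p := p) (q := q) hl0 hu0 h1
      rw [← he] at h2
      have hB0 : 0 ≤ B u := by simp only [hB]; positivity
      have h3 : -(I1 * (u ^ k * Real.exp (-(w0 * u)))) ≤ A u := by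
        have h4 := kk_bound hu0
        have h5 := (abs_le.1 h4).1
        simp only [hA]
        have h6 : -(I1 / u ^ 2) * (u ^ (k + 2) * Real.exp (-(w0 * u))) ≤
            kk u * (u ^ (k + 2) * Real.exp (-(w0 * u))) := mul_le_mul_of_nonneg_right h5 (by positivity)
        have h7 : -(I1 / u ^ 2) * (u ^ (k + 2) * Real.exp (-(w0 * u))) = -(I1 * (u ^ k * Real.exp (-(w0 * u)))) := by
          field_simp
          ring
        rw [h7] at h6
        linarith
      linarith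
  -- the complex integrals
  set φ : ℝ → ℂ := fun u => Complex.exp (-((t * Complex.I) * u)) with hφ
  have hφn : ∀ u, ‖φ u‖ = 1 := by
    intro u
    simp only [hφ]
    rw [Complex.norm_exp]
    simp
  have hφm : Measurable φ := by simp only [hφ]; fun_prop
  have hmul : ∀ g : ℝ → ℝ, IntegrableOn g (Set.Ioi 0) → IntegrableOn (fun u => ((g u : ℝ) : ℂ) * φ u) (Set.Ioi 0) := by
    intro g hg
    refine Integrable.mul_bdd (c := 1) hg.ofReal hφm.aestronglyMeasurable ?_
    exact Eventually.of_forall fun u => (hφn u).le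
  have hnb : ∀ g : ℝ → ℝ, (∀ u ∈ Set.Ioi (0 : ℝ), 0 ≤ g u) → IntegrableOn g (Set.Ioi 0) →
      ‖∫ u in Set.Ioi 0, ((g u : ℝ) : ℂ) * φ u‖ ≤ ∫ u in Set.Ioi 0, g u := by
    intro g hg hgi
    refine (norm_integral_le_integral_norm _).trans (le_of_eq ?_)
    refine setIntegral_congr_fun measurableSet_Ioi fun u hu => ?_
    rw [norm_mul, hφn, mul_one, Complex.norm_of_nonneg (hg u hu)]
  have hMz : MT kk (k + 2) z = ∫ u in Set.Ioi 0, ((A u : ℝ) : ℂ) * φ u := by
    unfold MT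
    refine setIntegral_congr_fun measurableSet_Ioi fun u _ => ?_
    simp only [hA, hφ, hz]
    push_cast
    rw [mul_assoc, mul_assoc, mul_assoc, ← Complex.exp_add]
    congr 3
    ring
  have hsum : ∫ u in Set.Ioi 0, (((A u + B u + e u : ℝ)) : ℂ) * φ u =
      MT kk (k + 2) z + (∫ u in Set.Ioi 0, ((B u : ℝ) : ℂ) * φ u) + ∫ u in Set.Ioi 0, ((e u : ℝ) : ℂ) * φ u := by
    have s1 := integral_add (hmul A hAint) (hmul B hBint)
    have s2 := integral_add ((hmul A hAint).add (hmul B hBint)) (hmul e heint)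
    simp only [Pi.add_apply] at s2
    rw [hMz, ← s1, ← s2]
    refine setIntegral_congr_fun measurableSet_Ioi fun u _ => ?_
    push_cast
    ring
  have h1 := hnb (fun u => A u + B u + e u) hpos ((hAint.add hBint).add heint)
  have h2 := hnb B (fun u hu => by
    have : 0 < u := hu
    simp only [hB]; positivity) hBint
  have h3 := hnb e (fun u hu => ee_nonneg k hu) heint
  rw [hsum] at h1
  have h4 : ∫ u in Set.Ioi 0, (A u + B u + e u) = (∫ u in Set.Ioi 0, A u) + (∫ u in Set.Ioi 0, B u) +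
      ∫ u in Set.Ioi 0, e u := by
    have s1 := integral_add hAint hBint
    have s2 := integral_add (hAint.add hBint) heint
    simp only [Pi.add_apply] at s2
    rw [← s1, ← s2]
  rw [h4] at h1
  have h5 : ‖MT kk (k + 2) z‖ ≤ ‖MT kk (k + 2) z + (∫ u in Set.Ioi 0, ((B u : ℝ) : ℂ) * φ u) +
      ∫ u in Set.Ioi 0, ((e u : ℝ) : ℂ) * φ u‖ + ‖∫ u in Set.Ioi 0, ((B u : ℝ) : ℂ) * φ u‖ +
      ‖∫ u in Set.Ioi 0, ((e u : ℝ) : ℂ) * φ u‖ := by
    have e1 : MT kk (k + 2) z = (MT kk (k + 2) z + (∫ u in Set.Ioi 0, ((B u : ℝ) : ℂ) * φ u) +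
      ∫ u in Set.Ioi 0, ((e u : ℝ) : ℂ) * φ u) - (∫ u in Set.Ioi 0, ((B u : ℝ) : ℂ) * φ u) -
      ∫ u in Set.Ioi 0, ((e u : ℝ) : ℂ) * φ u := by ring
    calc ‖MT kk (k + 2) z‖ = ‖(MT kk (k + 2) z + (∫ u in Set.Ioi 0, ((B u : ℝ) : ℂ) * φ u) +
      ∫ u in Set.Ioi 0, ((e u : ℝ) : ℂ) * φ u) - (∫ u in Set.Ioi 0, ((B u : ℝ) : ℂ) * φ u) -
      ∫ u in Set.Ioi 0, ((e u : ℝ) : ℂ) * φ u‖ := by rw [← e1]
      _ ≤ _ := (norm_sub_le _ _).trans (add_le_add (norm_sub_le _ _) le_rfl)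
  rw [← heval, ← hBval]
  linarith

/-- the exponential gain outside the window -/
lemma gain {l δ : ℝ} (hl : l = δ / 4) (hδ0 : 0 < δ) (hδ1 : δ ≤ 1) :
    Real.exp (l * (1 - δ)) / (1 + l) ≤ Real.exp (-(δ ^ 2 / 8)) ∧
      Real.exp (-(l * (1 + δ))) / (1 - l) ≤ Real.exp (-(δ ^ 2 / 8)) := by
  have hl0 : 0 < l := by rw [hl]; linarith
  have hl1 : l ≤ 1 / 4 := by rw [hl]; linarith
  have hle : 1 / (1 - l ^ 2) ≤ Real.exp (2 * l ^ 2) := by
    have h1 : 1 / (1 - l ^ 2) ≤ 1 + 2 * l ^ 2 := by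
      rw [div_le_iff₀ (by nlinarith)]
      have h9 : 0 ≤ l ^ 2 * (1 - 2 * l ^ 2) := mul_nonneg (sq_nonneg l) (by nlinarith)
      linarith
    have h2 := Real.add_one_le_exp (2 * l ^ 2)
    linarith
  have hkey : Real.exp (-(l * δ)) * (1 / (1 - l ^ 2)) ≤ Real.exp (-(δ ^ 2 / 8)) := by
    calc Real.exp (-(l * δ)) * (1 / (1 - l ^ 2)) ≤ Real.exp (-(l * δ)) * Real.exp (2 * l ^ 2) :=
          mul_le_mul_of_nonneg_left hle (Real.exp_pos _).le
      _ = Real.exp (-(δ ^ 2 / 8)) := by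
          rw [← Real.exp_add, hl]; congr 1; ring
  have h1l : 0 < 1 - l := by linarith
  have h1l2 : 0 < 1 - l ^ 2 := by nlinarith
  constructor
  · refine le_trans ?_ hkey
    have h1 : Real.exp l ≤ 1 / (1 - l) := by
      have h2 := Real.add_one_le_exp (-l)
      rw [le_div_iff₀ h1l]
      calc Real.exp l * (1 - l) ≤ Real.exp l * Real.exp (-l) :=
            mul_le_mul_of_nonneg_left (by linarith) (Real.exp_pos _).le
        _ = 1 := by rw [← Real.exp_add]; simp
    have e1 : Real.exp (l * (1 - δ)) = Real.exp (-(l * δ)) * Real.exp l := by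
      rw [← Real.exp_add]; congr 1; ring
    rw [e1, mul_div_assoc]
    refine mul_le_mul_of_nonneg_left ?_ (Real.exp_pos _).le
    rw [div_le_div_iff₀ (by linarith) h1l2]
    have e2 : (1 : ℝ) - l ^ 2 = (1 - l) * (1 + l) := by ring
    rw [e2]
    have h3 := mul_le_mul_of_nonneg_right h1 (by positivity : 0 ≤ (1 - l) * (1 + l))
    have h4 : 1 / (1 - l) * ((1 - l) * (1 + l)) = 1 + l := by field_simp
    linarith
  · refine le_trans ?_ hkey
    have h1 : Real.exp (-l) ≤ 1 / (1 + l) := by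
      have h2 := Real.add_one_le_exp l
      rw [Real.exp_neg, ← one_div]
      exact one_div_le_one_div_of_le (by linarith) (by linarith)
    have e1 : Real.exp (-(l * (1 + δ))) = Real.exp (-(l * δ)) * Real.exp (-l) := by
      rw [← Real.exp_add]; congr 1; ring
    rw [e1, mul_div_assoc]
    refine mul_le_mul_of_nonneg_left ?_ (Real.exp_pos _).le
    rw [div_le_div_iff₀ h1l h1l2]
    have e2 : (1 : ℝ) - l ^ 2 = (1 + l) * (1 - l) := by ring
    rw [e2]
    have h3 := mul_le_mul_of_nonneg_right h1 (by positivity : 0 ≤ (1 + l) * (1 - l))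
    have h4 : 1 / (1 + l) * ((1 + l) * (1 - l)) = 1 - l := by field_simp
    linarith

/-- the window inequality, normalised -/
theorem window_cn {w0 t b C δ : ℝ} (k : ℕ) (hw0 : 0 < w0) (hb : b < 1) (hC : 0 ≤ C) (hδ0 : 0 < δ) (hδ1 : δ ≤ 1)
    (hwin : ∀ u : ℝ, 0 < u → (1 - δ) * (k + 2) ≤ w0 * u → w0 * u ≤ (1 + δ) * (k + 2) →
      -(C * Real.exp ((b - 1) * u)) ≤ kk u) :
    ‖cn (k + 2) ((w0 : ℂ) + t * Complex.I)‖ ≤ ‖cn (k + 2) (w0 : ℂ)‖ +
      2 * C / (w0 + 1 - b) ^ (k + 2 + 1) + 8 * I1 * w0 * (Real.exp (-(δ ^ 2 / 8)) / w0) ^ (k + 2) := by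
  set l := δ / 4 with hl
  have hl0 : 0 < l := by rw [hl]; linarith
  have hl1 : l ≤ 1 / 4 := by rw [hl]; linarith
  have h := window (t := t) (l := l) (p := (1 - δ) * (k + 2)) (q := (1 + δ) * (k + 2)) k hw0 hb hC hl0 (by linarith) hwin
  obtain ⟨g1, g2⟩ := gain hl hδ0 hδ1
  set qq := Real.exp (-(δ ^ 2 / 8)) with hqq
  have hqq0 : 0 < qq := Real.exp_pos _
  have hI := I1_nonneg
  have hfk : (0 : ℝ) < k.factorial := by exact_mod_cast Nat.factorial_pos k
  have hfk2 : (0 : ℝ) < (k + 2).factorial := by exact_mod_cast Nat.factorial_pos (k + 2)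
  have hfle : (k.factorial : ℝ) ≤ (k + 2).factorial := by exact_mod_cast Nat.factorial_le (by omega)
  have hr : 0 < w0 + 1 - b := by linarith
  unfold cn
  rw [norm_div, norm_div, norm_fac, div_le_iff₀ hfk2]
  have e1 : (‖MT kk (k + 2) (w0 : ℂ)‖ / ((k + 2).factorial : ℝ) + 2 * C / (w0 + 1 - b) ^ (k + 2 + 1) +
      8 * I1 * w0 * (qq / w0) ^ (k + 2)) * ((k + 2).factorial : ℝ) = ‖MT kk (k + 2) (w0 : ℂ)‖ +
      2 * (C * (((k + 2).factorial : ℝ) / (w0 + 1 - b) ^ (k + 2 + 1))) +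
      8 * I1 * w0 * (qq / w0) ^ (k + 2) * ((k + 2).factorial : ℝ) := by
    field_simp
  rw [e1]
  refine h.trans (add_le_add le_rfl ?_)
  have hexp1 : Real.exp (l * ((1 - δ) * (k + 2))) = Real.exp (l * (1 - δ)) ^ (k + 2) := by
    rw [← Real.exp_nat_mul]; congr 1; push_cast; ring
  have hexp2 : Real.exp (-(l * ((1 + δ) * (k + 2)))) = Real.exp (-(l * (1 + δ))) ^ (k + 2) := by
    rw [← Real.exp_nat_mul]; congr 1; push_cast; ring
  rw [hexp1, hexp2]
  have h1 : (k.factorial : ℝ) / ((1 + l) * w0) ^ (k + 1) * Real.exp (l * (1 - δ)) ^ (k + 2) ≤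
      (k.factorial : ℝ) * w0 * 2 * (qq / w0) ^ (k + 2) := by
    have h2 : (Real.exp (l * (1 - δ)) / (1 + l)) ^ (k + 2) ≤ qq ^ (k + 2) :=
      pow_le_pow_left₀ (by positivity) g1 _
    have e2 : (k.factorial : ℝ) / ((1 + l) * w0) ^ (k + 1) * Real.exp (l * (1 - δ)) ^ (k + 2) =
        (k.factorial : ℝ) * w0 * (1 + l) * ((Real.exp (l * (1 - δ)) / (1 + l)) ^ (k + 2) / w0 ^ (k + 2)) := by
      rw [mul_pow, div_pow]
      field_simp
      ring
    rw [e2, div_pow qq w0]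
    have h3 : (1 + l) ≤ 2 := by linarith
    gcongr
  have h2 : (k.factorial : ℝ) / ((1 - l) * w0) ^ (k + 1) * Real.exp (-(l * (1 + δ))) ^ (k + 2) ≤
      (k.factorial : ℝ) * w0 * 2 * (qq / w0) ^ (k + 2) := by
    have h1l : 0 < 1 - l := by linarith
    have h2 : (Real.exp (-(l * (1 + δ))) / (1 - l)) ^ (k + 2) ≤ qq ^ (k + 2) :=
      pow_le_pow_left₀ (by positivity) g2 _
    have e2 : (k.factorial : ℝ) / ((1 - l) * w0) ^ (k + 1) * Real.exp (-(l * (1 + δ))) ^ (k + 2) =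
        (k.factorial : ℝ) * w0 * (1 - l) * ((Real.exp (-(l * (1 + δ))) / (1 - l)) ^ (k + 2) / w0 ^ (k + 2)) := by
      rw [mul_pow, div_pow]
      field_simp
      ring
    rw [e2, div_pow qq w0]
    have h3 : (1 - l) ≤ 2 := by linarith
    gcongr
  have h3 : (k.factorial : ℝ) * w0 * 2 * (qq / w0) ^ (k + 2) ≤ ((k + 2).factorial : ℝ) * w0 * 2 * (qq / w0) ^ (k + 2) := by
    gcongr
  have h4 := mul_le_mul_of_nonneg_left (add_le_add (h1.trans h3) (h2.trans h3)) hI
  calc _ ≤ 2 * (I1 * (((k + 2).factorial : ℝ) * w0 * 2 * (qq / w0) ^ (k + 2) +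
        ((k + 2).factorial : ℝ) * w0 * 2 * (qq / w0) ^ (k + 2))) := by linarith
    _ = _ := by ring

end

end Pool.Agent.K3h81.RB
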