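import Pool.Agent.K3h81.RB.Str
import Pool.Agent.K3h81.RB.Lan3

/-!
# Constructions of exceptions
-/

set_option autoImplicit false

namespace Pool.Agent.K3h81.RB

open Filter Topology
open Nat (primesLE)

noncomputable section

lemma fac_prod {A : Finset ℕ} (hA : ∀ p ∈ A, p.Prime) (e : ℕ → ℕ) (p : ℕ) :
    (∏ q ∈ A, q ^ e q).factorization p = if p ∈ A then e p else 0 := by
  rw [Nat.factorization_prod (fun q hq => pow_ne_zero _ (hA q hq).ne_zero), Finsupp.finset_sum_apply]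
  rw [Finset.sum_congr rfl (g := fun q => if q = p then e q else 0) (fun q hq => by
    rw [(hA q hq).factorization_pow, Finsupp.single_apply])]
  rw [Finset.sum_ite_eq']

lemma pf_prod {A : Finset ℕ} (hA : ∀ p ∈ A, p.Prime) {e : ℕ → ℕ} (he : ∀ p ∈ A, e p ≠ 0) :
    (∏ q ∈ A, q ^ e q).primeFactors = A := by
  ext p
  rw [← Nat.support_factorization, Finsupp.mem_support_iff, fac_prod hA]
  by_cases hp : p ∈ A
  · simp [hp, he p hp]
  · simp [hp]

/-- the least common multiple of `1, …, N` without the primes in `T` -/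
def nT (N : ℕ) (T : Finset ℕ) : ℕ := ∏ p ∈ primesLE N \ T, p ^ p.log N

/-- the primorial without the primes in `T` -/
def mT (N : ℕ) (T : Finset ℕ) : ℕ := ∏ p ∈ primesLE N \ T, p ^ 1

lemma prime_sdiff {N : ℕ} {T : Finset ℕ} : ∀ p ∈ primesLE N \ T, p.Prime := fun p hp =>
  Nat.prime_of_mem_primesLE (Finset.mem_sdiff.1 hp).1

lemma log_ne {N p : ℕ} (hp : p ∈ primesLE N) : p.log N ≠ 0 := by
  have h1 := Nat.le_of_mem_primesLE hp
  have h2 := Nat.one_lt_of_mem_primesLE hp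
  have := (Nat.log_pos_iff (b := p) (n := N)).2 ⟨h1, h2⟩
  omega

lemma nT_pf {N : ℕ} {T : Finset ℕ} : (nT N T).primeFactors = primesLE N \ T :=
  pf_prod prime_sdiff fun _ hp => log_ne (Finset.mem_sdiff.1 hp).1

lemma mT_pf {N : ℕ} {T : Finset ℕ} : (mT N T).primeFactors = primesLE N \ T :=
  pf_prod (e := fun _ => 1) prime_sdiff fun _ _ => one_ne_zero

lemma nT_ne {N : ℕ} {T : Finset ℕ} : nT N T ≠ 0 :=
  Finset.prod_ne_zero_iff.2 fun p hp => pow_ne_zero _ (prime_sdiff p hp).ne_zero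

lemma mT_ne {N : ℕ} {T : Finset ℕ} : mT N T ≠ 0 :=
  Finset.prod_ne_zero_iff.2 fun p hp => pow_ne_zero _ (prime_sdiff p hp).ne_zero

lemma VS_primes (N : ℕ) : VS N = ∑ p ∈ primesLE N, vv p := by
  unfold VS
  rw [Nat.floor_natCast, Nat.primesLE_eq_filter_Icc_one]

lemma log_nT {N : ℕ} {T : Finset ℕ} (hT : T ⊆ primesLE N) :
    Real.log (nT N T) = Chebyshev.psi N - ∑ p ∈ T, (p.log N : ℝ) * Real.log p := by
  have h1 : Real.log (nT N T) = ∑ p ∈ primesLE N \ T, (p.log N : ℝ) * Real.log p := by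
    unfold nT
    rw [Nat.cast_prod, Real.log_prod]
    · refine Finset.sum_congr rfl fun p _ => ?_
      rw [Nat.cast_pow, Real.log_pow]
    · intro p hp
      have := (prime_sdiff p hp).pos
      positivity
  rw [h1, Chebyshev.psi_eq_sum_mul_log_prime, ← Finset.sum_sdiff hT]
  ring

lemma log_mT {N : ℕ} {T : Finset ℕ} (hT : T ⊆ primesLE N) :
    Real.log (mT N T) = Chebyshev.theta N - ∑ p ∈ T, Real.log p := by
  have h1 : Real.log (mT N T) = ∑ p ∈ primesLE N \ T, Real.log p := by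
    unfold mT
    rw [Nat.cast_prod, Real.log_prod]
    · refine Finset.sum_congr rfl fun p _ => ?_
      rw [pow_one]
    · intro p hp
      have := (prime_sdiff p hp).pos
      positivity
  rw [h1, Chebyshev.theta_eq_sum_primesLE_log, ← Finset.sum_sdiff hT]
  ring

/-- the tail -/
lemma tail_sum {N : ℕ} (hN : 1 ≤ N) : ∑ p ∈ primesLE N, 1 / (p : ℝ) ^ (p.log N + 1) ≤ 3 / √(N : ℝ) := by
  have hN0 : (0 : ℝ) < N := by exact_mod_cast hN
  have hs : 0 < √(N : ℝ) := Real.sqrt_pos.2 hN0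
  have hss : √(N : ℝ) * √(N : ℝ) = N := Real.mul_self_sqrt hN0.le
  set s := Nat.sqrt N with hsd
  have hs1 : 1 ≤ s := by
    rw [hsd]
    exact Nat.sqrt_pos.2 hN
  have hs1' : (1 : ℝ) ≤ s := by exact_mod_cast hs1
  have hsN : s ≤ N := Nat.sqrt_le_self N
  have hsle : (s : ℝ) ≤ √(N : ℝ) := by
    rw [Real.le_sqrt' (by linarith)]
    exact_mod_cast Nat.sqrt_le' N
  have hsge : √(N : ℝ) ≤ 2 * s := by
    have h1 : √(N : ℝ) < s + 1 := by
      rw [Real.sqrt_lt' (by linarith)]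
      exact_mod_cast Nat.lt_succ_sqrt' N
    linarith
  have hsub : primesLE N ⊆ Finset.Ioc 0 N := by
    rw [Nat.primesLE_eq_filter_Ioc_zero]
    exact Finset.filter_subset _ _
  have hb : ∀ p ∈ primesLE N, 1 / (p : ℝ) ^ (p.log N + 1) ≤ if p ≤ s then 1 / (N : ℝ) else ((p : ℝ) ^ 2)⁻¹ := by
    intro p hp
    have hp1 := Nat.one_lt_of_mem_primesLE hp
    have hp1' : (1 : ℝ) < p := by exact_mod_cast hp1
    split_ifs
    · apply one_div_le_one_div_of_le hN0
      exact_mod_cast (Nat.lt_pow_succ_log_self hp1 N).le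
    · rw [one_div]
      apply inv_anti₀ (by positivity)
      exact pow_le_pow_right₀ hp1'.le (by have := log_ne hp; omega)
  calc ∑ p ∈ primesLE N, 1 / (p : ℝ) ^ (p.log N + 1)
      ≤ ∑ p ∈ primesLE N, (if p ≤ s then 1 / (N : ℝ) else ((p : ℝ) ^ 2)⁻¹) := Finset.sum_le_sum hb
    _ ≤ ∑ p ∈ Finset.Ioc 0 N, (if p ≤ s then 1 / (N : ℝ) else ((p : ℝ) ^ 2)⁻¹) := by
        refine Finset.sum_le_sum_of_subset_of_nonneg hsub fun p _ _ => ?_
        split_ifs <;> positivity
    _ = ∑ p ∈ Finset.Ioc 0 s, (1 / (N : ℝ)) + ∑ p ∈ Finset.Ioc s N, ((p : ℝ) ^ 2)⁻¹ := by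
        rw [← Finset.sum_Ioc_consecutive _ (Nat.zero_le s) hsN]
        congr 1
        · refine Finset.sum_congr rfl fun p hp => ?_
          rw [Finset.mem_Ioc] at hp
          rw [if_pos hp.2]
        · refine Finset.sum_congr rfl fun p hp => ?_
          rw [Finset.mem_Ioc] at hp
          rw [if_neg (by omega)]
    _ ≤ s / (N : ℝ) + (s : ℝ)⁻¹ := by
        have h1 := sum_Ioc_inv_sq_le_sub (α := ℝ) (by omega : s ≠ 0) hsN
        have h2 : (0 : ℝ) ≤ (N : ℝ)⁻¹ := by positivity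
        rw [Finset.sum_const, Nat.card_Ioc, nsmul_eq_mul, Nat.sub_zero, mul_one_div]
        linarith
    _ ≤ 1 / √(N : ℝ) + 2 / √(N : ℝ) := by
        refine add_le_add ?_ ?_
        · rw [div_le_div_iff₀ hN0 hs]
          calc (s : ℝ) * √(N : ℝ) ≤ √(N : ℝ) * √(N : ℝ) := by gcongr
            _ = 1 * N := by rw [hss, one_mul]
        · rw [inv_eq_one_div, div_le_div_iff₀ (by linarith) hs]
          linarith
    _ = _ := by ring

lemma log_sub_lower {y : ℝ} (hy0 : 0 ≤ y) (hy : y ≤ 1 / 2) : -(2 * y) ≤ Real.log (1 - y) := by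
  have h1 := Real.one_sub_inv_le_log_of_pos (show 0 < 1 - y by linarith)
  have h2 : (1 - y)⁻¹ ≤ 1 + 2 * y := by
    rw [inv_eq_one_div, div_le_iff₀ (by linarith)]
    nlinarith
  linarith

lemma sig_nT {N : ℕ} {T : Finset ℕ} (hN : 1 ≤ N) (hT : T ⊆ primesLE N) :
    VS N - 6 / √(N : ℝ) - ∑ p ∈ T, vv p ≤
      Real.log ((ArithmeticFunction.sigma 1 (nT N T) : ℕ) / (nT N T : ℝ)) := by
  rw [log_sigma nT_ne, nT_pf, Finset.sum_add_distrib]
  have h1 : ∑ p ∈ primesLE N \ T, vv p = VS N - ∑ p ∈ T, vv p := by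
    rw [VS_primes, ← Finset.sum_sdiff hT]
    ring
  have h2 : -(6 / √(N : ℝ)) ≤
      ∑ p ∈ primesLE N \ T, Real.log (1 - 1 / (p : ℝ) ^ ((nT N T).factorization p + 1)) := by
    calc -(6 / √(N : ℝ)) ≤ -(2 * ∑ p ∈ primesLE N, 1 / (p : ℝ) ^ (p.log N + 1)) := by
          have := tail_sum hN
          have e : 6 / √(N : ℝ) = 2 * (3 / √(N : ℝ)) := by ring
          linarith
      _ ≤ -(2 * ∑ p ∈ primesLE N \ T, 1 / (p : ℝ) ^ (p.log N + 1)) := by
          have : ∑ p ∈ primesLE N \ T, 1 / (p : ℝ) ^ (p.log N + 1) ≤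
              ∑ p ∈ primesLE N, 1 / (p : ℝ) ^ (p.log N + 1) :=
            Finset.sum_le_sum_of_subset_of_nonneg Finset.sdiff_subset fun p _ _ => by positivity
          linarith
      _ = ∑ p ∈ primesLE N \ T, -(2 * (1 / (p : ℝ) ^ (p.log N + 1))) := by
          rw [Finset.sum_neg_distrib, Finset.mul_sum]
      _ ≤ _ := by
          refine Finset.sum_le_sum fun p hp => ?_
          have hpp := prime_sdiff p hp
          have hp2 : (2 : ℝ) ≤ p := by exact_mod_cast hpp.two_le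
          have e : (nT N T).factorization p = p.log N := by
            unfold nT
            rw [fac_prod prime_sdiff, if_pos hp]
          rw [e]
          apply log_sub_lower (by positivity)
          have h3 : (2 : ℝ) ≤ (p : ℝ) ^ (p.log N + 1) := by
            calc (2 : ℝ) ≤ p := hp2
              _ = (p : ℝ) ^ 1 := (pow_one _).symm
              _ ≤ _ := pow_le_pow_right₀ (by linarith) (by omega)
          exact one_div_le_one_div_of_le (by norm_num) h3
  linarith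

theorem crit_s {N : ℕ} {T : Finset ℕ} (hN : 5 ≤ N) (hT : T ⊆ primesLE N) (hL : 1 < Real.log (nT N T))
    (h : (Chebyshev.psi N - ∑ p ∈ T, (p.log N : ℝ) * Real.log p - Chebyshev.theta N) /
      (Chebyshev.theta N * Real.log (Chebyshev.theta N)) + 6 / √(N : ℝ) + ∑ p ∈ T, vv p ≤ JJ N) :
    Es (nT N T) := by
  have hth := theta_gt_one (show (5 : ℝ) ≤ N by exact_mod_cast hN)
  rw [Es_iff hL]
  refine le_trans ?_ (sig_nT (by omega) hT)
  have h1 := loglog_tangent hth hL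
  rw [log_nT hT] at h1 ⊢
  unfold JJ at h
  linarith

theorem crit_f {N : ℕ} {T : Finset ℕ} (hN : 5 ≤ N) (hT : T ⊆ primesLE N) (hL : 1 < Real.log (mT N T))
    (h : (-∑ p ∈ T, Real.log p) /
      (Chebyshev.theta N * Real.log (Chebyshev.theta N)) + ∑ p ∈ T, vv p ≤ JJ N) :
    Ef (mT N T) := by
  have hth := theta_gt_one (show (5 : ℝ) ≤ N by exact_mod_cast hN)
  rw [Ef_iff hL, mT_pf]
  have h0 : ∑ p ∈ primesLE N \ T, vv p = VS N - ∑ p ∈ T, vv p := by
    rw [VS_primes, ← Finset.sum_sdiff hT]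
    ring
  rw [h0]
  have h1 := loglog_tangent hth hL
  rw [log_mT hT] at h1 ⊢
  have e : Chebyshev.theta N - ∑ p ∈ T, Real.log p - Chebyshev.theta N = -∑ p ∈ T, Real.log p := by ring
  rw [e] at h1
  unfold JJ at h
  linarith

/-- the cost of leaving out a large prime -/
lemma cost_le {N p : ℕ} {g : ℝ} (hN : 5 ≤ N) (hg0 : 0 < g) (hg : 4 * g ≤ N) (hpg : (N : ℝ) - g ≤ p - 1)
    (hpN : p ≤ N) (hR : |Rr N| ≤ g) :
    vv p - Real.log p / (Chebyshev.theta N * Real.log (Chebyshev.theta N)) ≤ 8 * g / (N : ℝ) ^ 2 := by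
  have hN5 : (5 : ℝ) ≤ N := by exact_mod_cast hN
  have hN0 : (0 : ℝ) < N := by linarith
  have hth := theta_gt_one hN5
  set th := Chebyshev.theta N with hthd
  have hpN' : (p : ℝ) ≤ N := by exact_mod_cast hpN
  have hp1 : (1 : ℝ) < p := by linarith
  have hlN : 1 ≤ Real.log N := by
    rw [Real.le_log_iff_exp_le hN0]
    linarith [Real.exp_one_lt_d9]
  have hlth : 0 < Real.log th := Real.log_pos hth
  -- `vv p ≤ 1/N + 2 g / N²`
  have h1 : vv p ≤ 1 / N + 2 * g / (N : ℝ) ^ 2 := by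
    refine (vv_upper hp1).trans ?_
    have hNg : 0 < (N : ℝ) - g := by linarith
    calc 1 / ((p : ℝ) - 1) ≤ 1 / ((N : ℝ) - g) := one_div_le_one_div_of_le hNg hpg
      _ ≤ 1 / N + 2 * g / (N : ℝ) ^ 2 := by
          have e : 1 / (N : ℝ) + 2 * g / (N : ℝ) ^ 2 = (N + 2 * g) / (N : ℝ) ^ 2 := by field_simp
          rw [e, div_le_div_iff₀ hNg (by positivity)]
          nlinarith
  -- lower bound for the gain
  have h2 : Real.log N - 2 * g / N ≤ Real.log p := by
    have h3 : (N : ℝ) - g ≤ p := by linarith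
    have h4 : Real.log N - Real.log p ≤ 2 * g / N := by
      have h5 := Real.log_le_sub_one_of_pos (div_pos hN0 (by linarith : (0 : ℝ) < p))
      rw [Real.log_div hN0.ne' (by linarith)] at h5
      refine h5.trans ?_
      rw [div_sub_one (by linarith), div_le_div_iff₀ (by linarith) hN0]
      nlinarith
    linarith
  have hR' := abs_le.1 hR
  unfold Rr at hR'
  rw [← hthd] at hR'
  have h3 : th ≤ N + g := by linarith
  have h4 : Real.log th ≤ Real.log N + g / N := by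
    have h5 := Real.log_le_sub_one_of_pos (div_pos (by linarith : 0 < th) hN0)
    rw [Real.log_div (by linarith) hN0.ne'] at h5
    have h6 : th / N - 1 ≤ g / N := by
      rw [div_sub_one hN0.ne']
      exact div_le_div_of_nonneg_right (by linarith) hN0.le
    linarith
  have hgN : g / N ≤ 1 / 4 := by
    rw [div_le_div_iff₀ hN0 (by norm_num)]
    linarith
  have hgN0 : 0 < g / N := by positivity
  have h2gN : 2 * g / N = 2 * (g / N) := by ring
  rw [h2gN] at h2
  have h5 : 1 / (N : ℝ) - 6 * g / (N : ℝ) ^ 2 ≤ Real.log p / (th * Real.log th) := by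
    rw [le_div_iff₀ (by positivity)]
    set y := g / N with hy
    have e1 : 1 / (N : ℝ) - 6 * g / (N : ℝ) ^ 2 = (1 - 6 * y) / N := by rw [hy]; field_simp
    rw [e1]
    rcases le_or_gt (1 - 6 * y) 0 with h6 | h6
    · have h7 : (1 - 6 * y) / N * (th * Real.log th) ≤ 0 :=
        mul_nonpos_of_nonpos_of_nonneg (div_nonpos_of_nonpos_of_nonneg h6 hN0.le) (by positivity)
      have : 0 ≤ Real.log p := Real.log_nonneg hp1.le
      linarith
    · have h8 : th ≤ N * (1 + y) := by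
        have : (N : ℝ) * (1 + y) = N + g := by rw [hy]; field_simp
        rw [this]; exact h3
      have h9 : th * Real.log th ≤ (N * (1 + y)) * (Real.log N + y) := by gcongr
      calc (1 - 6 * y) / N * (th * Real.log th) ≤ (1 - 6 * y) / N * ((N * (1 + y)) * (Real.log N + y)) := by
            gcongr
        _ = (1 - 6 * y) * (1 + y) * (Real.log N + y) := by field_simp
        _ ≤ Real.log N - 2 * y := by
            nlinarith [mul_nonneg (sub_nonneg.2 hlN) hgN0.le, mul_pos hgN0 hgN0,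
              mul_nonneg (mul_nonneg (sub_nonneg.2 hlN) hgN0.le) hgN0.le, mul_pos (mul_pos hgN0 hgN0) hgN0]
        _ ≤ Real.log p := h2
  have e : 8 * g / (N : ℝ) ^ 2 = 2 * g / (N : ℝ) ^ 2 + 6 * g / (N : ℝ) ^ 2 := by ring
  rw [e]
  linarith

/-- the primes in `(N - h, N]` -/
def Win (N : ℕ) (h : ℝ) : Finset ℕ := (primesLE N).filter fun p : ℕ => (N : ℝ) - h < p

lemma card_win_le {N : ℕ} {h : ℝ} (hh : 0 ≤ h) (hhN : h ≤ N) : ((Win N h).card : ℝ) ≤ h + 1 := by
  have h1 : Win N h ⊆ Finset.Ioc ⌊(N : ℝ) - h⌋₊ N := by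
    intro p hp
    simp only [Win, Finset.mem_filter, Nat.mem_primesLE] at hp
    rw [Finset.mem_Ioc]
    refine ⟨?_, hp.1.1⟩
    rw [Nat.floor_lt (by linarith)]
    exact hp.2
  have h2 := Finset.card_le_card h1
  rw [Nat.card_Ioc] at h2
  have h3 : ⌊(N : ℝ) - h⌋₊ ≤ N := by
    have := Nat.floor_le_floor (show (N : ℝ) - h ≤ N by linarith)
    rwa [Nat.floor_natCast] at this
  have h4 : ((Win N h).card : ℝ) ≤ ((N - ⌊(N : ℝ) - h⌋₊ : ℕ) : ℝ) := by exact_mod_cast h2
  rw [Nat.cast_sub h3] at h4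
  have h5 : (N : ℝ) - h - 1 < ⌊(N : ℝ) - h⌋₊ := Nat.sub_one_lt_floor _
  linarith

/-- the total cost -/
lemma sum_cost {N : ℕ} {h : ℝ} {T : Finset ℕ} (hN : 5 ≤ N) (hh : 1 ≤ h) (hhN : 8 * h ≤ N)
    (hR : |Rr N| ≤ h) (hT : T ⊆ Win N h) :
    ∑ p ∈ T, (vv p - Real.log p / (Chebyshev.theta N * Real.log (Chebyshev.theta N))) ≤
      32 * (h / N) ^ 2 := by
  have hN5 : (5 : ℝ) ≤ N := by exact_mod_cast hN
  have hN0 : (0 : ℝ) < N := by linarith
  have h1 : ∀ p ∈ T, vv p - Real.log p / (Chebyshev.theta N * Real.log (Chebyshev.theta N)) ≤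
      8 * (h + 1) / (N : ℝ) ^ 2 := by
    intro p hp
    have hp' := hT hp
    simp only [Win, Finset.mem_filter, Nat.mem_primesLE] at hp'
    exact cost_le hN (by linarith) (by linarith) (by linarith [hp'.2]) hp'.1.1 (hR.trans (by linarith))
  have h2 : (T.card : ℝ) ≤ h + 1 := by
    have h3 := Finset.card_le_card hT
    have h4 : (T.card : ℝ) ≤ ((Win N h).card : ℝ) := by exact_mod_cast h3
    exact h4.trans (card_win_le (by linarith) (by linarith))
  calc _ ≤ ∑ _p ∈ T, 8 * (h + 1) / (N : ℝ) ^ 2 := Finset.sum_le_sum h1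
    _ = T.card * (8 * (h + 1) / (N : ℝ) ^ 2) := by rw [Finset.sum_const, nsmul_eq_mul]
    _ ≤ (h + 1) * (8 * (h + 1) / (N : ℝ) ^ 2) := by gcongr
    _ ≤ (2 * h) * (8 * (2 * h) / (N : ℝ) ^ 2) := by
        gcongr <;> linarith
    _ = _ := by ring

end

end Pool.Agent.K3h81.RB
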