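import Pool.Agent.K3h81.RB.Low1
import Pool.Agent.K3h81.RB.Cnt

/-!
# Many exceptions
-/

set_option autoImplicit false

namespace Pool.Agent.K3h81.RB

open Filter Topology
open Nat (primesLE)

noncomputable section

lemma ev_log {a c : ℝ} (K : ℝ) (h : a < c) : ∀ᶠ x : ℝ in atTop, K * (x ^ a * Real.log x) ≤ x ^ c := by
  have h1 := (isLittleO_log_rpow_atTop (sub_pos.2 h)).bound (show (0 : ℝ) < 1 / (|K| + 1) by positivity)
  filter_upwards [h1, eventually_ge_atTop 1] with x hx hx1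
  have hx0 : 0 < x := by linarith
  have hl : 0 ≤ Real.log x := Real.log_nonneg hx1
  rw [Real.norm_of_nonneg hl, Real.norm_of_nonneg (by positivity)] at hx
  have hK : 0 ≤ |K| := abs_nonneg K
  have h2 : |K| * Real.log x ≤ x ^ (c - a) := by
    calc |K| * Real.log x ≤ |K| * (1 / (|K| + 1) * x ^ (c - a)) := by gcongr
      _ = (|K| / (|K| + 1)) * x ^ (c - a) := by ring
      _ ≤ 1 * x ^ (c - a) := by
          gcongr
          rw [div_le_one (by positivity)]
          linarith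
      _ = _ := one_mul _
  have h3 : x ^ c = x ^ a * x ^ (c - a) := by
    rw [← Real.rpow_add hx0]; congr 1; ring
  rw [h3]
  have h4 : 0 < x ^ a := by positivity
  calc K * (x ^ a * Real.log x) ≤ |K| * (x ^ a * Real.log x) := by
        apply mul_le_mul_of_nonneg_right (le_abs_self K) (by positivity)
    _ = x ^ a * (|K| * Real.log x) := by ring
    _ ≤ _ := by gcongr

lemma ev_pow {a c : ℝ} (K : ℝ) (h : a < c) : ∀ᶠ x : ℝ in atTop, K * x ^ a ≤ x ^ c := by
  filter_upwards [ev_log |K| h, eventually_ge_atTop (Real.exp 1)] with x hx hx1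
  have hx0 : 0 < x := (Real.exp_pos 1).trans_le hx1
  have hl : 1 ≤ Real.log x := by rwa [Real.le_log_iff_exp_le hx0]
  have h4 : 0 < x ^ a := by positivity
  calc K * x ^ a ≤ |K| * x ^ a := mul_le_mul_of_nonneg_right (le_abs_self K) h4.le
    _ = |K| * (x ^ a * 1) := by ring
    _ ≤ |K| * (x ^ a * Real.log x) := by gcongr
    _ ≤ _ := hx

lemma ev_log_nat {a c : ℝ} (K : ℝ) (h : a < c) :
    ∀ᶠ N : ℕ in atTop, K * ((N : ℝ) ^ a * Real.log N) ≤ (N : ℝ) ^ c :=
  tendsto_natCast_atTop_atTop.eventually (ev_log K h)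

lemma ev_pow_nat {a c : ℝ} (K : ℝ) (h : a < c) : ∀ᶠ N : ℕ in atTop, K * (N : ℝ) ^ a ≤ (N : ℝ) ^ c :=
  tendsto_natCast_atTop_atTop.eventually (ev_pow K h)

/-- rough bounds for `θ(N)` and `ψ(N)` -/
lemma rough : ∃ C1 : ℝ, 0 < C1 ∧ ∀ᶠ N : ℕ in atTop, (N : ℝ) / 2 ≤ Chebyshev.theta N ∧
    3 ≤ Chebyshev.theta N ∧ Chebyshev.psi N ≤ 2 * N ∧
    (N : ℝ) / 2 ≤ Chebyshev.theta N * Real.log (Chebyshev.theta N) ∧
    Chebyshev.psi N - Chebyshev.theta N ≤ C1 * √(N : ℝ) := by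
  obtain ⟨C, hC, h⟩ := Rr_bound 1
  obtain ⟨C1, h1⟩ := Chebyshev.psi_sub_theta_le_mul_sqrt
  refine ⟨|C1| + 1, by positivity, ?_⟩
  have hlog : ∀ᶠ N : ℕ in atTop, 4 * C ≤ Real.log N :=
    (Real.tendsto_log_atTop.comp tendsto_natCast_atTop_atTop).eventually_ge_atTop _
  have hsq := ev_pow_nat (4 * (|C1| + 1)) (show (1 / 2 : ℝ) < 1 by norm_num)
  filter_upwards [hlog, hsq, eventually_ge_atTop 6] with N hN hs hN6
  have hN6' : (6 : ℝ) ≤ N := by exact_mod_cast hN6
  have hN0 : (0 : ℝ) < N := by linarith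
  have h2 := h N (by linarith)
  rw [pow_one] at h2
  have hlN : 0 < Real.log N := Real.log_pos (by linarith)
  have h3 : C * ((N : ℝ) / Real.log N) ≤ N / 4 := by
    rw [← mul_div_assoc, div_le_div_iff₀ hlN (by norm_num)]
    nlinarith
  have h4 := abs_le.1 (h2.trans h3)
  unfold Rr at h4
  have h5 : (N : ℝ) / 2 ≤ Chebyshev.theta N := by linarith
  have h6 : 3 ≤ Chebyshev.theta N := by linarith
  have h7 : 1 ≤ Real.log (Chebyshev.theta N) := by
    rw [Real.le_log_iff_exp_le (by linarith)]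
    linarith [Real.exp_one_lt_d9]
  rw [Real.rpow_one, ← Real.sqrt_eq_rpow] at hs
  have h8 := h1 N
  have h9 : C1 * √(N : ℝ) ≤ (|C1| + 1) * √(N : ℝ) := by
    gcongr
    linarith [le_abs_self C1]
  refine ⟨h5, h6, by linarith, ?_, by linarith⟩
  nlinarith

lemma cE_mono (P : ℕ → Prop) {x y : ℝ} (h : x ≤ y) : cE P x ≤ cE P y := by
  classical
  unfold cE
  refine Finset.card_le_card (Finset.filter_subset_filter _ (Finset.Icc_subset_Icc le_rfl (Nat.floor_le_floor h)))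

/-- a set of numbers with the property `P` -/
lemma le_cE {P : ℕ → Prop} {x : ℝ} {ι : Type*} {s : Finset ι} {f : ι → ℕ}
    (hf : ∀ i ∈ s, 1 ≤ f i ∧ (f i : ℝ) ≤ x ∧ P (f i)) (hinj : Set.InjOn f s) : s.card ≤ cE P x := by
  classical
  unfold cE
  refine Finset.card_le_card_of_injOn f (fun i hi => ?_) hinj
  obtain ⟨a, b, c⟩ := hf i hi
  simp only [Finset.coe_filter, Finset.mem_Icc, Set.mem_ofPred_eq]
  exact ⟨⟨a, Nat.le_floor b⟩, c⟩

lemma sdiff_inj {N : ℕ} {T T' : Finset ℕ} (hT : T ⊆ primesLE N) (hT' : T' ⊆ primesLE N)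
    (h : primesLE N \ T = primesLE N \ T') : T = T' := by
  rw [← Finset.sdiff_sdiff_eq_self hT, ← Finset.sdiff_sdiff_eq_self hT', h]

lemma Win_sub {N : ℕ} {h : ℝ} : Win N h ⊆ primesLE N := Finset.filter_subset _ _

/-- many primes in the window -/
lemma card_win_ge {N : ℕ} {h Y : ℝ} (hN : 2 ≤ N) (hh : 0 ≤ h) (h1 : |Rr N| ≤ Y)
    (h2 : |Rr (N - h)| ≤ Y) (hY : 4 * Y ≤ h) : h / (2 * Real.log N) ≤ (Win N h).card := by
  have hN1 : (1 : ℝ) < N := by exact_mod_cast (by omega : 1 < N)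
  have hl : 0 < Real.log N := Real.log_pos hN1
  have h3 : Chebyshev.theta N - Chebyshev.theta (N - h) = ∑ p ∈ Win N h, Real.log p := by
    rw [Chebyshev.theta_eq_sum_primesLE_log, ← Finset.sum_filter_add_sum_filter_not (primesLE N)
      (fun p : ℕ => (N : ℝ) - h < p)]
    have e : Chebyshev.theta ((N : ℝ) - h) =
        ∑ p ∈ (primesLE N).filter (fun p : ℕ => ¬ (N : ℝ) - h < p), Real.log p := by
      rw [Chebyshev.theta_eq_sum_Icc]
      refine Finset.sum_congr ?_ fun _ _ => rfl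
      ext p
      simp only [Finset.mem_filter, Finset.mem_Icc, Nat.mem_primesLE, not_lt]
      constructor
      · rintro ⟨⟨_, a⟩, b⟩
        have c : (p : ℝ) ≤ N - h := (Nat.le_floor_iff' b.ne_zero).1 a
        refine ⟨⟨?_, b⟩, c⟩
        have : (p : ℝ) ≤ N := by linarith
        exact_mod_cast this
      · rintro ⟨⟨_, b⟩, c⟩
        exact ⟨⟨Nat.zero_le _, (Nat.le_floor_iff' b.ne_zero).2 c⟩, b⟩
    rw [e]
    unfold Win
    ring
  have h4 : ∑ p ∈ Win N h, Real.log p ≤ (Win N h).card * Real.log N := by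
    rw [← nsmul_eq_mul]
    refine Finset.sum_le_card_nsmul _ _ _ fun p hp => ?_
    have hp' := Win_sub hp
    have hp1 := Nat.one_lt_of_mem_primesLE hp'
    exact Real.log_le_log (by exact_mod_cast (by omega : 0 < p)) (by exact_mod_cast Nat.le_of_mem_primesLE hp')
  have h5 := abs_le.1 h1
  have h6 := abs_le.1 h2
  unfold Rr at h5 h6
  rw [div_le_iff₀ (by positivity)]
  linarith

/-- the counting argument for both kinds of exceptions -/
lemma win_count {P : ℕ → Prop} {N : ℕ} {h κ : ℝ} (f : Finset ℕ → ℕ)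
    (hf : ∀ T, T ⊆ Win N h → 1 ≤ f T ∧ (f T : ℝ) ≤ Real.exp (2 * N) ∧ P (f T))
    (hpf : ∀ T, T ⊆ Win N h → (f T).primeFactors = primesLE N \ T)
    (hc : h / (2 * Real.log N) ≤ (Win N h).card) (hN : 3 ≤ N)
    (hκ : 4 * ((N : ℝ) ^ κ * Real.log N) ≤ h) :
    Real.exp ((N : ℝ) ^ κ) ≤ cE P (Real.exp (2 * N)) := by
  have h1 : ((Win N h).powerset).card ≤ cE P (Real.exp (2 * N)) := by
    refine le_cE (f := f) (fun T hT => hf T (Finset.mem_powerset.1 hT)) ?_
    intro T hT T' hT' heq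
    have a := Finset.mem_powerset.1 (Finset.mem_coe.1 hT)
    have b := Finset.mem_powerset.1 (Finset.mem_coe.1 hT')
    refine sdiff_inj (a.trans Win_sub) (b.trans Win_sub) ?_
    rw [← hpf T a, ← hpf T' b, heq]
  rw [Finset.card_powerset] at h1
  have h2 : ((2 ^ (Win N h).card : ℕ) : ℝ) ≤ cE P (Real.exp (2 * N)) := by exact_mod_cast h1
  refine le_trans ?_ h2
  push_cast
  have hl : 0 < Real.log N := Real.log_pos (by exact_mod_cast (by omega : 1 < N))
  have h3 : (N : ℝ) ^ κ ≤ (Win N h).card * Real.log 2 := by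
    have h4 : 2 * (N : ℝ) ^ κ ≤ (Win N h).card := by
      refine le_trans ?_ hc
      rw [le_div_iff₀ (by positivity)]
      linarith
    have h5 : 0 ≤ (N : ℝ) ^ κ := by positivity
    have h6 : (1 : ℝ) / 2 ≤ Real.log 2 := by linarith [Real.log_two_gt_d9]
    nlinarith
  calc Real.exp ((N : ℝ) ^ κ) ≤ Real.exp ((Win N h).card * Real.log 2) := Real.exp_le_exp.2 h3
    _ = 2 ^ (Win N h).card := by
        rw [mul_comm, Real.exp_mul, Real.exp_log (by norm_num), Real.rpow_natCast]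

/-- common part of the deletion arguments -/
lemma del_common {b Θ κ C : ℝ} (hb0 : 0 < b) (hb1 : b < 1) (hΘ : Θ < (1 + b) / 2) (hκ : κ < (1 + b) / 2)
    (hC : ∀ t : ℝ, 1 ≤ t → |Rr t| ≤ C * t ^ Θ) (hΘ0 : 0 ≤ Θ) :
    ∀ᶠ N : ℕ in atTop, 6 ≤ N ∧ 1 ≤ (N : ℝ) ^ ((1 + b) / 2) ∧ 8 * (N : ℝ) ^ ((1 + b) / 2) ≤ N ∧
      |Rr N| ≤ (N : ℝ) ^ ((1 + b) / 2) ∧
      (N : ℝ) ^ ((1 + b) / 2) / (2 * Real.log N) ≤ (Win N ((N : ℝ) ^ ((1 + b) / 2))).card ∧
      4 * ((N : ℝ) ^ κ * Real.log N) ≤ (N : ℝ) ^ ((1 + b) / 2) ∧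
      ((N : ℝ) ^ ((1 + b) / 2) + 1) * Real.log N ≤ N / 4 := by
  have hC0 : 0 ≤ C := by
    have := (abs_nonneg _).trans (hC 1 le_rfl)
    simpa using this
  filter_upwards [ev_pow_nat 8 (show (1 + b) / 2 < 1 by linarith), ev_pow_nat (4 * C) hΘ,
    ev_log_nat 4 hκ, ev_log_nat 8 (show (1 + b) / 2 < 1 by linarith), eventually_ge_atTop 6]
    with N h1 h2 h3 h4 h5
  have hN : (6 : ℝ) ≤ N := by exact_mod_cast h5
  rw [Real.rpow_one] at h1 h4
  set h : ℝ := (N : ℝ) ^ ((1 + b) / 2) with hh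
  have hh1 : 1 ≤ h := Real.one_le_rpow (by linarith) (by linarith)
  have hNΘ : 0 ≤ C * (N : ℝ) ^ Θ := by positivity
  have hR1 := hC N (by linarith)
  have hR2 : |Rr (N - h)| ≤ C * (N : ℝ) ^ Θ := by
    refine (hC _ (by linarith)).trans ?_
    exact mul_le_mul_of_nonneg_left (Real.rpow_le_rpow (by linarith) (by linarith) hΘ0) hC0
  have hl : 0 ≤ Real.log N := Real.log_nonneg (by linarith)
  refine ⟨h5, hh1, h1, by linarith, ?_, h3, ?_⟩
  · exact card_win_ge (by omega) (by linarith) hR1 hR2 (by linarith)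
  · have : 1 * Real.log N ≤ h * Real.log N := by gcongr
    linarith

lemma sq_window {N : ℕ} {b : ℝ} (hN : 1 ≤ N) : ((N : ℝ) ^ ((1 + b) / 2) / N) ^ 2 = (N : ℝ) ^ (b - 1) := by
  have hN0 : (0 : ℝ) < N := by exact_mod_cast hN
  rw [div_pow, ← Real.rpow_natCast ((N : ℝ) ^ ((1 + b) / 2)), ← Real.rpow_mul hN0.le,
    ← Real.rpow_natCast (N : ℝ) 2, ← Real.rpow_sub hN0]
  congr 1
  push_cast
  ring

lemma log_one {N p : ℕ} {h : ℝ} (hN : 6 ≤ N) (hh : 8 * h ≤ N) (hp : p ∈ Win N h) : p.log N = 1 := by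
  have hp' := hp
  simp only [Win, Finset.mem_filter, Nat.mem_primesLE] at hp'
  have hN' : (6 : ℝ) ≤ N := by exact_mod_cast hN
  rw [Nat.log_eq_one_iff]
  refine ⟨?_, hp'.1.2.one_lt, hp'.1.1⟩
  have h1 : (N : ℝ) / 2 < p := by linarith [hp'.2]
  have h2 : (N : ℝ) < p * p := by nlinarith
  exact_mod_cast h2

theorem del_s {b Θ κ C : ℝ} (hb0 : 1 / 2 < b) (hb1 : b < 1) (hΘ : Θ < (1 + b) / 2) (hκ : κ < (1 + b) / 2)
    (hC : ∀ t : ℝ, 1 ≤ t → |Rr t| ≤ C * t ^ Θ) (hΘ0 : 0 ≤ Θ) :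
    ∀ᶠ N : ℕ in atTop, 33 * (N : ℝ) ^ (b - 1) < JJ N →
      Real.exp ((N : ℝ) ^ κ) ≤ cE Es (Real.exp (2 * N)) := by
  obtain ⟨C1, hC1, hr⟩ := rough
  filter_upwards [hr, del_common (by linarith) hb1 hΘ hκ hC hΘ0,
    ev_pow_nat (2 * C1 + 6) (show (-(1 / 2) : ℝ) < b - 1 by linarith)] with N hN1 hN2 hN3 hJ
  obtain ⟨r1, r2, r3, r4, r5⟩ := hN1
  obtain ⟨d0, d1, d2, d3, d4, d5, d6⟩ := hN2
  set h : ℝ := (N : ℝ) ^ ((1 + b) / 2) with hh
  have hN6 : (6 : ℝ) ≤ N := by exact_mod_cast d0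
  have hN0 : (0 : ℝ) < N := by linarith
  have hsq : 0 < √(N : ℝ) := Real.sqrt_pos.2 hN0
  have hss : √(N : ℝ) * √(N : ℝ) = N := Real.mul_self_sqrt hN0.le
  have hsq2 : (N : ℝ) ^ (-(1 / 2) : ℝ) = 1 / √(N : ℝ) := by
    rw [Real.rpow_neg hN0.le, ← Real.sqrt_eq_rpow, one_div]
  rw [hsq2] at hN3
  refine win_count (fun T => nT N T) (fun T hT => ?_) (fun T _ => nT_pf) d4 (by omega) d5
  have hTs := hT.trans Win_sub
  have hlogT : ∑ p ∈ T, (p.log N : ℝ) * Real.log p = ∑ p ∈ T, Real.log p := by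
    refine Finset.sum_congr rfl fun p hp => ?_
    rw [log_one d0 d2 (hT hp)]
    push_cast
    ring
  have hln := log_nT hTs
  rw [hlogT] at hln
  have hnn : 0 ≤ ∑ p ∈ T, Real.log p := Finset.sum_nonneg fun p hp =>
    Real.log_nonneg (by exact_mod_cast (Nat.one_lt_of_mem_primesLE (hTs hp)).le)
  have hub : ∑ p ∈ T, Real.log p ≤ N / 4 := by
    refine le_trans ?_ d6
    calc ∑ p ∈ T, Real.log p ≤ T.card * Real.log N := by
          rw [← nsmul_eq_mul]
          refine Finset.sum_le_card_nsmul _ _ _ fun p hp => ?_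
          have hp1 := Nat.one_lt_of_mem_primesLE (hTs hp)
          exact Real.log_le_log (by exact_mod_cast (by omega : 0 < p))
            (by exact_mod_cast Nat.le_of_mem_primesLE (hTs hp))
      _ ≤ (h + 1) * Real.log N := by
          have h3 := Finset.card_le_card hT
          have h4 : (T.card : ℝ) ≤ ((Win N h).card : ℝ) := by exact_mod_cast h3
          have h5 := h4.trans (card_win_le (by linarith) (by linarith))
          have hl : 0 ≤ Real.log N := Real.log_nonneg (by linarith)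
          gcongr
  have hpt := Chebyshev.theta_le_psi N
  refine ⟨Nat.one_le_iff_ne_zero.2 nT_ne, ?_, ?_⟩
  · have hpos : (0 : ℝ) < nT N T := by exact_mod_cast Nat.pos_of_ne_zero nT_ne
    rw [← Real.log_le_iff_le_exp hpos, hln]
    linarith
  · refine crit_s (by omega) hTs (by rw [hln]; linarith) ?_
    rw [hlogT]
    have hden : 0 < Chebyshev.theta N * Real.log (Chebyshev.theta N) := by linarith
    have hcost := sum_cost (by omega) d1 d2 d3 hT
    rw [sq_window (by omega), Finset.sum_sub_distrib, ← Finset.sum_div] at hcost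
    have h1 : (Chebyshev.psi N - ∑ p ∈ T, Real.log p - Chebyshev.theta N) /
        (Chebyshev.theta N * Real.log (Chebyshev.theta N)) =
        (Chebyshev.psi N - Chebyshev.theta N) / (Chebyshev.theta N * Real.log (Chebyshev.theta N)) -
        (∑ p ∈ T, Real.log p) / (Chebyshev.theta N * Real.log (Chebyshev.theta N)) := by
      rw [← sub_div]; congr 1; ring
    have h2 : (Chebyshev.psi N - Chebyshev.theta N) / (Chebyshev.theta N * Real.log (Chebyshev.theta N)) ≤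
        2 * C1 * (1 / √(N : ℝ)) := by
      calc _ ≤ (C1 * √(N : ℝ)) / (N / 2) := by gcongr
        _ = 2 * C1 * (1 / √(N : ℝ)) := by
            rw [← hss]
            have : √(√(N : ℝ) * √(N : ℝ)) = √(N : ℝ) := by rw [hss]
            rw [this]
            field_simp
    have h3 : 6 / √(N : ℝ) = 6 * (1 / √(N : ℝ)) := by ring
    rw [h1, h3]
    linarith

theorem del_f {b Θ κ C : ℝ} (hb0 : 0 < b) (hb1 : b < 1) (hΘ : Θ < (1 + b) / 2) (hκ : κ < (1 + b) / 2)
    (hC : ∀ t : ℝ, 1 ≤ t → |Rr t| ≤ C * t ^ Θ) (hΘ0 : 0 ≤ Θ) :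
    ∀ᶠ N : ℕ in atTop, 33 * (N : ℝ) ^ (b - 1) < JJ N →
      Real.exp ((N : ℝ) ^ κ) ≤ cE Ef (Real.exp (2 * N)) := by
  obtain ⟨C1, hC1, hr⟩ := rough
  filter_upwards [hr, del_common (by linarith) hb1 hΘ hκ hC hΘ0] with N hN1 hN2 hJ
  obtain ⟨r1, r2, r3, r4, r5⟩ := hN1
  obtain ⟨d0, d1, d2, d3, d4, d5, d6⟩ := hN2
  set h : ℝ := (N : ℝ) ^ ((1 + b) / 2) with hh
  have hN6 : (6 : ℝ) ≤ N := by exact_mod_cast d0
  have hN0 : (0 : ℝ) < N := by linarith
  refine win_count (fun T => mT N T) (fun T hT => ?_) (fun T _ => mT_pf) d4 (by omega) d5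
  have hTs := hT.trans Win_sub
  have hln := log_mT hTs
  have hnn : 0 ≤ ∑ p ∈ T, Real.log p := Finset.sum_nonneg fun p hp =>
    Real.log_nonneg (by exact_mod_cast (Nat.one_lt_of_mem_primesLE (hTs hp)).le)
  have hub : ∑ p ∈ T, Real.log p ≤ N / 4 := by
    refine le_trans ?_ d6
    calc ∑ p ∈ T, Real.log p ≤ T.card * Real.log N := by
          rw [← nsmul_eq_mul]
          refine Finset.sum_le_card_nsmul _ _ _ fun p hp => ?_
          have hp1 := Nat.one_lt_of_mem_primesLE (hTs hp)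
          exact Real.log_le_log (by exact_mod_cast (by omega : 0 < p))
            (by exact_mod_cast Nat.le_of_mem_primesLE (hTs hp))
      _ ≤ (h + 1) * Real.log N := by
          have h3 := Finset.card_le_card hT
          have h4 : (T.card : ℝ) ≤ ((Win N h).card : ℝ) := by exact_mod_cast h3
          have h5 := h4.trans (card_win_le (by linarith) (by linarith))
          have hl : 0 ≤ Real.log N := Real.log_nonneg (by linarith)
          gcongr
  have hpt := Chebyshev.theta_le_psi N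
  refine ⟨Nat.one_le_iff_ne_zero.2 mT_ne, ?_, ?_⟩
  · have hpos : (0 : ℝ) < mT N T := by exact_mod_cast Nat.pos_of_ne_zero mT_ne
    rw [← Real.log_le_iff_le_exp hpos, hln]
    linarith
  · refine crit_f (by omega) hTs (by rw [hln]; linarith) ?_
    have hden : 0 < Chebyshev.theta N * Real.log (Chebyshev.theta N) := by linarith
    have hcost := sum_cost (by omega) d1 d2 d3 hT
    rw [sq_window (by omega), Finset.sum_sub_distrib, ← Finset.sum_div] at hcost
    rw [neg_div]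
    have hp : 0 < (N : ℝ) ^ (b - 1) := by positivity
    linarith

end

end Pool.Agent.K3h81.RB
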