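import Pool.Agent.K3h81.RB.Lim2
import Pool.Agent.K3h81.RB.Up2

/-!
# The smallest missing prime
-/

set_option autoImplicit false

namespace Pool.Agent.K3h81.RB

open Filter Topology
open Nat (primesLE)

noncomputable section

/-- an exception which is not divisible by a small prime -/
theorem div_f {b : ℝ} (hb0 : 0 < b) (hb1 : b < 1) :
    ∀ᶠ N : ℕ in atTop, 2 * (N : ℝ) ^ (b - 1) < JJ N →
      ∃ n p : ℕ, Ef n ∧ (N : ℝ) / 4 ≤ Real.log n ∧ p.Prime ∧ (p : ℝ) ≤ 4 * (N : ℝ) ^ (1 - b) ∧ ¬ p ∣ n := by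
  obtain ⟨C1, hC1, hr⟩ := rough
  filter_upwards [hr, ev_pow_nat 4 (show 1 - b < 1 by linarith), ev_log_nat 4 (show (0 : ℝ) < 1 by norm_num),
    eventually_ge_atTop 8] with N hN1 hN4 hN5 d0 hJ
  obtain ⟨r1, r2, r3, r4, r5⟩ := hN1
  have hN6 : (8 : ℝ) ≤ N := by exact_mod_cast d0
  have hN0 : (0 : ℝ) < N := by linarith
  rw [Real.rpow_one] at hN4
  rw [Real.rpow_zero, one_mul, Real.rpow_one] at hN5
  set y : ℝ := (N : ℝ) ^ (1 - b) with hy
  have hy1 : 1 ≤ y := Real.one_le_rpow (by linarith) (by linarith)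
  set m : ℕ := ⌈y⌉₊ with hm
  have hmy : y ≤ m := Nat.le_ceil y
  have hmy' : (m : ℝ) < y + 1 := Nat.ceil_lt_add_one (by linarith)
  have hm0 : m ≠ 0 := by
    intro h
    rw [h] at hmy
    norm_num at hmy
    linarith
  obtain ⟨p, hp, hmp, hp2⟩ := Nat.exists_prime_lt_and_le_two_mul m hm0
  have hp2' : (p : ℝ) ≤ 4 * y := by
    have : (p : ℝ) ≤ 2 * m := by exact_mod_cast hp2
    linarith
  have hpN' : (p : ℝ) ≤ N := by linarith
  have hpN : p ≤ N := by exact_mod_cast hpN'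
  have hmem : p ∈ primesLE N := Nat.mem_primesLE.2 ⟨hpN, hp⟩
  have hT : ({p} : Finset ℕ) ⊆ primesLE N := Finset.singleton_subset_iff.2 hmem
  have hlm := log_mT hT
  rw [Finset.sum_singleton] at hlm
  have hp1 : (1 : ℝ) < p := by exact_mod_cast hp.one_lt
  have hplog : Real.log p ≤ Real.log N := Real.log_le_log (by linarith) hpN'
  have hplog0 : 0 ≤ Real.log p := Real.log_nonneg hp1.le
  have hlow : (N : ℝ) / 4 ≤ Real.log (mT N {p}) := by
    rw [hlm]
    linarith
  refine ⟨mT N {p}, p, ?_, hlow, hp, hp2', ?_⟩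
  · refine crit_f (by omega) hT (by linarith) ?_
    rw [Finset.sum_singleton, Finset.sum_singleton]
    have hden : 0 < Chebyshev.theta N * Real.log (Chebyshev.theta N) := by linarith
    have h2 : -Real.log p / (Chebyshev.theta N * Real.log (Chebyshev.theta N)) ≤ 0 :=
      div_nonpos_of_nonpos_of_nonneg (by linarith) hden.le
    have h4 : vv p ≤ (N : ℝ) ^ (b - 1) := by
      have e : (N : ℝ) ^ (b - 1) = 1 / y := by
        rw [hy, one_div, ← Real.rpow_neg hN0.le]
        congr 1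
        ring
      rw [e]
      refine (vv_upper hp1).trans ?_
      apply one_div_le_one_div_of_le (by linarith)
      have : (m : ℝ) + 1 ≤ p := by exact_mod_cast hmp
      linarith
    have h5 : 0 < (N : ℝ) ^ (b - 1) := by positivity
    linarith
  · intro hdvd
    have : p ∈ (mT N {p}).primeFactors := Nat.mem_primeFactors.2 ⟨hp, hdvd, mT_ne⟩
    rw [mT_pf] at this
    simp at this

/-- the smallest prime which does not divide some exception `n ≥ y` -/
def mis (y : ℝ) : ℕ := sInf {q : ℕ | q.Prime ∧ ∃ n : ℕ, Ef n ∧ y ≤ n ∧ ¬ q ∣ n}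

/-- the upper bound -/
theorem mis_up (ε : ℝ) (hε : 0 < ε) : ∀ᶠ y : ℝ in atTop,
    (∃ q : ℕ, q.Prime ∧ ∃ n : ℕ, Ef n ∧ y ≤ n ∧ ¬ q ∣ n) ∧ (mis y : ℝ) ≤ Real.log y ^ (1 - Th + ε) := by
  have hTh := Th_ge
  have hTh1 := Th_le
  set e : ℝ := min ε (1 / 4) with he
  have he0 : 0 < e := lt_min hε (by norm_num)
  have he1 : e ≤ ε := min_le_left _ _
  have he2 : e ≤ 1 / 4 := min_le_right _ _
  set b : ℝ := Th - e / 4 with hb
  have hb0 : 0 < b := by rw [hb]; linarith
  have hb1 : b < 1 := by rw [hb]; linarith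
  obtain ⟨ρ, hρ, hρb⟩ := exists_zero_gt (b := b) (by rw [hb]; linarith)
  set δ : ℝ := e / 4 with hδ
  have hw := JJ_window hb0 hρ hρb (C := 2) (by norm_num) (δ := δ) (by linarith) (by linarith)
  obtain ⟨N0, hN0⟩ := eventually_atTop.1 (div_f hb0 hb1)
  set r : ℝ := 1 / (1 - δ) with hr
  have h1δ : 0 < 1 - δ := by linarith
  have hr0 : 0 < r := by positivity
  have hX : Tendsto (fun y : ℝ => (4 * Real.log y) ^ r) atTop atTop :=
    (tendsto_rpow_atTop hr0).comp (Real.tendsto_log_atTop.const_mul_atTop (by norm_num))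
  -- the exponent
  have hexp : (1 - b) * r < 1 - Th + ε := by
    rw [hr, mul_one_div, div_lt_iff₀ h1δ, hb, hδ]
    nlinarith
  have hK := Real.tendsto_log_atTop.eventually (ev_pow (4 * 4 ^ ((1 - b) * r)) hexp)
  filter_upwards [hX.eventually hw, Real.tendsto_log_atTop.eventually_ge_atTop (max 1 (N0 : ℝ)), hK,
    eventually_gt_atTop (0 : ℝ)] with y hy1 hy2 hy3 hy0
  obtain ⟨N, n1, n2, n3⟩ := hy1
  have hl1 : 1 ≤ Real.log y := (le_max_left _ _).trans hy2
  have hl2 : (N0 : ℝ) ≤ Real.log y := (le_max_right _ _).trans hy2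
  have e1 : ((4 * Real.log y) ^ r) ^ (1 - δ) = 4 * Real.log y := by
    rw [← Real.rpow_mul (by positivity), hr, one_div_mul_cancel h1δ.ne', Real.rpow_one]
  rw [e1] at n1
  have hNN : N0 ≤ N := by
    have : (N0 : ℝ) ≤ N := by linarith
    exact_mod_cast this
  obtain ⟨n, p, p1, p2, p3, p4, p5⟩ := hN0 N hNN n3
  have hn0 : (0 : ℝ) < n := by
    rcases Nat.eq_zero_or_pos n with h | h
    · exfalso
      rw [h, Nat.cast_zero, Real.log_zero] at p2
      linarith
    · exact_mod_cast h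
  have hyn : y ≤ n := by
    rw [← Real.log_le_log_iff hy0 hn0]
    linarith
  have hmem : p ∈ {q : ℕ | q.Prime ∧ ∃ n : ℕ, Ef n ∧ y ≤ n ∧ ¬ q ∣ n} := ⟨p3, n, p1, hyn, p5⟩
  refine ⟨⟨p, hmem⟩, ?_⟩
  have h1 : (mis y : ℝ) ≤ p := by exact_mod_cast Nat.sInf_le hmem
  have hNpos : (0 : ℝ) < N := by linarith
  refine h1.trans (p4.trans ?_)
  calc 4 * (N : ℝ) ^ (1 - b) ≤ 4 * ((4 * Real.log y) ^ r) ^ (1 - b) := by
        have : (N : ℝ) ^ (1 - b) ≤ ((4 * Real.log y) ^ r) ^ (1 - b) :=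
          Real.rpow_le_rpow hNpos.le n2 (by linarith)
        linarith
    _ = 4 * 4 ^ ((1 - b) * r) * Real.log y ^ ((1 - b) * r) := by
        rw [← Real.rpow_mul (by positivity), Real.mul_rpow (by norm_num) (by linarith), mul_comm r]
        ring
    _ ≤ _ := hy3

/-- from divisibility to the smallest missing prime -/
lemma mis_ge {y B : ℝ} (hne : ∃ q : ℕ, q.Prime ∧ ∃ n : ℕ, Ef n ∧ y ≤ n ∧ ¬ q ∣ n)
    (h : ∀ n : ℕ, y ≤ n → Ef n → ∀ q : ℕ, q.Prime → (q : ℝ) ≤ B → q ∣ n) : B ≤ mis y := by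
  have hm : mis y ∈ {q : ℕ | q.Prime ∧ ∃ n : ℕ, Ef n ∧ y ≤ n ∧ ¬ q ∣ n} := Nat.sInf_mem hne
  obtain ⟨h1, n, h2, h3, h4⟩ := hm
  by_contra hcon
  push Not at hcon
  exact h4 (h n h3 h2 _ h1 hcon.le)

/-- the lower bound -/
theorem mis_low (ε : ℝ) (hε : 0 < ε) : ∀ᶠ y : ℝ in atTop, Real.log y ^ (1 - Th - ε) ≤ mis y := by
  have hTh := Th_ge
  rcases le_or_gt (1 - Th - ε) 0 with hneg | hpos
  · filter_upwards [mis_up 1 one_pos, Real.tendsto_log_atTop.eventually_ge_atTop 1] with y hy hl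
    have h1 : Real.log y ^ (1 - Th - ε) ≤ 1 := Real.rpow_le_one_of_one_le_of_nonpos hl hneg
    have hm : mis y ∈ {q : ℕ | q.Prime ∧ ∃ n : ℕ, Ef n ∧ y ≤ n ∧ ¬ q ∣ n} := Nat.sInf_mem hy.1
    have h2 : (1 : ℝ) ≤ mis y := by exact_mod_cast hm.1.one_lt.le
    linarith
  · have hTh1 : Th < 1 := by linarith
    set Θ : ℝ := Th + min (ε / 2) ((1 - Th) / 2) with hΘ
    have hm1 : min (ε / 2) ((1 - Th) / 2) ≤ ε / 2 := min_le_left _ _
    have hm2 : min (ε / 2) ((1 - Th) / 2) ≤ (1 - Th) / 2 := min_le_right _ _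
    have hm3 : 0 < min (ε / 2) ((1 - Th) / 2) := lt_min (by linarith) (by linarith)
    obtain ⟨C, hC⟩ := free_Rr (θ := Th) (Θ := Θ) hTh Th_free (by rw [hΘ]; linarith) (by rw [hΘ]; linarith)
    have hC0 : 0 ≤ C := by
      have := (abs_nonneg _).trans (hC 1 le_rfl)
      simpa using this
    have h1Θ : 0 < 1 - Θ := by rw [hΘ]; linarith
    set CD := 3 * C + 2 * C / (1 - Θ) with hCD
    have hCD0 : 0 ≤ CD := by positivity
    have h1 := Real.tendsto_log_atTop.eventually (ev_pow (a := Θ - Th - ε) (c := 0) (2 * (CD + 1)) (by rw [hΘ]; linarith))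
    obtain ⟨x0, hx0⟩ := eventually_atTop.1 (h1.and (Real.tendsto_log_atTop.eventually_ge_atTop 3))
    filter_upwards [mis_up 1 one_pos, eventually_ge_atTop x0, Real.tendsto_log_atTop.eventually_ge_atTop 3,
      eventually_gt_atTop (0 : ℝ)] with y hy hyx0 hly hy0
    refine mis_ge hy.1 fun n hn hE q hq hqB => ?_
    obtain ⟨a1, a2⟩ := hx0 n (hyx0.trans hn)
    set L := Real.log n with hL
    have hL0 : 0 < L := by linarith
    rw [Real.rpow_zero] at a1
    have hD := D_pow (by linarith : Θ < 1) hC a2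
    have hlyL : Real.log y ≤ L := Real.log_le_log hy0 hn
    refine prime_dvd_of hL (by linarith) hE hD hq ?_
    have h2 : 1 / L ≤ L ^ (Θ - 1) := by
      rw [one_div, ← Real.rpow_neg_one]
      exact Real.rpow_le_rpow_of_exponent_le (by linarith) (by rw [hΘ]; linarith)
    have h4 : (q : ℝ) ≤ L ^ (1 - Th - ε) := hqB.trans (Real.rpow_le_rpow (by linarith) hlyL hpos.le)
    have h3 : (q : ℝ) * (CD * L ^ (Θ - 1) + 1 / L) ≤ (CD + 1) * L ^ (Θ - Th - ε) := by
      calc (q : ℝ) * (CD * L ^ (Θ - 1) + 1 / L) ≤ L ^ (1 - Th - ε) * (CD * L ^ (Θ - 1) + L ^ (Θ - 1)) := by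
            gcongr
        _ = (CD + 1) * (L ^ (1 - Th - ε) * L ^ (Θ - 1)) := by ring
        _ = _ := by
            rw [← Real.rpow_add hL0]
            congr 2
            ring
    linarith

/-- the unconditional lower bound -/
theorem mis_low_exp : ∃ c : ℝ, 0 < c ∧ ∀ᶠ y : ℝ in atTop, Real.exp (c * √(Real.log (Real.log y))) ≤ mis y := by
  obtain ⟨c, C, hc, hC0, hC⟩ := psi_classical
  refine ⟨c / 2, by positivity, ?_⟩
  set CD := 3 * C + 4 * C / c with hCD
  have hCD0 : 0 < CD := by positivity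
  have hll : Tendsto (fun y : ℝ => √(Real.log (Real.log y))) atTop atTop :=
    Real.tendsto_sqrt_atTop.comp (Real.tendsto_log_atTop.comp Real.tendsto_log_atTop)
  filter_upwards [mis_up 1 one_pos, Real.tendsto_log_atTop.eventually_ge_atTop 3,
    hll.eventually_ge_atTop (c + 2 / c * (CD + 2)), eventually_gt_atTop (0 : ℝ)] with y hy hly hsy hy0
  refine mis_ge hy.1 fun n hn hE q hq hqB => ?_
  set L := Real.log n with hL
  have hlyL : Real.log y ≤ L := Real.log_le_log hy0 hn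
  have hL3 : 3 ≤ L := hly.trans hlyL
  have hL0 : 0 < L := by linarith
  have hl1 := one_le_log hL3
  have hly0 : 0 < Real.log y := by linarith
  have hlly : Real.log (Real.log y) ≤ Real.log L := Real.log_le_log hly0 hlyL
  have hsle : √(Real.log (Real.log y)) ≤ √(Real.log L) := Real.sqrt_le_sqrt hlly
  set ℓ := Real.log L with hℓ
  set s := √ℓ with hsd
  have hs : c + 2 / c * (CD + 2) ≤ s := hsy.trans hsle
  have hss : s * s = ℓ := Real.mul_self_sqrt (by linarith)
  have h2c : 0 < 2 / c * (CD + 2) := by positivity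
  have hsc : c ≤ s := by linarith
  have hs2 : CD + 2 ≤ c / 2 * s := by
    have h1 : 2 / c * (CD + 2) ≤ s := by linarith
    calc CD + 2 = c / 2 * (2 / c * (CD + 2)) := by field_simp
      _ ≤ c / 2 * s := by gcongr
  have hD := D_exp hc hC0 hC hL3
  rw [← hℓ] at hD
  refine prime_dvd_of hL (by linarith) hE hD hq ?_
  have h2 : 1 / L ≤ Real.exp (-(c * s)) := by
    have e : 1 / L = Real.exp (-ℓ) := by rw [hℓ, Real.exp_neg, Real.exp_log hL0, one_div]
    rw [e]
    apply Real.exp_le_exp.2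
    nlinarith
  have hk1 : (q : ℝ) ≤ Real.exp (c / 2 * s) := by
    refine hqB.trans (Real.exp_le_exp.2 ?_)
    exact mul_le_mul_of_nonneg_left hsle (by positivity)
  calc (q : ℝ) * (CD * Real.exp (-(c * s)) + 1 / L) ≤
      Real.exp (c / 2 * s) * (CD * Real.exp (-(c * s)) + Real.exp (-(c * s))) := by gcongr
    _ = (CD + 1) * (Real.exp (c / 2 * s) * Real.exp (-(c * s))) := by ring
    _ = (CD + 1) * Real.exp (-(c / 2 * s)) := by
        rw [← Real.exp_add]
        congr 2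
        ring
    _ < 1 := by
        rw [Real.exp_neg, ← div_eq_mul_inv, div_lt_one (Real.exp_pos _)]
        have := Real.add_one_le_exp (c / 2 * s)
        linarith

/-- **The smallest missing prime.** -/
theorem mis_lim : Tendsto (fun y : ℝ => Real.log (mis y) / Real.log (Real.log y)) atTop (𝓝 (1 - Th)) := by
  rw [Metric.tendsto_atTop']
  intro ε hε
  have hev : ∀ᶠ y : ℝ in atTop, dist (Real.log (mis y) / Real.log (Real.log y)) (1 - Th) < ε := by
    filter_upwards [mis_up (ε / 2) (by linarith), mis_low (ε / 2) (by linarith),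
      Real.tendsto_log_atTop.eventually_ge_atTop 1,
      (Real.tendsto_log_atTop.comp Real.tendsto_log_atTop).eventually_ge_atTop 1] with y h1 h2 h3 h4
    have h4' : 1 ≤ Real.log (Real.log y) := h4
    have hl0 : 0 < Real.log y := by linarith
    have hm0 : (0 : ℝ) < mis y := (Real.rpow_pos_of_pos hl0 _).trans_le h2
    have a1 : Real.log (mis y) / Real.log (Real.log y) ≤ 1 - Th + ε / 2 := by
      rw [div_le_iff₀ (by linarith)]
      have := Real.log_le_log hm0 h1.2
      rwa [Real.log_rpow hl0] at this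
    have a2 : 1 - Th - ε / 2 ≤ Real.log (mis y) / Real.log (Real.log y) := by
      rw [le_div_iff₀ (by linarith)]
      have := Real.log_le_log (by positivity) h2
      rwa [Real.log_rpow hl0] at this
    rw [Real.dist_eq, abs_lt]
    constructor <;> linarith
  obtain ⟨x0, hx0⟩ := eventually_atTop.1 hev
  exact ⟨x0, fun x hx => hx0 x hx.le⟩

end

end Pool.Agent.K3h81.RB
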