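import Pool.Agent.K3h81.RB.Nea2
import Pool.Agent.K3h81.RB.Mis

/-!
# The smallest prime missing from the near-large integers
-/

set_option autoImplicit false

namespace Pool.Agent.K3h81.RB

open Filter Topology
open Nat (primesLE)

noncomputable section

/-- the smallest prime which does not divide some `n ≥ y` with
`n / φ(n) ≥ e^γ log log n (1 - (log n)^(-β))` -/
def misb (β y : ℝ) : ℕ := sInf {q : ℕ | q.Prime ∧ ∃ n : ℕ, Efb β n ∧ y ≤ n ∧ ¬ q ∣ n}

/-- a near-large integer which is not divisible by a small prime -/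
theorem divb_f {a Θ C β : ℝ} (hβ : 0 < β) (hβa : β < a) (ha : a < 1) (hΘ0 : 0 ≤ Θ) (hΘ1 : Θ < 1)
    (hΘβ : Θ < 1 - β) (hC : ∀ t : ℝ, 1 ≤ t → |Rr t| ≤ C * t ^ Θ) :
    ∀ᶠ N : ℕ in atTop, ∃ n p : ℕ, Efb β n ∧ (N : ℝ) / 4 ≤ Real.log n ∧ p.Prime ∧
      (p : ℝ) ≤ 4 * (N : ℝ) ^ a ∧ ¬ p ∣ n := by
  obtain ⟨C1, hC1, hr⟩ := rough
  filter_upwards [hr, ev_pow_nat 4 ha, ev_log_nat 4 (show (0 : ℝ) < 1 by norm_num),
    ev_pow_nat 4 (show -a < -β by linarith), JJ_ge hΘ1 hC hΘ0 hΘβ,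
    eventually_ge_atTop 8] with N hN1 hN4 hN5 hN7 hJ d0
  obtain ⟨r1, r2, r3, r4, r5⟩ := hN1
  have hN6 : (8 : ℝ) ≤ N := by exact_mod_cast d0
  have hN0 : (0 : ℝ) < N := by linarith
  rw [Real.rpow_one] at hN4
  rw [Real.rpow_zero, one_mul, Real.rpow_one] at hN5
  set y : ℝ := (N : ℝ) ^ a with hy
  have hy1 : 1 ≤ y := Real.one_le_rpow (by linarith) (by linarith)
  set m : ℕ := ⌈y⌉₊ with hm
  have hmy : y ≤ m := Nat.le_ceil y
  have hmy' : (m : ℝ) < y + 1 := Nat.ceil_lt_add_one (by linarith)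
  have hm0 : m ≠ 0 := by
    intro h
    rw [h] at hmy
    norm_num at hmy
    linarith
  obtain ⟨p, hp, hmp, hp2⟩ := Nat.exists_prime_lt_and_le_two_mul m hm0
  have hp2' : (p : ℝ) ≤ 4 * y := by
    have : (p : ℝ) ≤ 2 * m := by exact_mod_cast hp2
    linarith
  have hpN' : (p : ℝ) ≤ N := by linarith
  have hpN : p ≤ N := by exact_mod_cast hpN'
  have hmem : p ∈ primesLE N := Nat.mem_primesLE.2 ⟨hpN, hp⟩
  have hT : ({p} : Finset ℕ) ⊆ primesLE N := Finset.singleton_subset_iff.2 hmem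
  have hlm := log_mT hT
  rw [Finset.sum_singleton] at hlm
  have hp1 : (1 : ℝ) < p := by exact_mod_cast hp.one_lt
  have hplog : Real.log p ≤ Real.log N := Real.log_le_log (by linarith) hpN'
  have hplog0 : 0 ≤ Real.log p := Real.log_nonneg hp1.le
  have hlow : (N : ℝ) / 4 ≤ Real.log (mT N {p}) := by
    rw [hlm]
    linarith
  have hpt := Chebyshev.theta_le_psi N
  have hL1 : 1 < Real.log (mT N {p}) := by linarith
  have hL2 : Real.log (mT N {p}) ≤ 2 * N := by rw [hlm]; linarith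
  refine ⟨mT N {p}, p, ?_, hlow, hp, hp2', ?_⟩
  · refine crit_fb hβ (by omega) hT hL1 ?_
    rw [Finset.sum_singleton, Finset.sum_singleton]
    have hslack : Real.log (1 - Real.log (mT N {p}) ^ (-β)) ≤ -((N : ℝ) ^ (-β) / 2) := by
      have h1 := Real.log_le_sub_one_of_pos (fac_pos hL1 hβ)
      have h2 : (2 * (N : ℝ)) ^ (-β) ≤ Real.log (mT N {p}) ^ (-β) :=
        Real.rpow_le_rpow_of_nonpos (by linarith) hL2 (by linarith)
      have h3 : (2 * (N : ℝ)) ^ (-β) = (2 : ℝ) ^ (-β) * (N : ℝ) ^ (-β) :=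
        Real.mul_rpow (by norm_num) hN0.le
      have h4 : (1 / 2 : ℝ) ≤ (2 : ℝ) ^ (-β) := by
        have : (2 : ℝ) ^ (-1 : ℝ) ≤ (2 : ℝ) ^ (-β) :=
          Real.rpow_le_rpow_of_exponent_le (by norm_num) (by linarith)
        rw [Real.rpow_neg_one] at this
        linarith
      have h5 : 0 ≤ (N : ℝ) ^ (-β) := Real.rpow_nonneg hN0.le _
      have h6 := mul_le_mul_of_nonneg_right h4 h5
      linarith
    have hden : 0 < Chebyshev.theta N * Real.log (Chebyshev.theta N) := by linarith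
    have h2 : -Real.log p / (Chebyshev.theta N * Real.log (Chebyshev.theta N)) ≤ 0 :=
      div_nonpos_of_nonpos_of_nonneg (by linarith) hden.le
    have h4 : vv p ≤ (N : ℝ) ^ (-a) := by
      have e : (N : ℝ) ^ (-a) = 1 / y := by
        rw [hy, one_div, ← Real.rpow_neg hN0.le]
      rw [e]
      refine (vv_upper hp1).trans ?_
      apply one_div_le_one_div_of_le (by linarith)
      have : (m : ℝ) + 1 ≤ p := by exact_mod_cast hmp
      linarith
    linarith
  · intro hdvd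
    have : p ∈ (mT N {p}).primeFactors := Nat.mem_primeFactors.2 ⟨hp, hdvd, mT_ne⟩
    rw [mT_pf] at this
    simp at this

/-- the upper bound -/
theorem misb_up {β : ℝ} (h0 : 0 < β) (h1 : β ≤ 1) (ε : ℝ) (hε : 0 < ε) : ∀ᶠ y : ℝ in atTop,
    (∃ q : ℕ, q.Prime ∧ ∃ n : ℕ, Efb β n ∧ y ≤ n ∧ ¬ q ∣ n) ∧
      (misb β y : ℝ) ≤ Real.log y ^ (min β (1 - Th) + ε) := by
  rcases lt_or_ge β (1 - Th) with h | h
  · rw [min_eq_left h.le]
    have hT := Th_ge
    set e : ℝ := min (ε / 2) ((1 - β) / 2) with he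
    have e0 : 0 < e := lt_min (by linarith) (by linarith)
    have e1 : e ≤ ε / 2 := min_le_left _ _
    have e2 : e ≤ (1 - β) / 2 := min_le_right _ _
    set Θ : ℝ := (Th + (1 - β)) / 2 with hΘ
    have t1 : Th < Θ := by rw [hΘ]; linarith
    have t2 : Θ < 1 - β := by rw [hΘ]; linarith
    obtain ⟨C, hC⟩ := free_Rr Th_ge Th_free t1 (by linarith)
    obtain ⟨N0, hN0⟩ := eventually_atTop.1 (divb_f (a := β + e) h0 (by linarith) (by linarith)
      (by linarith) (by linarith) t2 hC)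
    have hK := Real.tendsto_log_atTop.eventually
      (ev_pow (4 * 5 ^ (β + e)) (show β + e < β + ε by linarith))
    filter_upwards [Real.tendsto_log_atTop.eventually_ge_atTop (max 1 (N0 : ℝ)), hK,
      eventually_gt_atTop (0 : ℝ)] with y hy2 hy3 hy0
    have hl1 : 1 ≤ Real.log y := (le_max_left _ _).trans hy2
    have hl2 : (N0 : ℝ) ≤ Real.log y := (le_max_right _ _).trans hy2
    set N := ⌈4 * Real.log y⌉₊ with hN
    have n1 : 4 * Real.log y ≤ N := Nat.le_ceil _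
    have n2 : (N : ℝ) < 4 * Real.log y + 1 := Nat.ceil_lt_add_one (by linarith)
    have n3 : (N : ℝ) ≤ 5 * Real.log y := by linarith
    have hNN : N0 ≤ N := by
      have : (N0 : ℝ) ≤ N := by linarith
      exact_mod_cast this
    obtain ⟨n, p, p1, p2, p3, p4, p5⟩ := hN0 N hNN
    have hn0 : (0 : ℝ) < n := by
      rcases Nat.eq_zero_or_pos n with h | h
      · exfalso
        rw [h, Nat.cast_zero, Real.log_zero] at p2
        linarith
      · exact_mod_cast h
    have hyn : y ≤ n := by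
      rw [← Real.log_le_log_iff hy0 hn0]
      linarith
    have hmem : p ∈ {q : ℕ | q.Prime ∧ ∃ n : ℕ, Efb β n ∧ y ≤ n ∧ ¬ q ∣ n} := ⟨p3, n, p1, hyn, p5⟩
    refine ⟨⟨p, hmem⟩, ?_⟩
    have h3 : (misb β y : ℝ) ≤ p := by exact_mod_cast Nat.sInf_le hmem
    refine h3.trans (p4.trans ?_)
    calc 4 * (N : ℝ) ^ (β + e) ≤ 4 * (5 * Real.log y) ^ (β + e) := by
          have := Real.rpow_le_rpow (Nat.cast_nonneg N) n3 (show 0 ≤ β + e by linarith)
          linarith
      _ = 4 * 5 ^ (β + e) * Real.log y ^ (β + e) := by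
          rw [Real.mul_rpow (by norm_num) (by linarith)]
          ring
      _ ≤ _ := hy3
  · rw [min_eq_right h]
    filter_upwards [mis_up ε hε, eventually_ge_atTop 1] with y hy hy1
    obtain ⟨⟨q, hq⟩, h3⟩ := hy
    have hsub : ∀ q : ℕ, (q.Prime ∧ ∃ n : ℕ, Ef n ∧ y ≤ n ∧ ¬ q ∣ n) →
        (q.Prime ∧ ∃ n : ℕ, Efb β n ∧ y ≤ n ∧ ¬ q ∣ n) := by
      rintro q ⟨a, n, b, c, d⟩
      have hn : 1 ≤ n := by
        have : (1 : ℝ) ≤ n := hy1.trans c
        exact_mod_cast this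
      exact ⟨a, n, Efb_of_Ef' h0 h1 hn b, c, d⟩
    refine ⟨⟨q, hsub q hq⟩, ?_⟩
    have hm : mis y ∈ {q : ℕ | q.Prime ∧ ∃ n : ℕ, Ef n ∧ y ≤ n ∧ ¬ q ∣ n} := Nat.sInf_mem ⟨q, hq⟩
    have h4 : misb β y ≤ mis y := Nat.sInf_le (hsub _ hm)
    have h5 : (misb β y : ℝ) ≤ mis y := by exact_mod_cast h4
    exact h5.trans h3

/-- the primes which divide a near-large integer -/
theorem prime_dvd_ofb {β : ℝ} (hβ : 0 < β) {n p : ℕ} {L D : ℝ} (hL : L = Real.log n) (hL2 : 2 ≤ L)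
    (hy : L ^ (-β) ≤ 1 / 2) (hE : Efb β n)
    (hD : VS L - Real.eulerMascheroniConstant - Real.log (Real.log L) +
      vv L / Real.log L * (L - Chebyshev.theta L) ≤ D) (hp : p.Prime)
    (hm : (p : ℝ) * (D + 2 * L ^ (-β) + 1 / L) < 1) : p ∣ n := by
  have hn : n ≠ 0 := by
    rintro rfl
    rw [Nat.cast_zero, Real.log_zero] at hL
    linarith
  have hL0 : 0 < L := by linarith
  have hL1 : 1 < Real.log n := by rw [← hL]; linarith
  have hE1 := (Efb_iff hβ hL1).1 hE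
  rw [← hL] at hE1
  have hlog := log_sub_lower (Real.rpow_nonneg hL0.le (-β)) hy
  by_contra hpn
  have hp1 : (1 : ℝ) < p := by exact_mod_cast hp.one_lt
  have hnonneg : ∀ q ∈ Miss n L, 0 ≤ (L - q) / (q * L) := by
    intro q hq
    simp only [Miss, Finset.mem_filter, Finset.mem_Icc] at hq
    have a : (0 : ℝ) < q := by exact_mod_cast hq.1.1.1
    have b := (Nat.le_floor_iff hL0.le).1 hq.1.1.2
    have : 0 ≤ L - q := by linarith
    positivity
  have h2 := str (b := -(2 * L ^ (-β))) hn hL hL2 (by linarith) hD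
  have hkey : 1 / (p : ℝ) ≤ D + 2 * L ^ (-β) + 1 / L := by
    rcases le_or_gt (p : ℝ) L with hpL | hpL
    · have hmem : p ∈ Miss n L := by
        simp only [Miss, Finset.mem_filter, Finset.mem_Icc]
        exact ⟨⟨⟨hp.one_lt.le, Nat.le_floor hpL⟩, hp⟩, hpn⟩
      have h3 := Finset.single_le_sum hnonneg hmem
      have h5 : (L - p) / (p * L) = 1 / (p : ℝ) - 1 / L := by
        have : (p : ℝ) ≠ 0 := by linarith
        field_simp
      rw [h5] at h3
      linarith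
    · have h3 := Finset.sum_nonneg hnonneg
      have h6 : 1 / (p : ℝ) ≤ 1 / L := one_div_le_one_div_of_le hL0 hpL.le
      linarith
  rw [div_le_iff₀ (by linarith)] at hkey
  linarith

/-- from divisibility to the smallest missing prime -/
lemma misb_ge {β y B : ℝ} (hne : ∃ q : ℕ, q.Prime ∧ ∃ n : ℕ, Efb β n ∧ y ≤ n ∧ ¬ q ∣ n)
    (h : ∀ n : ℕ, y ≤ n → Efb β n → ∀ q : ℕ, q.Prime → (q : ℝ) ≤ B → q ∣ n) : B ≤ misb β y := by
  have hm : misb β y ∈ {q : ℕ | q.Prime ∧ ∃ n : ℕ, Efb β n ∧ y ≤ n ∧ ¬ q ∣ n} := Nat.sInf_mem hne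
  obtain ⟨h1, n, h2, h3, h4⟩ := hm
  by_contra hcon
  push Not at hcon
  exact h4 (h n h3 h2 _ h1 hcon.le)

/-- the lower bound -/
theorem misb_low {β : ℝ} (h0 : 0 < β) (h1 : β ≤ 1) (ε : ℝ) (hε : 0 < ε) :
    ∀ᶠ y : ℝ in atTop, Real.log y ^ (min β (1 - Th) - ε) ≤ misb β y := by
  have hTh := Th_ge
  have hm1 : min β (1 - Th) ≤ β := min_le_left _ _
  have hm2 : min β (1 - Th) ≤ 1 - Th := min_le_right _ _
  rcases le_or_gt (min β (1 - Th) - ε) 0 with hneg | hpos
  · filter_upwards [misb_up h0 h1 1 one_pos, Real.tendsto_log_atTop.eventually_ge_atTop 1] with y hy hl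
    have h1 : Real.log y ^ (min β (1 - Th) - ε) ≤ 1 := Real.rpow_le_one_of_one_le_of_nonpos hl hneg
    have hm : misb β y ∈ {q : ℕ | q.Prime ∧ ∃ n : ℕ, Efb β n ∧ y ≤ n ∧ ¬ q ∣ n} := Nat.sInf_mem hy.1
    have h2 : (1 : ℝ) ≤ misb β y := by exact_mod_cast hm.1.one_lt.le
    linarith
  · have hTh1 : Th < 1 := by linarith
    set c0 : ℝ := min β (1 - Th) - ε with hc0
    set Θ : ℝ := Th + min (ε / 2) ((1 - Th) / 2) with hΘ
    have hm1' : min (ε / 2) ((1 - Th) / 2) ≤ ε / 2 := min_le_left _ _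
    have hm2' : min (ε / 2) ((1 - Th) / 2) ≤ (1 - Th) / 2 := min_le_right _ _
    have hm3 : 0 < min (ε / 2) ((1 - Th) / 2) := lt_min (by linarith) (by linarith)
    obtain ⟨C, hC⟩ := free_Rr (θ := Th) (Θ := Θ) hTh Th_free (by rw [hΘ]; linarith) (by rw [hΘ]; linarith)
    have hC0 : 0 ≤ C := by
      have := (abs_nonneg _).trans (hC 1 le_rfl)
      simpa using this
    have h1Θ : 0 < 1 - Θ := by rw [hΘ]; linarith
    set CD := 3 * C + 2 * C / (1 - Θ) with hCD
    have hCD0 : 0 ≤ CD := by positivity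
    have h2 := Real.tendsto_log_atTop.eventually
      (ev_pow (a := -(ε / 2)) (c := 0) (2 * (CD + 3)) (by linarith))
    have h3 : ∀ᶠ x : ℝ in atTop, Real.log x ^ (-β) ≤ 1 / 2 :=
      ((tendsto_rpow_neg_atTop h0).comp Real.tendsto_log_atTop).eventually (ge_mem_nhds (by norm_num))
    obtain ⟨x0, hx0⟩ := eventually_atTop.1
      (h2.and (h3.and (Real.tendsto_log_atTop.eventually_ge_atTop 3)))
    filter_upwards [misb_up h0 h1 1 one_pos, eventually_ge_atTop x0,
      Real.tendsto_log_atTop.eventually_ge_atTop 3, eventually_gt_atTop (0 : ℝ)] with y hy hyx0 hly hy0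
    refine misb_ge hy.1 fun n hn hE q hq hqB => ?_
    obtain ⟨a1, a2, a3⟩ := hx0 n (hyx0.trans hn)
    set L := Real.log n with hL
    have hL0 : 0 < L := by linarith
    rw [Real.rpow_zero] at a1
    have hD := D_pow (by linarith : Θ < 1) hC a3
    have hlyL : Real.log y ≤ L := Real.log_le_log hy0 hn
    refine prime_dvd_ofb h0 hL (by linarith) a2 hE hD hq ?_
    have h4 : (q : ℝ) ≤ L ^ c0 := hqB.trans (Real.rpow_le_rpow (by linarith) hlyL hpos.le)
    have hq0 : (0 : ℝ) ≤ q := Nat.cast_nonneg _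
    have k1 : L ^ c0 * L ^ (Θ - 1) ≤ L ^ (-(ε / 2)) := by
      rw [← Real.rpow_add hL0]
      exact Real.rpow_le_rpow_of_exponent_le (by linarith) (by rw [hc0, hΘ]; linarith)
    have k2 : L ^ c0 * L ^ (-β) ≤ L ^ (-(ε / 2)) := by
      rw [← Real.rpow_add hL0]
      exact Real.rpow_le_rpow_of_exponent_le (by linarith) (by rw [hc0]; linarith)
    have k3 : L ^ c0 * (1 / L) ≤ L ^ (-(ε / 2)) := by
      rw [one_div, ← Real.rpow_neg_one, ← Real.rpow_add hL0]
      exact Real.rpow_le_rpow_of_exponent_le (by linarith) (by rw [hc0]; linarith)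
    have hL' : 0 < L ^ (Θ - 1) := Real.rpow_pos_of_pos hL0 _
    have hL'' : 0 < L ^ (-β) := Real.rpow_pos_of_pos hL0 _
    have h5 : (q : ℝ) * (CD * L ^ (Θ - 1) + 2 * L ^ (-β) + 1 / L) ≤ (CD + 3) * L ^ (-(ε / 2)) := by
      calc (q : ℝ) * (CD * L ^ (Θ - 1) + 2 * L ^ (-β) + 1 / L)
          ≤ L ^ c0 * (CD * L ^ (Θ - 1) + 2 * L ^ (-β) + 1 / L) :=
            mul_le_mul_of_nonneg_right h4 (by positivity)
        _ = CD * (L ^ c0 * L ^ (Θ - 1)) + 2 * (L ^ c0 * L ^ (-β)) + L ^ c0 * (1 / L) := by ring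
        _ ≤ CD * L ^ (-(ε / 2)) + 2 * L ^ (-(ε / 2)) + L ^ (-(ε / 2)) := by gcongr
        _ = _ := by ring
    linarith

/-- **The smallest prime missing from the near-large integers.** -/
theorem misb_lim {β : ℝ} (h0 : 0 < β) (h1 : β ≤ 1) :
    Tendsto (fun y : ℝ => Real.log (misb β y) / Real.log (Real.log y)) atTop
      (𝓝 (min β (1 - Th))) := by
  rw [Metric.tendsto_atTop']
  intro ε hε
  have hev : ∀ᶠ y : ℝ in atTop,
      dist (Real.log (misb β y) / Real.log (Real.log y)) (min β (1 - Th)) < ε := by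
    filter_upwards [misb_up h0 h1 (ε / 2) (by linarith), misb_low h0 h1 (ε / 2) (by linarith),
      Real.tendsto_log_atTop.eventually_ge_atTop 1,
      (Real.tendsto_log_atTop.comp Real.tendsto_log_atTop).eventually_ge_atTop 1] with y h1 h2 h3 h4
    have h4' : 1 ≤ Real.log (Real.log y) := h4
    have hl0 : 0 < Real.log y := by linarith
    have hm0 : (0 : ℝ) < misb β y := (Real.rpow_pos_of_pos hl0 _).trans_le h2
    have a1 : Real.log (misb β y) / Real.log (Real.log y) ≤ min β (1 - Th) + ε / 2 := by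
      rw [div_le_iff₀ (by linarith)]
      have := Real.log_le_log hm0 h1.2
      rwa [Real.log_rpow hl0] at this
    have a2 : min β (1 - Th) - ε / 2 ≤ Real.log (misb β y) / Real.log (Real.log y) := by
      rw [le_div_iff₀ (by linarith)]
      have := Real.log_le_log (by positivity) h2
      rwa [Real.log_rpow hl0] at this
    rw [Real.dist_eq, abs_lt]
    constructor <;> linarith
  obtain ⟨x0, hx0⟩ := eventually_atTop.1 hev
  exact ⟨x0, fun x hx => hx0 x hx.le⟩

/-- the half-plane criterion -/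
theorem misb_crit {β : ℝ} (h0 : 0 < β) (h1 : β ≤ 1) :
    (∀ s : ℂ, 1 - β < s.re → riemannZeta s ≠ 0) ↔
      Tendsto (fun y : ℝ => Real.log (misb β y) / Real.log (Real.log y)) atTop (𝓝 β) := by
  constructor
  · intro h
    have h2 : Th ≤ 1 - β := by
      by_contra hcon
      push Not at hcon
      exact not_free_of_lt hcon h
    have h3 := misb_lim h0 h1
    rwa [min_eq_left (by linarith)] at h3
  · intro h s hs
    have h2 := tendsto_nhds_unique h (misb_lim h0 h1)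
    have h3 : β ≤ 1 - Th := by rw [h2]; exact (min_le_right _ _).trans_eq' rfl
    exact Th_free s (by linarith)

end

end Pool.Agent.K3h81.RB
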