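import Pool.Agent.K3h81.RB.Lim2
import Pool.Agent.K3h81.RB.Rh

/-!
# Near violations of Robin's inequality
-/

set_option autoImplicit false

namespace Pool.Agent.K3h81.RB

open Filter Topology
open Nat (primesLE)

noncomputable section

/-- `σ(n) ≥ e^γ n log log n (1 - (log n)^(-β))` -/
def Esb (β : ℝ) (n : ℕ) : Prop :=
  Real.exp Real.eulerMascheroniConstant * n * Real.log (Real.log n) * (1 - Real.log n ^ (-β)) ≤
    (ArithmeticFunction.sigma 1 n : ℕ)

/-- `n / φ(n) ≥ e^γ log log n (1 - (log n)^(-β))` -/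
def Efb (β : ℝ) (n : ℕ) : Prop :=
  Real.exp Real.eulerMascheroniConstant * (Nat.totient n) * Real.log (Real.log n) *
    (1 - Real.log n ^ (-β)) ≤ n

lemma fac_pos {L β : ℝ} (hL : 1 < L) (hβ : 0 < β) : 0 < 1 - L ^ (-β) := by
  have := Real.rpow_lt_one_of_one_lt_of_neg hL (neg_lt_zero.2 hβ)
  linarith

lemma fac_le {L β : ℝ} (hL : 1 < L) (hβ : 0 < β) : 1 - L ^ (-β) ≤ 1 := by
  have : 0 ≤ L ^ (-β) := Real.rpow_nonneg (by linarith) _
  linarith

lemma Esb_iff {β : ℝ} (hβ : 0 < β) {n : ℕ} (hL : 1 < Real.log n) : Esb β n ↔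
    Real.eulerMascheroniConstant + Real.log (Real.log (Real.log n)) +
      Real.log (1 - Real.log n ^ (-β)) ≤
      Real.log ((ArithmeticFunction.sigma 1 n : ℕ) / (n : ℝ)) := by
  have hn : n ≠ 0 := by
    rintro rfl
    norm_num at hL
  have hn0 : (0 : ℝ) < n := by exact_mod_cast Nat.pos_of_ne_zero hn
  have hu := fac_pos hL hβ
  have hs := sigma_pos hn
  have h := log_form (n := n) (A := n * (1 - Real.log n ^ (-β)))
    (B := ((ArithmeticFunction.sigma 1 n : ℕ) : ℝ)) hL (by positivity)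
  have e1 : Real.log (((ArithmeticFunction.sigma 1 n : ℕ) : ℝ) / (n * (1 - Real.log n ^ (-β)))) =
      Real.log ((ArithmeticFunction.sigma 1 n : ℕ) / (n : ℝ)) - Real.log (1 - Real.log n ^ (-β)) := by
    rw [← div_div, Real.log_div (by positivity) hu.ne']
  rw [e1] at h
  unfold Esb
  have e2 : Real.exp Real.eulerMascheroniConstant * n * Real.log (Real.log n) *
      (1 - Real.log n ^ (-β)) = Real.exp Real.eulerMascheroniConstant *
      (n * (1 - Real.log n ^ (-β))) * Real.log (Real.log n) := by ring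
  rw [e2, h]
  constructor
  · rintro ⟨-, h2⟩; linarith
  · intro h2; exact ⟨hs, by linarith⟩

lemma Efb_iff {β : ℝ} (hβ : 0 < β) {n : ℕ} (hL : 1 < Real.log n) : Efb β n ↔
    Real.eulerMascheroniConstant + Real.log (Real.log (Real.log n)) +
      Real.log (1 - Real.log n ^ (-β)) ≤ ∑ p ∈ n.primeFactors, vv p := by
  have hn : n ≠ 0 := by
    rintro rfl
    norm_num at hL
  have hn0 : (0 : ℝ) < n := by exact_mod_cast Nat.pos_of_ne_zero hn
  have hp0 : (0 : ℝ) < Nat.totient n := by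
    exact_mod_cast Nat.totient_pos.2 (Nat.pos_of_ne_zero hn)
  have hu := fac_pos hL hβ
  have h := log_form (n := n) (A := Nat.totient n * (1 - Real.log n ^ (-β)))
    (B := (n : ℝ)) hL (by positivity)
  have e1 : Real.log ((n : ℝ) / (Nat.totient n * (1 - Real.log n ^ (-β)))) =
      Real.log ((n : ℝ) / Nat.totient n) - Real.log (1 - Real.log n ^ (-β)) := by
    rw [← div_div, Real.log_div (by positivity) hu.ne']
  rw [e1, log_phi hn] at h
  unfold Efb
  have e2 : Real.exp Real.eulerMascheroniConstant * (Nat.totient n) * Real.log (Real.log n) *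
      (1 - Real.log n ^ (-β)) = Real.exp Real.eulerMascheroniConstant *
      (Nat.totient n * (1 - Real.log n ^ (-β))) * Real.log (Real.log n) := by ring
  rw [e2, h]
  constructor
  · rintro ⟨-, h2⟩; linarith
  · intro h2; exact ⟨hn0, by linarith⟩

lemma Efb_of_Esb {β : ℝ} (hβ : 0 < β) {n : ℕ} (hL : 1 < Real.log n) (h : Esb β n) : Efb β n := by
  have hn : n ≠ 0 := by
    rintro rfl
    norm_num at hL
  rw [Efb_iff hβ hL]
  exact ((Esb_iff hβ hL).1 h).trans (sigma_le_vv hn)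

lemma Esb_of_Es {β : ℝ} (hβ : 0 < β) {n : ℕ} (hL : 1 < Real.log n) (h : Es n) : Esb β n := by
  rw [Esb_iff hβ hL]
  have h1 := (Es_iff hL).1 h
  have h2 : Real.log (1 - Real.log n ^ (-β)) ≤ 0 :=
    Real.log_nonpos (fac_pos hL hβ).le (fac_le hL hβ)
  linarith

/-- the general upper bound -/
theorem count_leP {P : ℕ → Prop} {X x1 Φ : ℝ} (hx1 : 2 ≤ x1) (hX : x1 ≤ X)
    (hS : ∀ n : ℕ, x1 ≤ Real.log n → Real.log n ≤ X → P n →
      ((Miss n (Real.log n)).card : ℝ) * Real.log (Real.log n) ≤ Φ ∧ |Rr (Real.log n)| ≤ Φ) :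
    (cE P (Real.exp X) : ℝ) ≤ Real.exp x1 + (X + 1) * Real.exp (3 * Φ) := by
  classical
  set S : Finset ℕ := ((Finset.Icc 1 ⌊Real.exp X⌋₊).filter P).filter fun n => x1 ≤ Real.log n with hSd
  have h1 : (S.card : ℝ) ≤ (X + 1) * Real.exp (3 * Φ) := by
    refine count (by linarith) fun n hn => ?_
    simp only [hSd, Finset.mem_filter, Finset.mem_Icc] at hn
    obtain ⟨⟨⟨a, b⟩, c⟩, d⟩ := hn
    have hnX : Real.log n ≤ X := by
      rw [Real.log_le_iff_le_exp (by exact_mod_cast a)]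
      exact (Nat.le_floor_iff (Real.exp_pos _).le).1 b
    obtain ⟨e, f⟩ := hS n d hnX c
    exact ⟨by omega, by linarith, hnX, e, f⟩
  have h2 : (((Finset.Icc 1 ⌊Real.exp X⌋₊).filter P).filter fun n : ℕ => ¬ x1 ≤ Real.log n).card ≤
      ⌊Real.exp x1⌋₊ := by
    refine (Finset.card_le_card (t := Finset.Icc 1 ⌊Real.exp x1⌋₊) fun n hn => ?_).trans ?_
    · simp only [Finset.mem_filter, Finset.mem_Icc] at hn
      rw [Finset.mem_Icc]
      refine ⟨hn.1.1.1, ?_⟩
      rw [Nat.le_floor_iff (Real.exp_pos _).le]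
      have := not_le.1 hn.2
      rw [Real.log_lt_iff_lt_exp (by exact_mod_cast hn.1.1.1)] at this
      exact this.le
    · rw [Nat.card_Icc]; omega
  have h3 := Finset.card_filter_add_card_filter_not (s := (Finset.Icc 1 ⌊Real.exp X⌋₊).filter P)
    (fun n : ℕ => x1 ≤ Real.log n)
  have h4 : (cE P (Real.exp X) : ℝ) = (S.card : ℝ) +
      ((((Finset.Icc 1 ⌊Real.exp X⌋₊).filter P).filter fun n : ℕ => ¬ x1 ≤ Real.log n).card : ℝ) := by
    unfold cE
    rw [← h3]
    push_cast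
    rfl
  have h5 : ((((Finset.Icc 1 ⌊Real.exp X⌋₊).filter P).filter fun n : ℕ => ¬ x1 ≤ Real.log n).card : ℝ) ≤
      Real.exp x1 := by
    refine le_trans ?_ (Nat.floor_le (Real.exp_pos x1).le)
    exact_mod_cast h2
  rw [h4]
  linarith

/-- the number of the near violations, upper bound -/
theorem up_cntb {P : ℕ → Prop} {Θ Θ' C c β : ℝ} (hβ : 0 < β)
    (hP : ∀ n : ℕ, 1 < Real.log n → P n → Efb β n)
    (hΘ1 : Θ < 1) (hC : ∀ t : ℝ, 1 ≤ t → |Rr t| ≤ C * t ^ Θ)
    (hΘ0 : 0 ≤ Θ) (hΘ' : Θ ≤ Θ') (hβ' : 1 - β ≤ Θ') (hΘ'1 : Θ' ≤ 1) (hc : (1 + Θ') / 2 < c) :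
    ∀ᶠ X : ℝ in atTop, (cE P (Real.exp X) : ℝ) ≤ Real.exp (X ^ c) := by
  have hC0 : 0 ≤ C := by
    have := (abs_nonneg _).trans (hC 1 le_rfl)
    simpa using this
  set CD := 3 * C + 2 * C / (1 - Θ) + 1 with hCD
  have h1Θ : 0 < 1 - Θ := by linarith
  have hCD0 : 0 < CD := by positivity
  set C' := 2 * √(CD + 2) + 1 + C with hC'
  have hC'0 : 0 ≤ C' := by positivity
  set a := (1 + Θ') / 2 with ha
  have ha0 : 0 ≤ a := by rw [ha]; linarith
  -- the threshold
  obtain ⟨x1, hx13, hx1⟩ : ∃ x1 : ℝ, 3 ≤ x1 ∧ ∀ L : ℝ, x1 ≤ L → L ^ (-β) ≤ 1 / 2 := by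
    have h1 : ∀ᶠ L : ℝ in atTop, L ^ (-β) ≤ 1 / 2 :=
      (tendsto_rpow_neg_atTop hβ).eventually (ge_mem_nhds (by norm_num))
    obtain ⟨y, hy⟩ := eventually_atTop.1 h1
    exact ⟨max 3 y, le_max_left _ _, fun L hL => hy L ((le_max_right _ _).trans hL)⟩
  filter_upwards [ev_log (x1 + 2 + 3 * C') hc, eventually_ge_atTop x1] with X hX hX1
  have hX3 : 3 ≤ X := by linarith
  have hlX := one_le_log hX3
  have hX0 : 0 < X := by linarith
  have hXa : 1 ≤ X ^ a := Real.one_le_rpow (by linarith) ha0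
  set Φ := C' * (X ^ a * Real.log X) with hΦ
  have hΦ0 : 0 ≤ Φ := by positivity
  have h1 := count_leP (P := P) (X := X) (x1 := x1) (Φ := Φ) (by linarith) hX1 (fun n hn1 hnX hE => by
    have hn3 : 3 ≤ Real.log n := by linarith
    set L := Real.log n with hL
    have hL0 : 0 < L := by linarith
    have hlL := one_le_log hn3
    have hL1 : 1 < Real.log n := by rw [← hL]; linarith
    have hn0 : n ≠ 0 := by
      rintro rfl
      rw [Nat.cast_zero, Real.log_zero] at hL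
      linarith
    have hE1 := (Efb_iff hβ hL1).1 (hP n hL1 hE)
    rw [← hL] at hE1
    have hy := hx1 L hn1
    have hlog := log_sub_lower (Real.rpow_nonneg hL0.le (-β)) hy
    have hD := D_pow hΘ1 hC hn3
    have hpw : L ^ (Θ - 1) ≤ L ^ (Θ' - 1) :=
      Real.rpow_le_rpow_of_exponent_le (by linarith) (by linarith)
    have hpw2 : L ^ (-β) ≤ L ^ (Θ' - 1) :=
      Real.rpow_le_rpow_of_exponent_le (by linarith) (by linarith)
    have hL' : 0 < L ^ (Θ' - 1) := Real.rpow_pos_of_pos hL0 _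
    have hDD : 0 < (CD + 2) * L ^ (Θ' - 1) := by positivity
    have hD' : VS L - Real.eulerMascheroniConstant - Real.log (Real.log L) +
      vv L / Real.log L * (L - Chebyshev.theta L) ≤ CD * L ^ (Θ' - 1) := by
      refine hD.trans ?_
      have h0 : (3 * C + 2 * C / (1 - Θ)) * L ^ (Θ - 1) ≤ CD * L ^ (Θ - 1) := by
        gcongr
        linarith
      exact h0.trans (mul_le_mul_of_nonneg_left hpw hCD0.le)
    have h2 := str (b := -(2 * L ^ (-β))) hn0 hL (by linarith) (by linarith) hD'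
    have h2' : ∑ p ∈ Miss n L, (L - p) / (p * L) ≤ (CD + 2) * L ^ (Θ' - 1) := by
      have : (CD + 2) * L ^ (Θ' - 1) = CD * L ^ (Θ' - 1) + 2 * L ^ (Θ' - 1) := by ring
      linarith
    have h3 := card_miss (by linarith) hDD h2'
    have h4 : √((CD + 2) * L ^ (Θ' - 1)) * L = √(CD + 2) * L ^ a := by
      rw [Real.sqrt_mul (by positivity), Real.sqrt_eq_rpow (L ^ (Θ' - 1)), ← Real.rpow_mul hL0.le,
        mul_assoc]
      congr 1
      nth_rewrite 2 [← Real.rpow_one L]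
      rw [← Real.rpow_add hL0]
      congr 1
      rw [ha]
      ring
    rw [h4] at h3
    have h5 : L ^ a ≤ X ^ a := Real.rpow_le_rpow hL0.le hnX ha0
    have h6 : Real.log L ≤ Real.log X := Real.log_le_log hL0 hnX
    have hs : 0 ≤ √(CD + 2) := Real.sqrt_nonneg _
    constructor
    · calc ((Miss n L).card : ℝ) * Real.log L ≤ (2 * (√(CD + 2) * L ^ a) + 1) * Real.log L := by gcongr
        _ ≤ (2 * (√(CD + 2) * X ^ a) + 1 * X ^ a + C * X ^ a) * Real.log X := by
            have h7 : 0 ≤ C * X ^ a := by positivity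
            have h8 := mul_le_mul_of_nonneg_left h5 hs
            exact mul_le_mul (by linarith) h6 (by linarith) (by positivity)
        _ = Φ := by rw [hΦ, hC']; ring
    · calc |Rr L| ≤ C * L ^ Θ := hC L (by linarith)
        _ ≤ C * X ^ a := by
            gcongr
            calc L ^ Θ ≤ L ^ a := Real.rpow_le_rpow_of_exponent_le (by linarith) (by rw [ha]; linarith)
              _ ≤ X ^ a := h5
        _ = C * X ^ a * 1 := by ring
        _ ≤ C' * X ^ a * Real.log X := by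
            gcongr
            rw [hC']
            have : 0 ≤ √(CD + 2) := Real.sqrt_nonneg _
            linarith
        _ = Φ := by rw [hΦ]; ring)
  refine h1.trans (finish (by linarith) hX0.le hΦ0 ?_)
  have h2 : Real.log (X + 2) ≤ 2 * Real.log X := by
    have : X + 2 ≤ X ^ 2 := by nlinarith
    have h3 := Real.log_le_log (by linarith) this
    rwa [Real.log_pow, Nat.cast_ofNat] at h3
  have h3 : (1 : ℝ) ≤ X ^ a * Real.log X := by nlinarith
  have h4 : Real.log X ≤ X ^ a * Real.log X := by nlinarith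
  calc x1 + Real.log (X + 2) + 3 * Φ ≤ x1 * (X ^ a * Real.log X) + 2 * (X ^ a * Real.log X) + 3 * Φ := by
        have : x1 * 1 ≤ x1 * (X ^ a * Real.log X) := mul_le_mul_of_nonneg_left h3 (by linarith)
        linarith
    _ = (x1 + 2 + 3 * C') * (X ^ a * Real.log X) := by rw [hΦ]; ring
    _ ≤ _ := hX

/-- lower bound for Mertens' product -/
lemma JJ_ge {Θ C β : ℝ} (hΘ1 : Θ < 1) (hC : ∀ t : ℝ, 1 ≤ t → |Rr t| ≤ C * t ^ Θ) (hΘ0 : 0 ≤ Θ)
    (hβ : Θ < 1 - β) : ∀ᶠ N : ℕ in atTop, -((N : ℝ) ^ (-β) / 4) ≤ JJ N := by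
  filter_upwards [ev_pow_nat (4 * (2 * C / (1 - Θ) + 2)) (show Θ - 1 < -β by linarith),
    eventually_ge_atTop 5] with N h1 h5
  have hN : (5 : ℝ) ≤ N := by exact_mod_cast h5
  obtain ⟨τ, ht0, ht1, hid⟩ := mertens_id (show (2 : ℝ) ≤ N by linarith)
  have h2 := loglog_tangent (show (1 : ℝ) < N by linarith) (theta_gt_one hN)
  have h3 := (abs_le.1 (KK_pow hΘ1 hC (show (3 : ℝ) ≤ N by linarith))).2
  have h4 : 2 / (N : ℝ) ≤ 2 * (N : ℝ) ^ (Θ - 1) := by
    have : (N : ℝ) ^ (-1 : ℝ) ≤ (N : ℝ) ^ (Θ - 1) :=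
      Real.rpow_le_rpow_of_exponent_le (by linarith) (by linarith)
    rw [Real.rpow_neg_one] at this
    rw [div_eq_mul_inv]
    linarith
  unfold JJ
  have e : Chebyshev.theta N - N = Rr N := rfl
  rw [e] at h2
  have h6 : (4 * (2 * C / (1 - Θ) + 2)) * (N : ℝ) ^ (Θ - 1) =
      4 * (2 * C / (1 - Θ) * (N : ℝ) ^ (Θ - 1)) + 4 * (2 * (N : ℝ) ^ (Θ - 1)) := by ring
  rw [h6] at h1
  linarith

theorem crit_sb {β : ℝ} (hβ : 0 < β) {N : ℕ} {T : Finset ℕ} (hN : 5 ≤ N) (hT : T ⊆ primesLE N)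
    (hL : 1 < Real.log (nT N T))
    (h : (Chebyshev.psi N - ∑ p ∈ T, (p.log N : ℝ) * Real.log p - Chebyshev.theta N) /
      (Chebyshev.theta N * Real.log (Chebyshev.theta N)) + 6 / √(N : ℝ) + ∑ p ∈ T, vv p +
        Real.log (1 - Real.log (nT N T) ^ (-β)) ≤ JJ N) :
    Esb β (nT N T) := by
  have hth := theta_gt_one (show (5 : ℝ) ≤ N by exact_mod_cast hN)
  rw [Esb_iff hβ hL]
  refine le_trans ?_ (sig_nT (by omega) hT)
  have h1 := loglog_tangent hth hL
  rw [log_nT hT] at h1 h ⊢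
  unfold JJ at h
  linarith

theorem delb_s {b Θ κ C β : ℝ} (hβ : 0 < β) (hβ1 : β ≤ 1) (hb0 : 1 / 2 < b) (hb1 : b < 1)
    (hbβ : b < 1 - β) (hΘβ : Θ < 1 - β) (hΘ : Θ < (1 + b) / 2) (hκ : κ < (1 + b) / 2)
    (hC : ∀ t : ℝ, 1 ≤ t → |Rr t| ≤ C * t ^ Θ) (hΘ0 : 0 ≤ Θ) :
    ∀ᶠ N : ℕ in atTop, Real.exp ((N : ℝ) ^ κ) ≤ cE (Esb β) (Real.exp (2 * N)) := by
  obtain ⟨C1, hC1, hr⟩ := rough
  filter_upwards [hr, del_common (by linarith) hb1 hΘ hκ hC hΘ0,
    ev_pow_nat (2 * C1 + 6) (show (-(1 / 2) : ℝ) < b - 1 by linarith),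
    ev_pow_nat 132 (show b - 1 < -β by linarith),
    JJ_ge (by linarith) hC hΘ0 hΘβ] with N hN1 hN2 hN3 hN4 hJ
  obtain ⟨r1, r2, r3, r4, r5⟩ := hN1
  obtain ⟨d0, d1, d2, d3, d4, d5, d6⟩ := hN2
  set h : ℝ := (N : ℝ) ^ ((1 + b) / 2) with hh
  have hN6 : (6 : ℝ) ≤ N := by exact_mod_cast d0
  have hN0 : (0 : ℝ) < N := by linarith
  have hsq : 0 < √(N : ℝ) := Real.sqrt_pos.2 hN0
  have hss : √(N : ℝ) * √(N : ℝ) = N := Real.mul_self_sqrt hN0.le
  have hsq2 : (N : ℝ) ^ (-(1 / 2) : ℝ) = 1 / √(N : ℝ) := by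
    rw [Real.rpow_neg hN0.le, ← Real.sqrt_eq_rpow, one_div]
  rw [hsq2] at hN3
  refine win_count (fun T => nT N T) (fun T hT => ?_) (fun T _ => nT_pf) d4 (by omega) d5
  have hTs := hT.trans Win_sub
  have hlogT : ∑ p ∈ T, (p.log N : ℝ) * Real.log p = ∑ p ∈ T, Real.log p := by
    refine Finset.sum_congr rfl fun p hp => ?_
    rw [log_one d0 d2 (hT hp)]
    push_cast
    ring
  have hln := log_nT hTs
  rw [hlogT] at hln
  have hnn : 0 ≤ ∑ p ∈ T, Real.log p := Finset.sum_nonneg fun p hp =>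
    Real.log_nonneg (by exact_mod_cast (Nat.one_lt_of_mem_primesLE (hTs hp)).le)
  have hub : ∑ p ∈ T, Real.log p ≤ N / 4 := by
    refine le_trans ?_ d6
    calc ∑ p ∈ T, Real.log p ≤ T.card * Real.log N := by
          rw [← nsmul_eq_mul]
          refine Finset.sum_le_card_nsmul _ _ _ fun p hp => ?_
          have hp1 := Nat.one_lt_of_mem_primesLE (hTs hp)
          exact Real.log_le_log (by exact_mod_cast (by omega : 0 < p))
            (by exact_mod_cast Nat.le_of_mem_primesLE (hTs hp))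
      _ ≤ (h + 1) * Real.log N := by
          have h3 := Finset.card_le_card hT
          have h4 : (T.card : ℝ) ≤ ((Win N h).card : ℝ) := by exact_mod_cast h3
          have h5 := h4.trans (card_win_le (by linarith) (by linarith))
          have hl : 0 ≤ Real.log N := Real.log_nonneg (by linarith)
          gcongr
  have hpt := Chebyshev.theta_le_psi N
  have hL1 : 1 < Real.log (nT N T) := by rw [hln]; linarith
  have hL2 : Real.log (nT N T) ≤ 2 * N := by rw [hln]; linarith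
  refine ⟨Nat.one_le_iff_ne_zero.2 nT_ne, ?_, ?_⟩
  · have hpos : (0 : ℝ) < nT N T := by exact_mod_cast Nat.pos_of_ne_zero nT_ne
    rw [← Real.log_le_iff_le_exp hpos]
    exact hL2
  · refine crit_sb hβ (by omega) hTs hL1 ?_
    have hslack : Real.log (1 - Real.log (nT N T) ^ (-β)) ≤ -((N : ℝ) ^ (-β) / 2) := by
      have h1 := Real.log_le_sub_one_of_pos (fac_pos hL1 hβ)
      have h2 : (2 * (N : ℝ)) ^ (-β) ≤ Real.log (nT N T) ^ (-β) :=
        Real.rpow_le_rpow_of_nonpos (by linarith) hL2 (by linarith)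
      have h3 : (2 * (N : ℝ)) ^ (-β) = (2 : ℝ) ^ (-β) * (N : ℝ) ^ (-β) :=
        Real.mul_rpow (by norm_num) hN0.le
      have h4 : (1 / 2 : ℝ) ≤ (2 : ℝ) ^ (-β) := by
        have : (2 : ℝ) ^ (-1 : ℝ) ≤ (2 : ℝ) ^ (-β) :=
          Real.rpow_le_rpow_of_exponent_le (by norm_num) (by linarith)
        rw [Real.rpow_neg_one] at this
        linarith
      have h5 : 0 ≤ (N : ℝ) ^ (-β) := Real.rpow_nonneg hN0.le _
      have h6 := mul_le_mul_of_nonneg_right h4 h5
      linarith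
    rw [hlogT]
    have hden : 0 < Chebyshev.theta N * Real.log (Chebyshev.theta N) := by linarith
    have hcost := sum_cost (by omega) d1 d2 d3 hT
    rw [sq_window (by omega), Finset.sum_sub_distrib, ← Finset.sum_div] at hcost
    have h1 : (Chebyshev.psi N - ∑ p ∈ T, Real.log p - Chebyshev.theta N) /
        (Chebyshev.theta N * Real.log (Chebyshev.theta N)) =
        (Chebyshev.psi N - Chebyshev.theta N) / (Chebyshev.theta N * Real.log (Chebyshev.theta N)) -
        (∑ p ∈ T, Real.log p) / (Chebyshev.theta N * Real.log (Chebyshev.theta N)) := by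
      rw [← sub_div]; congr 1; ring
    have h2 : (Chebyshev.psi N - Chebyshev.theta N) / (Chebyshev.theta N * Real.log (Chebyshev.theta N)) ≤
        2 * C1 * (1 / √(N : ℝ)) := by
      calc _ ≤ (C1 * √(N : ℝ)) / (N / 2) := by gcongr
        _ = 2 * C1 * (1 / √(N : ℝ)) := by
            rw [← hss]
            have : √(√(N : ℝ) * √(N : ℝ)) = √(N : ℝ) := by rw [hss]
            rw [this]
            field_simp
    have h3 : 6 / √(N : ℝ) = 6 * (1 / √(N : ℝ)) := by ring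
    rw [h1, h3]
    linarith

theorem crit_fb {β : ℝ} (hβ : 0 < β) {N : ℕ} {T : Finset ℕ} (hN : 5 ≤ N) (hT : T ⊆ primesLE N)
    (hL : 1 < Real.log (mT N T))
    (h : (-∑ p ∈ T, Real.log p) /
      (Chebyshev.theta N * Real.log (Chebyshev.theta N)) + ∑ p ∈ T, vv p +
        Real.log (1 - Real.log (mT N T) ^ (-β)) ≤ JJ N) :
    Efb β (mT N T) := by
  have hth := theta_gt_one (show (5 : ℝ) ≤ N by exact_mod_cast hN)
  rw [Efb_iff hβ hL, mT_pf]
  have h0 : ∑ p ∈ primesLE N \ T, vv p = VS N - ∑ p ∈ T, vv p := by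
    rw [VS_primes, ← Finset.sum_sdiff hT]
    ring
  rw [h0]
  have h1 := loglog_tangent hth hL
  have e : Real.log (mT N T) - Chebyshev.theta N = -∑ p ∈ T, Real.log p := by
    rw [log_mT hT]; ring
  rw [e] at h1
  unfold JJ at h
  linarith

theorem delb_f {b Θ κ C β : ℝ} (hβ : 0 < β) (hβ1 : β ≤ 1) (hb0 : 0 < b) (hb1 : b < 1)
    (hbβ : b < 1 - β) (hΘβ : Θ < 1 - β) (hΘ : Θ < (1 + b) / 2) (hκ : κ < (1 + b) / 2)
    (hC : ∀ t : ℝ, 1 ≤ t → |Rr t| ≤ C * t ^ Θ) (hΘ0 : 0 ≤ Θ) :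
    ∀ᶠ N : ℕ in atTop, Real.exp ((N : ℝ) ^ κ) ≤ cE (Efb β) (Real.exp (2 * N)) := by
  obtain ⟨C1, hC1, hr⟩ := rough
  filter_upwards [hr, del_common (by linarith) hb1 hΘ hκ hC hΘ0,
    ev_pow_nat 132 (show b - 1 < -β by linarith),
    JJ_ge (by linarith) hC hΘ0 hΘβ] with N hN1 hN2 hN4 hJ
  obtain ⟨r1, r2, r3, r4, r5⟩ := hN1
  obtain ⟨d0, d1, d2, d3, d4, d5, d6⟩ := hN2
  set h : ℝ := (N : ℝ) ^ ((1 + b) / 2) with hh
  have hN6 : (6 : ℝ) ≤ N := by exact_mod_cast d0
  have hN0 : (0 : ℝ) < N := by linarith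
  refine win_count (fun T => mT N T) (fun T hT => ?_) (fun T _ => mT_pf) d4 (by omega) d5
  have hTs := hT.trans Win_sub
  have hln := log_mT hTs
  have hnn : 0 ≤ ∑ p ∈ T, Real.log p := Finset.sum_nonneg fun p hp =>
    Real.log_nonneg (by exact_mod_cast (Nat.one_lt_of_mem_primesLE (hTs hp)).le)
  have hub : ∑ p ∈ T, Real.log p ≤ N / 4 := by
    refine le_trans ?_ d6
    calc ∑ p ∈ T, Real.log p ≤ T.card * Real.log N := by
          rw [← nsmul_eq_mul]
          refine Finset.sum_le_card_nsmul _ _ _ fun p hp => ?_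
          have hp1 := Nat.one_lt_of_mem_primesLE (hTs hp)
          exact Real.log_le_log (by exact_mod_cast (by omega : 0 < p))
            (by exact_mod_cast Nat.le_of_mem_primesLE (hTs hp))
      _ ≤ (h + 1) * Real.log N := by
          have h3 := Finset.card_le_card hT
          have h4 : (T.card : ℝ) ≤ ((Win N h).card : ℝ) := by exact_mod_cast h3
          have h5 := h4.trans (card_win_le (by linarith) (by linarith))
          have hl : 0 ≤ Real.log N := Real.log_nonneg (by linarith)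
          gcongr
  have hpt := Chebyshev.theta_le_psi N
  have hL1 : 1 < Real.log (mT N T) := by rw [hln]; linarith
  have hL2 : Real.log (mT N T) ≤ 2 * N := by rw [hln]; linarith
  refine ⟨Nat.one_le_iff_ne_zero.2 mT_ne, ?_, ?_⟩
  · have hpos : (0 : ℝ) < mT N T := by exact_mod_cast Nat.pos_of_ne_zero mT_ne
    rw [← Real.log_le_iff_le_exp hpos]
    exact hL2
  · refine crit_fb hβ (by omega) hTs hL1 ?_
    have hslack : Real.log (1 - Real.log (mT N T) ^ (-β)) ≤ -((N : ℝ) ^ (-β) / 2) := by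
      have h1 := Real.log_le_sub_one_of_pos (fac_pos hL1 hβ)
      have h2 : (2 * (N : ℝ)) ^ (-β) ≤ Real.log (mT N T) ^ (-β) :=
        Real.rpow_le_rpow_of_nonpos (by linarith) hL2 (by linarith)
      have h3 : (2 * (N : ℝ)) ^ (-β) = (2 : ℝ) ^ (-β) * (N : ℝ) ^ (-β) :=
        Real.mul_rpow (by norm_num) hN0.le
      have h4 : (1 / 2 : ℝ) ≤ (2 : ℝ) ^ (-β) := by
        have : (2 : ℝ) ^ (-1 : ℝ) ≤ (2 : ℝ) ^ (-β) :=
          Real.rpow_le_rpow_of_exponent_le (by norm_num) (by linarith)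
        rw [Real.rpow_neg_one] at this
        linarith
      have h5 : 0 ≤ (N : ℝ) ^ (-β) := Real.rpow_nonneg hN0.le _
      have h6 := mul_le_mul_of_nonneg_right h4 h5
      linarith
    have hden : 0 < Chebyshev.theta N * Real.log (Chebyshev.theta N) := by linarith
    have hcost := sum_cost (by omega) d1 d2 d3 hT
    rw [sq_window (by omega), Finset.sum_sub_distrib, ← Finset.sum_div] at hcost
    rw [neg_div]
    have hp : 0 < (N : ℝ) ^ (b - 1) := by positivity
    linarith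

end

end Pool.Agent.K3h81.RB
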