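import Pool.Agent.K3h81.RB.Nea

/-!
# Near violations of Robin's inequality: exact exponents
-/

set_option autoImplicit false

namespace Pool.Agent.K3h81.RB

open Filter Topology

noncomputable section

lemma eg_le : Real.exp Real.eulerMascheroniConstant ≤ 2 := by
  have h4 := Real.eulerMascheroniConstant_lt_two_thirds
  have h5 : Real.exp Real.eulerMascheroniConstant ≤ Real.exp (2 / 3) := Real.exp_le_exp.2 h4.le
  have h6 : Real.exp (2 / 3) ≤ 2 := by
    have := Real.exp_one_lt_d9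
    have e1 : Real.exp (2 / 3) ^ 3 = Real.exp 1 ^ 2 := by
      rw [← Real.exp_nat_mul, ← Real.exp_nat_mul]; norm_num
    by_contra hcon
    push Not at hcon
    have h8 : (2 : ℝ) ^ 3 < Real.exp (2 / 3) ^ 3 := pow_lt_pow_left₀ hcon (by norm_num) (by norm_num)
    rw [e1] at h8
    have : 0 < Real.exp 1 := Real.exp_pos _
    nlinarith
  linarith

/-- the product of the two factors at `n = 2` -/
lemma two_fac {β : ℝ} (h0 : 0 < β) (h1 : β ≤ 1) :
    Real.log (Real.log 2) * (1 - Real.log 2 ^ (-β)) ≤ 1 / 4 := by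
  have ha := Real.log_two_gt_d9
  have hb := Real.log_two_lt_d9
  set a := Real.log 2 with had
  have ha0 : 0 < a := by linarith
  have h2 : Real.log a ≤ 0 := Real.log_nonpos ha0.le (by linarith)
  have h3 : -(1 / 2 : ℝ) ≤ Real.log a := by
    have := Real.one_sub_inv_le_log_of_pos ha0
    have h4 : a⁻¹ ≤ 3 / 2 := by
      rw [inv_le_comm₀ ha0 (by norm_num)]
      linarith
    linarith
  have h4 : a ^ (-β) ≤ a ^ (-1 : ℝ) :=
    Real.rpow_le_rpow_of_exponent_ge ha0 (by linarith) (by linarith)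
  rw [Real.rpow_neg_one] at h4
  have h5 : a⁻¹ ≤ 3 / 2 := by
    rw [inv_le_comm₀ ha0 (by norm_num)]
    linarith
  have h6 : 1 ≤ a ^ (-β) := Real.one_le_rpow_of_pos_of_le_one_of_nonpos ha0 (by linarith) (by linarith)
  nlinarith

lemma near_small {β : ℝ} (h0 : 0 < β) (h1 : β ≤ 1) {n : ℕ} (hn1 : 1 ≤ n) (hn3 : n ≤ 3) :
    Esb β n ∧ Efb β n := by
  have hlog3 : 1 < Real.log 3 := by
    rw [Real.lt_log_iff_exp_lt (by norm_num)]
    linarith [Real.exp_one_lt_d9]
  have heg := eg_le
  have heg0 : 0 < Real.exp Real.eulerMascheroniConstant := Real.exp_pos _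
  interval_cases n
  · constructor
    · unfold Esb
      simp
    · unfold Efb
      simp
  · have h2 := two_fac h0 h1
    constructor
    · unfold Esb
      have hs : (1 : ℝ) ≤ (ArithmeticFunction.sigma 1 2 : ℕ) := by
        exact_mod_cast ArithmeticFunction.sigma_pos 1 2 (by norm_num)
      push_cast
      have e : Real.exp Real.eulerMascheroniConstant * 2 * Real.log (Real.log 2) *
          (1 - Real.log 2 ^ (-β)) = (2 * Real.exp Real.eulerMascheroniConstant) *
          (Real.log (Real.log 2) * (1 - Real.log 2 ^ (-β))) := by ring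
      rw [e]
      calc _ ≤ (2 * Real.exp Real.eulerMascheroniConstant) * (1 / 4) :=
            mul_le_mul_of_nonneg_left h2 (by positivity)
        _ ≤ 1 := by linarith
        _ ≤ _ := hs
    · unfold Efb
      have ht : Nat.totient 2 = 1 := by decide
      rw [ht]
      push_cast
      have e : Real.exp Real.eulerMascheroniConstant * 1 * Real.log (Real.log 2) *
          (1 - Real.log 2 ^ (-β)) = Real.exp Real.eulerMascheroniConstant *
          (Real.log (Real.log 2) * (1 - Real.log 2 ^ (-β))) := by ring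
      rw [e]
      calc _ ≤ Real.exp Real.eulerMascheroniConstant * (1 / 4) :=
            mul_le_mul_of_nonneg_left h2 heg0.le
        _ ≤ 2 := by linarith
  · have h3 : 1 < Real.log ((3 : ℕ) : ℝ) := by exact_mod_cast hlog3
    have h4 := Esb_of_Es h0 h3 (Es_small (n := 3) (by norm_num) (by norm_num))
    exact ⟨h4, Efb_of_Esb h0 h3 h4⟩

lemma three_le {P : ℕ → Prop} (hP : ∀ n, 1 ≤ n → n ≤ 3 → P n) {x : ℝ} (hx : 3 ≤ x) : 3 ≤ cE P x := by
  classical
  unfold cE
  have h : Finset.Icc 1 3 ⊆ (Finset.Icc 1 ⌊x⌋₊).filter P := by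
    intro n hn
    rw [Finset.mem_Icc] at hn
    rw [Finset.mem_filter, Finset.mem_Icc]
    have : 3 ≤ ⌊x⌋₊ := Nat.le_floor (by exact_mod_cast hx)
    exact ⟨⟨hn.1, hn.2.trans this⟩, hP n hn.1 hn.2⟩
  have h2 := Finset.card_le_card h
  rw [Nat.card_Icc] at h2
  convert h2

lemma cE_monoP {P Q : ℕ → Prop} (h : ∀ n, 1 ≤ n → P n → Q n) (x : ℝ) : cE P x ≤ cE Q x := by
  classical
  unfold cE
  refine Finset.card_le_card fun n hn => ?_
  rw [Finset.mem_filter] at hn ⊢
  exact ⟨hn.1, h n (Finset.mem_Icc.1 hn.1).1 hn.2⟩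

lemma log_gt_one {n : ℕ} (h : 3 < n) : 1 < Real.log n := by
  have h4 : (4 : ℝ) ≤ n := by exact_mod_cast h
  rw [Real.lt_log_iff_exp_lt (by linarith)]
  linarith [Real.exp_one_lt_d9]

lemma Esb_of_Es' {β : ℝ} (h0 : 0 < β) (h1 : β ≤ 1) {n : ℕ} (hn : 1 ≤ n) (h : Es n) : Esb β n := by
  rcases Nat.lt_or_ge 3 n with h3 | h3
  · exact Esb_of_Es h0 (log_gt_one h3) h
  · exact (near_small h0 h1 hn h3).1

lemma Efb_of_Ef' {β : ℝ} (h0 : 0 < β) (h1 : β ≤ 1) {n : ℕ} (hn : 1 ≤ n) (h : Ef n) : Efb β n := by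
  rcases Nat.lt_or_ge 3 n with h3 | h3
  · have hL := log_gt_one h3
    rw [Efb_iff h0 hL]
    have h1 := (Ef_iff hL).1 h
    have h2 : Real.log (1 - Real.log n ^ (-β)) ≤ 0 :=
      Real.log_nonpos (fac_pos hL h0).le (fac_le hL h0)
    linarith
  · exact (near_small h0 h1 hn h3).2

/-- upper bound -/
lemma up_near {P : ℕ → Prop} {β : ℝ} (hβ : 0 < β) (hP : ∀ n : ℕ, 1 < Real.log n → P n → Efb β n)
    (ε : ℝ) (hε : 0 < ε) : ∀ᶠ x : ℝ in atTop,
      (cE P x : ℝ) ≤ Real.exp (Real.log x ^ (max (1 - β / 2) ((1 + Th) / 2) + ε)) := by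
  have hm1 : 1 - β / 2 ≤ max (1 - β / 2) ((1 + Th) / 2) := le_max_left _ _
  have hm2 : (1 + Th) / 2 ≤ max (1 - β / 2) ((1 + Th) / 2) := le_max_right _ _
  rcases eq_or_lt_of_le Th_le with h | h
  · filter_upwards [eventually_ge_atTop (Real.exp 1)] with x hx
    have hx0 : 0 < x := (Real.exp_pos 1).trans_le hx
    have hl : 1 ≤ Real.log x := by rwa [Real.le_log_iff_exp_le hx0]
    refine (cE_le_self hx0.le).trans ?_
    calc x = Real.exp (Real.log x ^ (1 : ℝ)) := by rw [Real.rpow_one, Real.exp_log hx0]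
      _ ≤ _ := by
        apply Real.exp_le_exp.2
        refine Real.rpow_le_rpow_of_exponent_le hl ?_
        rw [h] at hm2 ⊢
        linarith
  · have hT := Th_ge
    set Θ : ℝ := min (Th + ε) ((1 + Th) / 2) with hΘ
    have hΘ1 : Θ ≤ Th + ε := min_le_left _ _
    have hΘ2 : Θ ≤ (1 + Th) / 2 := min_le_right _ _
    have hΘ3 : Th < Θ := lt_min (by linarith) (by linarith)
    obtain ⟨C, hC⟩ := free_Rr Th_ge Th_free hΘ3 (by linarith)
    have hmx : max Θ (1 - β) ≤ 1 := max_le (by linarith) (by linarith)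
    have hc : (1 + max Θ (1 - β)) / 2 < max (1 - β / 2) ((1 + Th) / 2) + ε := by
      rcases max_cases Θ (1 - β) with ⟨e1, -⟩ | ⟨e1, -⟩
      · rw [e1]; linarith
      · rw [e1]; linarith
    have h2 := up_cntb hβ hP (by linarith) hC (by linarith) (le_max_left Θ (1 - β))
      (le_max_right Θ (1 - β)) hmx hc
    have h3 := Real.tendsto_log_atTop.eventually h2
    filter_upwards [h3, eventually_gt_atTop 0] with x hx hx0
    rwa [Real.exp_log hx0] at hx

/-- from integers to all large `x` -/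
lemma low_all {P : ℕ → Prop} {β κ κ' δ Θ C : ℝ} (hκ : 0 < κ) (hκ'0 : 0 < κ') (hδ0 : 0 < δ) (hδ1 : δ < 1)
    (hκ' : κ' < (1 - δ) * κ) (hΘ1 : Θ < 1) (hC : ∀ t : ℝ, 1 ≤ t → |Rr t| ≤ C * t ^ Θ) (hΘ0 : 0 ≤ Θ)
    (hβ : Θ < 1 - β) (hm : ∀ᶠ N : ℕ in atTop, Real.exp ((N : ℝ) ^ κ) ≤ cE P (Real.exp (2 * N))) :
    ∀ᶠ x : ℝ in atTop, Real.exp (Real.log x ^ κ') ≤ cE P x := by
  refine low_x (a := 2) (d := 0) (C := -1) (b := 1 - β) (by norm_num) le_rfl hκ hκ'0 hδ1 hκ' ?_ ?_
  · filter_upwards [hm] with N hN _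
    rw [sub_zero]
    exact hN
  · have h1 := tendsto_nat_floor_atTop (α := ℝ) |>.eventually (JJ_ge hΘ1 hC hΘ0 hβ)
    filter_upwards [h1, ev_pow 2 (show 1 - δ < 1 by linarith), eventually_ge_atTop 2] with X hX hX2 hX3
    have hf := Nat.lt_floor_add_one X
    have hf2 : 0 < ⌊X⌋₊ := Nat.floor_pos.2 (by linarith)
    have hf3 : (0 : ℝ) < ⌊X⌋₊ := by exact_mod_cast hf2
    refine ⟨⌊X⌋₊, ?_, Nat.floor_le (by linarith), ?_⟩
    · rw [Real.rpow_one] at hX2
      linarith
    · have e : (1 - β - 1 : ℝ) = -β := by ring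
      rw [e]
      have : 0 < (⌊X⌋₊ : ℝ) ^ (-β) := Real.rpow_pos_of_pos hf3 _
      linarith

/-- lower bound for the divisor function -/
lemma low_near_s {β : ℝ} (h0 : 0 < β) (h1 : β < 1 / 2) (ε : ℝ) (hε : 0 < ε) :
    ∀ᶠ x : ℝ in atTop,
      Real.exp (Real.log x ^ (max (1 - β / 2) ((1 + Th) / 2) - ε)) ≤ cE (Esb β) x := by
  rcases lt_or_ge β (1 - Th) with h | h
  · have hT := Th_ge
    have hmx : max (1 - β / 2) ((1 + Th) / 2) = 1 - β / 2 := max_eq_left (by linarith)
    rw [hmx]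
    set e : ℝ := min (min β ((1 / 2 - β) / 2)) ε with he
    have e0 : 0 < e := lt_min (lt_min h0 (by linarith)) hε
    have e1 : e ≤ β := (min_le_left _ _).trans (min_le_left _ _)
    have e2 : e ≤ (1 / 2 - β) / 2 := (min_le_left _ _).trans (min_le_right _ _)
    have e3 : e ≤ ε := min_le_right _ _
    set Θ : ℝ := (Th + (1 - β)) / 2 with hΘ
    have t1 : Th < Θ := by rw [hΘ]; linarith
    have t2 : Θ < 1 - β := by rw [hΘ]; linarith
    obtain ⟨C, hC⟩ := free_Rr Th_ge Th_free t1 (by linarith)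
    have hm := delb_s (b := 1 - β - e) (κ := 1 - β / 2 - 3 * e / 4) h0 (by linarith) (by linarith)
      (by linarith) (by linarith) t2 (by linarith) (by linarith) hC (by linarith)
    have h3 := low_all (κ' := 1 - β / 2 - e) (δ := e / 8) (by linarith) (by linarith) (by linarith)
      (by linarith) (by nlinarith) (by linarith) hC (by linarith) t2 hm
    exact low_lower (by linarith) h3
  · have hmx : max (1 - β / 2) ((1 + Th) / 2) = (1 + Th) / 2 := max_eq_right (by linarith)
    rw [hmx]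
    filter_upwards [low_s_all (by linarith) ε hε] with x hx
    refine hx.trans ?_
    exact_mod_cast cE_monoP (fun n hn hE => Esb_of_Es' h0 (by linarith) hn hE) x

/-- lower bound for the totient function -/
lemma low_near_f {β : ℝ} (h0 : 0 < β) (h1 : β ≤ 1) (ε : ℝ) (hε : 0 < ε) :
    ∀ᶠ x : ℝ in atTop,
      Real.exp (Real.log x ^ (max (1 - β / 2) ((1 + Th) / 2) - ε)) ≤ cE (Efb β) x := by
  rcases lt_or_ge β (1 - Th) with h | h
  · have hT := Th_ge
    have hmx : max (1 - β / 2) ((1 + Th) / 2) = 1 - β / 2 := max_eq_left (by linarith)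
    rw [hmx]
    set e : ℝ := min (min β ((1 - β) / 2)) ε with he
    have e0 : 0 < e := lt_min (lt_min h0 (by linarith)) hε
    have e1 : e ≤ β := (min_le_left _ _).trans (min_le_left _ _)
    have e2 : e ≤ (1 - β) / 2 := (min_le_left _ _).trans (min_le_right _ _)
    have e3 : e ≤ ε := min_le_right _ _
    set Θ : ℝ := (Th + (1 - β)) / 2 with hΘ
    have t1 : Th < Θ := by rw [hΘ]; linarith
    have t2 : Θ < 1 - β := by rw [hΘ]; linarith
    obtain ⟨C, hC⟩ := free_Rr Th_ge Th_free t1 (by linarith)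
    have hm := delb_f (b := 1 - β - e) (κ := 1 - β / 2 - 3 * e / 4) h0 (by linarith) (by linarith)
      (by linarith) (by linarith) t2 (by linarith) (by linarith) hC (by linarith)
    have h3 := low_all (κ' := 1 - β / 2 - e) (δ := e / 8) (by linarith) (by linarith) (by linarith)
      (by linarith) (by nlinarith) (by linarith) hC (by linarith) t2 hm
    exact low_lower (by linarith) h3
  · have hmx : max (1 - β / 2) ((1 + Th) / 2) = (1 + Th) / 2 := max_eq_right (by linarith)
    rw [hmx]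
    filter_upwards [low_f_all ε hε] with x hx
    refine hx.trans ?_
    exact_mod_cast cE_monoP (fun n hn hE => Efb_of_Ef' h0 h1 hn hE) x

/-- **Near violations of Robin's inequality.** -/
theorem lim_near_s {β : ℝ} (h0 : 0 < β) (h1 : β < 1 / 2) :
    Tendsto (fun x : ℝ => Real.log (Real.log (cE (Esb β) x)) / Real.log (Real.log x)) atTop
      (𝓝 (max (1 - β / 2) ((1 + Th) / 2))) :=
  tendsto_of (fun _ hx => three_le (fun _ a b => (near_small h0 (by linarith) a b).1) hx)
    (up_near h0 fun _ hL hE => Efb_of_Esb h0 hL hE) (low_near_s h0 h1)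

/-- **The totient function.** -/
theorem lim_near_f {β : ℝ} (h0 : 0 < β) (h1 : β ≤ 1) :
    Tendsto (fun x : ℝ => Real.log (Real.log (cE (Efb β) x)) / Real.log (Real.log x)) atTop
      (𝓝 (max (1 - β / 2) ((1 + Th) / 2))) :=
  tendsto_of (fun _ hx => three_le (fun _ a b => (near_small h0 h1 a b).2) hx)
    (up_near h0 fun _ _ hE => hE) (low_near_f h0 h1)

/-- the Riemann hypothesis and the exponents of the near violations -/
theorem rh_iff_near : RiemannHypothesis ↔ ∀ β : ℝ, 0 < β → β < 1 / 2 →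
    Tendsto (fun x : ℝ => Real.log (Real.log (cE (Esb β) x)) / Real.log (Real.log x)) atTop
      (𝓝 (1 - β / 2)) := by
  constructor
  · intro h β h0 h1
    have h2 : Th = 1 / 2 := by
      refine le_antisymm ?_ Th_ge
      by_contra hcon
      push Not at hcon
      obtain ⟨ρ, hρ, hρ2⟩ := exists_zero_gt hcon
      exact rh_free.1 h ρ hρ2 hρ
    have h3 := lim_near_s h0 h1
    rw [h2, max_eq_left (by linarith)] at h3
    exact h3
  · intro h
    rw [rh_free]
    rcases eq_or_lt_of_le Th_ge with h3 | h3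
    · intro s hs
      exact Th_free s (by rw [← h3]; exact hs)
    · exfalso
      have hT := Th_le
      set β : ℝ := (1 - Th + 1 / 2) / 2 with hβ
      have b0 : 0 < β := by rw [hβ]; linarith
      have b1 : β < 1 / 2 := by rw [hβ]; linarith
      have h4 := tendsto_nhds_unique (h β b0 b1) (lim_near_s b0 b1)
      have h5 : (1 + Th) / 2 ≤ 1 - β / 2 := by rw [h4]; exact le_max_right _ _
      rw [hβ] at h5
      linarith

end

end Pool.Agent.K3h81.RB
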