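import Pool.Agent.K3h81.RB.Nea2

/-!
# Violations of Robin's inequality with a surplus
-/

set_option autoImplicit false

namespace Pool.Agent.K3h81.RB

open Filter Topology
open Nat (primesLE)

noncomputable section

/-- `σ(n) ≥ e^γ n log log n (1 + (log n)^(-β))` -/
def Esp (β : ℝ) (n : ℕ) : Prop :=
  Real.exp Real.eulerMascheroniConstant * n * Real.log (Real.log n) * (1 + Real.log n ^ (-β)) ≤
    (ArithmeticFunction.sigma 1 n : ℕ)

lemma Esp_iff {β : ℝ} {n : ℕ} (hL : 1 < Real.log n) : Esp β n ↔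
    Real.eulerMascheroniConstant + Real.log (Real.log (Real.log n)) +
      Real.log (1 + Real.log n ^ (-β)) ≤
      Real.log ((ArithmeticFunction.sigma 1 n : ℕ) / (n : ℝ)) := by
  have hn : n ≠ 0 := by
    rintro rfl
    norm_num at hL
  have hn0 : (0 : ℝ) < n := by exact_mod_cast Nat.pos_of_ne_zero hn
  have hu : 0 < 1 + Real.log n ^ (-β) := by positivity
  have hs := sigma_pos hn
  have h := log_form (n := n) (A := n * (1 + Real.log n ^ (-β)))
    (B := ((ArithmeticFunction.sigma 1 n : ℕ) : ℝ)) hL (by positivity)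
  have e1 : Real.log (((ArithmeticFunction.sigma 1 n : ℕ) : ℝ) / (n * (1 + Real.log n ^ (-β)))) =
      Real.log ((ArithmeticFunction.sigma 1 n : ℕ) / (n : ℝ)) - Real.log (1 + Real.log n ^ (-β)) := by
    rw [← div_div, Real.log_div (by positivity) hu.ne']
  rw [e1] at h
  unfold Esp
  have e2 : Real.exp Real.eulerMascheroniConstant * n * Real.log (Real.log n) *
      (1 + Real.log n ^ (-β)) = Real.exp Real.eulerMascheroniConstant *
      (n * (1 + Real.log n ^ (-β))) * Real.log (Real.log n) := by ring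
  rw [e2, h]
  constructor
  · rintro ⟨-, h2⟩; linarith
  · intro h2; exact ⟨hs, by linarith⟩

lemma Es_of_Esp {β : ℝ} {n : ℕ} (hL : 1 < Real.log n) (h : Esp β n) : Es n := by
  rw [Es_iff hL]
  have h1 := (Esp_iff hL).1 h
  have h2 : 0 ≤ Real.log n ^ (-β) := Real.rpow_nonneg (by linarith) _
  have h3 : 0 ≤ Real.log (1 + Real.log n ^ (-β)) := Real.log_nonneg (by linarith)
  linarith

lemma Es_of_Esp' {β : ℝ} {n : ℕ} (hn : 1 ≤ n) (h : Esp β n) : Es n := by
  rcases Nat.lt_or_ge 3 n with h3 | h3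
  · exact Es_of_Esp (log_gt_one h3) h
  · exact Es_small hn h3

lemma slack_p {β L : ℝ} (hL : 0 < L) : Real.log (1 + L ^ (-β)) ≤ L ^ (-β) := by
  have h0 : 0 < L ^ (-β) := Real.rpow_pos_of_pos hL _
  have := Real.log_le_sub_one_of_pos (show 0 < 1 + L ^ (-β) by linarith)
  linarith

lemma surplus_small {β : ℝ} (hβ : 0 < β) {n : ℕ} (hn1 : 1 ≤ n) (hn3 : n ≤ 3) : Esp β n := by
  have heg := eg_le
  have heg0 : 0 < Real.exp Real.eulerMascheroniConstant := Real.exp_pos _
  have hss := loglog_small hn1 hn3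
  have hlog3 : 1 < Real.log 3 := by
    rw [Real.lt_log_iff_exp_lt (by norm_num)]
    linarith [Real.exp_one_lt_d9]
  interval_cases n
  · unfold Esp
    simp
  · unfold Esp
    have ha := Real.log_two_gt_d9
    have hb := Real.log_two_lt_d9
    have hs : (0 : ℝ) ≤ (ArithmeticFunction.sigma 1 2 : ℕ) := Nat.cast_nonneg _
    refine le_trans ?_ hs
    push_cast
    have h2 : Real.log (Real.log 2) ≤ 0 := Real.log_nonpos (by linarith) (by linarith)
    have h3 : 0 ≤ Real.log 2 ^ (-β) := Real.rpow_nonneg (by linarith) _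
    have h4 : Real.exp Real.eulerMascheroniConstant * 2 * Real.log (Real.log 2) ≤ 0 :=
      mul_nonpos_of_nonneg_of_nonpos (by positivity) h2
    exact mul_nonpos_of_nonpos_of_nonneg h4 (by linarith)
  · unfold Esp
    have hs : (3 : ℝ) ≤ (ArithmeticFunction.sigma 1 3 : ℕ) := by
      have : 3 ≤ ArithmeticFunction.sigma 1 3 := by
        rw [ArithmeticFunction.sigma_one_apply]
        exact Finset.single_le_sum (f := fun d => d) (fun _ _ => Nat.zero_le _)
          (Nat.mem_divisors_self 3 (by omega))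
      exact_mod_cast this
    refine le_trans ?_ hs
    push_cast at hss ⊢
    have h1 : Real.log 3 ^ (-β) ≤ 1 :=
      (Real.rpow_lt_one_of_one_lt_of_neg hlog3 (neg_lt_zero.2 hβ)).le
    have h0 : 0 ≤ Real.log 3 ^ (-β) := Real.rpow_nonneg (by linarith) _
    have hll : 0 ≤ Real.log (Real.log 3) := Real.log_nonneg hlog3.le
    calc Real.exp Real.eulerMascheroniConstant * 3 * Real.log (Real.log 3) * (1 + Real.log 3 ^ (-β))
        ≤ 2 * 3 * (1 / 5) * (1 + 1) := by gcongr
      _ ≤ 3 := by norm_num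

theorem delp_s {b Θ κ C β : ℝ} (hbβ : 1 - β < b) (hβ : 0 < β) (hb0 : 1 / 2 < b) (hb1 : b < 1)
    (hΘ : Θ < (1 + b) / 2) (hκ : κ < (1 + b) / 2)
    (hC : ∀ t : ℝ, 1 ≤ t → |Rr t| ≤ C * t ^ Θ) (hΘ0 : 0 ≤ Θ) :
    ∀ᶠ N : ℕ in atTop, 34 * (N : ℝ) ^ (b - 1) < JJ N →
      Real.exp ((N : ℝ) ^ κ) ≤ cE (Esp β) (Real.exp (2 * N)) := by
  obtain ⟨C1, hC1, hr⟩ := rough
  filter_upwards [hr, del_common (by linarith) hb1 hΘ hκ hC hΘ0,
    ev_pow_nat (2 * C1 + 6) (show (-(1 / 2) : ℝ) < b - 1 by linarith),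
    ev_pow_nat ((1 / 4 : ℝ) ^ (-β)) (show -β < b - 1 by linarith)] with N hN1 hN2 hN3 hN4 hJ
  obtain ⟨r1, r2, r3, r4, r5⟩ := hN1
  obtain ⟨d0, d1, d2, d3, d4, d5, d6⟩ := hN2
  set h : ℝ := (N : ℝ) ^ ((1 + b) / 2) with hh
  have hN6 : (6 : ℝ) ≤ N := by exact_mod_cast d0
  have hN0 : (0 : ℝ) < N := by linarith
  have hsq : 0 < √(N : ℝ) := Real.sqrt_pos.2 hN0
  have hss : √(N : ℝ) * √(N : ℝ) = N := Real.mul_self_sqrt hN0.le
  have hsq2 : (N : ℝ) ^ (-(1 / 2) : ℝ) = 1 / √(N : ℝ) := by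
    rw [Real.rpow_neg hN0.le, ← Real.sqrt_eq_rpow, one_div]
  rw [hsq2] at hN3
  refine win_count (fun T => nT N T) (fun T hT => ?_) (fun T _ => nT_pf) d4 (by omega) d5
  have hTs := hT.trans Win_sub
  have hlogT : ∑ p ∈ T, (p.log N : ℝ) * Real.log p = ∑ p ∈ T, Real.log p := by
    refine Finset.sum_congr rfl fun p hp => ?_
    rw [log_one d0 d2 (hT hp)]
    push_cast
    ring
  have hln := log_nT hTs
  rw [hlogT] at hln
  have hnn : 0 ≤ ∑ p ∈ T, Real.log p := Finset.sum_nonneg fun p hp =>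
    Real.log_nonneg (by exact_mod_cast (Nat.one_lt_of_mem_primesLE (hTs hp)).le)
  have hub : ∑ p ∈ T, Real.log p ≤ N / 4 := by
    refine le_trans ?_ d6
    calc ∑ p ∈ T, Real.log p ≤ T.card * Real.log N := by
          rw [← nsmul_eq_mul]
          refine Finset.sum_le_card_nsmul _ _ _ fun p hp => ?_
          have hp1 := Nat.one_lt_of_mem_primesLE (hTs hp)
          exact Real.log_le_log (by exact_mod_cast (by omega : 0 < p))
            (by exact_mod_cast Nat.le_of_mem_primesLE (hTs hp))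
      _ ≤ (h + 1) * Real.log N := by
          have h3 := Finset.card_le_card hT
          have h4 : (T.card : ℝ) ≤ ((Win N h).card : ℝ) := by exact_mod_cast h3
          have h5 := h4.trans (card_win_le (by linarith) (by linarith))
          have hl : 0 ≤ Real.log N := Real.log_nonneg (by linarith)
          gcongr
  have hpt := Chebyshev.theta_le_psi N
  have hL1 : 1 < Real.log (nT N T) := by rw [hln]; linarith
  have hL2 : 1 / 4 * (N : ℝ) ≤ Real.log (nT N T) := by rw [hln]; linarith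
  refine ⟨Nat.one_le_iff_ne_zero.2 nT_ne, ?_, ?_⟩
  · have hpos : (0 : ℝ) < nT N T := by exact_mod_cast Nat.pos_of_ne_zero nT_ne
    rw [← Real.log_le_iff_le_exp hpos, hln]
    linarith
  · have hslack : Real.log (1 + Real.log (nT N T) ^ (-β)) ≤ (N : ℝ) ^ (b - 1) := by
      refine (slack_p (by linarith)).trans (le_trans ?_ hN4)
      rw [← Real.mul_rpow (by norm_num) hN0.le]
      exact Real.rpow_le_rpow_of_nonpos (by positivity) hL2 (by linarith)
    have hth := theta_gt_one (show (5 : ℝ) ≤ N by linarith)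
    rw [Esp_iff hL1]
    refine le_trans ?_ (sig_nT (by omega) hTs)
    have ht := loglog_tangent hth hL1
    have hden : 0 < Chebyshev.theta N * Real.log (Chebyshev.theta N) := by linarith
    have hcost := sum_cost (by omega) d1 d2 d3 hT
    rw [sq_window (by omega), Finset.sum_sub_distrib, ← Finset.sum_div] at hcost
    have h1 : (Real.log (nT N T) - Chebyshev.theta N) /
        (Chebyshev.theta N * Real.log (Chebyshev.theta N)) =
        (Chebyshev.psi N - Chebyshev.theta N) / (Chebyshev.theta N * Real.log (Chebyshev.theta N)) -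
        (∑ p ∈ T, Real.log p) / (Chebyshev.theta N * Real.log (Chebyshev.theta N)) := by
      rw [← sub_div, hln]; congr 1; ring
    have h2 : (Chebyshev.psi N - Chebyshev.theta N) / (Chebyshev.theta N * Real.log (Chebyshev.theta N)) ≤
        2 * C1 * (1 / √(N : ℝ)) := by
      calc _ ≤ (C1 * √(N : ℝ)) / (N / 2) := by gcongr
        _ = 2 * C1 * (1 / √(N : ℝ)) := by
            rw [← hss]
            have : √(√(N : ℝ) * √(N : ℝ)) = √(N : ℝ) := by rw [hss]
            rw [this]
            field_simp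
    have h3 : 6 / √(N : ℝ) = 6 * (1 / √(N : ℝ)) := by ring
    rw [h3]
    rw [h1] at ht
    unfold JJ at hJ
    linarith

/-- all multiples `n₀ k` with `log k ≤ N^κ` are exceptions -/
theorem mulp_s {b κ β : ℝ} (hbβ : 1 - β < b) (hβ : 0 < β) (hb0 : 1 / 2 < b) (hb1 : b < 1)
    (hκ : κ < b) :
    ∀ᶠ N : ℕ in atTop, 2 * (N : ℝ) ^ (b - 1) < JJ N →
      Real.exp ((N : ℝ) ^ κ) - 1 ≤ cE (Esp β) (Real.exp (3 * N)) := by
  obtain ⟨C1, hC1, hr⟩ := rough
  filter_upwards [hr, ev_pow_nat (2 * (2 * C1 + 6)) (show (-(1 / 2) : ℝ) < b - 1 by linarith),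
    ev_pow_nat 4 (show κ - 1 < b - 1 by linarith), ev_pow_nat 1 (show κ < 1 by linarith),
    ev_pow_nat ((1 / 4 : ℝ) ^ (-β)) (show -β < b - 1 by linarith),
    eventually_ge_atTop 6] with N hN1 hN3 hN4 hN5 hN7 d0 hJ
  obtain ⟨r1, r2, r3, r4, r5⟩ := hN1
  have hN6 : (6 : ℝ) ≤ N := by exact_mod_cast d0
  have hN0 : (0 : ℝ) < N := by linarith
  have hsq : 0 < √(N : ℝ) := Real.sqrt_pos.2 hN0
  have hss : √(N : ℝ) * √(N : ℝ) = N := Real.mul_self_sqrt hN0.le
  have hsq2 : (N : ℝ) ^ (-(1 / 2) : ℝ) = 1 / √(N : ℝ) := by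
    rw [Real.rpow_neg hN0.le, ← Real.sqrt_eq_rpow, one_div]
  rw [hsq2] at hN3
  rw [Real.rpow_one, one_mul] at hN5
  have hκ1 : (N : ℝ) ^ (κ - 1) = (N : ℝ) ^ κ / N := by rw [Real.rpow_sub hN0, Real.rpow_one]
  rw [hκ1] at hN4
  set K : ℕ := ⌊Real.exp ((N : ℝ) ^ κ)⌋₊ with hK
  have hn0 : nT N ∅ ≠ 0 := nT_ne
  have hn0pos : 0 < nT N ∅ := Nat.pos_of_ne_zero hn0
  have hl0 : Real.log (nT N ∅) = Chebyshev.psi N := by
    rw [log_nT (Finset.empty_subset _)]
    simp
  have hden : 0 < Chebyshev.theta N * Real.log (Chebyshev.theta N) := by linarith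
  have hpt := Chebyshev.theta_le_psi N
  have h1 : (Finset.Icc 1 K).card ≤ cE (Esp β) (Real.exp (3 * N)) := by
    refine le_cE (f := fun k => nT N ∅ * k) (fun k hk => ?_) ?_
    · rw [Finset.mem_Icc] at hk
      have hk0 : k ≠ 0 := by omega
      have hkr : (0 : ℝ) < k := by exact_mod_cast hk.1
      have hnr : (0 : ℝ) < nT N ∅ := by exact_mod_cast hn0pos
      have hlk : Real.log k ≤ (N : ℝ) ^ κ := by
        rw [Real.log_le_iff_le_exp hkr]
        exact (Nat.le_floor_iff (Real.exp_pos _).le).1 hk.2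
      have hlk0 : 0 ≤ Real.log k := Real.log_nonneg (by exact_mod_cast hk.1)
      have hlog : Real.log ((nT N ∅ * k : ℕ) : ℝ) = Chebyshev.psi N + Real.log k := by
        rw [Nat.cast_mul, Real.log_mul hnr.ne' hkr.ne', hl0]
      refine ⟨Nat.mul_pos hn0pos hk.1, ?_, ?_⟩
      · have hpos : (0 : ℝ) < ((nT N ∅ * k : ℕ) : ℝ) := by exact_mod_cast Nat.mul_pos hn0pos hk.1
        rw [← Real.log_le_iff_le_exp hpos, hlog]
        linarith
      · have hL1 : 1 < Real.log ((nT N ∅ * k : ℕ) : ℝ) := by rw [hlog]; linarith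
        have hL2 : 1 / 4 * (N : ℝ) ≤ Real.log ((nT N ∅ * k : ℕ) : ℝ) := by rw [hlog]; linarith
        have hslack : Real.log (1 + Real.log ((nT N ∅ * k : ℕ) : ℝ) ^ (-β)) ≤ (N : ℝ) ^ (b - 1) := by
          refine (slack_p (by linarith)).trans (le_trans ?_ hN7)
          rw [← Real.mul_rpow (by norm_num) hN0.le]
          exact Real.rpow_le_rpow_of_nonpos (by positivity) hL2 (by linarith)
        rw [Esp_iff hL1]
        refine le_trans ?_ ((sig_nT (by omega) (Finset.empty_subset _)).trans (log_sigma_mul hn0 hk0))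
        have h2 := loglog_tangent (show 1 < Chebyshev.theta N by linarith) hL1
        rw [hlog] at h2 hslack ⊢
        have h3 : (Chebyshev.psi N + Real.log k - Chebyshev.theta N) /
            (Chebyshev.theta N * Real.log (Chebyshev.theta N)) ≤
            2 * C1 * (1 / √(N : ℝ)) + 2 * ((N : ℝ) ^ κ / N) := by
          calc _ ≤ (C1 * √(N : ℝ) + (N : ℝ) ^ κ) / (N / 2) := by
                gcongr
                linarith
            _ = _ := by
                have h4 : C1 * √(N : ℝ) / (N / 2) = 2 * C1 * (1 / √(N : ℝ)) := by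
                  rw [div_eq_iff (by positivity)]
                  field_simp
                  rw [Real.sq_sqrt hN0.le]
                rw [add_div, h4]
                ring
        have h5 : 6 / √(N : ℝ) = 6 * (1 / √(N : ℝ)) := by ring
        rw [Finset.sum_empty, h5]
        unfold JJ at hJ
        linarith
    · intro a _ b _ h
      exact Nat.eq_of_mul_eq_mul_left hn0pos h
  rw [Nat.card_Icc, Nat.add_sub_cancel] at h1
  have h2 : (K : ℝ) ≤ cE (Esp β) (Real.exp (3 * N)) := by exact_mod_cast h1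
  have h3 := Nat.sub_one_lt_floor (Real.exp ((N : ℝ) ^ κ))
  linarith

/-- lower bound for the violations with a surplus, all large `x` -/
lemma low_p_all (h : 1 / 2 < Th) {β : ℝ} (hβ : 1 - Th < β) (hβ0 : 0 < β) (ε : ℝ) (hε : 0 < ε) :
    ∀ᶠ x : ℝ in atTop, Real.exp (Real.log x ^ ((1 + Th) / 2 - ε)) ≤ cE (Esp β) x := by
  set e : ℝ := min (min ε (1 / 4)) β with he
  have he0 : 0 < e := lt_min (lt_min hε (by norm_num)) hβ0
  have he1 : e ≤ ε := (min_le_left _ _).trans (min_le_left _ _)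
  have he2 : e ≤ 1 / 4 := (min_le_left _ _).trans (min_le_right _ _)
  have he3 : e ≤ β := min_le_right _ _
  refine low_lower (κ := (1 + Th) / 2 - e) (by linarith) ?_
  rcases eq_or_lt_of_le Th_le with h1 | h1
  · -- zeros arbitrarily close to the line `1`
    rw [h1]
    set b : ℝ := 1 - e / 4 with hb
    obtain ⟨ρ, hρ, hρb⟩ := exists_zero_gt (b := b) (by rw [h1, hb]; linarith)
    have hm := mulp_s (b := b) (κ := 1 - e / 2) (β := β) (by rw [hb]; linarith) hβ0
      (by rw [hb]; linarith) (by rw [hb]; linarith) (by rw [hb]; linarith)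
    have hw := JJ_window (b := b) (by rw [hb]; linarith) hρ hρb (C := 2) zero_le_two (δ := e / 4) (by linarith)
      (by linarith)
    refine low_x (a := 3) (d := 1) (κ := 1 - e / 2) (δ := e / 4) (C := 2) (b := b) (by norm_num) zero_le_one
      (by linarith) (by linarith) (by linarith) (by nlinarith) ?_ hw
    filter_upwards [hm] with N hN hJ
    exact hN hJ
  · set m : ℝ := max (max (max (1 / 2) (2 * Th - 1)) (Th - e / 2)) (1 - β) with hmd
    have m1 : 1 / 2 ≤ m :=
      ((le_max_left _ _).trans (le_max_left _ _)).trans (le_max_left _ _)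
    have m2 : 2 * Th - 1 ≤ m :=
      ((le_max_right _ _).trans (le_max_left _ _)).trans (le_max_left _ _)
    have m3 : Th - e / 2 ≤ m := (le_max_right _ _).trans (le_max_left _ _)
    have m5 : 1 - β ≤ m := le_max_right _ _
    have m4 : m < Th := max_lt (max_lt (max_lt h (by linarith)) (by linarith)) (by linarith)
    set b : ℝ := (m + Th) / 2 with hb
    obtain ⟨ρ, hρ, hρb⟩ := exists_zero_gt (b := b) (by rw [hb]; linarith)
    set Θ' : ℝ := (Th + (1 + b) / 2) / 2 with hΘ'
    obtain ⟨C, hC⟩ := free_Rr (θ := Th) (Θ := Θ') h.le Th_free (by rw [hΘ', hb]; linarith) (by rw [hΘ', hb]; linarith)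
    set κ : ℝ := (1 + Th) / 2 - e / 2 with hκ
    have hm := delp_s (b := b) (Θ := Θ') (κ := κ) (β := β) (by rw [hb]; linarith) hβ0
      (by rw [hb]; linarith) (by rw [hb]; linarith)
      (by rw [hΘ', hb]; linarith) (by rw [hκ, hb]; linarith) hC (by rw [hΘ', hb]; linarith)
    have hw := JJ_window (b := b) (by rw [hb]; linarith) hρ hρb (C := 34) (by norm_num) (δ := e / 4) (by linarith)
      (by linarith)
    refine low_x (a := 2) (d := 0) (κ := κ) (δ := e / 4) (C := 34) (b := b) (by norm_num) le_rfl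
      (by rw [hκ]; linarith) (by linarith) (by linarith) (by rw [hκ]; nlinarith) ?_ hw
    filter_upwards [hm] with N hN hJ
    rw [sub_zero]
    exact hN hJ

/-- **Violations with a surplus.** -/
theorem lim_surplus (h : 1 / 2 < Th) {β : ℝ} (hβ : 1 - Th < β) (hβ0 : 0 < β) :
    Tendsto (fun x : ℝ => Real.log (Real.log (cE (Esp β) x)) / Real.log (Real.log x)) atTop
      (𝓝 ((1 + Th) / 2)) :=
  tendsto_of (fun _ hx => three_le (fun _ a b => surplus_small hβ0 a b) hx)
    (up_Th fun x => (cE_monoP (fun _ hn hE => Es_of_Esp' hn hE) x).trans (cE_le x))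
    (low_p_all h hβ hβ0)

/-- no violations with a large surplus -/
theorem no_surplus {β : ℝ} (h0 : 0 < β) (h : β < 1 - Th) : ∀ᶠ n : ℕ in atTop, ¬ Esp β n := by
  have hT := Th_ge
  set Θ : ℝ := (Th + (1 - β)) / 2 with hΘ
  have t1 : Th < Θ := by rw [hΘ]; linarith
  have t2 : Θ < 1 - β := by rw [hΘ]; linarith
  obtain ⟨C, hC⟩ := free_Rr Th_ge Th_free t1 (by linarith)
  have hlog : Tendsto (fun n : ℕ => Real.log n) atTop atTop :=
    Real.tendsto_log_atTop.comp tendsto_natCast_atTop_atTop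
  filter_upwards [hlog.eventually_ge_atTop 3,
    hlog.eventually (ev_pow (2 * (3 * C + 2 * C / (1 - Θ)) + 1) (show Θ - 1 < -β by linarith))]
    with n hn3 hn hE
  set L := Real.log n with hL
  have hL0 : 0 < L := by linarith
  have hL1 : 1 < Real.log n := by rw [← hL]; linarith
  have hn0 : n ≠ 0 := by
    rintro rfl
    rw [Nat.cast_zero, Real.log_zero] at hL
    linarith
  have hE1 := ((Esp_iff hL1).1 hE).trans (sigma_le_vv hn0)
  rw [← hL] at hE1
  have hD := D_pow (by linarith) hC hn3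
  have h2 := str (b := Real.log (1 + L ^ (-β))) hn0 hL (by linarith) hE1 hD
  have h3 : 0 ≤ ∑ p ∈ Miss n L, (L - p) / (p * L) := by
    refine Finset.sum_nonneg fun p hp => ?_
    simp only [Miss, Finset.mem_filter, Finset.mem_Icc] at hp
    have a : (p : ℝ) ≤ L := (Nat.le_floor_iff hL0.le).1 hp.1.1.2
    have a' : (0 : ℝ) ≤ p := Nat.cast_nonneg _
    exact div_nonneg (by linarith) (by positivity)
  have hy0 : 0 < L ^ (-β) := Real.rpow_pos_of_pos hL0 _
  have hy1 : L ^ (-β) ≤ 1 :=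
    (Real.rpow_lt_one_of_one_lt_of_neg (by linarith) (neg_lt_zero.2 h0)).le
  have h4 : L ^ (-β) / 2 ≤ Real.log (1 + L ^ (-β)) := by
    refine le_trans ?_ (Real.one_sub_inv_le_log_of_pos (by linarith))
    have h5 : (1 + L ^ (-β))⁻¹ ≤ 1 - L ^ (-β) / 2 := by
      rw [inv_le_iff_one_le_mul₀ (by linarith)]
      nlinarith
    linarith
  have h6 : 0 < L ^ (Θ - 1) := Real.rpow_pos_of_pos hL0 _
  have h7 : (2 * (3 * C + 2 * C / (1 - Θ)) + 1) * L ^ (Θ - 1) =
      2 * ((3 * C + 2 * C / (1 - Θ)) * L ^ (Θ - 1)) + L ^ (Θ - 1) := by ring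
  rw [h7] at hn
  linarith

end

end Pool.Agent.K3h81.RB
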