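import Pool.Agent.K3h81.RB.Nea3

/-!
# Large values of `n / φ(n)` with a surplus
-/

set_option autoImplicit false

namespace Pool.Agent.K3h81.RB

open Filter Topology
open Nat (primesLE)

noncomputable section

/-- `n / φ(n) ≥ e^γ log log n (1 + (log n)^(-β))` -/
def Efp (β : ℝ) (n : ℕ) : Prop :=
  Real.exp Real.eulerMascheroniConstant * (Nat.totient n) * Real.log (Real.log n) *
    (1 + Real.log n ^ (-β)) ≤ n

lemma Efp_iff {β : ℝ} {n : ℕ} (hL : 1 < Real.log n) : Efp β n ↔
    Real.eulerMascheroniConstant + Real.log (Real.log (Real.log n)) +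
      Real.log (1 + Real.log n ^ (-β)) ≤ ∑ p ∈ n.primeFactors, vv p := by
  have hn : n ≠ 0 := by
    rintro rfl
    norm_num at hL
  have hn0 : (0 : ℝ) < n := by exact_mod_cast Nat.pos_of_ne_zero hn
  have hp0 : (0 : ℝ) < Nat.totient n := by
    exact_mod_cast Nat.totient_pos.2 (Nat.pos_of_ne_zero hn)
  have hu : 0 < 1 + Real.log n ^ (-β) := by positivity
  have h := log_form (n := n) (A := Nat.totient n * (1 + Real.log n ^ (-β)))
    (B := (n : ℝ)) hL (by positivity)
  have e1 : Real.log ((n : ℝ) / (Nat.totient n * (1 + Real.log n ^ (-β)))) =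
      Real.log ((n : ℝ) / Nat.totient n) - Real.log (1 + Real.log n ^ (-β)) := by
    rw [← div_div, Real.log_div (by positivity) hu.ne']
  rw [e1, log_phi hn] at h
  unfold Efp
  have e2 : Real.exp Real.eulerMascheroniConstant * (Nat.totient n) * Real.log (Real.log n) *
      (1 + Real.log n ^ (-β)) = Real.exp Real.eulerMascheroniConstant *
      (Nat.totient n * (1 + Real.log n ^ (-β))) * Real.log (Real.log n) := by ring
  rw [e2, h]
  constructor
  · rintro ⟨-, h2⟩; linarith
  · intro h2; exact ⟨hn0, by linarith⟩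

lemma Ef_of_Efp {β : ℝ} {n : ℕ} (hL : 1 < Real.log n) (h : Efp β n) : Ef n := by
  rw [Ef_iff hL]
  have h1 := (Efp_iff hL).1 h
  have h2 : 0 ≤ Real.log n ^ (-β) := Real.rpow_nonneg (by linarith) _
  have h3 : 0 ≤ Real.log (1 + Real.log n ^ (-β)) := Real.log_nonneg (by linarith)
  linarith

lemma Ef_small {n : ℕ} (h1 : 1 ≤ n) (h3 : n ≤ 3) : Ef n := by
  unfold Ef
  have h2 := loglog_small h1 h3
  have hg := eg_le
  have heg0 : 0 < Real.exp Real.eulerMascheroniConstant := Real.exp_pos _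
  have hn : (1 : ℝ) ≤ n := by exact_mod_cast h1
  have ht : (Nat.totient n : ℝ) ≤ n := by exact_mod_cast Nat.totient_le n
  have ht0 : (0 : ℝ) ≤ Nat.totient n := Nat.cast_nonneg _
  calc Real.exp Real.eulerMascheroniConstant * (Nat.totient n) * Real.log (Real.log n)
      ≤ Real.exp Real.eulerMascheroniConstant * (Nat.totient n) * (1 / 5) :=
        mul_le_mul_of_nonneg_left h2 (by positivity)
    _ ≤ 2 * n * (1 / 5) := by gcongr
    _ ≤ n := by linarith

lemma Ef_of_Efp' {β : ℝ} {n : ℕ} (hn : 1 ≤ n) (h : Efp β n) : Ef n := by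
  rcases Nat.lt_or_ge 3 n with h3 | h3
  · exact Ef_of_Efp (log_gt_one h3) h
  · exact Ef_small hn h3

lemma surplus_small_f {β : ℝ} (hβ : 0 < β) {n : ℕ} (hn1 : 1 ≤ n) (hn3 : n ≤ 3) : Efp β n := by
  have heg := eg_le
  have heg0 : 0 < Real.exp Real.eulerMascheroniConstant := Real.exp_pos _
  have hss := loglog_small hn1 hn3
  have hlog3 : 1 < Real.log 3 := by
    rw [Real.lt_log_iff_exp_lt (by norm_num)]
    linarith [Real.exp_one_lt_d9]
  interval_cases n
  · unfold Efp
    simp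
  · unfold Efp
    have ht : Nat.totient 2 = 1 := by decide
    have ha := Real.log_two_gt_d9
    have hb := Real.log_two_lt_d9
    rw [ht]
    push_cast
    have h2 : Real.log (Real.log 2) ≤ 0 := Real.log_nonpos (by linarith) (by linarith)
    have h3 : 0 ≤ Real.log 2 ^ (-β) := Real.rpow_nonneg (by linarith) _
    have h4 : Real.exp Real.eulerMascheroniConstant * 1 * Real.log (Real.log 2) ≤ 0 :=
      mul_nonpos_of_nonneg_of_nonpos (by positivity) h2
    have h5 : Real.exp Real.eulerMascheroniConstant * 1 * Real.log (Real.log 2) *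
        (1 + Real.log 2 ^ (-β)) ≤ 0 := mul_nonpos_of_nonpos_of_nonneg h4 (by linarith)
    linarith
  · unfold Efp
    have ht : Nat.totient 3 = 2 := by decide
    rw [ht]
    push_cast at hss ⊢
    have h1 : Real.log 3 ^ (-β) ≤ 1 :=
      (Real.rpow_lt_one_of_one_lt_of_neg hlog3 (neg_lt_zero.2 hβ)).le
    have h0 : 0 ≤ Real.log 3 ^ (-β) := Real.rpow_nonneg (by linarith) _
    have hll : 0 ≤ Real.log (Real.log 3) := Real.log_nonneg hlog3.le
    calc Real.exp Real.eulerMascheroniConstant * 2 * Real.log (Real.log 3) * (1 + Real.log 3 ^ (-β))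
        ≤ 2 * 2 * (1 / 5) * (1 + 1) := by gcongr
      _ ≤ 3 := by norm_num

lemma Efp_of_Esp {β : ℝ} (hβ : 0 < β) {n : ℕ} (hn : 1 ≤ n) (h : Esp β n) : Efp β n := by
  rcases Nat.lt_or_ge 3 n with h3 | h3
  · have hL := log_gt_one h3
    rw [Efp_iff hL]
    exact ((Esp_iff hL).1 h).trans (sigma_le_vv (by omega))
  · exact surplus_small_f hβ hn h3

theorem delp_f {b Θ κ C β : ℝ} (hbβ : 1 - β < b) (hβ : 0 < β) (hb0 : 0 < b) (hb1 : b < 1)
    (hΘ : Θ < (1 + b) / 2) (hκ : κ < (1 + b) / 2)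
    (hC : ∀ t : ℝ, 1 ≤ t → |Rr t| ≤ C * t ^ Θ) (hΘ0 : 0 ≤ Θ) :
    ∀ᶠ N : ℕ in atTop, 34 * (N : ℝ) ^ (b - 1) < JJ N →
      Real.exp ((N : ℝ) ^ κ) ≤ cE (Efp β) (Real.exp (2 * N)) := by
  obtain ⟨C1, hC1, hr⟩ := rough
  filter_upwards [hr, del_common (by linarith) hb1 hΘ hκ hC hΘ0,
    ev_pow_nat ((1 / 4 : ℝ) ^ (-β)) (show -β < b - 1 by linarith)] with N hN1 hN2 hN4 hJ
  obtain ⟨r1, r2, r3, r4, r5⟩ := hN1
  obtain ⟨d0, d1, d2, d3, d4, d5, d6⟩ := hN2
  set h : ℝ := (N : ℝ) ^ ((1 + b) / 2) with hh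
  have hN6 : (6 : ℝ) ≤ N := by exact_mod_cast d0
  have hN0 : (0 : ℝ) < N := by linarith
  refine win_count (fun T => mT N T) (fun T hT => ?_) (fun T _ => mT_pf) d4 (by omega) d5
  have hTs := hT.trans Win_sub
  have hln := log_mT hTs
  have hnn : 0 ≤ ∑ p ∈ T, Real.log p := Finset.sum_nonneg fun p hp =>
    Real.log_nonneg (by exact_mod_cast (Nat.one_lt_of_mem_primesLE (hTs hp)).le)
  have hub : ∑ p ∈ T, Real.log p ≤ N / 4 := by
    refine le_trans ?_ d6
    calc ∑ p ∈ T, Real.log p ≤ T.card * Real.log N := by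
          rw [← nsmul_eq_mul]
          refine Finset.sum_le_card_nsmul _ _ _ fun p hp => ?_
          have hp1 := Nat.one_lt_of_mem_primesLE (hTs hp)
          exact Real.log_le_log (by exact_mod_cast (by omega : 0 < p))
            (by exact_mod_cast Nat.le_of_mem_primesLE (hTs hp))
      _ ≤ (h + 1) * Real.log N := by
          have h3 := Finset.card_le_card hT
          have h4 : (T.card : ℝ) ≤ ((Win N h).card : ℝ) := by exact_mod_cast h3
          have h5 := h4.trans (card_win_le (by linarith) (by linarith))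
          have hl : 0 ≤ Real.log N := Real.log_nonneg (by linarith)
          gcongr
  have hpt := Chebyshev.theta_le_psi N
  have hL1 : 1 < Real.log (mT N T) := by rw [hln]; linarith
  have hL2 : 1 / 4 * (N : ℝ) ≤ Real.log (mT N T) := by rw [hln]; linarith
  refine ⟨Nat.one_le_iff_ne_zero.2 mT_ne, ?_, ?_⟩
  · have hpos : (0 : ℝ) < mT N T := by exact_mod_cast Nat.pos_of_ne_zero mT_ne
    rw [← Real.log_le_iff_le_exp hpos, hln]
    linarith
  · have hslack : Real.log (1 + Real.log (mT N T) ^ (-β)) ≤ (N : ℝ) ^ (b - 1) := by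
      refine (slack_p (by linarith)).trans (le_trans ?_ hN4)
      rw [← Real.mul_rpow (by norm_num) hN0.le]
      exact Real.rpow_le_rpow_of_nonpos (by positivity) hL2 (by linarith)
    have hth := theta_gt_one (show (5 : ℝ) ≤ N by linarith)
    rw [Efp_iff hL1, mT_pf]
    have h0 : ∑ p ∈ primesLE N \ T, vv p = VS N - ∑ p ∈ T, vv p := by
      rw [VS_primes, ← Finset.sum_sdiff hTs]
      ring
    rw [h0]
    have ht := loglog_tangent hth hL1
    have hden : 0 < Chebyshev.theta N * Real.log (Chebyshev.theta N) := by linarith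
    have hcost := sum_cost (by omega) d1 d2 d3 hT
    rw [sq_window (by omega), Finset.sum_sub_distrib, ← Finset.sum_div] at hcost
    have h1 : (Real.log (mT N T) - Chebyshev.theta N) /
        (Chebyshev.theta N * Real.log (Chebyshev.theta N)) =
        -((∑ p ∈ T, Real.log p) / (Chebyshev.theta N * Real.log (Chebyshev.theta N))) := by
      rw [hln, ← neg_div]; congr 1; ring
    have hp : 0 < (N : ℝ) ^ (b - 1) := by positivity
    rw [h1] at ht
    unfold JJ at hJ
    linarith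

/-- lower bound with a surplus, all large `x` -/
lemma low_pf_all {β : ℝ} (hβ : 1 - Th < β) (hβ0 : 0 < β) (ε : ℝ) (hε : 0 < ε) :
    ∀ᶠ x : ℝ in atTop, Real.exp (Real.log x ^ ((1 + Th) / 2 - ε)) ≤ cE (Efp β) x := by
  rcases eq_or_lt_of_le Th_ge with h | h
  · set e : ℝ := min (min ε (1 / 4)) (β - 1 / 2) with he
    have he0 : 0 < e := lt_min (lt_min hε (by norm_num)) (by linarith)
    have he1 : e ≤ ε := (min_le_left _ _).trans (min_le_left _ _)
    have he2 : e ≤ 1 / 4 := (min_le_left _ _).trans (min_le_right _ _)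
    have he3 : e ≤ β - 1 / 2 := min_le_right _ _
    refine low_lower (κ := (1 + Th) / 2 - e) (by linarith) ?_
    set b : ℝ := 1 / 2 - e / 2 with hb
    obtain ⟨ρ, hρ, hρb⟩ := exists_zero_gt (b := b) (by rw [← h, hb]; linarith)
    obtain ⟨C, hC⟩ := free_Rr (θ := 1 / 2) (Θ := 5 / 8) le_rfl (by rw [h]; exact Th_free) (by norm_num) (by norm_num)
    set κ : ℝ := 3 / 4 - e / 2 with hκ
    have hm := delp_f (b := b) (Θ := 5 / 8) (κ := κ) (β := β) (by rw [hb]; linarith) hβ0
      (by rw [hb]; linarith) (by rw [hb]; linarith)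
      (by rw [hb]; linarith) (by rw [hκ, hb]; linarith) hC (by norm_num)
    have hw := JJ_window (b := b) (by rw [hb]; linarith) hρ hρb (C := 34) (by norm_num) (δ := e / 4) (by linarith)
      (by linarith)
    refine low_x (a := 2) (d := 0) (κ := κ) (δ := e / 4) (C := 34) (b := b) (by norm_num) le_rfl
      (by rw [hκ]; linarith) (by rw [← h]; linarith) (by linarith) (by rw [hκ, ← h]; nlinarith) ?_ hw
    filter_upwards [hm] with N hN hJ
    rw [sub_zero]
    exact hN hJ
  · filter_upwards [low_p_all h hβ hβ0 ε hε] with x hx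
    exact hx.trans (by exact_mod_cast cE_monoP (fun n hn hE => Efp_of_Esp hβ0 hn hE) x)

/-- **Large values of `n / φ(n)` with a surplus.** -/
theorem lim_surplus_f {β : ℝ} (hβ : 1 - Th < β) (hβ0 : 0 < β) :
    Tendsto (fun x : ℝ => Real.log (Real.log (cE (Efp β) x)) / Real.log (Real.log x)) atTop
      (𝓝 ((1 + Th) / 2)) :=
  tendsto_of (fun _ hx => three_le (fun _ a b => surplus_small_f hβ0 a b) hx)
    (up_Th fun x => cE_monoP (fun _ hn hE => Ef_of_Efp' hn hE) x)
    (low_pf_all hβ hβ0)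

/-- no large values with a large surplus -/
theorem no_surplus_f {β : ℝ} (h0 : 0 < β) (h : β < 1 - Th) : ∀ᶠ n : ℕ in atTop, ¬ Efp β n := by
  have hT := Th_ge
  set Θ : ℝ := (Th + (1 - β)) / 2 with hΘ
  have t1 : Th < Θ := by rw [hΘ]; linarith
  have t2 : Θ < 1 - β := by rw [hΘ]; linarith
  obtain ⟨C, hC⟩ := free_Rr Th_ge Th_free t1 (by linarith)
  have hlog : Tendsto (fun n : ℕ => Real.log n) atTop atTop :=
    Real.tendsto_log_atTop.comp tendsto_natCast_atTop_atTop
  filter_upwards [hlog.eventually_ge_atTop 3,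
    hlog.eventually (ev_pow (2 * (3 * C + 2 * C / (1 - Θ)) + 1) (show Θ - 1 < -β by linarith))]
    with n hn3 hn hE
  set L := Real.log n with hL
  have hL0 : 0 < L := by linarith
  have hL1 : 1 < Real.log n := by rw [← hL]; linarith
  have hn0 : n ≠ 0 := by
    rintro rfl
    rw [Nat.cast_zero, Real.log_zero] at hL
    linarith
  have hE1 := (Efp_iff hL1).1 hE
  rw [← hL] at hE1
  have hD := D_pow (by linarith) hC hn3
  have h2 := str (b := Real.log (1 + L ^ (-β))) hn0 hL (by linarith) hE1 hD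
  have h3 : 0 ≤ ∑ p ∈ Miss n L, (L - p) / (p * L) := by
    refine Finset.sum_nonneg fun p hp => ?_
    simp only [Miss, Finset.mem_filter, Finset.mem_Icc] at hp
    have a : (p : ℝ) ≤ L := (Nat.le_floor_iff hL0.le).1 hp.1.1.2
    have a' : (0 : ℝ) ≤ p := Nat.cast_nonneg _
    exact div_nonneg (by linarith) (by positivity)
  have hy0 : 0 < L ^ (-β) := Real.rpow_pos_of_pos hL0 _
  have hy1 : L ^ (-β) ≤ 1 :=
    (Real.rpow_lt_one_of_one_lt_of_neg (by linarith) (neg_lt_zero.2 h0)).le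
  have h4 : L ^ (-β) / 2 ≤ Real.log (1 + L ^ (-β)) := by
    refine le_trans ?_ (Real.one_sub_inv_le_log_of_pos (by linarith))
    have h5 : (1 + L ^ (-β))⁻¹ ≤ 1 - L ^ (-β) / 2 := by
      rw [inv_le_iff_one_le_mul₀ (by linarith)]
      nlinarith
    linarith
  have h6 : 0 < L ^ (Θ - 1) := Real.rpow_pos_of_pos hL0 _
  have h7 : (2 * (3 * C + 2 * C / (1 - Θ)) + 1) * L ^ (Θ - 1) =
      2 * ((3 * C + 2 * C / (1 - Θ)) * L ^ (Θ - 1)) + L ^ (Θ - 1) := by ring
  rw [h7] at hn
  linarith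

end

end Pool.Agent.K3h81.RB
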