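import Pool.Agent.K3h81.RB.Lan1
import Pool.Agent.W66.PC

/-!
# The prime number theorem with the classical error term: the logarithmic means
-/

set_option autoImplicit false

namespace Pool.Agent.K3h81.RB

open Filter Topology MeasureTheory
open Pool.Agent.W66 (hat hat_eq hat_zero_of hat_nonneg ell PS PT PE_bound)

noncomputable section

/-- `∑_{n ≤ e^v} Λ(n)/n` -/
def Mv (v : ℝ) : ℝ := ∑ n ∈ Finset.Icc 1 ⌊Real.exp v⌋₊, ArithmeticFunction.vonMangoldt n / n

lemma Mv_mono : Monotone Mv := by
  intro v w h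
  unfold Mv
  refine Finset.sum_le_sum_of_subset_of_nonneg (Finset.Icc_subset_Icc le_rfl
    (Nat.floor_le_floor (Real.exp_le_exp.2 h))) fun n _ _ => ?_
  exact div_nonneg ArithmeticFunction.vonMangoldt_nonneg (Nat.cast_nonneg n)

def ind (a v : ℝ) : ℝ := if a ≤ v then 1 else 0

lemma ind_mono (a : ℝ) : Monotone (ind a) := by
  intro v w h
  unfold ind
  split_ifs with h1 h2
  · exact le_rfl
  · exact absurd (h1.trans h) h2
  · norm_num
  · exact le_rfl

lemma int_ind (a p q : ℝ) (hpq : p ≤ q) : ∫ v in p..q, ind a v = max (q - a) 0 - max (p - a) 0 := by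
  have hi : ∀ x y : ℝ, IntervalIntegrable (ind a) volume x y := fun x y => (ind_mono a).intervalIntegrable
  have h0 : ∀ x y : ℝ, x ≤ y → y ≤ a → ∫ v in x..y, ind a v = 0 := by
    intro x y hxy hy
    rw [intervalIntegral.integral_of_le hxy, integral_Ioc_eq_integral_Ioo]
    rw [setIntegral_congr_fun (g := fun _ => (0 : ℝ)) measurableSet_Ioo (fun v hv => by
      have : ¬ a ≤ v := by have := hv.2; linarith
      simp only [ind, if_neg this])]
    simp
  have h1 : ∀ x y : ℝ, x ≤ y → a ≤ x → ∫ v in x..y, ind a v = y - x := by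
    intro x y hxy hx
    rw [intervalIntegral.integral_of_le hxy]
    rw [setIntegral_congr_fun (g := fun _ => (1 : ℝ)) measurableSet_Ioc (fun v hv => by
      have : a ≤ v := by have := hv.1; linarith
      simp only [ind, if_pos this])]
    rw [← intervalIntegral.integral_of_le hxy]
    simp
  rcases le_total a p with h | h
  · rw [h1 p q hpq h, max_eq_left (by linarith), max_eq_left (by linarith)]
    ring
  · rcases le_total q a with h2 | h2
    · rw [h0 p q hpq h2, max_eq_right (by linarith), max_eq_right (by linarith)]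
      ring
    · rw [← intervalIntegral.integral_add_adjacent_intervals (hi p a) (hi a q), h0 p a h le_rfl,
        h1 a q h2 le_rfl, max_eq_left (by linarith), max_eq_right (by linarith)]
      ring

lemma hat_ind (a u : ℝ) : hat (u - a) = (∫ v in u..(u + 1), ind a v) - ∫ v in (u - 1)..u, ind a v := by
  rw [int_ind a u (u + 1) (by linarith), int_ind a (u - 1) u (by linarith), hat_eq]
  have e1 : u - a + 1 = u + 1 - a := by ring
  have e2 : u - a - 1 = u - 1 - a := by ring
  rw [e1, e2]
  ring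

lemma Mv_eq {v w : ℝ} (hvw : v ≤ w) : Mv v = ∑ n ∈ Finset.Icc 1 ⌊Real.exp w⌋₊,
    ArithmeticFunction.vonMangoldt n / n * ind (Real.log n) v := by
  unfold Mv
  have hsub : Finset.Icc 1 ⌊Real.exp v⌋₊ ⊆ Finset.Icc 1 ⌊Real.exp w⌋₊ :=
    Finset.Icc_subset_Icc le_rfl (Nat.floor_le_floor (Real.exp_le_exp.2 hvw))
  rw [← Finset.sum_subset hsub]
  · refine Finset.sum_congr rfl fun n hn => ?_
    rw [Finset.mem_Icc] at hn
    have h1 : (n : ℝ) ≤ Real.exp v := (Nat.le_floor_iff (Real.exp_pos v).le).1 hn.2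
    have h2 : Real.log n ≤ v := by
      rwa [Real.log_le_iff_le_exp (by exact_mod_cast hn.1)]
    rw [ind, if_pos h2, mul_one]
  · intro n hn hn'
    rw [Finset.mem_Icc] at hn hn'
    have h1 : ⌊Real.exp v⌋₊ < n := by
      by_contra hcon
      exact hn' ⟨hn.1, not_lt.1 hcon⟩
    have h2 : Real.exp v < n := (Nat.floor_lt (Real.exp_pos v).le).1 h1
    have h3 : ¬ Real.log n ≤ v := by
      rw [not_le, Real.lt_log_iff_exp_lt (by exact_mod_cast hn.1)]
      exact h2
    rw [ind, if_neg h3, mul_zero]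

/-- the hat weighted sum -/
lemma PS_eq_M (u : ℝ) : PS u 0 = (((∫ v in u..(u + 1), Mv v) - ∫ v in (u - 1)..u, Mv v : ℝ) : ℂ) := by
  set N := ⌊Real.exp (u + 1)⌋₊ with hN
  have h1 : PS u 0 = ((∑ n ∈ Finset.Icc 1 N, ArithmeticFunction.vonMangoldt n / n * hat (u - Real.log n) : ℝ) : ℂ) := by
    unfold Pool.Agent.W66.PS
    rw [tsum_eq_sum (s := Finset.Icc 1 N)]
    · push_cast
      refine Finset.sum_congr rfl fun n hn => ?_
      rw [Finset.mem_Icc] at hn
      rw [LSeries.term_of_ne_zero (by omega)]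
      have e : (⟨1, 0⟩ : ℂ) = 1 := rfl
      rw [e, Complex.cpow_one]
      rfl
    · intro n hn
      rcases Nat.eq_zero_or_pos n with rfl | hn0
      · simp
      · have h2 : N < n := by
          by_contra hcon
          exact hn (Finset.mem_Icc.2 ⟨hn0, not_lt.1 hcon⟩)
        have h3 : Real.exp (u + 1) < n := (Nat.floor_lt (Real.exp_pos _).le).1 h2
        have h4 : u + 1 < Real.log n := by
          rwa [Real.lt_log_iff_exp_lt (by exact_mod_cast hn0)]
        rw [hat_zero_of, Complex.ofReal_zero, mul_zero]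
        rw [abs_of_nonpos (by linarith)]
        linarith
  rw [h1]
  congr 1
  have h2 : ∫ v in u..(u + 1), Mv v = ∑ n ∈ Finset.Icc 1 N, ArithmeticFunction.vonMangoldt n / n *
      ∫ v in u..(u + 1), ind (Real.log n) v := by
    have e : ∫ v in u..(u + 1), Mv v = ∫ v in u..(u + 1), ∑ n ∈ Finset.Icc 1 N,
        ArithmeticFunction.vonMangoldt n / n * ind (Real.log n) v := by
      refine intervalIntegral.integral_congr fun v hv => ?_
      rw [Set.uIcc_of_le (by linarith)] at hv
      exact Mv_eq hv.2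
    rw [e, intervalIntegral.integral_finsetSum]
    · refine Finset.sum_congr rfl fun n _ => ?_
      rw [intervalIntegral.integral_const_mul]
    · intro n _
      exact ((ind_mono _).intervalIntegrable).const_mul _
  have h3 : ∫ v in (u - 1)..u, Mv v = ∑ n ∈ Finset.Icc 1 N, ArithmeticFunction.vonMangoldt n / n *
      ∫ v in (u - 1)..u, ind (Real.log n) v := by
    have e : ∫ v in (u - 1)..u, Mv v = ∫ v in (u - 1)..u, ∑ n ∈ Finset.Icc 1 N,
        ArithmeticFunction.vonMangoldt n / n * ind (Real.log n) v := by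
      refine intervalIntegral.integral_congr fun v hv => ?_
      rw [Set.uIcc_of_le (by linarith)] at hv
      exact Mv_eq (by linarith [hv.2])
    rw [e, intervalIntegral.integral_finsetSum]
    · refine Finset.sum_congr rfl fun n _ => ?_
      rw [intervalIntegral.integral_const_mul]
    · intro n _
      exact ((ind_mono _).intervalIntegrable).const_mul _
  rw [h2, h3, ← Finset.sum_sub_distrib]
  refine Finset.sum_congr rfl fun n _ => ?_
  rw [hat_ind]
  ring

lemma PT_one {u : ℝ} (hu : 1 ≤ u) : PT u 0 = 1 := by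
  unfold Pool.Agent.W66.PT
  have h1 : ∀ v : ℝ, Complex.exp (-(((0 * v : ℝ) : ℂ) * Complex.I)) * ((hat (u - v) : ℝ) : ℂ) =
      ((hat (u - v) : ℝ) : ℂ) := by
    intro v
    simp
  simp only [h1]
  rw [integral_complex_ofReal]
  have h2 : ∫ v in Set.Ioi (0 : ℝ), hat (u - v) = 1 := by
    have hind : ∀ v : ℝ, hat (u - v) = (Set.Ioc (u - 1) (u + 1)).indicator (fun v => hat (u - v)) v := by
      intro v
      by_cases hv : v ∈ Set.Ioc (u - 1) (u + 1)
      · rw [Set.indicator_of_mem hv]
      · rw [Set.indicator_of_notMem hv, hat_zero_of]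
        rw [Set.mem_Ioc, not_and_or, not_lt, not_le] at hv
        rcases hv with hv | hv
        · rw [abs_of_nonneg (by linarith)]; linarith
        · rw [abs_of_nonpos (by linarith)]; linarith
    have h3 : ∫ v in Set.Ioi (0 : ℝ), hat (u - v) =
        ∫ v in Set.Ioi (0 : ℝ), (Set.Ioc (u - 1) (u + 1)).indicator (fun v => hat (u - v)) v := by
      refine integral_congr_ae (Eventually.of_forall fun v => ?_)
      exact hind v
    rw [h3, setIntegral_indicator measurableSet_Ioc]
    have h4 : Set.Ioi (0 : ℝ) ∩ Set.Ioc (u - 1) (u + 1) = Set.Ioc (u - 1) (u + 1) := by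
      apply Set.inter_eq_right.2
      intro v hv
      have := hv.1
      show (0 : ℝ) < v
      linarith
    rw [h4, ← intervalIntegral.integral_of_le (by linarith)]
    have hc : Continuous fun v : ℝ => hat (u - v) := Pool.Agent.W66.hat_continuous.comp (by fun_prop)
    rw [← intervalIntegral.integral_add_adjacent_intervals (b := u) (hc.intervalIntegrable _ _)
      (hc.intervalIntegrable _ _)]
    have h5 : ∫ v in (u - 1)..u, hat (u - v) = ∫ v in (u - 1)..u, (1 - u + v) := by
      refine intervalIntegral.integral_congr fun v hv => ?_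
      rw [Set.uIcc_of_le (by linarith)] at hv
      simp only [Pool.Agent.W66.hat]
      rw [abs_of_nonneg (by linarith [hv.2]), max_eq_left (by linarith [hv.1])]
      ring
    have h6 : ∫ v in u..(u + 1), hat (u - v) = ∫ v in u..(u + 1), (1 + u - v) := by
      refine intervalIntegral.integral_congr fun v hv => ?_
      rw [Set.uIcc_of_le (by linarith)] at hv
      simp only [Pool.Agent.W66.hat]
      rw [abs_of_nonpos (by linarith [hv.1]), max_eq_left (by linarith [hv.2])]
      ring
    have h7 : ∫ v in (u - 1)..u, (1 - u + v) = 1 / 2 := by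
      rw [intervalIntegral.integral_add (by simp) (by simp)]
      simp only [intervalIntegral.integral_const, integral_id, smul_eq_mul]
      ring
    have h8 : ∫ v in u..(u + 1), (1 + u - v) = 1 / 2 := by
      rw [intervalIntegral.integral_sub (by simp) (by simp)]
      simp only [intervalIntegral.integral_const, integral_id, smul_eq_mul]
      ring
    rw [h5, h6, h7, h8]
    norm_num
  rw [h2]
  norm_num

lemma sqrt_exp_bound (c : ℝ) (hc : 0 < c) : ∃ B : ℝ, 0 < B ∧ ∀ u : ℝ, 0 ≤ u →
    (1 + u) * Real.exp (-(c * √u)) ≤ B * Real.exp (-(c / 2 * √u)) := by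
  refine ⟨1 + 8 / c ^ 2, by positivity, fun u hu => ?_⟩
  have h1 : Real.exp (-(c * √u)) = Real.exp (-(c / 2 * √u)) * Real.exp (-(c / 2 * √u)) := by
    rw [← Real.exp_add]; congr 1; ring
  rw [h1]
  have h2 : (1 + u) * Real.exp (-(c / 2 * √u)) ≤ 1 + 8 / c ^ 2 := by
    rw [Real.exp_neg, ← div_eq_mul_inv, div_le_iff₀ (Real.exp_pos _)]
    have h3 := Real.quadratic_le_exp_of_nonneg (show 0 ≤ c / 2 * √u by positivity)
    have h4 : √u ^ 2 = u := Real.sq_sqrt hu
    have h5 : (c / 2 * √u) ^ 2 / 2 = c ^ 2 * u / 8 := by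
      rw [mul_pow, h4]; ring
    rw [h5] at h3
    have h6 : 0 ≤ c / 2 * √u := by positivity
    have h7 : 1 + c ^ 2 * u / 8 ≤ Real.exp (c / 2 * √u) := by linarith
    have h8 : (1 + 8 / c ^ 2) * (1 + c ^ 2 * u / 8) = 1 + 8 / c ^ 2 + c ^ 2 * u / 8 + u := by
      field_simp
      ring
    calc 1 + u ≤ (1 + 8 / c ^ 2) * (1 + c ^ 2 * u / 8) := by
          rw [h8]
          have : 0 ≤ 8 / c ^ 2 := by positivity
          have : 0 ≤ c ^ 2 * u / 8 := by positivity
          linarith
      _ ≤ _ := by gcongr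
  calc (1 + u) * (Real.exp (-(c / 2 * √u)) * Real.exp (-(c / 2 * √u))) =
      ((1 + u) * Real.exp (-(c / 2 * √u))) * Real.exp (-(c / 2 * √u)) := by ring
    _ ≤ _ := by gcongr

/-- the second differences of the integral of `Mv` -/
theorem M_diff : ∃ c C : ℝ, 0 < c ∧ 0 < C ∧ ∀ u : ℝ, 1 ≤ u →
    |(∫ v in u..(u + 1), Mv v) - (∫ v in (u - 1)..u, Mv v) - 1| ≤ C * Real.exp (-(c * √u)) := by
  obtain ⟨c, C, hc, hc1, hC, h⟩ := PE_bound
  obtain ⟨B, hB, hBb⟩ := sqrt_exp_bound (c / 3) (by positivity)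
  refine ⟨c / 3 / 2, C * (9 + 9 + 1) * B, by positivity, by positivity, fun u hu => ?_⟩
  have hu0 : 0 < u := by linarith
  have hs1 : 1 ≤ √u := by rwa [Real.one_le_sqrt]
  have hss : √u * √u = u := Real.mul_self_sqrt hu0.le
  have h1 := h u 0 (Real.exp √u) hu (Real.one_le_exp (by positivity))
  rw [abs_zero, zero_add, PS_eq_M, PT_one hu] at h1
  have h2 : ell (Real.exp √u) ≤ 3 * √u := by
    unfold Pool.Agent.W66.ell
    rw [abs_of_pos (Real.exp_pos _)]
    have h3 : Real.exp √u + 3 ≤ Real.exp (3 * √u) := by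
      have e : Real.exp (3 * √u) = Real.exp √u * Real.exp (2 * √u) := by
        rw [← Real.exp_add]; congr 1; ring
      have h4 : 2 ≤ Real.exp √u := by
        have := Real.add_one_le_exp √u
        linarith
      have h5 : 3 ≤ Real.exp (2 * √u) := by
        have := Real.add_one_le_exp (2 * √u)
        linarith
      rw [e]
      nlinarith
    calc Real.log (Real.exp √u + 3) ≤ Real.log (Real.exp (3 * √u)) := Real.log_le_log (by positivity) h3
      _ = _ := Real.log_exp _
  have hell0 : 0 < ell (Real.exp √u) := by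
    have := Pool.Agent.W66.one_le_ell (Real.exp √u)
    linarith
  have h3 : ell (Real.exp √u) ^ 2 ≤ 9 * u := by
    calc ell (Real.exp √u) ^ 2 ≤ (3 * √u) ^ 2 := by gcongr
      _ = 9 * u := by rw [mul_pow, Real.sq_sqrt hu0.le]; norm_num
  have h4 : Real.exp (-(c * u / ell (Real.exp √u))) ≤ Real.exp (-(c / 3 * √u)) := by
    apply Real.exp_le_exp.2
    have h5 : c / 3 * √u ≤ c * u / ell (Real.exp √u) := by
      rw [le_div_iff₀ hell0]
      calc c / 3 * √u * ell (Real.exp √u) ≤ c / 3 * √u * (3 * √u) := by gcongr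
        _ = c * (√u * √u) := by ring
        _ = c * u := by rw [hss]
    linarith
  have h5 : 1 / Real.exp √u ≤ Real.exp (-(c / 3 * √u)) := by
    rw [one_div, ← Real.exp_neg]
    apply Real.exp_le_exp.2
    nlinarith
  have h6 : 1 / Real.exp √u ^ 2 ≤ Real.exp (-(c / 3 * √u)) := by
    refine le_trans ?_ h5
    apply one_div_le_one_div_of_le (Real.exp_pos _)
    have := Real.one_le_exp (show 0 ≤ √u by positivity)
    nlinarith [Real.exp_pos √u]
  set Ex := Real.exp (-(c / 3 * √u)) with hEx
  have hEx0 : 0 < Ex := Real.exp_pos _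
  have h7 : (ell (Real.exp √u)) ^ 2 * Real.exp (-(c * u / ell (Real.exp √u))) +
      (ell (Real.exp √u)) ^ 2 / (Real.exp √u) ^ 2 + u / Real.exp √u ≤ (9 + 9 + 1) * ((1 + u) * Ex) := by
    have a1 : (ell (Real.exp √u)) ^ 2 * Real.exp (-(c * u / ell (Real.exp √u))) ≤ 9 * u * Ex := by gcongr
    have a2 : (ell (Real.exp √u)) ^ 2 / (Real.exp √u) ^ 2 ≤ 9 * u * Ex := by
      rw [div_eq_mul_one_div]
      gcongr
    have a3 : u / Real.exp √u ≤ u * Ex := by
      rw [div_eq_mul_one_div]
      gcongr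
    nlinarith
  have h8 : ‖(((∫ v in u..(u + 1), Mv v) - (∫ v in (u - 1)..u, Mv v) : ℝ) : ℂ) - 1‖ =
      |(∫ v in u..(u + 1), Mv v) - (∫ v in (u - 1)..u, Mv v) - 1| := by
    rw [← Complex.ofReal_one, ← Complex.ofReal_sub, Complex.norm_real, Real.norm_eq_abs]
  rw [h8] at h1
  refine h1.trans ?_
  have h9 := hBb u hu0.le
  calc _ ≤ C * ((9 + 9 + 1) * ((1 + u) * Ex)) := by gcongr
    _ ≤ C * ((9 + 9 + 1) * (B * Real.exp (-(c / 3 / 2 * √u)))) := by gcongr
    _ = _ := by ring

end

end Pool.Agent.K3h81.RB
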