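import Pool.Agent.K3h81.RB.Pnt1

/-!
# The prime number theorem with the classical error term
-/

set_option autoImplicit false

namespace Pool.Agent.K3h81.RB

open Filter Topology MeasureTheory

noncomputable section

/-- the error term of the logarithmic mean -/
def mm (v : ℝ) : ℝ := ru v - Tu v

def c0' : ℝ := 1 + Tu 0

lemma Mv_id {v : ℝ} (hv : 0 ≤ v) : Mv v = v + c0' + mm v := by
  have hx1 : 1 ≤ Real.exp v := Real.one_le_exp hv
  have hder : ∀ t ∈ Set.Icc 1 (Real.exp v), HasDerivAt (fun t : ℝ => t⁻¹) (-(t ^ 2)⁻¹) t :=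
    fun t ht => _root_.hasDerivAt_inv (by have := ht.1; linarith)
  have hdeq : Set.EqOn (deriv fun t : ℝ => t⁻¹) (fun t => -(t ^ 2)⁻¹) (Set.Icc 1 (Real.exp v)) :=
    fun t ht => (hder t ht).deriv
  have hint : IntegrableOn (deriv fun t : ℝ => t⁻¹) (Set.Icc 1 (Real.exp v)) := by
    refine IntegrableOn.congr_fun ?_ (fun t ht => (hdeq ht).symm) measurableSet_Icc
    refine ContinuousOn.integrableOn_Icc ?_
    refine ((continuousOn_pow 2).inv₀ fun t ht => ?_).neg
    have : 1 ≤ t := ht.1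
    positivity
  have h := sum_mul_eq_sub_sub_integral_mul (fun k : ℕ => ArithmeticFunction.vonMangoldt k) zero_le_one hx1
    (fun t ht => (hder t ht).differentiableAt) hint
  have hfl : ⌊(1 : ℝ)⌋₊ = 1 := Nat.floor_one
  have hz : ∑ k ∈ Finset.Icc 0 ⌊(1 : ℝ)⌋₊, ArithmeticFunction.vonMangoldt k = 0 := by
    rw [hfl]
    refine Finset.sum_eq_zero fun k hk => ?_
    rw [Finset.mem_Icc] at hk
    obtain ⟨_, hk1⟩ := hk
    interval_cases k <;> simp
  have hpsi : ∀ t : ℝ, ∑ k ∈ Finset.Icc 0 ⌊t⌋₊, ArithmeticFunction.vonMangoldt k = Chebyshev.psi t :=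
    fun t => (Chebyshev.psi_eq_sum_Icc t).symm
  rw [hz, hpsi] at h
  have hM : Mv v = ∑ k ∈ Finset.Ioc ⌊(1 : ℝ)⌋₊ ⌊Real.exp v⌋₊, (k : ℝ)⁻¹ * ArithmeticFunction.vonMangoldt k := by
    rw [hfl]
    unfold Mv
    have h1 : 1 ≤ ⌊Real.exp v⌋₊ := Nat.le_floor (by exact_mod_cast hx1)
    rw [← Finset.Ioc_insert_left h1, Finset.sum_insert (by simp)]
    simp only [ArithmeticFunction.vonMangoldt_apply_one, zero_div, zero_add]
    refine Finset.sum_congr rfl fun k _ => ?_
    rw [div_eq_mul_inv, mul_comm]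
  have hint2 : ∫ t in Set.Ioc 1 (Real.exp v), deriv (fun t : ℝ => t⁻¹) t *
      ∑ k ∈ Finset.Icc 0 ⌊t⌋₊, ArithmeticFunction.vonMangoldt k =
      -(v + (Tu 0 - Tu v)) := by
    have e1 : ∫ t in Set.Ioc 1 (Real.exp v), deriv (fun t : ℝ => t⁻¹) t *
      ∑ k ∈ Finset.Icc 0 ⌊t⌋₊, ArithmeticFunction.vonMangoldt k =
      ∫ t in Set.Ioc 1 (Real.exp v), -((t ^ 2)⁻¹ * Chebyshev.psi t) := by
      refine setIntegral_congr_fun measurableSet_Ioc fun t ht => ?_
      rw [hdeq ⟨ht.1.le, ht.2⟩, hpsi]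
      ring
    have himg : Real.exp '' Set.Ioc 0 v = Set.Ioc 1 (Real.exp v) := by
      ext t
      simp only [Set.mem_image, Set.mem_Ioc]
      constructor
      · rintro ⟨s, ⟨hs1, hs2⟩, rfl⟩
        exact ⟨by rw [← Real.exp_zero]; exact Real.exp_lt_exp.2 hs1, Real.exp_le_exp.2 hs2⟩
      · rintro ⟨ht1, ht2⟩
        have ht0 : 0 < t := by linarith
        exact ⟨Real.log t, ⟨Real.log_pos ht1, by rwa [Real.log_le_iff_le_exp ht0]⟩, Real.exp_log ht0⟩
    rw [e1, integral_neg, ← himg, integral_image_eq_integral_abs_deriv_smul measurableSet_Ioc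
      (fun s _ => (Real.hasDerivAt_exp s).hasDerivWithinAt) Real.exp_injective.injOn]
    congr 1
    have e2 : ∫ s in Set.Ioc 0 v, |Real.exp s| • ((Real.exp s ^ 2)⁻¹ * Chebyshev.psi (Real.exp s)) =
        ∫ s in Set.Ioc 0 v, (1 + ru s) := by
      refine setIntegral_congr_fun measurableSet_Ioc fun s _ => ?_
      have hs := Real.exp_pos s
      show |Real.exp s| • ((Real.exp s ^ 2)⁻¹ * Chebyshev.psi (Real.exp s)) = 1 + ru s
      rw [smul_eq_mul, abs_of_pos hs]
      unfold ru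
      rw [Real.exp_neg]
      field_simp
      ring
    rw [e2, integral_add (by simp) (ru_int.mono_set Set.Ioc_subset_Ioi_self)]
    have e3 : ∫ s in Set.Ioc 0 v, ru s = Tu 0 - Tu v := by
      unfold Tu
      rw [← Set.Ioc_union_Ioi_eq_Ioi hv, setIntegral_union (Set.Ioc_disjoint_Ioi le_rfl) measurableSet_Ioi
        (ru_int.mono_set Set.Ioc_subset_Ioi_self) (ru_int' hv)]
      ring
    rw [e3]
    simp [hv]
  rw [hM, h, hint2]
  unfold mm c0' ru
  rw [Real.exp_neg]
  ring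

lemma mm_meas_int {p q : ℝ} (hp : 0 ≤ p) (hpq : p ≤ q) : IntervalIntegrable mm volume p q := by
  have h1 : IntervalIntegrable (fun v => Mv v - v - c0') volume p q :=
    ((Mv_mono.intervalIntegrable).sub (by simp)).sub (by simp)
  refine h1.congr_uIoo fun v hv => ?_
  rw [Set.uIoo_of_le hpq] at hv
  have h2 := Mv_id (v := v) (by linarith [hv.1])
  simp only
  linarith

lemma cube_int {u : ℝ} (hu : 0 < u) : ∫ v in Set.Ioi u, 1 / v ^ 3 = 1 / (2 * u ^ 2) := by
  have h := integral_Ioi_rpow_of_lt (show (-3 : ℝ) < -1 by norm_num) hu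
  have e : ∫ v in Set.Ioi u, 1 / v ^ 3 = ∫ v in Set.Ioi u, v ^ (-3 : ℝ) := by
    refine setIntegral_congr_fun measurableSet_Ioi fun v hv => ?_
    have hv0 : 0 < v := lt_trans hu hv
    show 1 / v ^ 3 = v ^ (-3 : ℝ)
    rw [Real.rpow_neg hv0.le, one_div]
    norm_cast
  rw [e, h]
  have e2 : (-3 : ℝ) + 1 = -2 := by norm_num
  rw [e2, Real.rpow_neg hu.le]
  have e3 : u ^ (2 : ℝ) = u ^ 2 := by norm_cast
  rw [e3]
  field_simp

lemma mm_bound : ∃ C : ℝ, 0 < C ∧ (∀ v : ℝ, 1 ≤ v → |mm v| ≤ C / v ^ 2) ∧ ∀ v : ℝ, 0 ≤ v → |mm v| ≤ C := by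
  obtain ⟨C, hC, h1, h2⟩ := ru_bound
  set I0 : ℝ := ∫ v in Set.Ioi 0, |ru v| with hI0
  have hI00 : 0 ≤ I0 := integral_nonneg fun v => abs_nonneg _
  refine ⟨2 * C + I0, by positivity, fun v hv => ?_, fun v hv => ?_⟩
  · have hv0 : 0 < v := by linarith
    have h3 := h1 v hv
    have h4 : |Tu v| ≤ C * (1 / (2 * v ^ 2)) := by
      unfold Tu
      refine (abs_integral_le_integral_abs).trans ?_
      rw [← cube_int hv0, ← integral_const_mul]
      refine setIntegral_mono_on (ru_int' hv0.le).abs ((int_cube hv0).const_mul C) measurableSet_Ioi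
        fun s hs => ?_
      have hs1 : 1 ≤ s := le_trans hv (le_of_lt hs)
      have := h1 s hs1
      calc |ru s| ≤ C / s ^ 3 := this
        _ = C * (1 / s ^ 3) := by ring
    have h5 : C / v ^ 3 ≤ C / v ^ 2 := by
      apply div_le_div_of_nonneg_left hC.le (by positivity)
      exact pow_le_pow_right₀ hv (by norm_num)
    have h6 : C * (1 / (2 * v ^ 2)) ≤ C / v ^ 2 := by
      rw [mul_one_div]
      apply div_le_div_of_nonneg_left hC.le (by positivity)
      nlinarith [sq_nonneg v]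
    unfold mm
    refine (abs_sub _ _).trans ?_
    calc |ru v| + |Tu v| ≤ C / v ^ 2 + C / v ^ 2 := by linarith
      _ = (2 * C) / v ^ 2 := by ring
      _ ≤ _ := div_le_div_of_nonneg_right (by linarith) (by positivity)
  · have h3 := h2 v hv
    have h4 := Tu_bdd' v hv
    unfold mm
    refine (abs_sub _ _).trans ?_
    linarith

end

end Pool.Agent.K3h81.RB
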