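import Pool.Agent.K3h81.RB.Base

/-!
# The structure of the exceptions to Robin's inequality
-/

set_option autoImplicit false

namespace Pool.Agent.K3h81.RB

open Filter Topology

noncomputable section

/-- Robin's inequality fails for `n`: `σ(n) ≥ e^γ n log log n` -/
def Es (n : ℕ) : Prop :=
  Real.exp Real.eulerMascheroniConstant * n * Real.log (Real.log n) ≤ (ArithmeticFunction.sigma 1 n : ℕ)

/-- `n / φ(n) ≥ e^γ log log n` -/
def Ef (n : ℕ) : Prop :=
  Real.exp Real.eulerMascheroniConstant * (Nat.totient n) * Real.log (Real.log n) ≤ n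

/-- the primes up to `L` which do not divide `n` -/
def Miss (n : ℕ) (L : ℝ) : Finset ℕ := ((Finset.Icc 1 ⌊L⌋₊).filter Nat.Prime).filter fun p => ¬ p ∣ n

lemma theta_sum (L : ℝ) : ∑ p ∈ (Finset.Icc 1 ⌊L⌋₊).filter Nat.Prime, Real.log p = Chebyshev.theta L := by
  rw [Chebyshev.theta_eq_sum_Icc]
  refine Finset.sum_congr ?_ fun _ _ => rfl
  ext p
  simp only [Finset.mem_filter, Finset.mem_Icc]
  constructor
  · rintro ⟨⟨_, b⟩, c⟩; exact ⟨⟨by omega, b⟩, c⟩
  · rintro ⟨⟨_, b⟩, c⟩; exact ⟨⟨c.one_lt.le, b⟩, c⟩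

theorem str {n : ℕ} {L D b : ℝ} (hn : n ≠ 0) (hL : L = Real.log n) (hL2 : 2 ≤ L)
    (h : Real.eulerMascheroniConstant + Real.log (Real.log L) + b ≤ ∑ p ∈ n.primeFactors, vv p)
    (hD : VS L - Real.eulerMascheroniConstant - Real.log (Real.log L) +
      vv L / Real.log L * (L - Chebyshev.theta L) ≤ D) :
    ∑ p ∈ Miss n L, (L - p) / (p * L) + b ≤ D := by
  have hlL : 0 < Real.log L := Real.log_pos (by linarith)
  have hvL : 0 < vv L := vv_pos (by linarith)
  set r := vv L / Real.log L with hr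
  have hr0 : 0 ≤ r := by positivity
  have hrl : r * Real.log L = vv L := by rw [hr]; field_simp
  have hsumlog : ∑ p ∈ n.primeFactors, Real.log p ≤ L := by
    have h1 : ∑ p ∈ n.primeFactors, Real.log p = Real.log ((∏ p ∈ n.primeFactors, p : ℕ) : ℝ) := by
      rw [Nat.cast_prod, Real.log_prod]
      intro p hp
      have := (Nat.prime_of_mem_primeFactors hp).pos
      positivity
    rw [h1, hL]
    apply Real.log_le_log
    · exact_mod_cast Finset.prod_pos fun p hp => (Nat.prime_of_mem_primeFactors hp).pos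
    · exact_mod_cast Nat.le_of_dvd (Nat.pos_of_ne_zero hn) (Nat.prod_primeFactors_dvd n)
  set f : ℕ → ℝ := fun p => vv p - r * Real.log p with hf
  have h1 : Real.eulerMascheroniConstant + Real.log (Real.log L) + b - r * L ≤
      ∑ p ∈ n.primeFactors, f p := by
    rw [hf, Finset.sum_sub_distrib, ← Finset.mul_sum]
    have := mul_le_mul_of_nonneg_left hsumlog hr0
    linarith
  set A : Finset ℕ := (Finset.Icc 1 ⌊L⌋₊).filter Nat.Prime with hA
  have hL0 : 0 ≤ L := by linarith
  have h2 : ∑ p ∈ n.primeFactors, f p ≤ ∑ p ∈ A.filter (fun p => p ∣ n), f p := by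
    rw [← Finset.sum_filter_add_sum_filter_not n.primeFactors (fun p => p ≤ ⌊L⌋₊)]
    have h3 : n.primeFactors.filter (fun p => p ≤ ⌊L⌋₊) = A.filter (fun p => p ∣ n) := by
      ext p
      simp only [Finset.mem_filter, Nat.mem_primeFactors, hA, Finset.mem_Icc]
      constructor
      · rintro ⟨⟨a, b, _⟩, c⟩; exact ⟨⟨⟨a.one_lt.le, c⟩, a⟩, b⟩
      · rintro ⟨⟨⟨_, c⟩, a⟩, b⟩; exact ⟨⟨a, b, hn⟩, c⟩
    have h4 : ∑ p ∈ n.primeFactors.filter (fun p => ¬ p ≤ ⌊L⌋₊), f p ≤ 0 := by
      refine Finset.sum_nonpos fun p hp => ?_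
      rw [Finset.mem_filter] at hp
      have hLp : L < p := by
        have := Nat.lt_of_floor_lt (not_le.1 hp.2)
        exact this
      have h5 := vv_anti (by linarith : (1 : ℝ) < L) hLp.le
      have h6 : Real.log L ≤ Real.log p := Real.log_le_log (by linarith) hLp.le
      have h7 := mul_le_mul_of_nonneg_left h6 hr0
      simp only [hf]
      linarith
    rw [h3]
    linarith
  have h3 : ∑ p ∈ A, f p = VS L - r * Chebyshev.theta L := by
    rw [hf, Finset.sum_sub_distrib, ← Finset.mul_sum, theta_sum]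
    rfl
  have h4 : ∑ p ∈ A.filter (fun p => p ∣ n), f p + ∑ p ∈ Miss n L, f p = ∑ p ∈ A, f p :=
    Finset.sum_filter_add_sum_filter_not A (fun p => p ∣ n) f
  have h5 : ∑ p ∈ Miss n L, (L - p) / (p * L) ≤ ∑ p ∈ Miss n L, f p := by
    refine Finset.sum_le_sum fun p hp => ?_
    simp only [Miss, Finset.mem_filter, Finset.mem_Icc] at hp
    have hp1 : (1 : ℝ) < p := by exact_mod_cast hp.1.2.one_lt
    have hpL : (p : ℝ) ≤ L := (Nat.le_floor_iff hL0).1 hp.1.1.2
    have h6 := vv_sub hp1 hpL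
    have h7 : r * Real.log p ≤ vv L := by
      rw [← hrl]
      exact mul_le_mul_of_nonneg_left (Real.log_le_log (by linarith) hpL) hr0
    simp only [hf]
    linarith
  have h6 : r * (L - Chebyshev.theta L) = r * L - r * Chebyshev.theta L := by ring
  rw [h6] at hD
  linarith

/-- `log (σ(n)/n)` -/
lemma log_sigma {n : ℕ} (hn : n ≠ 0) : Real.log ((ArithmeticFunction.sigma 1 n : ℕ) / (n : ℝ)) =
    ∑ p ∈ n.primeFactors, (vv p + Real.log (1 - 1 / (p : ℝ) ^ (n.factorization p + 1))) := by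
  have h1 : ((ArithmeticFunction.sigma 1 n : ℕ) : ℝ) =
      ∏ p ∈ n.primeFactors, ((ArithmeticFunction.sigma 1 (p ^ n.factorization p) : ℕ) : ℝ) := by
    rw [ArithmeticFunction.IsMultiplicative.multiplicative_factorization
      (ArithmeticFunction.sigma 1) ArithmeticFunction.isMultiplicative_sigma hn]
    rw [Finsupp.prod, Nat.support_factorization]
    push_cast
    rfl
  have h2 : (n : ℝ) = ∏ p ∈ n.primeFactors, ((p : ℝ) ^ n.factorization p) := by
    conv_lhs => rw [← Nat.prod_factorization_pow_eq_self hn]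
    rw [Finsupp.prod, Nat.support_factorization]
    push_cast
    rfl
  have h3 : ∀ p ∈ n.primeFactors, ((ArithmeticFunction.sigma 1 (p ^ n.factorization p) : ℕ) : ℝ) /
      ((p : ℝ) ^ n.factorization p) =
      (1 - 1 / (p : ℝ) ^ (n.factorization p + 1)) / (1 - 1 / (p : ℝ)) := by
    intro p hp
    have hpp := Nat.prime_of_mem_primeFactors hp
    have hp1 : (1 : ℝ) < p := by exact_mod_cast hpp.one_lt
    rw [ArithmeticFunction.sigma_one_apply_prime_pow hpp]
    push_cast
    rw [geom_sum_eq hp1.ne']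
    have : (p : ℝ) - 1 ≠ 0 := by linarith
    have : (p : ℝ) ≠ 0 := by linarith
    field_simp
    ring
  have h4 : ((ArithmeticFunction.sigma 1 n : ℕ) : ℝ) / n =
      ∏ p ∈ n.primeFactors, ((1 - 1 / (p : ℝ) ^ (n.factorization p + 1)) / (1 - 1 / (p : ℝ))) := by
    rw [h1]
    conv_lhs => rw [h2]
    rw [← Finset.prod_div_distrib]
    exact Finset.prod_congr rfl h3
  have h5 : ∀ p ∈ n.primeFactors, 0 < 1 - 1 / (p : ℝ) ^ (n.factorization p + 1) ∧ 0 < 1 - 1 / (p : ℝ) := by
    intro p hp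
    have hpp := Nat.prime_of_mem_primeFactors hp
    have hp1 : (1 : ℝ) < p := by exact_mod_cast hpp.one_lt
    constructor
    · have h6 : 1 < (p : ℝ) ^ (n.factorization p + 1) := one_lt_pow₀ hp1 (by omega)
      have : 1 / (p : ℝ) ^ (n.factorization p + 1) < 1 := by
        rw [div_lt_one (by linarith)]; exact h6
      linarith
    · have : 1 / (p : ℝ) < 1 := by rw [div_lt_one (by linarith)]; exact hp1
      linarith
  rw [h4, Real.log_prod]
  · refine Finset.sum_congr rfl fun p hp => ?_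
    obtain ⟨a, b⟩ := h5 p hp
    rw [Real.log_div a.ne' b.ne']
    unfold vv
    ring
  · intro p hp
    obtain ⟨a, b⟩ := h5 p hp
    exact (div_pos a b).ne'

lemma log_phi {n : ℕ} (hn : n ≠ 0) : Real.log ((n : ℝ) / Nat.totient n) = ∑ p ∈ n.primeFactors, vv p := by
  have h1 : ((Nat.totient n : ℕ) : ℝ) = n * ∏ p ∈ n.primeFactors, (1 - (p : ℝ)⁻¹) := by
    have h0 := congrArg (fun q : ℚ => (q : ℝ)) (Nat.totient_eq_mul_prod_factors n)
    push_cast at h0
    exact h0
  have h5 : ∀ p ∈ n.primeFactors, 0 < 1 - (p : ℝ)⁻¹ := by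
    intro p hp
    have hpp := Nat.prime_of_mem_primeFactors hp
    have hp1 : (1 : ℝ) < p := by exact_mod_cast hpp.one_lt
    have : (p : ℝ)⁻¹ < 1 := inv_lt_one_of_one_lt₀ hp1
    linarith
  have hn0 : (n : ℝ) ≠ 0 := by exact_mod_cast hn
  have h6 : 0 < ∏ p ∈ n.primeFactors, (1 - (p : ℝ)⁻¹) := Finset.prod_pos h5
  rw [h1, Real.log_div hn0 (mul_ne_zero hn0 h6.ne'), Real.log_mul hn0 h6.ne', Real.log_prod fun p hp => (h5 p hp).ne']
  unfold vv
  rw [Finset.sum_neg_distrib]
  simp only [one_div]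
  ring

lemma sigma_le_vv {n : ℕ} (hn : n ≠ 0) :
    Real.log ((ArithmeticFunction.sigma 1 n : ℕ) / (n : ℝ)) ≤ ∑ p ∈ n.primeFactors, vv p := by
  rw [log_sigma hn]
  refine Finset.sum_le_sum fun p hp => ?_
  have hpp := Nat.prime_of_mem_primeFactors hp
  have hp1 : (1 : ℝ) < p := by exact_mod_cast hpp.one_lt
  have h6 : 1 < (p : ℝ) ^ (n.factorization p + 1) := one_lt_pow₀ hp1 (by omega)
  have h7 : 0 ≤ 1 / (p : ℝ) ^ (n.factorization p + 1) := by positivity
  have h8 : 1 / (p : ℝ) ^ (n.factorization p + 1) < 1 := by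
    rw [div_lt_one (by linarith)]; exact h6
  have := Real.log_nonpos (x := 1 - 1 / (p : ℝ) ^ (n.factorization p + 1)) (by linarith) (by linarith)
  linarith

/-- if `p ^ k` does not divide `n` although `p` does, `σ(n)/n` is smaller -/
lemma sigma_le_vv' {n p k : ℕ} (hn : n ≠ 0) (hp : p.Prime) (hpn : p ∣ n) (hk : ¬ p ^ k ∣ n) :
    Real.log ((ArithmeticFunction.sigma 1 n : ℕ) / (n : ℝ)) + 1 / (p : ℝ) ^ k ≤
      ∑ p ∈ n.primeFactors, vv p := by
  rw [log_sigma hn]
  have hmem : p ∈ n.primeFactors := Nat.mem_primeFactors.2 ⟨hp, hpn, hn⟩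
  rw [← Finset.add_sum_erase _ _ hmem, ← Finset.add_sum_erase _ (fun p : ℕ => vv p) hmem]
  have h1 : ∑ x ∈ n.primeFactors.erase p, (vv x + Real.log (1 - 1 / (x : ℝ) ^ (n.factorization x + 1))) ≤
      ∑ x ∈ n.primeFactors.erase p, vv x := by
    refine Finset.sum_le_sum fun p hp => ?_
    have hpp := Nat.prime_of_mem_primeFactors (Finset.mem_of_mem_erase hp)
    have hp1 : (1 : ℝ) < p := by exact_mod_cast hpp.one_lt
    have h6 : 1 < (p : ℝ) ^ (n.factorization p + 1) := one_lt_pow₀ hp1 (by omega)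
    have h7 : 0 ≤ 1 / (p : ℝ) ^ (n.factorization p + 1) := by positivity
    have h8 : 1 / (p : ℝ) ^ (n.factorization p + 1) < 1 := by
      rw [div_lt_one (by linarith)]; exact h6
    have := Real.log_nonpos (x := 1 - 1 / (p : ℝ) ^ (n.factorization p + 1)) (by linarith) (by linarith)
    linarith
  have hp1 : (1 : ℝ) < p := by exact_mod_cast hp.one_lt
  have hfk : n.factorization p + 1 ≤ k := by
    by_contra hcon
    exact hk ((hp.pow_dvd_iff_le_factorization hn).2 (by omega))
  have h6 : 1 < (p : ℝ) ^ (n.factorization p + 1) := one_lt_pow₀ hp1 (by omega)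
  have h8 : 1 / (p : ℝ) ^ (n.factorization p + 1) < 1 := by
    rw [div_lt_one (by linarith)]; exact h6
  have h9 := Real.log_le_sub_one_of_pos (show 0 < 1 - 1 / (p : ℝ) ^ (n.factorization p + 1) by linarith)
  have h10 : 1 / (p : ℝ) ^ k ≤ 1 / (p : ℝ) ^ (n.factorization p + 1) :=
    one_div_le_one_div_of_le (by linarith) (pow_le_pow_right₀ hp1.le hfk)
  linarith

lemma log_form {n : ℕ} {A B : ℝ} (hL : 1 < Real.log n) (hA : 0 < A) :
    Real.exp Real.eulerMascheroniConstant * A * Real.log (Real.log n) ≤ B ↔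
      0 < B ∧ Real.eulerMascheroniConstant + Real.log (Real.log (Real.log n)) ≤ Real.log (B / A) := by
  have h1 : 0 < Real.log (Real.log n) := Real.log_pos hL
  constructor
  · intro h
    have hB : 0 < B := lt_of_lt_of_le (by positivity) h
    refine ⟨hB, ?_⟩
    rw [Real.le_log_iff_exp_le (by positivity), Real.exp_add, Real.exp_log h1, le_div_iff₀ hA]
    linarith
  · rintro ⟨hB, h⟩
    rw [Real.le_log_iff_exp_le (by positivity), Real.exp_add, Real.exp_log h1, le_div_iff₀ hA] at h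
    linarith

lemma sigma_pos {n : ℕ} (hn : n ≠ 0) : (0 : ℝ) < (ArithmeticFunction.sigma 1 n : ℕ) := by
  have := ArithmeticFunction.sigma_pos 1 n hn
  exact_mod_cast this

lemma Es_iff {n : ℕ} (hL : 1 < Real.log n) : Es n ↔
    Real.eulerMascheroniConstant + Real.log (Real.log (Real.log n)) ≤
      Real.log ((ArithmeticFunction.sigma 1 n : ℕ) / (n : ℝ)) := by
  have hn : n ≠ 0 := by
    rintro rfl
    norm_num at hL
  unfold Es
  rw [log_form hL (by positivity)]
  exact ⟨fun h => h.2, fun h => ⟨sigma_pos hn, h⟩⟩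

lemma Ef_iff {n : ℕ} (hL : 1 < Real.log n) : Ef n ↔
    Real.eulerMascheroniConstant + Real.log (Real.log (Real.log n)) ≤ ∑ p ∈ n.primeFactors, vv p := by
  have hn : n ≠ 0 := by
    rintro rfl
    norm_num at hL
  have : 0 < Nat.totient n := Nat.totient_pos.2 (Nat.pos_of_ne_zero hn)
  unfold Ef
  rw [log_form hL (by positivity), log_phi hn]
  exact ⟨fun h => h.2, fun h => ⟨by positivity, h⟩⟩

lemma Ef_of_Es {n : ℕ} (hL : 1 < Real.log n) (h : Es n) : Ef n := by
  have hn : n ≠ 0 := by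
    rintro rfl
    norm_num at hL
  rw [Ef_iff hL]
  exact ((Es_iff hL).1 h).trans (sigma_le_vv hn)

/-- the number of missing primes -/
lemma card_miss {n : ℕ} {L D : ℝ} (hL : 2 ≤ L) (hD : 0 < D)
    (h : ∑ p ∈ Miss n L, (L - p) / (p * L) ≤ D) : ((Miss n L).card : ℝ) ≤ 2 * (√D * L) + 1 := by
  have hL0 : 0 < L := by linarith
  have hs : 0 < √D := Real.sqrt_pos.2 hD
  have hss : √D * √D = D := Real.mul_self_sqrt hD.le
  set h0 : ℝ := √D * L with hh0
  have hh : 0 < h0 := by positivity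
  have hmem : ∀ p ∈ Miss n L, (0 : ℝ) < p ∧ (p : ℝ) ≤ L := by
    intro p hp
    simp only [Miss, Finset.mem_filter, Finset.mem_Icc] at hp
    exact ⟨by exact_mod_cast hp.1.1.1, (Nat.le_floor_iff hL0.le).1 hp.1.1.2⟩
  have h1 : (((Miss n L).filter fun p : ℕ => h0 ≤ L - p).card : ℝ) ≤ h0 := by
    have h2 : ∑ p ∈ (Miss n L).filter (fun p : ℕ => h0 ≤ L - p), (h0 / L ^ 2) ≤ D := by
      refine le_trans ?_ h
      refine le_trans (Finset.sum_le_sum (g := fun p : ℕ => (L - p) / (p * L)) fun p hp => ?_)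
        (Finset.sum_le_sum_of_subset_of_nonneg (Finset.filter_subset _ _) fun p hp _ => ?_)
      · rw [Finset.mem_filter] at hp
        obtain ⟨a, b⟩ := hmem p hp.1
        rw [div_le_div_iff₀ (by positivity) (by positivity)]
        have : (p : ℝ) * L ≤ L ^ 2 := by nlinarith
        calc h0 * (p * L) ≤ h0 * L ^ 2 := by gcongr
          _ ≤ (L - p) * L ^ 2 := by gcongr; exact hp.2
      · obtain ⟨a, b⟩ := hmem p hp
        have : 0 ≤ L - p := by linarith
        positivity
    rw [Finset.sum_const, nsmul_eq_mul] at h2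
    have h3 : (((Miss n L).filter fun p : ℕ => h0 ≤ L - p).card : ℝ) * (h0 / L ^ 2) ≤ D := h2
    rw [← mul_div_assoc, div_le_iff₀ (by positivity)] at h3
    have h4 : D * L ^ 2 = h0 * h0 := by
      calc D * L ^ 2 = (√D * √D) * L ^ 2 := by rw [hss]
        _ = h0 * h0 := by rw [hh0]; ring
    rw [h4] at h3
    exact le_of_mul_le_mul_right h3 hh
  have h2 : (((Miss n L).filter fun p : ℕ => ¬ h0 ≤ L - p).card : ℝ) ≤ h0 + 1 := by
    have h3 : (Miss n L).filter (fun p : ℕ => ¬ h0 ≤ L - p) ⊆ Finset.Ioc ⌊L - h0⌋₊ ⌊L⌋₊ := by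
      intro p hp
      rw [Finset.mem_filter] at hp
      obtain ⟨a, b⟩ := hmem p hp.1
      have hp' := hp.1
      simp only [Miss, Finset.mem_filter, Finset.mem_Icc] at hp'
      rw [Finset.mem_Ioc]
      refine ⟨?_, hp'.1.1.2⟩
      have hlt : L - h0 < p := by linarith [not_le.1 hp.2]
      rw [Nat.floor_lt' (by omega)]
      exact hlt
    have h4 := Finset.card_le_card h3
    rw [Nat.card_Ioc] at h4
    have h5 : (((Miss n L).filter fun p : ℕ => ¬ h0 ≤ L - p).card : ℝ) ≤ ((⌊L⌋₊ - ⌊L - h0⌋₊ : ℕ) : ℝ) := by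
      exact_mod_cast h4
    refine h5.trans ?_
    have h6 : ⌊L - h0⌋₊ ≤ ⌊L⌋₊ := Nat.floor_le_floor (by linarith)
    rw [Nat.cast_sub h6]
    have h7 : (⌊L⌋₊ : ℝ) ≤ L := Nat.floor_le hL0.le
    have h8 : L - h0 - 1 < ⌊L - h0⌋₊ := Nat.sub_one_lt_floor _
    linarith
  have h3 := Finset.card_filter_add_card_filter_not (s := Miss n L) (fun p : ℕ => h0 ≤ L - p)
  have h4 : ((Miss n L).card : ℝ) = (((Miss n L).filter fun p : ℕ => h0 ≤ L - p).card : ℝ) +
      (((Miss n L).filter fun p : ℕ => ¬ h0 ≤ L - p).card : ℝ) := by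
    rw [← h3]
    push_cast
    rfl
  rw [h4]
  linarith

/-- **Exceptions to Robin's inequality are divisible by all small integers.** -/
theorem dvd_of {n m : ℕ} {L D : ℝ} (hL : L = Real.log n) (hL2 : 2 ≤ L) (hE : Es n)
    (hD : VS L - Real.eulerMascheroniConstant - Real.log (Real.log L) +
      vv L / Real.log L * (L - Chebyshev.theta L) ≤ D) (hm0 : 0 < m)
    (hm : (m : ℝ) * (D + 1 / L) < 1) : m ∣ n := by
  have hn : n ≠ 0 := by
    rintro rfl
    rw [Nat.cast_zero, Real.log_zero] at hL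
    linarith
  have hL0 : 0 < L := by linarith
  have hL1 : 1 < Real.log n := by rw [← hL]; linarith
  have hE1 := (Es_iff hL1).1 hE
  rw [← hL] at hE1
  rw [Nat.dvd_iff_prime_pow_dvd_dvd]
  intro p k hp hpk
  by_contra hcon
  have hk0 : k ≠ 0 := by
    rintro rfl
    exact hcon (by simp)
  have hp1 : (1 : ℝ) < p := by exact_mod_cast hp.one_lt
  have hpk' : (p : ℝ) ^ k ≤ m := by exact_mod_cast Nat.le_of_dvd hm0 hpk
  have hnonneg : ∀ q ∈ Miss n L, 0 ≤ (L - q) / (q * L) := by
    intro q hq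
    simp only [Miss, Finset.mem_filter, Finset.mem_Icc] at hq
    have a : (0 : ℝ) < q := by exact_mod_cast hq.1.1.1
    have b := (Nat.le_floor_iff hL0.le).1 hq.1.1.2
    have : 0 ≤ L - q := by linarith
    positivity
  have hkey : 1 / (p : ℝ) ^ k ≤ D + 1 / L := by
    by_cases hpn : p ∣ n
    · have h1 := sigma_le_vv' hn hp hpn hcon
      have h2 := str (b := 1 / (p : ℝ) ^ k) hn hL hL2 (by linarith) hD
      have h3 := Finset.sum_nonneg hnonneg
      have : 0 < 1 / L := by positivity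
      linarith
    · have h1 := sigma_le_vv hn
      have h2 := str (b := 0) hn hL hL2 (by linarith) hD
      have h4 : 1 / (p : ℝ) ^ k ≤ 1 / p := by
        apply one_div_le_one_div_of_le (by linarith)
        calc (p : ℝ) = (p : ℝ) ^ 1 := (pow_one _).symm
          _ ≤ (p : ℝ) ^ k := pow_le_pow_right₀ hp1.le (by omega)
      rcases le_or_gt (p : ℝ) L with hpL | hpL
      · have hmem : p ∈ Miss n L := by
          simp only [Miss, Finset.mem_filter, Finset.mem_Icc]
          exact ⟨⟨⟨hp.one_lt.le, Nat.le_floor hpL⟩, hp⟩, hpn⟩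
        have h3 := Finset.single_le_sum hnonneg hmem
        have h5 : (L - p) / (p * L) = 1 / (p : ℝ) - 1 / L := by
          have : (p : ℝ) ≠ 0 := by linarith
          field_simp
        rw [h5] at h3
        linarith
      · have h3 := Finset.sum_nonneg hnonneg
        have h6 : 1 / (p : ℝ) ≤ 1 / L := one_div_le_one_div_of_le hL0 hpL.le
        linarith
  have hpk0 : (0 : ℝ) < (p : ℝ) ^ k := by positivity
  have h7 : 1 ≤ (p : ℝ) ^ k * (D + 1 / L) := by
    rw [div_le_iff₀ hpk0] at hkey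
    linarith
  have h8 : 0 ≤ D + 1 / L := le_trans (by positivity) hkey
  have h9 := mul_le_mul_of_nonneg_right hpk' h8
  linarith

/-- for the totient function: the primes -/
theorem prime_dvd_of {n p : ℕ} {L D : ℝ} (hL : L = Real.log n) (hL2 : 2 ≤ L) (hE : Ef n)
    (hD : VS L - Real.eulerMascheroniConstant - Real.log (Real.log L) +
      vv L / Real.log L * (L - Chebyshev.theta L) ≤ D) (hp : p.Prime)
    (hm : (p : ℝ) * (D + 1 / L) < 1) : p ∣ n := by
  have hn : n ≠ 0 := by
    rintro rfl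
    rw [Nat.cast_zero, Real.log_zero] at hL
    linarith
  have hL0 : 0 < L := by linarith
  have hL1 : 1 < Real.log n := by rw [← hL]; linarith
  have hE1 := (Ef_iff hL1).1 hE
  rw [← hL] at hE1
  by_contra hpn
  have hp1 : (1 : ℝ) < p := by exact_mod_cast hp.one_lt
  have hnonneg : ∀ q ∈ Miss n L, 0 ≤ (L - q) / (q * L) := by
    intro q hq
    simp only [Miss, Finset.mem_filter, Finset.mem_Icc] at hq
    have a : (0 : ℝ) < q := by exact_mod_cast hq.1.1.1
    have b := (Nat.le_floor_iff hL0.le).1 hq.1.1.2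
    have : 0 ≤ L - q := by linarith
    positivity
  have h2 := str (b := 0) hn hL hL2 (by linarith) hD
  have hkey : 1 / (p : ℝ) ≤ D + 1 / L := by
    rcases le_or_gt (p : ℝ) L with hpL | hpL
    · have hmem : p ∈ Miss n L := by
        simp only [Miss, Finset.mem_filter, Finset.mem_Icc]
        exact ⟨⟨⟨hp.one_lt.le, Nat.le_floor hpL⟩, hp⟩, hpn⟩
      have h3 := Finset.single_le_sum hnonneg hmem
      have h5 : (L - p) / (p * L) = 1 / (p : ℝ) - 1 / L := by
        have : (p : ℝ) ≠ 0 := by linarith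
        field_simp
      rw [h5] at h3
      linarith
    · have h3 := Finset.sum_nonneg hnonneg
      have h6 : 1 / (p : ℝ) ≤ 1 / L := one_div_le_one_div_of_le hL0 hpL.le
      linarith
  rw [div_le_iff₀ (by linarith)] at hkey
  linarith

end

end Pool.Agent.K3h81.RB
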