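import Pool.Agent.K3h81.RB.Cnt
import Pool.Agent.K3h81.RB.Low2

/-!
# Upper bounds: zero-free half-planes
-/

set_option autoImplicit false

namespace Pool.Agent.K3h81.RB

open Filter Topology MeasureTheory

noncomputable section

lemma one_le_log {L : ℝ} (hL : 3 ≤ L) : 1 ≤ Real.log L := by
  rw [Real.le_log_iff_exp_le (by linarith)]
  linarith [Real.exp_one_lt_d9]

lemma D_le {L η G : ℝ} (hL : 3 ≤ L) (hη : |Rr L| ≤ η * L) (hG : |KK L| ≤ G) :
    VS L - Real.eulerMascheroniConstant - Real.log (Real.log L) +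
      vv L / Real.log L * (L - Chebyshev.theta L) ≤ 3 * η + G := by
  have hL0 : 0 < L := by linarith
  have hl := one_le_log hL
  have hη0 : 0 ≤ η := by
    have := (abs_nonneg _).trans hη
    exact nonneg_of_mul_nonneg_left this hL0
  obtain ⟨τ, ht0, -, hid⟩ := mertens_id (show (2 : ℝ) ≤ L by linarith)
  have h1 : Rr L / (L * Real.log L) ≤ η := by
    rw [div_le_iff₀ (by positivity)]
    calc Rr L ≤ |Rr L| := le_abs_self _
      _ ≤ η * L := hη
      _ ≤ η * (L * Real.log L) := by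
          apply mul_le_mul_of_nonneg_left _ hη0
          nlinarith
  have h2 : -KK L ≤ G := (neg_le_abs _).trans hG
  have h3 : vv L / Real.log L * (L - Chebyshev.theta L) ≤ 2 * η := by
    have hv : vv L ≤ 2 / L := by
      refine (vv_upper (by linarith)).trans ?_
      rw [div_le_div_iff₀ (by linarith) hL0]
      linarith
    have hv0 : 0 < vv L := vv_pos (by linarith)
    have h4 : vv L / Real.log L ≤ 2 / L := (div_le_self hv0.le hl).trans hv
    have h5 : L - Chebyshev.theta L ≤ η * L := by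
      have := neg_le_abs (Rr L)
      unfold Rr at this hη
      linarith
    calc vv L / Real.log L * (L - Chebyshev.theta L) ≤ vv L / Real.log L * (η * L) := by gcongr
      _ ≤ 2 / L * (η * L) := by gcongr
      _ = 2 * η := by field_simp
  linarith

lemma KK_pow {C Θ : ℝ} (hΘ1 : Θ < 1) (hC : ∀ t : ℝ, 1 ≤ t → |Rr t| ≤ C * t ^ Θ) {x : ℝ} (hx : 3 ≤ x) :
    |KK x| ≤ 2 * C / (1 - Θ) * x ^ (Θ - 1) := by
  have hC0 : 0 ≤ C := by
    have := (abs_nonneg _).trans (hC 1 le_rfl)
    simpa using this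
  have hx0 : 0 < x := by linarith
  have hI : IntegrableOn (fun t : ℝ => 2 * C * t ^ (Θ - 2)) (Set.Ioi x) :=
    (integrableOn_Ioi_rpow_of_lt (by linarith) hx0).const_mul _
  have hval : ∫ t in Set.Ioi x, 2 * C * t ^ (Θ - 2) = 2 * C / (1 - Θ) * x ^ (Θ - 1) := by
    rw [integral_const_mul, integral_Ioi_rpow_of_lt (by linarith) hx0]
    have e : Θ - 2 + 1 = Θ - 1 := by ring
    rw [e]
    have h1 : Θ - 1 ≠ 0 := by linarith
    have h2 : 1 - Θ ≠ 0 := by linarith
    field_simp
    ring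
  rw [← hval]
  unfold KK
  refine (abs_integral_le_integral_abs).trans ?_
  refine setIntegral_mono_on (Rw_int (by linarith)).abs hI measurableSet_Ioi fun t ht => ?_
  have ht3 : 3 ≤ t := by have : x < t := ht; linarith
  have ht0 : 0 < t := by linarith
  have hl := one_le_log ht3
  rw [abs_mul, abs_of_nonneg (ww_nonneg (by linarith))]
  calc |Rr t| * ww t ≤ (C * t ^ Θ) * (2 / (t ^ 2 * Real.log t)) :=
        mul_le_mul (hC t (by linarith)) (ww_le ht3) (ww_nonneg (by linarith)) (by positivity)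
    _ ≤ (C * t ^ Θ) * (2 / (t ^ 2 * 1)) := by gcongr
    _ = 2 * C * t ^ (Θ - 2) := by
        have : t ^ (Θ - 2) = t ^ Θ / t ^ 2 := by
          rw [Real.rpow_sub ht0]
          norm_num
        rw [this]
        ring

/-- the bound for the defect of an exception, from a zero-free half-plane -/
lemma D_pow {C Θ : ℝ} (hΘ1 : Θ < 1) (hC : ∀ t : ℝ, 1 ≤ t → |Rr t| ≤ C * t ^ Θ) {L : ℝ} (hL : 3 ≤ L) :
    VS L - Real.eulerMascheroniConstant - Real.log (Real.log L) +
      vv L / Real.log L * (L - Chebyshev.theta L) ≤ (3 * C + 2 * C / (1 - Θ)) * L ^ (Θ - 1) := by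
  have hL0 : 0 < L := by linarith
  have h1 : |Rr L| ≤ (C * L ^ (Θ - 1)) * L := by
    have e : (C * L ^ (Θ - 1)) * L = C * L ^ Θ := by
      rw [Real.rpow_sub hL0, Real.rpow_one]
      field_simp
    rw [e]
    exact hC L (by linarith)
  have h2 := D_le hL h1 (KK_pow hΘ1 hC hL)
  linarith

/-- divisibility of the exceptions -/
theorem up_div {θ Θ C : ℝ} {ε : ℝ} (hΘ1 : Θ < 1) (hC : ∀ t : ℝ, 1 ≤ t → |Rr t| ≤ C * t ^ Θ)
    (hΘ0 : 0 ≤ Θ) (hε : Θ < θ + ε) :
    ∀ᶠ n : ℕ in atTop, Es n → ∀ k : ℕ, 0 < k → (k : ℝ) ≤ Real.log n ^ (1 - θ - ε) → k ∣ n := by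
  have hC0 : 0 ≤ C := by
    have := (abs_nonneg _).trans (hC 1 le_rfl)
    simpa using this
  set CD := 3 * C + 2 * C / (1 - Θ) with hCD
  have h1Θ : 0 < 1 - Θ := by linarith
  have hCD0 : 0 ≤ CD := by positivity
  have hlog : Tendsto (fun n : ℕ => Real.log n) atTop atTop :=
    Real.tendsto_log_atTop.comp tendsto_natCast_atTop_atTop
  have h1 := hlog.eventually (ev_pow (a := Θ - θ - ε) (c := 0) (2 * (CD + 1)) (by linarith))
  filter_upwards [h1, hlog.eventually_ge_atTop 3] with n hn hL3 hE k hk0 hk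
  set L := Real.log n with hL
  have hL0 : 0 < L := by linarith
  rw [Real.rpow_zero] at hn
  have hD := D_pow hΘ1 hC hL3
  refine dvd_of hL (by linarith) hE hD hk0 ?_
  have h2 : 1 / L ≤ L ^ (Θ - 1) := by
    rw [one_div, ← Real.rpow_neg_one]
    exact Real.rpow_le_rpow_of_exponent_le (by linarith) (by linarith)
  have h3 : (k : ℝ) * (CD * L ^ (Θ - 1) + 1 / L) ≤ (CD + 1) * L ^ (Θ - θ - ε) := by
    calc (k : ℝ) * (CD * L ^ (Θ - 1) + 1 / L) ≤ L ^ (1 - θ - ε) * (CD * L ^ (Θ - 1) + L ^ (Θ - 1)) := by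
          gcongr
      _ = (CD + 1) * (L ^ (1 - θ - ε) * L ^ (Θ - 1)) := by ring
      _ = _ := by
          rw [← Real.rpow_add hL0]
          congr 2
          ring
  linarith

/-- the final step of the counting -/
lemma finish {x1 X Φ W : ℝ} (hx1 : 0 ≤ x1) (hX : 0 ≤ X) (hΦ : 0 ≤ Φ)
    (h : x1 + Real.log (X + 2) + 3 * Φ ≤ W) :
    Real.exp x1 + (X + 1) * Real.exp (3 * Φ) ≤ Real.exp W := by
  have h1 : 1 ≤ Real.exp x1 := Real.one_le_exp hx1
  have h2 : 1 ≤ Real.exp (3 * Φ) := Real.one_le_exp (by positivity)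
  calc Real.exp x1 + (X + 1) * Real.exp (3 * Φ)
      ≤ Real.exp x1 * Real.exp (3 * Φ) + (X + 1) * (Real.exp x1 * Real.exp (3 * Φ)) := by
        refine add_le_add (le_mul_of_one_le_right (by linarith) h2) ?_
        refine mul_le_mul_of_nonneg_left ?_ (by linarith)
        exact le_mul_of_one_le_left (by linarith) h1
    _ = (Real.exp x1 * Real.exp (Real.log (X + 2))) * Real.exp (3 * Φ) := by
        rw [Real.exp_log (by linarith)]; ring
    _ = Real.exp (x1 + Real.log (X + 2) + 3 * Φ) := by rw [Real.exp_add, Real.exp_add]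
    _ ≤ _ := Real.exp_le_exp.2 h

/-- the number of the exceptions -/
theorem up_cnt {Θ C c : ℝ} (hΘ1 : Θ < 1) (hC : ∀ t : ℝ, 1 ≤ t → |Rr t| ≤ C * t ^ Θ)
    (hΘ0 : 0 ≤ Θ) (hc : (1 + Θ) / 2 < c) :
    ∀ᶠ X : ℝ in atTop, (cE Ef (Real.exp X) : ℝ) ≤ Real.exp (X ^ c) := by
  have hC0 : 0 ≤ C := by
    have := (abs_nonneg _).trans (hC 1 le_rfl)
    simpa using this
  set CD := 3 * C + 2 * C / (1 - Θ) + 1 with hCD
  have h1Θ : 0 < 1 - Θ := by linarith
  have hCD0 : 0 < CD := by positivity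
  set C' := 2 * √CD + 1 + C with hC'
  have hC'0 : 0 ≤ C' := by positivity
  set a := (1 + Θ) / 2 with ha
  have ha0 : 0 ≤ a := by positivity
  filter_upwards [ev_log (3 + 2 + 3 * C') hc, eventually_ge_atTop 3] with X hX hX3
  have hlX := one_le_log hX3
  have hX0 : 0 < X := by linarith
  have hXa : 1 ≤ X ^ a := Real.one_le_rpow (by linarith) ha0
  set Φ := C' * (X ^ a * Real.log X) with hΦ
  have hΦ0 : 0 ≤ Φ := by positivity
  have h1 := count_le (X := X) (x1 := 3) (Φ := Φ) (by norm_num) hX3 (fun n hn3 hnX hE => by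
    set L := Real.log n with hL
    have hL0 : 0 < L := by linarith
    have hlL := one_le_log hn3
    have hL1 : 1 < Real.log n := by rw [← hL]; linarith
    have hn0 : n ≠ 0 := by
      rintro rfl
      rw [Nat.cast_zero, Real.log_zero] at hL
      linarith
    have hE1 := (Ef_iff hL1).1 hE
    rw [← hL] at hE1
    have hD := D_pow hΘ1 hC hn3
    have hDD : 0 < CD * L ^ (Θ - 1) := by positivity
    have hD' : VS L - Real.eulerMascheroniConstant - Real.log (Real.log L) +
      vv L / Real.log L * (L - Chebyshev.theta L) ≤ CD * L ^ (Θ - 1) := by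
      refine hD.trans ?_
      gcongr
      linarith
    have h2 := str (b := 0) hn0 hL (by linarith) (by linarith) hD'
    rw [add_zero] at h2
    have h3 := card_miss (by linarith) hDD h2
    have h4 : √(CD * L ^ (Θ - 1)) * L = √CD * L ^ a := by
      rw [Real.sqrt_mul hCD0.le, Real.sqrt_eq_rpow (L ^ (Θ - 1)), ← Real.rpow_mul hL0.le, mul_assoc]
      congr 1
      nth_rewrite 2 [← Real.rpow_one L]
      rw [← Real.rpow_add hL0]
      congr 1
      rw [ha]
      ring
    rw [h4] at h3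
    have h5 : L ^ a ≤ X ^ a := Real.rpow_le_rpow hL0.le hnX ha0
    have h6 : Real.log L ≤ Real.log X := Real.log_le_log hL0 hnX
    have hs : 0 ≤ √CD := Real.sqrt_nonneg _
    constructor
    · calc ((Miss n L).card : ℝ) * Real.log L ≤ (2 * (√CD * L ^ a) + 1) * Real.log L := by gcongr
        _ ≤ (2 * (√CD * X ^ a) + 1 * X ^ a + C * X ^ a) * Real.log X := by
            have h7 : 0 ≤ C * X ^ a := by positivity
            have h8 := mul_le_mul_of_nonneg_left h5 hs
            exact mul_le_mul (by linarith) h6 (by linarith) (by positivity)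
        _ = Φ := by rw [hΦ, hC']; ring
    · calc |Rr L| ≤ C * L ^ Θ := hC L (by linarith)
        _ ≤ C * X ^ a := by
            gcongr
            calc L ^ Θ ≤ L ^ a := Real.rpow_le_rpow_of_exponent_le (by linarith) (by rw [ha]; linarith)
              _ ≤ X ^ a := h5
        _ = C * X ^ a * 1 := by ring
        _ ≤ C' * X ^ a * Real.log X := by
            gcongr
            rw [hC']
            linarith
        _ = Φ := by rw [hΦ]; ring)
  refine h1.trans (finish (by norm_num) hX0.le hΦ0 ?_)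
  have h2 : Real.log (X + 2) ≤ 2 * Real.log X := by
    have : X + 2 ≤ X ^ 2 := by nlinarith
    have h3 := Real.log_le_log (by linarith) this
    rwa [Real.log_pow, Nat.cast_ofNat] at h3
  have h3 : (1 : ℝ) ≤ X ^ a * Real.log X := by nlinarith
  have h4 : Real.log X ≤ X ^ a * Real.log X := by nlinarith
  calc (3 : ℝ) + Real.log (X + 2) + 3 * Φ ≤ 3 * (X ^ a * Real.log X) + 2 * (X ^ a * Real.log X) + 3 * Φ := by
        linarith
    _ = (3 + 2 + 3 * C') * (X ^ a * Real.log X) := by rw [hΦ]; ring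
    _ ≤ _ := hX

end

end Pool.Agent.K3h81.RB
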